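import Pool.Agent.Lib.H78G.D2

set_option autoImplicit false

/-!
CHUNK D1 (M, adapt `core` in `H89T/DG.lean`).  From an auxiliary entire function to the inequality.
-/

open MvPolynomial Real MeasureTheory Pool.Agent.H67T

namespace Pool.Agent.H78G

open Pool.Agent.H89T

/-- the logarithm of `LamG` -/
theorem D1_log_LamG {m : ℕ} {ι : Type} [Fintype ι] (y : ℂ → Fin (m + 1) → ℂ)
    (θ : ι → Fin (m + 1) → ℂ) (L : ℕ) :
    ∃ K : ℝ, 0 ≤ K ∧ ∀ z, log (LamG y θ L z) ≤ K +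
      ((∑ p : Fin (m + 1) × Fin (m + 1) × Fin (L + 1),
        log⁺ ‖iteratedDeriv (p.2.2 : ℕ) (fun w => y w p.2.1 / y w p.1) z /
          (y z p.2.1 / y z p.1)‖) +
      ∑ p : Fin (m + 1) × ι × Fin (L + 1),
        log⁺ ‖iteratedDeriv (p.2.2 : ℕ) (fun w => lin (θ p.2.1) (y w) / y w p.1) z /
          (lin (θ p.2.1) (y z) / y z p.1)‖) := by
  have hlog2 : 0 ≤ log 2 := Real.log_nonneg (by norm_num)
  have hc1 : 0 ≤ log (Fintype.card (Fin (m + 1) × Fin (m + 1) × Fin (L + 1)) : ℝ) :=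
    Real.log_natCast_nonneg _
  have hc2 : 0 ≤ log (Fintype.card (Fin (m + 1) × ι × Fin (L + 1)) : ℝ) :=
    Real.log_natCast_nonneg _
  refine ⟨2 * log 2 + log (Fintype.card (Fin (m + 1) × Fin (m + 1) × Fin (L + 1)) : ℝ) +
    log (Fintype.card (Fin (m + 1) × ι × Fin (L + 1)) : ℝ), by linarith, fun z => ?_⟩
  have h1 : log (LamG y θ L z) ≤ log⁺ (LamG y θ L z) := by
    rw [posLog_apply]
    exact le_max_right _ _
  have h2 : LamG y θ L z = 1 + (∑ p : Fin (m + 1) × Fin (m + 1) × Fin (L + 1),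
        ‖iteratedDeriv (p.2.2 : ℕ) (fun w => y w p.2.1 / y w p.1) z /
          (y z p.2.1 / y z p.1)‖) +
      ∑ p : Fin (m + 1) × ι × Fin (L + 1),
        ‖iteratedDeriv (p.2.2 : ℕ) (fun w => lin (θ p.2.1) (y w) / y w p.1) z /
          (lin (θ p.2.1) (y z) / y z p.1)‖ := by
    simp only [Fintype.sum_prod_type]
    rfl
  have h3 := posLog_add (x := 1 + ∑ p : Fin (m + 1) × Fin (m + 1) × Fin (L + 1),
        ‖iteratedDeriv (p.2.2 : ℕ) (fun w => y w p.2.1 / y w p.1) z /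
          (y z p.2.1 / y z p.1)‖) (y := ∑ p : Fin (m + 1) × ι × Fin (L + 1),
        ‖iteratedDeriv (p.2.2 : ℕ) (fun w => lin (θ p.2.1) (y w) / y w p.1) z /
          (lin (θ p.2.1) (y z) / y z p.1)‖)
  have h4 := posLog_add (x := 1) (y := ∑ p : Fin (m + 1) × Fin (m + 1) × Fin (L + 1),
        ‖iteratedDeriv (p.2.2 : ℕ) (fun w => y w p.2.1 / y w p.1) z /
          (y z p.2.1 / y z p.1)‖)
  have h5 := DG_log_one_add (fun p : Fin (m + 1) × Fin (m + 1) × Fin (L + 1) =>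
        ‖iteratedDeriv (p.2.2 : ℕ) (fun w => y w p.2.1 / y w p.1) z /
          (y z p.2.1 / y z p.1)‖) fun _ => norm_nonneg _
  have h6 := DG_log_one_add (fun p : Fin (m + 1) × ι × Fin (L + 1) =>
        ‖iteratedDeriv (p.2.2 : ℕ) (fun w => lin (θ p.2.1) (y w) / y w p.1) z /
          (lin (θ p.2.1) (y z) / y z p.1)‖) fun _ => norm_nonneg _
  have h7 : log⁺ (1 : ℝ) = 0 := posLog_one
  rw [h2] at h1
  rw [h2]
  linarith

/-- CHUNK D1.  Copy the proof of `H89T.core` (file `H89T/DG.lean`): there the auxiliary function is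
`scriptQ O`, here it is an arbitrary entire function `Q`; `Lam` is replaced by `LamG`, whose summands
are the logarithmic derivatives of `G / H` with `G = y_j` or `G = θ_i (y)` and `H = y_c`
(`‖G‖, ‖H‖ ≤ A ‖y‖ ^ 1`), so `quo_avg` applies.  Exceptional points: the zeros of
`Q * Fy * ∏ y_j * ∏ θ_i (y)`. -/
theorem core_abs {m : ℕ} {ι : Type} [Fintype ι] {y : ℂ → Fin (m + 1) → ℂ} (hy : IsHol y)
    (hy0 : ∀ c, ∃ z, y z c ≠ 0) {θ : ι → Fin (m + 1) → ℂ} (hθ0 : ∀ i, ∃ z, lin (θ i) (y z) ≠ 0)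
    {Q Fy : ℂ → ℂ} (hQ : Differentiable ℂ Q) (hQ0 : ∃ z, Q z ≠ 0) (hF : Differentiable ℂ Fy)
    (hF0 : ∃ z, Fy z ≠ 0) {ρ κ B E L : ℕ} {C₀ : ℝ} (hρ : 1 ≤ ρ)
    (hbound : ∀ z, Good y θ z → Fy z ≠ 0 →
      ‖Q z‖ * ‖y z‖ ^ κ ≤ C₀ * ‖Fy z‖ ^ ρ * ‖y z‖ ^ B * LamG y θ L z ^ E)
    (hord : ∀ (z : ℂ) (k : ℕ), (k : ℕ∞) ≤ analyticOrderAt Fy z →
      ((ρ * (k - 1) : ℕ) : ℕ∞) ≤ analyticOrderAt Q z) :
    ∃ C : ℝ, 0 ≤ C ∧ ∀ r R : ℝ, 1 ≤ r → r < R →
      (κ : ℝ) * chi y r ≤ ρ * N1 Fy r + B * chi y r + C * err y r R := by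
  classical
  obtain ⟨K₁, hK₁, hLam⟩ := D1_log_LamG y θ L
  have hyd := hy.diff
  have hld : ∀ i, Differentiable ℂ (fun w => lin (θ i) (y w)) := fun i => NS2_lin_diff _ hyd
  obtain ⟨A, hA⟩ : ∃ A : ℝ, A = 1 + ∑ i, ∑ j, ‖θ i j‖ := ⟨_, rfl⟩
  have hA1 : 1 ≤ A := by
    rw [hA]
    have : 0 ≤ ∑ i, ∑ j, ‖θ i j‖ :=
      Finset.sum_nonneg fun _ _ => Finset.sum_nonneg fun _ _ => norm_nonneg _
    linarith
  have hyA : ∀ j z, ‖y z j‖ ≤ A * ‖y z‖ ^ 1 := by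
    intro j z
    rw [pow_one]
    exact (norm_le_pi_norm (y z) j).trans (le_mul_of_one_le_left (norm_nonneg _) hA1)
  have hlA : ∀ i z, ‖lin (θ i) (y z)‖ ≤ A * ‖y z‖ ^ 1 := by
    intro i z
    rw [pow_one]
    refine (NS2_lin_le _ _).trans (mul_le_mul_of_nonneg_right ?_ (norm_nonneg _))
    have h : ∑ j, ‖θ i j‖ ≤ ∑ i, ∑ j, ‖θ i j‖ :=
      Finset.single_le_sum (f := fun i => ∑ j, ‖θ i j‖)
        (fun _ _ => Finset.sum_nonneg fun _ _ => norm_nonneg _) (Finset.mem_univ i)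
    rw [hA]
    linarith
  have hL1 := fun p : Fin (m + 1) × Fin (m + 1) × Fin (L + 1) =>
    quo_avg hy (hyd p.2.1) (hyd p.1) (hy0 _) (hy0 _) hA1 (hyA p.2.1) (hyA p.1) (p.2.2 : ℕ)
  have hL2 := fun p : Fin (m + 1) × ι × Fin (L + 1) =>
    quo_avg hy (hld p.2.1) (hyd p.1) (hθ0 _) (hy0 _) hA1 (hlA p.2.1) (hyA p.1) (p.2.2 : ℕ)
  choose C1 hC1 hC1' using hL1
  choose C2 hC2 hC2' using hL2
  obtain ⟨K, hK⟩ := jensen_compare (k := ρ) (g := fun _ => Fy) (fun _ => hF)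
    (fun _ => hF0) hQ hQ0 (by
      intro z m' hm'
      haveI : Nonempty (Fin ρ) := ⟨⟨0, hρ⟩⟩
      obtain ⟨i, hi⟩ := Finite.exists_max m'
      refine le_trans ?_ (hord z (m' i) (hm' i))
      have h1 : ∑ j, (m' j - 1) ≤ ρ * (m' i - 1) := by
        calc ∑ j, (m' j - 1) ≤ ∑ _j : Fin ρ, (m' i - 1) :=
              Finset.sum_le_sum fun j _ => Nat.sub_le_sub_right (hi j) 1
          _ = ρ * (m' i - 1) := by simp
      exact_mod_cast h1)
  obtain ⟨S, hS⟩ : ∃ S : ℝ, S = (∑ p, C1 p) + ∑ p, C2 p := ⟨_, rfl⟩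
  have hS0 : 0 ≤ S := by
    rw [hS]
    exact add_nonneg (Finset.sum_nonneg fun p _ => hC1 p) (Finset.sum_nonneg fun p _ => hC2 p)
  obtain ⟨C₃, hC₃⟩ : ∃ C₃ : ℝ, C₃ = max 1 C₀ := ⟨_, rfl⟩
  have hC₃1 : 1 ≤ C₃ := by rw [hC₃]; exact le_max_left _ _
  have hC₃0 : C₀ ≤ C₃ := by rw [hC₃]; exact le_max_right _ _
  have hlC : 0 ≤ log C₃ := Real.log_nonneg hC₃1
  have he0 : (0 : ℝ) ≤ E := Nat.cast_nonneg E
  refine ⟨|K| + log C₃ + E * (K₁ + S), by positivity, fun r R hr hrR => ?_⟩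
  have hr0 : r ≠ 0 := by linarith
  have herr := NS2_err_ge y r R
  -- the exceptional points
  obtain ⟨F, hFdef⟩ : ∃ F : ℂ → ℂ, F = fun z =>
      Q z * Fy z * (∏ j, y z j) * ∏ i, lin (θ i) (y z) := ⟨_, rfl⟩
  have hFd : Differentiable ℂ F := by
    rw [hFdef]
    exact ((hQ.mul hF).mul (Differentiable.fun_finsetProd fun j _ => hyd j)).mul
      (Differentiable.fun_finsetProd fun i _ => hld i)
  have hF0' : ∃ z, F z ≠ 0 := by
    have h1 := eventually_ne_of_entire hQ hQ0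
    have h2 := eventually_ne_of_entire hF hF0
    have h3 : ∀ᶠ z in nhdsWithin (0 : ℂ) {0}ᶜ, ∀ j, y z j ≠ 0 :=
      Filter.eventually_all.mpr fun j => eventually_ne_of_entire (hyd j) (hy0 j)
    have h4 : ∀ᶠ z in nhdsWithin (0 : ℂ) {0}ᶜ, ∀ i, lin (θ i) (y z) ≠ 0 :=
      Filter.eventually_all.mpr fun i => eventually_ne_of_entire (hld i) (hθ0 i)
    obtain ⟨z, hz1, hz2, hz3, hz4⟩ := (h1.and (h2.and (h3.and h4))).exists
    refine ⟨z, ?_⟩
    rw [hFdef]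
    exact mul_ne_zero (mul_ne_zero (mul_ne_zero hz1 hz2)
      (Finset.prod_ne_zero_iff.2 fun j _ => hz3 j)) (Finset.prod_ne_zero_iff.2 fun i _ => hz4 i)
  -- averages
  have hAQ : NS2_Avg r (fun z => log ‖Q z‖) (circleAverage (fun z => log ‖Q z‖) 0 r) :=
    ⟨NS2_int_log hQ r, rfl⟩
  have hAF : NS2_Avg r (fun z => log ‖Fy z‖)
      (circleAverage (fun z => log ‖Fy z‖) 0 r) := ⟨NS2_int_log hF r, rfl⟩
  have hAy : NS2_Avg r (fun z => log ‖y z‖) (chi y r) := ⟨NS2_int_log_y hy r, rfl⟩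
  have hA1' : ∀ p : Fin (m + 1) × Fin (m + 1) × Fin (L + 1), NS2_Avg r
      (fun z => log⁺ ‖iteratedDeriv (p.2.2 : ℕ) (fun w => y w p.2.1 / y w p.1) z /
          (y z p.2.1 / y z p.1)‖)
      (circleAverage (fun z => log⁺ ‖iteratedDeriv (p.2.2 : ℕ)
        (fun w => y w p.2.1 / y w p.1) z / (y z p.2.1 / y z p.1)‖) 0 r) := fun p =>
    ⟨circleIntegrable_quo (hyd p.2.1) (hyd p.1) (hy0 _) _ r, rfl⟩
  have hA2' : ∀ p : Fin (m + 1) × ι × Fin (L + 1), NS2_Avg r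
      (fun z => log⁺ ‖iteratedDeriv (p.2.2 : ℕ) (fun w => lin (θ p.2.1) (y w) / y w p.1) z /
        (lin (θ p.2.1) (y z) / y z p.1)‖)
      (circleAverage (fun z => log⁺ ‖iteratedDeriv (p.2.2 : ℕ)
        (fun w => lin (θ p.2.1) (y w) / y w p.1) z /
          (lin (θ p.2.1) (y z) / y z p.1)‖) 0 r) := fun p =>
    ⟨circleIntegrable_quo (hld p.2.1) (hyd p.1) (hy0 _) _ r, rfl⟩
  have hmain := NS2_mono hr0 (NS2_add hAQ (NS2_mul (κ : ℝ) hAy))
    (NS2_add (NS2_add (NS2_add (NS2_const r (log C₃)) (NS2_mul (ρ : ℝ) hAF))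
      (NS2_mul (B : ℝ) hAy)) (NS2_mul (E : ℝ)
      (NS2_add (NS2_const r K₁) (NS2_add (NS2_sum Finset.univ fun p _ => hA1' p)
        (NS2_sum Finset.univ fun p _ => hA2' p))))) hFd hF0' (by
      intro z hz
      have hz' : Q z ≠ 0 ∧ Fy z ≠ 0 ∧ (∀ j, y z j ≠ 0) ∧ ∀ i, lin (θ i) (y z) ≠ 0 := by
        rw [hFdef] at hz
        simp only [ne_eq, mul_eq_zero, Finset.prod_eq_zero_iff, Finset.mem_univ, true_and,
          not_or, not_exists] at hz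
        exact ⟨hz.1.1.1, hz.1.1.2, hz.1.2, hz.2⟩
      obtain ⟨hzQ, hzF, hzy, hzl⟩ := hz'
      have hy0' : 0 < ‖y z‖ := norm_pos_iff.2 (hy.ne_zero z)
      have hQ0' : 0 < ‖Q z‖ := norm_pos_iff.2 hzQ
      have hF0'' : 0 < ‖Fy z‖ := norm_pos_iff.2 hzF
      have hLam1 : 1 ≤ LamG y θ L z := one_le_LamG _ _ _ _
      have hLam0 : 0 < LamG y θ L z := by linarith
      have h1 := hbound z ⟨hzy, hzl⟩ hzF
      have hC0 : 0 < C₃ := by linarith
      have h2 : ‖Q z‖ * ‖y z‖ ^ κ ≤ C₃ * ‖Fy z‖ ^ ρ * ‖y z‖ ^ B * LamG y θ L z ^ E := by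
        refine h1.trans ?_
        gcongr
      have h3 := Real.log_le_log (by positivity) h2
      rw [Real.log_mul hQ0'.ne' (by positivity), Real.log_pow,
        Real.log_mul (by positivity) (by positivity), Real.log_mul (by positivity) (by positivity),
        Real.log_mul (by positivity) (by positivity), Real.log_pow, Real.log_pow,
        Real.log_pow] at h3
      have h4 := mul_le_mul_of_nonneg_left (hLam z) he0
      linarith)
  have hJ := hK r hr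
  simp only [Finset.sum_const, Finset.card_univ, Fintype.card_fin, nsmul_eq_mul] at hJ
  have hsum1 : (∑ p : Fin (m + 1) × Fin (m + 1) × Fin (L + 1),
      circleAverage (fun z => log⁺ ‖iteratedDeriv (p.2.2 : ℕ)
        (fun w => y w p.2.1 / y w p.1) z / (y z p.2.1 / y z p.1)‖) 0 r) ≤
      (∑ p, C1 p) * err y r R := by
    rw [Finset.sum_mul]
    exact Finset.sum_le_sum fun p _ => hC1' p r R hr hrR
  have hsum2 : (∑ p : Fin (m + 1) × ι × Fin (L + 1),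
      circleAverage (fun z => log⁺ ‖iteratedDeriv (p.2.2 : ℕ)
        (fun w => lin (θ p.2.1) (y w) / y w p.1) z /
          (lin (θ p.2.1) (y z) / y z p.1)‖) 0 r) ≤
      (∑ p, C2 p) * err y r R := by
    rw [Finset.sum_mul]
    exact Finset.sum_le_sum fun p _ => hC2' p r R hr hrR
  have e1 : (E : ℝ) * (K₁ + ((∑ p : Fin (m + 1) × Fin (m + 1) × Fin (L + 1),
      circleAverage (fun z => log⁺ ‖iteratedDeriv (p.2.2 : ℕ)
        (fun w => y w p.2.1 / y w p.1) z / (y z p.2.1 / y z p.1)‖) 0 r) +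
      ∑ p : Fin (m + 1) × ι × Fin (L + 1),
      circleAverage (fun z => log⁺ ‖iteratedDeriv (p.2.2 : ℕ)
        (fun w => lin (θ p.2.1) (y w) / y w p.1) z /
          (lin (θ p.2.1) (y z) / y z p.1)‖) 0 r)) ≤
      E * (K₁ * err y r R + S * err y r R) := by
    refine mul_le_mul_of_nonneg_left ?_ he0
    have h1 : K₁ ≤ K₁ * err y r R := le_mul_of_one_le_right hK₁ herr
    rw [hS]
    linarith
  have e2 : |K| ≤ |K| * err y r R := le_mul_of_one_le_right (abs_nonneg _) herr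
  have e3 : log C₃ ≤ log C₃ * err y r R := le_mul_of_one_le_right hlC herr
  have e4 := le_abs_self K
  nlinarith [hmain, hJ, e1, e2, e3, e4]

end Pool.Agent.H78G
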