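import Pool.Agent.Lib.H78G.PC

set_option autoImplicit false

/-!
CHUNK W0 (M, adapt the lemmas `WtA...` of `H89T/C3.lean`).  Weights.
-/

open MvPolynomial

namespace Pool.Agent.H78G

open Pool.Agent.H89T

section Tau

variable {n r : ℕ} {τ : Type}

/-- The weight of a monomial. -/
def w0w (m : JV n r ⊕ τ →₀ ℕ) : ℕ := ∑ p : JV n r, ((p.2 : ℕ) + 1) * m (Sum.inl p)

theorem w0w_add (m m' : JV n r ⊕ τ →₀ ℕ) : w0w (m + m') = w0w m + w0w m' := by
  unfold w0w
  rw [← Finset.sum_add_distrib]
  refine Finset.sum_congr rfl fun p _ => ?_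
  rw [Finsupp.add_apply, mul_add]

theorem w0w_zero : w0w (0 : JV n r ⊕ τ →₀ ℕ) = 0 := by
  unfold w0w
  simp

theorem w0w_single_inl (p : JV n r) (e : ℕ) :
    w0w (Finsupp.single (Sum.inl p : JV n r ⊕ τ) e) = ((p.2 : ℕ) + 1) * e := by
  classical
  unfold w0w
  rw [Finset.sum_eq_single p]
  · simp
  · intro q _ hq
    rw [Finsupp.single_apply, if_neg (fun h => hq (Sum.inl_injective h).symm), mul_zero]
  · intro h; exact absurd (Finset.mem_univ _) h

theorem w0w_single_inr (s : τ) (e : ℕ) :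
    w0w (Finsupp.single (Sum.inr s : JV n r ⊕ τ) e) = 0 := by
  classical
  unfold w0w
  refine Finset.sum_eq_zero fun q _ => ?_
  rw [Finsupp.single_apply, if_neg (by simp), mul_zero]

/-- CHUNK W0. -/
theorem WtS.mono {d d' : ℕ} {P : MvPolynomial (JV n r ⊕ τ) ℂ} (h : WtS d P) (hd : d ≤ d') :
    WtS d' P := by
  exact fun m hm => (h m hm).trans hd

/-- CHUNK W0. -/
theorem WtS.zero (d : ℕ) : WtS d (0 : MvPolynomial (JV n r ⊕ τ) ℂ) := by
  intro m hm
  simp at hm

/-- CHUNK W0. -/
theorem WtS.add {d : ℕ} {P Q : MvPolynomial (JV n r ⊕ τ) ℂ} (hP : WtS d P) (hQ : WtS d Q) :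
    WtS d (P + Q) := by
  classical
  intro m hm
  rcases Finset.mem_union.1 (support_add hm) with h | h
  · exact hP m h
  · exact hQ m h

/-- CHUNK W0. -/
theorem WtS.neg {d : ℕ} {P : MvPolynomial (JV n r ⊕ τ) ℂ} (hP : WtS d P) : WtS d (-P) := by
  intro m hm
  rw [support_neg] at hm
  exact hP m hm

/-- CHUNK W0. -/
theorem WtS.mul {d d' : ℕ} {P Q : MvPolynomial (JV n r ⊕ τ) ℂ} (hP : WtS d P) (hQ : WtS d' Q) :
    WtS (d + d') (P * Q) := by
  classical
  intro m hm
  obtain ⟨m1, h1, m2, h2, rfl⟩ := Finset.mem_add.1 (support_mul P Q hm)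
  have e := w0w_add m1 m2
  have a := hP m1 h1
  have b := hQ m2 h2
  change w0w (m1 + m2) ≤ d + d'
  change w0w m1 ≤ d at a
  change w0w m2 ≤ d' at b
  omega

/-- CHUNK W0. -/
theorem WtS.sum {ι : Type} {s : Finset ι} {d : ℕ} {P : ι → MvPolynomial (JV n r ⊕ τ) ℂ}
    (hP : ∀ i ∈ s, WtS d (P i)) : WtS d (∑ i ∈ s, P i) := by
  classical
  induction s using Finset.induction_on with
  | empty => exact WtS.zero d
  | insert i s hi ih =>
    rw [Finset.sum_insert hi]
    exact (hP i (Finset.mem_insert_self _ _)).add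
      (ih fun j hj => hP j (Finset.mem_insert_of_mem hj))

theorem w0_monomial_le {d : ℕ} (m : JV n r ⊕ τ →₀ ℕ) (c : ℂ) (hm : w0w m ≤ d) :
    WtS d (MvPolynomial.monomial m c) := by
  classical
  intro m' hm'
  have h := support_monomial_subset hm'
  rw [Finset.mem_singleton] at h
  rw [h]
  exact hm

/-- CHUNK W0. -/
theorem WtS.prod {ι : Type} {s : Finset ι} {d : ι → ℕ} {P : ι → MvPolynomial (JV n r ⊕ τ) ℂ}
    (hP : ∀ i ∈ s, WtS (d i) (P i)) : WtS (∑ i ∈ s, d i) (∏ i ∈ s, P i) := by
  classical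
  induction s using Finset.induction_on with
  | empty =>
    rw [Finset.prod_empty, Finset.sum_empty]
    exact w0_monomial_le (n := n) (r := r) (τ := τ) 0 1 (le_of_eq w0w_zero)
  | insert i s hi ih =>
    rw [Finset.prod_insert hi, Finset.sum_insert hi]
    exact (hP i (Finset.mem_insert_self _ _)).mul
      (ih fun j hj => hP j (Finset.mem_insert_of_mem hj))

/-- CHUNK W0. -/
theorem WtS.pow {d : ℕ} {P : MvPolynomial (JV n r ⊕ τ) ℂ} (hP : WtS d P) (e : ℕ) :
    WtS (e * d) (P ^ e) := by
  induction e with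
  | zero =>
    rw [pow_zero, zero_mul]
    exact w0_monomial_le (n := n) (r := r) (τ := τ) 0 1 (le_of_eq w0w_zero)
  | succ e ih =>
    rw [pow_succ, Nat.succ_mul]
    exact ih.mul hP

/-- CHUNK W0. -/
theorem WtS.const (c : ℂ) : WtS (n := n) (r := r) (τ := τ) 0 (C c) := by
  exact w0_monomial_le 0 c (le_of_eq w0w_zero)

/-- CHUNK W0. -/
theorem WtS.inr (s : τ) : WtS (n := n) (r := r) 0 (X (Sum.inr s)) := by
  exact w0_monomial_le _ _ (le_of_eq (w0w_single_inr s 1))

/-- CHUNK W0. -/
theorem WtS.inl (p : JV n r) : WtS (τ := τ) ((p.2 : ℕ) + 1) (X (Sum.inl p)) := by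
  exact w0_monomial_le _ _ (le_of_eq (by rw [w0w_single_inl, mul_one]))

/-- CHUNK W0.  Every polynomial has some weight. -/
theorem WtS.exists (P : MvPolynomial (JV n r ⊕ τ) ℂ) : ∃ d, WtS d P := by
  exact ⟨∑ m ∈ P.support, w0w m, fun m hm =>
    Finset.single_le_sum (f := fun m => w0w m) (fun _ _ => Nat.zero_le _) hm⟩

theorem w0w_mapDomain {τ' : Type} (f : τ → τ') (m : JV n r ⊕ τ →₀ ℕ) :
    w0w (Finsupp.mapDomain (Sum.map id f) m) = w0w m := by
  classical
  induction m using Finsupp.induction_linear with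
  | zero => rw [Finsupp.mapDomain_zero, w0w_zero, w0w_zero]
  | add m1 m2 h1 h2 => rw [Finsupp.mapDomain_add, w0w_add, w0w_add, h1, h2]
  | single s e =>
    rw [Finsupp.mapDomain_single]
    rcases s with p | s
    · rw [Sum.map_inl, id, w0w_single_inl, w0w_single_inl]
    · rw [Sum.map_inr, w0w_single_inr, w0w_single_inr]

/-- CHUNK W0.  Renaming the variables of weight `0` (not necessarily injectively). -/
theorem WtS.rename {τ' : Type} (f : τ → τ') {d : ℕ} {P : MvPolynomial (JV n r ⊕ τ) ℂ}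
    (hP : WtS d P) : WtS d (MvPolynomial.rename (Sum.map id f) P) := by
  classical
  rw [P.as_sum, map_sum]
  refine WtS.sum fun m hm => ?_
  rw [rename_monomial]
  exact w0_monomial_le _ _ (by rw [w0w_mapDomain]; exact hP m hm)

/-- CHUNK W0.  The determinant `Wd` has weight at most `(n + 1) * n` (every entry has weight at most
`n + 1`). -/
theorem WtS.Wd (hr : n ≤ r) :
    WtS ((n + 1) * n) (Pool.Agent.H78G.Wd hr fun p =>
      (X (Sum.inl p) : MvPolynomial (JV n r ⊕ τ) ℂ)) := by
  classical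
  unfold Pool.Agent.H78G.Wd
  rw [Matrix.det_apply]
  refine WtS.sum fun σ _ => ?_
  have h1 : WtS ((n + 1) * n) (∏ i : Fin n, (Matrix.of fun b l : Fin n =>
      (X (Sum.inl (b, ⟨(l : ℕ) + 1, by omega⟩)) : MvPolynomial (JV n r ⊕ τ) ℂ)) (σ i) i) := by
    have h2 : WtS (∑ _i : Fin n, (n + 1)) (∏ i : Fin n, (Matrix.of fun b l : Fin n =>
      (X (Sum.inl (b, ⟨(l : ℕ) + 1, by omega⟩)) : MvPolynomial (JV n r ⊕ τ) ℂ)) (σ i) i) := by
      refine WtS.prod fun i _ => ?_
      rw [Matrix.of_apply]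
      refine (WtS.inl _).mono ?_
      have := i.2
      simp only
      omega
    refine h2.mono ?_
    rw [Finset.sum_const, Finset.card_univ, Fintype.card_fin, smul_eq_mul, mul_comm]
  rcases Int.units_eq_one_or (Equiv.Perm.sign σ) with h | h
  · rw [h, one_smul]
    exact h1
  · rw [h, Units.neg_smul, one_smul]
    exact h1.neg

/-- The value of a derivation on a monomial. -/
theorem w0_deriv_mem (V : Derivation ℂ (MvPolynomial (JV n r ⊕ τ) ℂ)
    (MvPolynomial (JV n r ⊕ τ) ℂ)) {c : ℕ}
    (hV : ∀ s, WtS c (V (MvPolynomial.X s))) (m : JV n r ⊕ τ →₀ ℕ) (a : ℂ) :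
    WtS (w0w m + c) (V (MvPolynomial.monomial m a)) := by
  classical
  induction m using Finsupp.induction_linear generalizing a with
  | zero =>
    have : V (MvPolynomial.monomial 0 a) = 0 := by
      have h := Derivation.map_algebraMap V a
      exact h
    rw [this]
    exact WtS.zero _
  | add m1 m2 h1 h2 =>
    have h3 : (MvPolynomial.monomial (m1 + m2) a : MvPolynomial (JV n r ⊕ τ) ℂ)
        = MvPolynomial.monomial m1 a * MvPolynomial.monomial m2 1 := by
      rw [MvPolynomial.monomial_mul, mul_one]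
    rw [h3, Derivation.leibniz, smul_eq_mul, smul_eq_mul, w0w_add]
    refine WtS.add ?_ ?_
    · have h4 := (w0_monomial_le m1 a le_rfl).mul (h2 1)
      exact h4.mono (by omega)
    · have h4 := (w0_monomial_le m2 1 le_rfl).mul (h1 a)
      exact h4.mono (by omega)
  | single s e =>
    induction e generalizing a with
    | zero =>
      rw [Finsupp.single_zero]
      have : V (MvPolynomial.monomial 0 a) = 0 := by
        have h := Derivation.map_algebraMap V a
        exact h
      rw [this]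
      exact WtS.zero _
    | succ e ih =>
      have h3 : (MvPolynomial.monomial (Finsupp.single s (e + 1)) a :
          MvPolynomial (JV n r ⊕ τ) ℂ)
          = MvPolynomial.monomial (Finsupp.single s e) a * MvPolynomial.X s := by
        rw [MvPolynomial.X, MvPolynomial.monomial_mul, mul_one, ← Finsupp.single_add]
      have h5 : w0w (Finsupp.single s (e + 1)) = w0w (Finsupp.single s e)
          + w0w (Finsupp.single s 1) := by
        rw [Finsupp.single_add, w0w_add]
      rw [h3, Derivation.leibniz, smul_eq_mul, smul_eq_mul, h5]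
      refine WtS.add ?_ ?_
      · have h4 := (w0_monomial_le (Finsupp.single s e) a le_rfl).mul (hV s)
        exact h4.mono (by omega)
      · have h4 := (w0_monomial_le (Finsupp.single s 1) 1 le_rfl).mul (ih a)
        exact h4.mono (by omega)

end Tau

variable {n K r : ℕ}

/-- CHUNK W0.  Applying a field of weight `c` raises the weight by at most `c` (as in
`H89T.WtA.field`). -/
theorem WtS.field {d c : ℕ} {g : HV n K → UA n K r} {lam : Fin n → Polynomial (UA n K r)}
    (hg : ∀ s, WtS c (g s)) (hlam : ∀ b i, WtS c ((lam b).coeff i)) {P : UA n K r}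
    (hP : WtS d P) : WtS (d + c) (VU g lam P) := by
  have hV : ∀ s, WtS c (VU g lam (MvPolynomial.X s)) := by
    rintro (p | s)
    · unfold VU
      rw [mkDerivation_X, Sum.elim_inl]
      exact hlam p.1 _
    · unfold VU
      rw [mkDerivation_X, Sum.elim_inr]
      exact hg s
  rw [P.as_sum, map_sum]
  refine WtS.sum fun m hm => ?_
  have h1 := hP m hm
  change w0w m ≤ d at h1
  exact (w0_deriv_mem _ hV m _).mono (by omega)

end Pool.Agent.H78G
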