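import Pool.Agent.Lib.H78G.D2
import Pool.Agent.Lib.H78G.W0

set_option autoImplicit false

/-!
CHUNK D3B (M/L).  The Wronskian in terms of `m + 1` hyperplanes.
-/

open MvPolynomial Real Pool.Agent.H67T

namespace Pool.Agent.H78G

open Pool.Agent.H89T

/-- The derivatives of the quotients `y_j / y_c` and the Wronskian. -/
theorem D3B_det {m r : ℕ} (hr : m ≤ r) {y : ℂ → Fin (m + 1) → ℂ} (hy : IsHol y)
    (c : Fin (m + 1)) {z : ℂ} (hz : y z c ≠ 0) :
    Matrix.det (Matrix.of fun l j : Fin (m + 1) =>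
        iteratedDeriv (l : ℕ) (fun w => y w j / y w c) z) =
      (-1) ^ (c : ℕ) * (∏ l : Fin m, (((l : ℕ) + 1).factorial : ℂ)) *
        Wd hr (jetf r (ch c y) z) := by
  have hev : (fun w => y w c / y w c) =ᶠ[nhds z] fun _ => (1 : ℂ) := by
    have h1 : ∀ᶠ w in nhds z, y w c ≠ 0 :=
      ((hy.diff c).continuous.continuousAt).eventually_ne hz
    filter_upwards [h1] with w hw
    exact div_self hw
  have hc : ∀ l : ℕ, iteratedDeriv l (fun w => y w c / y w c) z = if l = 0 then 1 else 0 := by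
    intro l
    rw [hev.iteratedDeriv_eq l, iteratedDeriv_const]
  rw [Matrix.det_succ_column _ c, Fin.sum_univ_succ]
  have h0 : ∀ i : Fin m, (-1 : ℂ) ^ ((i.succ : ℕ) + (c : ℕ)) *
      (Matrix.of fun l j : Fin (m + 1) =>
        iteratedDeriv (l : ℕ) (fun w => y w j / y w c) z) i.succ c *
      ((Matrix.of fun l j : Fin (m + 1) =>
        iteratedDeriv (l : ℕ) (fun w => y w j / y w c) z).submatrix
          i.succ.succAbove c.succAbove).det = 0 := by
    intro i
    have : (Matrix.of fun l j : Fin (m + 1) =>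
        iteratedDeriv (l : ℕ) (fun w => y w j / y w c) z) i.succ c = 0 := by
      rw [Matrix.of_apply, hc, if_neg (by simp)]
    rw [this]
    ring
  rw [Finset.sum_eq_zero fun i _ => h0 i, add_zero, Matrix.of_apply, hc, if_pos (by simp)]
  have h1 : ((Matrix.of fun l j : Fin (m + 1) =>
        iteratedDeriv (l : ℕ) (fun w => y w j / y w c) z).submatrix
          (0 : Fin (m + 1)).succAbove c.succAbove) =
      Matrix.of fun l b : Fin m => (((l : ℕ) + 1).factorial : ℂ) *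
        (Matrix.of fun b l : Fin m =>
          jetf r (ch c y) z (b, ⟨(l : ℕ) + 1, by omega⟩)).transpose l b := by
    ext l b
    have hf : (((l : ℕ) + 1).factorial : ℂ) ≠ 0 := by
      exact_mod_cast Nat.factorial_ne_zero _
    simp only [Matrix.submatrix_apply, Matrix.of_apply, Matrix.transpose_apply, jetf, ch,
      Fin.succAbove_zero, Fin.val_succ]
    rw [mul_div_cancel₀ _ hf]
  rw [h1, Matrix.det_mul_column, Matrix.det_transpose]
  unfold Wd
  simp only [Fin.val_zero, zero_add, mul_one]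
  ring

/-- The derivatives of the quotients `θ (y) / y_c`. -/
theorem D3B_entry {m : ℕ} {y : ℂ → Fin (m + 1) → ℂ} (hy : IsHol y) (θ : Fin (m + 1) → ℂ)
    (c : Fin (m + 1)) {z : ℂ} (hz : y z c ≠ 0) (l : ℕ) :
    iteratedDeriv l (fun w => lin θ (y w) / y w c) z =
      ∑ j, iteratedDeriv l (fun w => y w j / y w c) z * θ j := by
  have h1 : (fun w => lin θ (y w) / y w c) = fun w => ∑ j, θ j * (y w j / y w c) := by
    funext w
    unfold lin
    rw [Finset.sum_div]
    exact Finset.sum_congr rfl fun j _ => by ring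
  have han : ∀ j, AnalyticAt ℂ (fun w => y w j / y w c) z := fun j =>
    ((hy.diff j).analyticAt z).fun_div ((hy.diff c).analyticAt z) hz
  rw [h1, iteratedDeriv_fun_sum fun j _ => ((analyticAt_const.fun_mul (han j)).contDiffAt)]
  refine Finset.sum_congr rfl fun j _ => ?_
  rw [iteratedDeriv_const_mul_field]
  ring

/-- The determinant of the derivatives of `m + 1` quotients `θ (y) / y_c`. -/
theorem D3B_identity {m r : ℕ} (hr : m ≤ r) {y : ℂ → Fin (m + 1) → ℂ} (hy : IsHol y)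
    (c : Fin (m + 1)) {z : ℂ} (hz : y z c ≠ 0) (θ : Fin (m + 1) → Fin (m + 1) → ℂ) :
    Matrix.det (Matrix.of fun l a : Fin (m + 1) =>
        iteratedDeriv (l : ℕ) (fun w => lin (θ a) (y w) / y w c) z) =
      ((-1) ^ (c : ℕ) * (∏ l : Fin m, (((l : ℕ) + 1).factorial : ℂ)) *
        Matrix.det (Matrix.of fun a b => θ a b)) * Wd hr (jetf r (ch c y) z) := by
  have h1 : (Matrix.of fun l a : Fin (m + 1) =>
        iteratedDeriv (l : ℕ) (fun w => lin (θ a) (y w) / y w c) z) =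
      (Matrix.of fun l j : Fin (m + 1) =>
        iteratedDeriv (l : ℕ) (fun w => y w j / y w c) z) *
        (Matrix.of fun a b => θ a b).transpose := by
    ext l a
    rw [Matrix.mul_apply, Matrix.of_apply, D3B_entry hy (θ a) c hz]
    rfl
  rw [h1, Matrix.det_mul, Matrix.det_transpose, D3B_det hr hy c hz]
  ring

/-- CHUNK D3B.  In the chart `c`: for injective `f : Fin (m + 1) → ι`, the determinant of the
derivatives of the functions `θ_{f a} (y) / y_c` is `± det (θ_{f a, b})` times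
`det (jets of orders 1..m) * ∏ l!`.  Hence
`‖Wd (jet)‖ ≤ C * ∏ a, (‖θ_{f a} (y)‖ / ‖y_c‖) * LamG ^ (m + 1)`.

Proof.  `θ_i (y) / y_c = ∑ j, θ_{i,j} f_j`, `f_j = y_j / y_c`, `f_c = 1`.  So the matrix
`((θ_{f a} (y) / y_c) ^ (l))_{l,a}` is `(f_j ^ (l))_{l,j}` times `(θ_{f a, j})_{j,a}`.  The column `c` of the
first matrix is `(1, 0, ..., 0)`; expanding along it (`Matrix.det_succ_column`) gives
`± det (f_{c.succAbove b} ^ (l + 1))_{b,l} = ± ∏ (l + 1)! * Wd hr (jetf r (ch c y) z)`.  The left-hand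
matrix has entries `(θ (y) / y_c) * (logarithmic derivative)`, so its determinant is
`∏ a, θ_{f a} (y) / y_c` times a determinant with entries of norm `≤ LamG` (`term2_le_LamG`), norm
`≤ (m + 1)! LamG ^ (m + 1)` (`Matrix.det_apply`). -/
theorem norm_Wd_le {m r L : ℕ} (hr : m ≤ r) (hL : m ≤ L) {ι : Type} [Fintype ι]
    {y : ℂ → Fin (m + 1) → ℂ} (hy : IsHol y) {θ : ι → Fin (m + 1) → ℂ} (hθ : GenPos θ)
    (c : Fin (m + 1)) :
    ∃ C : ℝ, 0 ≤ C ∧ ∀ z, Good y θ z → ∀ f : Fin (m + 1) → ι, Function.Injective f →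
      ‖Wd hr (jetf r (ch c y) z)‖ ≤
        C * (∏ a, (‖lin (θ (f a)) (y z)‖ / ‖y z c‖)) * LamG y θ L z ^ (m + 1) := by
  classical
  refine ⟨((m + 1).factorial : ℝ) *
    ∑ f : Fin (m + 1) → ι, ‖Matrix.det (Matrix.of fun a b => θ (f a) b)‖⁻¹,
    mul_nonneg (Nat.cast_nonneg _) (Finset.sum_nonneg fun f _ => by positivity), ?_⟩
  intro z hz f hf
  set T : ℂ := Matrix.det (Matrix.of fun a b => θ (f a) b) with hT
  have hT0 : T ≠ 0 := hθ f hf
  have hid := D3B_identity hr hy c (hz.1 c) (fun a => θ (f a))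
  set W : ℂ := Wd hr (jetf r (ch c y) z) with hW
  set E : ℂ := Matrix.det (Matrix.of fun l a : Fin (m + 1) =>
        iteratedDeriv (l : ℕ) (fun w => lin (θ (f a)) (y w) / y w c) z) with hE
  -- the bound for `E`
  have hE1 : E = (∏ a, (lin (θ (f a)) (y z) / y z c)) *
      Matrix.det (Matrix.of fun l a : Fin (m + 1) =>
        iteratedDeriv (l : ℕ) (fun w => lin (θ (f a)) (y w) / y w c) z /
          (lin (θ (f a)) (y z) / y z c)) := by
    rw [← Matrix.det_mul_row, hE]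
    congr 1
    ext l a
    rw [Matrix.of_apply, Matrix.of_apply, Matrix.of_apply]
    rw [mul_div_cancel₀ _ (div_ne_zero (hz.2 (f a)) (hz.1 c))]
  have hE2 : ‖Matrix.det (Matrix.of fun l a : Fin (m + 1) =>
        iteratedDeriv (l : ℕ) (fun w => lin (θ (f a)) (y w) / y w c) z /
          (lin (θ (f a)) (y z) / y z c))‖ ≤ ((m + 1).factorial : ℝ) * LamG y θ L z ^ (m + 1) := by
    rw [Matrix.det_apply]
    refine (norm_sum_le _ _).trans ?_
    have h1 : ∀ σ ∈ (Finset.univ : Finset (Equiv.Perm (Fin (m + 1)))),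
        ‖Equiv.Perm.sign σ • ∏ i, (Matrix.of fun l a : Fin (m + 1) =>
          iteratedDeriv (l : ℕ) (fun w => lin (θ (f a)) (y w) / y w c) z /
          (lin (θ (f a)) (y z) / y z c)) (σ i) i‖ ≤ LamG y θ L z ^ (m + 1) := by
      intro σ _
      have h2 : ‖Equiv.Perm.sign σ • ∏ i, (Matrix.of fun l a : Fin (m + 1) =>
          iteratedDeriv (l : ℕ) (fun w => lin (θ (f a)) (y w) / y w c) z /
          (lin (θ (f a)) (y z) / y z c)) (σ i) i‖ = ‖∏ i, (Matrix.of fun l a : Fin (m + 1) =>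
          iteratedDeriv (l : ℕ) (fun w => lin (θ (f a)) (y w) / y w c) z /
          (lin (θ (f a)) (y z) / y z c)) (σ i) i‖ := by
        rcases Int.units_eq_one_or (Equiv.Perm.sign σ) with h | h <;> simp [h]
      rw [h2, norm_prod]
      have h3 : ∏ i : Fin (m + 1), ‖(Matrix.of fun l a : Fin (m + 1) =>
          iteratedDeriv (l : ℕ) (fun w => lin (θ (f a)) (y w) / y w c) z /
          (lin (θ (f a)) (y z) / y z c)) (σ i) i‖ ≤ ∏ _i : Fin (m + 1), LamG y θ L z := by
        refine Finset.prod_le_prod (fun i _ => norm_nonneg _) fun i _ => ?_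
        rw [Matrix.of_apply]
        exact term2_le_LamG y θ L z c (f i) ⟨(σ i : ℕ), by have := (σ i).2; omega⟩
      rw [Finset.prod_const, Finset.card_univ, Fintype.card_fin] at h3
      exact h3
    refine (Finset.sum_le_sum h1).trans ?_
    rw [Finset.sum_const, Finset.card_univ, Fintype.card_perm, Fintype.card_fin, nsmul_eq_mul]
  have hE3 : ‖E‖ ≤ (∏ a, (‖lin (θ (f a)) (y z)‖ / ‖y z c‖)) *
      (((m + 1).factorial : ℝ) * LamG y θ L z ^ (m + 1)) := by
    rw [hE1, norm_mul, norm_prod]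
    simp only [norm_div]
    exact mul_le_mul_of_nonneg_left hE2 (Finset.prod_nonneg fun _ _ => by positivity)
  -- the identity
  have hF : (1 : ℝ) ≤ ‖(∏ l : Fin m, (((l : ℕ) + 1).factorial : ℂ))‖ := by
    rw [norm_prod]
    have : ∀ l ∈ (Finset.univ : Finset (Fin m)), (1 : ℝ) ≤ ‖(((l : ℕ) + 1).factorial : ℂ)‖ := by
      intro l _
      rw [Complex.norm_natCast]
      exact_mod_cast Nat.one_le_iff_ne_zero.2 (Nat.factorial_ne_zero _)
    calc (1 : ℝ) = ∏ _l : Fin m, (1 : ℝ) := by simp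
      _ ≤ _ := Finset.prod_le_prod (fun _ _ => zero_le_one) this
  have hn : ‖E‖ = ‖(∏ l : Fin m, (((l : ℕ) + 1).factorial : ℂ))‖ * ‖T‖ * ‖W‖ := by
    rw [hid, norm_mul, norm_mul, norm_mul, norm_pow, norm_neg, norm_one, one_pow, one_mul]
  have hTpos : 0 < ‖T‖ := norm_pos_iff.2 hT0
  have hW1 : ‖W‖ ≤ ‖T‖⁻¹ * ‖E‖ := by
    rw [hn]
    have : ‖T‖⁻¹ * (‖(∏ l : Fin m, (((l : ℕ) + 1).factorial : ℂ))‖ * ‖T‖ * ‖W‖) =
        ‖(∏ l : Fin m, (((l : ℕ) + 1).factorial : ℂ))‖ * ‖W‖ := by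
      field_simp
    rw [this]
    exact le_mul_of_one_le_left (norm_nonneg _) hF
  have hsum : ‖T‖⁻¹ ≤ ∑ f : Fin (m + 1) → ι,
      ‖Matrix.det (Matrix.of fun a b => θ (f a) b)‖⁻¹ := by
    refine Finset.single_le_sum (f := fun f : Fin (m + 1) → ι =>
      ‖Matrix.det (Matrix.of fun a b => θ (f a) b)‖⁻¹) (fun f _ => by positivity)
      (Finset.mem_univ f)
  have hΛ : 0 ≤ LamG y θ L z := zero_le_one.trans (one_le_LamG y θ L z)
  calc ‖W‖ ≤ ‖T‖⁻¹ * ‖E‖ := hW1
    _ ≤ (∑ f : Fin (m + 1) → ι, ‖Matrix.det (Matrix.of fun a b => θ (f a) b)‖⁻¹) *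
        ((∏ a, (‖lin (θ (f a)) (y z)‖ / ‖y z c‖)) *
      (((m + 1).factorial : ℝ) * LamG y θ L z ^ (m + 1))) :=
        mul_le_mul hsum hE3 (norm_nonneg _) (Finset.sum_nonneg fun f _ => by positivity)
    _ = _ := by ring

end Pool.Agent.H78G
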