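import Pool.Agent.Lib.H78G.D3A
import Pool.Agent.Lib.H78G.D3B

set_option autoImplicit false

/-!
CHUNK D3C (M).  Cartan's estimate: the Wronskian is small where the curve is close to the
hyperplanes.
-/

open MvPolynomial Real Pool.Agent.H67T

namespace Pool.Agent.H78G

open Pool.Agent.H89T

/-- CHUNK D3C.  **Cartan's estimate** in a chart with `‖y_c‖ = ‖y‖`.  Proof: `QQ = y_c ^ M * Wd (jet)`
(`QQ_eq`), `norm_Wd_le` with `f` enumerating a set of `m + 1` indices which contains all `i` with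
`‖θ_i (y)‖ < δ ‖y‖` (`genpos_delta`, `D.card`); the other factors satisfy
`‖y‖ ≤ δ⁻¹ ‖θ_i (y)‖`. -/
theorem cartan_growth {m r L : ℕ} (hr : m ≤ r) (hL : m ≤ L) {ι : Type} [Fintype ι]
    (D : CurveG m ι) (c : Fin (m + 1)) :
    ∃ C : ℝ, 0 ≤ C ∧ ∀ z, Good D.y D.θ z → ‖D.y z c‖ = ‖D.y z‖ →
      ‖QQ D.y c ((m + 1) * m) (WdP hr) z‖ * ‖D.y z‖ ^ Fintype.card ι ≤
        C * (∏ i, ‖lin (D.θ i) (D.y z)‖) * ‖D.y z‖ ^ ((m + 1) * m) *
          LamG D.y D.θ L z ^ (m + 1) := by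
  classical
  obtain ⟨C₀, hC₀, h1⟩ := norm_Wd_le hr hL D.hy D.gen c
  obtain ⟨δ, hδ, hδ1, h2⟩ := genpos_delta D.gen
  refine ⟨C₀ * (δ⁻¹) ^ Fintype.card ι, by positivity, fun z hz hc => ?_⟩
  have hY0 : 0 < ‖D.y z‖ := norm_pos_iff.2 (D.hy.ne_zero z)
  have hWd : eval (jetf r (ch c D.y) z) (WdP (m := m) hr) = Wd hr (jetf r (ch c D.y) z) := by
    unfold WdP
    rw [Wd_map hr (eval (jetf r (ch c D.y) z))]
    simp
  rw [QQ_eq D.hy.diff c (WdP_wt hr) (hz.1 c), hWd, norm_mul, norm_pow, hc]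
  -- a set of `m + 1` indices
  obtain ⟨s, hs⟩ : ∃ s : Finset ι, s = Finset.univ.filter fun i =>
      ‖lin (D.θ i) (D.y z)‖ < δ * ‖D.y z‖ := ⟨_, rfl⟩
  have hsm : s.card ≤ m := h2 (D.y z) s fun i hi => by
    rw [hs, Finset.mem_filter] at hi
    exact hi.2
  obtain ⟨t, hst, ht⟩ := Finset.exists_superset_card_eq (s := s) (n := m + 1) (by omega) D.card
  have hout : ∀ i, i ∉ t → δ * ‖D.y z‖ ≤ ‖lin (D.θ i) (D.y z)‖ := by
    intro i hi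
    by_contra hcon
    push Not at hcon
    exact hi (hst (by rw [hs, Finset.mem_filter]; exact ⟨Finset.mem_univ _, hcon⟩))
  obtain ⟨f, hf⟩ : ∃ f : Fin (m + 1) → ι, f = fun a => ((t.equivFinOfCardEq ht).symm a : ι) :=
    ⟨_, rfl⟩
  have hfinj : Function.Injective f := by
    rw [hf]
    exact Subtype.val_injective.comp (t.equivFinOfCardEq ht).symm.injective
  have hprod : ∏ a, (‖lin (D.θ (f a)) (D.y z)‖ / ‖D.y z c‖) =
      ∏ i ∈ t, (‖lin (D.θ i) (D.y z)‖ / ‖D.y z‖) := by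
    rw [hc, hf, ← Finset.prod_coe_sort t]
    exact (t.equivFinOfCardEq ht).symm.prod_comp
      fun i : t => ‖lin (D.θ (i : ι)) (D.y z)‖ / ‖D.y z‖
  have h3 := h1 z hz f hfinj
  rw [hprod] at h3
  obtain ⟨Y, hY⟩ : ∃ Y : ℝ, Y = ‖D.y z‖ := ⟨_, rfl⟩
  obtain ⟨Λ, hΛ⟩ : ∃ Λ : ℝ, Λ = LamG D.y D.θ L z ^ (m + 1) := ⟨_, rfl⟩
  have hΛ0 : 0 ≤ Λ := by
    rw [hΛ]
    have := one_le_LamG D.y D.θ L z
    positivity
  obtain ⟨g, hg⟩ : ∃ g : ι → ℝ, g = fun i => ‖lin (D.θ i) (D.y z)‖ := ⟨_, rfl⟩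
  have hg0 : ∀ i, 0 ≤ g i := fun i => by rw [hg]; positivity
  have hgi : ∀ i, ‖lin (D.θ i) (D.y z)‖ = g i := fun i => by rw [hg]
  simp only [hgi] at h3 hout ⊢
  rw [← hY] at h3 hout hY0 ⊢
  rw [← hΛ] at h3 ⊢
  have h4 : (∏ i ∈ t, (g i / Y)) * Y ^ Fintype.card ι ≤ (δ⁻¹) ^ Fintype.card ι * ∏ i, g i := by
    have h5 : Y ^ Fintype.card ι = (∏ _i ∈ t, Y) * ∏ _i ∈ tᶜ, Y := by
      rw [Finset.prod_mul_prod_compl, Finset.prod_const, Finset.card_univ]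
    have h6 : (∏ i ∈ t, (g i / Y)) * ∏ _i ∈ t, Y = ∏ i ∈ t, g i := by
      rw [← Finset.prod_mul_distrib]
      refine Finset.prod_congr rfl fun i _ => ?_
      field_simp
    have h7 : ∏ _i ∈ tᶜ, Y ≤ ∏ i ∈ tᶜ, (δ⁻¹ * g i) := by
      refine Finset.prod_le_prod (fun _ _ => hY0.le) fun i hi => ?_
      rw [Finset.mem_compl] at hi
      have h8 := hout i hi
      rw [inv_mul_eq_div, le_div_iff₀ hδ]
      linarith
    have h9 : ∏ i ∈ tᶜ, (δ⁻¹ * g i) ≤ (δ⁻¹) ^ Fintype.card ι * ∏ i ∈ tᶜ, g i := by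
      rw [Finset.prod_mul_distrib, Finset.prod_const]
      refine mul_le_mul_of_nonneg_right ?_ (Finset.prod_nonneg fun i _ => hg0 i)
      exact pow_le_pow_right₀ ((one_le_inv₀ hδ).2 hδ1) (Finset.card_le_univ _)
    calc (∏ i ∈ t, (g i / Y)) * Y ^ Fintype.card ι
        = (∏ i ∈ t, g i) * ∏ _i ∈ tᶜ, Y := by rw [h5, ← mul_assoc, h6]
      _ ≤ (∏ i ∈ t, g i) * ((δ⁻¹) ^ Fintype.card ι * ∏ i ∈ tᶜ, g i) :=
          mul_le_mul_of_nonneg_left (h7.trans h9) (Finset.prod_nonneg fun i _ => hg0 i)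
      _ = (δ⁻¹) ^ Fintype.card ι * ((∏ i ∈ t, g i) * ∏ i ∈ tᶜ, g i) := by ring
      _ = _ := by rw [Finset.prod_mul_prod_compl]
  calc Y ^ ((m + 1) * m) * ‖Wd hr (jetf r (ch c D.y) z)‖ * Y ^ Fintype.card ι
      ≤ Y ^ ((m + 1) * m) * (C₀ * (∏ i ∈ t, (g i / Y)) * Λ) * Y ^ Fintype.card ι := by
        gcongr
    _ = C₀ * Y ^ ((m + 1) * m) * Λ * ((∏ i ∈ t, (g i / Y)) * Y ^ Fintype.card ι) := by ring
    _ ≤ C₀ * Y ^ ((m + 1) * m) * Λ * ((δ⁻¹) ^ Fintype.card ι * ∏ i, g i) :=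
        mul_le_mul_of_nonneg_left h4 (by positivity)
    _ = _ := by ring

end Pool.Agent.H78G
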