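import Pool.Agent.Lib.H78G.DD

set_option autoImplicit false

/-!
CHUNK D4 (M).  The order of the Wronskian.
-/

open MvPolynomial Real Pool.Agent.H67T

namespace Pool.Agent.H78G

open Pool.Agent.H89T

/-- The derivatives of the quotients `y_j / y_c` and the Wronskian. -/
theorem D4_det {m r : ℕ} (hr : m ≤ r) {y : ℂ → Fin (m + 1) → ℂ} (hy : IsHol y)
    (c : Fin (m + 1)) {z : ℂ} (hz : y z c ≠ 0) :
    Matrix.det (Matrix.of fun l j : Fin (m + 1) =>
        iteratedDeriv (l : ℕ) (fun w => y w j / y w c) z) =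
      (-1) ^ (c : ℕ) * (∏ l : Fin m, (((l : ℕ) + 1).factorial : ℂ)) *
        Wd hr (jetf r (ch c y) z) := by
  have hev : (fun w => y w c / y w c) =ᶠ[nhds z] fun _ => (1 : ℂ) := by
    have h1 : ∀ᶠ w in nhds z, y w c ≠ 0 :=
      ((hy.diff c).continuous.continuousAt).eventually_ne hz
    filter_upwards [h1] with w hw
    exact div_self hw
  have hc : ∀ l : ℕ, iteratedDeriv l (fun w => y w c / y w c) z = if l = 0 then 1 else 0 := by
    intro l
    rw [hev.iteratedDeriv_eq l, iteratedDeriv_const]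
  rw [Matrix.det_succ_column _ c, Fin.sum_univ_succ]
  have h0 : ∀ i : Fin m, (-1 : ℂ) ^ ((i.succ : ℕ) + (c : ℕ)) *
      (Matrix.of fun l j : Fin (m + 1) =>
        iteratedDeriv (l : ℕ) (fun w => y w j / y w c) z) i.succ c *
      ((Matrix.of fun l j : Fin (m + 1) =>
        iteratedDeriv (l : ℕ) (fun w => y w j / y w c) z).submatrix
          i.succ.succAbove c.succAbove).det = 0 := by
    intro i
    have : (Matrix.of fun l j : Fin (m + 1) =>
        iteratedDeriv (l : ℕ) (fun w => y w j / y w c) z) i.succ c = 0 := by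
      rw [Matrix.of_apply, hc, if_neg (by simp)]
    rw [this]
    ring
  rw [Finset.sum_eq_zero fun i _ => h0 i, add_zero, Matrix.of_apply, hc, if_pos (by simp)]
  have h1 : ((Matrix.of fun l j : Fin (m + 1) =>
        iteratedDeriv (l : ℕ) (fun w => y w j / y w c) z).submatrix
          (0 : Fin (m + 1)).succAbove c.succAbove) =
      Matrix.of fun l b : Fin m => (((l : ℕ) + 1).factorial : ℂ) *
        (Matrix.of fun b l : Fin m =>
          jetf r (ch c y) z (b, ⟨(l : ℕ) + 1, by omega⟩)).transpose l b := by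
    ext l b
    have hf : (((l : ℕ) + 1).factorial : ℂ) ≠ 0 := by
      exact_mod_cast Nat.factorial_ne_zero _
    simp only [Matrix.submatrix_apply, Matrix.of_apply, Matrix.transpose_apply, jetf, ch,
      Fin.succAbove_zero, Fin.val_succ]
    rw [mul_div_cancel₀ _ hf]
  rw [h1, Matrix.det_mul_column, Matrix.det_transpose]
  unfold Wd
  simp only [Fin.val_zero, zero_add, mul_one]
  ring

/-- The derivatives of the quotients `θ (y) / y_c`. -/
theorem D4_entry {m : ℕ} {y : ℂ → Fin (m + 1) → ℂ} (hy : IsHol y) (θ : Fin (m + 1) → ℂ)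
    (c : Fin (m + 1)) {z : ℂ} (hz : y z c ≠ 0) (l : ℕ) :
    iteratedDeriv l (fun w => lin θ (y w) / y w c) z =
      ∑ j, iteratedDeriv l (fun w => y w j / y w c) z * θ j := by
  have h1 : (fun w => lin θ (y w) / y w c) = fun w => ∑ j, θ j * (y w j / y w c) := by
    funext w
    unfold lin
    rw [Finset.sum_div]
    exact Finset.sum_congr rfl fun j _ => by ring
  have han : ∀ j, AnalyticAt ℂ (fun w => y w j / y w c) z := fun j =>
    ((hy.diff j).analyticAt z).fun_div ((hy.diff c).analyticAt z) hz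
  rw [h1, iteratedDeriv_fun_sum fun j _ => ((analyticAt_const.fun_mul (han j)).contDiffAt)]
  refine Finset.sum_congr rfl fun j _ => ?_
  rw [iteratedDeriv_const_mul_field]
  ring

/-- The determinant of the derivatives of `m + 1` quotients `θ (y) / y_c`. -/
theorem D4_identity {m r : ℕ} (hr : m ≤ r) {y : ℂ → Fin (m + 1) → ℂ} (hy : IsHol y)
    (c : Fin (m + 1)) {z : ℂ} (hz : y z c ≠ 0) (θ : Fin (m + 1) → Fin (m + 1) → ℂ) :
    Matrix.det (Matrix.of fun l a : Fin (m + 1) =>
        iteratedDeriv (l : ℕ) (fun w => lin (θ a) (y w) / y w c) z) =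
      ((-1) ^ (c : ℕ) * (∏ l : Fin m, (((l : ℕ) + 1).factorial : ℂ)) *
        Matrix.det (Matrix.of fun a b => θ a b)) * Wd hr (jetf r (ch c y) z) := by
  have h1 : (Matrix.of fun l a : Fin (m + 1) =>
        iteratedDeriv (l : ℕ) (fun w => lin (θ a) (y w) / y w c) z) =
      (Matrix.of fun l j : Fin (m + 1) =>
        iteratedDeriv (l : ℕ) (fun w => y w j / y w c) z) *
        (Matrix.of fun a b => θ a b).transpose := by
    ext l a
    rw [Matrix.mul_apply, Matrix.of_apply, D4_entry hy (θ a) c hz]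
    rfl
  rw [h1, Matrix.det_mul, Matrix.det_transpose, D4_det hr hy c hz]
  ring

/-- CHUNK D4.  At most `m` hyperplanes in general position pass through a point. -/
theorem GenPos.card_le {m : ℕ} {ι : Type} [Fintype ι] {θ : ι → Fin (m + 1) → ℂ} (h : GenPos θ)
    {v : Fin (m + 1) → ℂ} (hv : v ≠ 0) (s : Finset ι) (hs : ∀ i ∈ s, lin (θ i) v = 0) :
    s.card ≤ m := by
  classical
  by_contra hlt
  push Not at hlt
  obtain ⟨t, hts, htc⟩ := Finset.exists_subset_card_eq (n := m + 1) (s := s) hlt
  let e : Fin (m + 1) ≃ t := (Finset.equivFinOfCardEq htc).symm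
  have hinj : Function.Injective fun a => ((e a : t) : ι) :=
    Subtype.val_injective.comp e.injective
  refine h (fun a => (e a : ι)) hinj ?_
  rw [← Matrix.exists_mulVec_eq_zero_iff]
  refine ⟨v, hv, ?_⟩
  funext a
  have := hs (e a : ι) (hts (e a).2)
  simpa [Matrix.mulVec, dotProduct, lin] using this

/-- The order of a product of analytic functions. -/
theorem D4_order_prod {κ : Type*} (s : Finset κ) {f : κ → ℂ → ℂ} {z₀ : ℂ} {μ : κ → ℕ}
    (ha : ∀ i ∈ s, AnalyticAt ℂ (f i) z₀)
    (h : ∀ i ∈ s, (μ i : ℕ∞) ≤ analyticOrderAt (f i) z₀) :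
    ((∑ i ∈ s, μ i : ℕ) : ℕ∞) ≤ analyticOrderAt (fun z => ∏ i ∈ s, f i z) z₀ := by
  classical
  induction s using Finset.induction_on with
  | empty => simp
  | insert i s hi ih =>
    have h1 := h i (Finset.mem_insert_self i s)
    have h2 := ih (fun j hj => ha j (Finset.mem_insert_of_mem hj))
      fun j hj => h j (Finset.mem_insert_of_mem hj)
    have h3 : AnalyticAt ℂ (fun z => ∏ j ∈ s, f j z) z₀ :=
      Finset.analyticAt_fun_prod s fun j hj => ha j (Finset.mem_insert_of_mem hj)
    have h4 : (fun z => ∏ j ∈ insert i s, f j z) = f i * fun z => ∏ j ∈ s, f j z := by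
      funext z
      rw [Finset.prod_insert hi]
      rfl
    rw [h4, analyticOrderAt_mul (ha i (Finset.mem_insert_self i s)) h3, Finset.sum_insert hi,
      Nat.cast_add]
    exact add_le_add h1 h2

/-- CHUNK D4.  `ord_z (Wd (jet)) ≥ ∑ i, (μ_i - m)⁺` for `μ_i ≤ ord_z θ_i (y)`.

Proof.  Let `s` be the set of the `i` with `μ_i > m`; then `θ_i (y z) = 0` for `i ∈ s`, so `|s| ≤ m`
(`GenPos.card_le`) and, since `|ι| ≥ m + 1`, there is an injective `f : Fin (m + 1) → ι` whose range contains
`s`.  As in D3: `det ((θ_{f a} (y) / y_c) ^ (l))_{l,a} = const * Wd (jet)` near `z` with a constant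
`≠ 0` (general position); the column `a` has entries of order `≥ μ_{f a} - l ≥ μ_{f a} - m`
(`le_order_iteratedDeriv` of `H89T/DB.lean`; the order of `θ (y) / y_c` is that of `θ (y)` because
`y_c (z) ≠ 0`), so the determinant has order `≥ ∑ a, (μ_{f a} - m)⁺` (`le_order_sum`, orders of
products).  The identity between the determinants may be taken from D3 (`norm_Wd_le` contains it) or
proved here. -/
theorem order_Wd {m r : ℕ} (hr : m ≤ r) {ι : Type} [Fintype ι] (D : CurveG m ι)
    (c : Fin (m + 1)) {z : ℂ} (hz : D.y z c ≠ 0) (μ : ι → ℕ)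
    (hμ : ∀ i, (μ i : ℕ∞) ≤ analyticOrderAt (fun w => lin (D.θ i) (D.y w)) z) :
    ((∑ i, (μ i - m) : ℕ) : ℕ∞) ≤
      analyticOrderAt (fun w => eval (jetf r (ch c D.y) w) (WdP (m := m) hr)) z := by
  classical
  -- the set of the forms with `μ i > m`
  set s : Finset ι := Finset.univ.filter fun i => m < μ i with hs
  have hs0 : ∀ i ∈ s, lin (D.θ i) (D.y z) = 0 := by
    intro i hi
    rw [hs, Finset.mem_filter] at hi
    by_contra hne
    have h0 : analyticOrderAt (fun w => lin (D.θ i) (D.y w)) z = 0 := by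
      rw [analyticOrderAt_eq_zero]
      right
      exact hne
    have h1 := hμ i
    rw [h0] at h1
    have h2 : μ i = 0 := by exact_mod_cast nonpos_iff_eq_zero.1 h1
    omega
  have hsc : s.card ≤ m := GenPos.card_le D.gen (D.hy.ne_zero z) s hs0
  obtain ⟨t, hst, -, htc⟩ := Finset.exists_subsuperset_card_eq (Finset.subset_univ s)
    (n := m + 1) (by omega) (by simpa using D.card)
  let e : Fin (m + 1) ≃ t := (Finset.equivFinOfCardEq htc).symm
  set f : Fin (m + 1) → ι := fun a => ((e a : t) : ι) with hf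
  have hinj : Function.Injective f := Subtype.val_injective.comp e.injective
  -- the sum over all forms
  have hsum : ∑ i, (μ i - m) = ∑ a, (μ (f a) - m) := by
    have h1 : ∑ i, (μ i - m) = ∑ i ∈ t, (μ i - m) := by
      symm
      refine Finset.sum_subset (Finset.subset_univ t) fun i _ hi => ?_
      have : i ∉ s := fun h => hi (hst h)
      rw [hs, Finset.mem_filter] at this
      have h2 : ¬ m < μ i := fun h => this ⟨Finset.mem_univ _, h⟩
      omega
    rw [h1, ← Finset.sum_coe_sort t]
    exact (Equiv.sum_comp e fun i : t => μ (i : ι) - m).symm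
  -- the constant
  set T : ℂ := (-1) ^ (c : ℕ) * (∏ l : Fin m, (((l : ℕ) + 1).factorial : ℂ)) *
        Matrix.det (Matrix.of fun a b => D.θ (f a) b) with hT
  have hT0 : T ≠ 0 := by
    refine mul_ne_zero (mul_ne_zero (pow_ne_zero _ (by norm_num)) ?_) (D.gen f hinj)
    rw [Finset.prod_ne_zero_iff]
    intro l _
    exact_mod_cast Nat.factorial_ne_zero _
  have hyc : ∀ᶠ w in nhds z, D.y w c ≠ 0 :=
    ((D.hy.diff c).continuous.continuousAt).eventually_ne hz
  -- the identity near `z`
  have hev : (fun w => eval (jetf r (ch c D.y) w) (WdP (m := m) hr)) =ᶠ[nhds z]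
      fun w => ∑ σ : Equiv.Perm (Fin (m + 1)), ∏ a : Fin (m + 1),
        iteratedDeriv ((σ a : Fin (m + 1)) : ℕ)
          (fun w => lin (D.θ (f a)) (D.y w) / D.y w c) w * (T⁻¹ * ((Equiv.Perm.sign σ : ℤ) : ℂ)) ^
            (if a = 0 then 1 else 0) := by
    filter_upwards [hyc] with w hw
    have hid := D4_identity hr D.hy c hw (fun a => D.θ (f a))
    have h1 : eval (jetf r (ch c D.y) w) (WdP (m := m) hr) = Wd hr (jetf r (ch c D.y) w) := by
      unfold WdP Wd
      rw [RingHom.map_det]
      congr 1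
      ext b l
      simp
    have h2 : Wd hr (jetf r (ch c D.y) w) = T⁻¹ * Matrix.det (Matrix.of fun l a : Fin (m + 1) =>
        iteratedDeriv (l : ℕ) (fun w => lin (D.θ (f a)) (D.y w) / D.y w c) w) := by
      rw [hid, ← hT, ← mul_assoc, inv_mul_cancel₀ hT0, one_mul]
    rw [h1, h2, Matrix.det_apply', Finset.mul_sum]
    refine Finset.sum_congr rfl fun σ _ => ?_
    rw [Finset.prod_mul_distrib]
    have h3 : ∏ a : Fin (m + 1), (T⁻¹ * ((Equiv.Perm.sign σ : ℤ) : ℂ)) ^
            (if a = 0 then 1 else 0) = T⁻¹ * ((Equiv.Perm.sign σ : ℤ) : ℂ) := by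
      rw [Finset.prod_pow_eq_pow_sum]
      simp
    rw [h3]
    simp only [Matrix.of_apply]
    ring
  rw [analyticOrderAt_congr hev, hsum]
  refine le_order_sum _ fun σ _ => ?_
  have hana : ∀ a : Fin (m + 1), AnalyticAt ℂ
      (fun w => lin (D.θ (f a)) (D.y w) / D.y w c) z := by
    intro a
    have h1 : AnalyticAt ℂ (fun w => lin (D.θ (f a)) (D.y w)) z := by
      unfold lin
      exact Finset.analyticAt_fun_sum _ fun j _ =>
        analyticAt_const.fun_mul ((D.hy.diff j).analyticAt z)
    exact h1.fun_div ((D.hy.diff c).analyticAt z) hz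
  refine D4_order_prod Finset.univ (μ := fun a => μ (f a) - m) (fun a _ => ?_) fun a _ => ?_
  · exact (analyticAt_iteratedDeriv (hana a) _).fun_mul analyticAt_const
  · refine le_order_mul ?_ (analyticAt_iteratedDeriv (hana a) _) analyticAt_const
    have h1 : (μ (f a) : ℕ∞) ≤ analyticOrderAt
        (fun w => lin (D.θ (f a)) (D.y w) / D.y w c) z := by
      have h2 : AnalyticAt ℂ (fun w => lin (D.θ (f a)) (D.y w)) z := by
        unfold lin
        exact Finset.analyticAt_fun_sum _ fun j _ =>
          analyticAt_const.fun_mul ((D.hy.diff j).analyticAt z)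
      have h3 := le_order_mul (hμ (f a)) h2 (((D.hy.diff c).analyticAt z).fun_inv hz)
      simpa only [div_eq_mul_inv] using h3
    have h4 := le_order_iteratedDeriv (hana a) h1 ((σ a : Fin (m + 1)) : ℕ)
    refine le_trans ?_ h4
    have := (σ a).2
    exact_mod_cast (by omega : μ (f a) - m ≤ μ (f a) - ((σ a : Fin (m + 1)) : ℕ))

end Pool.Agent.H78G
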