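import Pool.Agent.Lib.H78G.DD

set_option autoImplicit false

/-!
CHUNK D5B (M).  The full Wronskian: linear changes, charts.
-/

open MvPolynomial Real Pool.Agent.H67T

namespace Pool.Agent.H78G

open Pool.Agent.H89T

/-- CHUNK D5B (S). -/
theorem Wr_diff {m : ℕ} {y : ℂ → Fin (m + 1) → ℂ} (hy : ∀ j, Differentiable ℂ fun z => y z j) :
    Differentiable ℂ (Wr y) := by
  unfold Wr
  simp only [Matrix.det_apply', Matrix.of_apply]
  refine Differentiable.fun_sum fun σ _ => Differentiable.const_mul ?_ _
  refine Differentiable.fun_finsetProd fun i _ => ?_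
  exact ContDiff.differentiable_iteratedDeriv' _ (hy _).contDiff

/-- CHUNK D5B (S).  Linear change of coordinates. -/
theorem Wr_mulVec {m : ℕ} {y : ℂ → Fin (m + 1) → ℂ} (hy : ∀ j, Differentiable ℂ fun z => y z j)
    (g : Matrix (Fin (m + 1)) (Fin (m + 1)) ℂ) (z : ℂ) :
    Wr (fun w => g.mulVec (y w)) z = g.det * Wr y z := by
  have h1 : (Matrix.of fun l j : Fin (m + 1) =>
      iteratedDeriv (l : ℕ) (fun w => g.mulVec (y w) j) z) =
      (Matrix.of fun l j : Fin (m + 1) => iteratedDeriv (l : ℕ) (fun w => y w j) z) *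
        g.transpose := by
    ext l j
    rw [Matrix.mul_apply]
    simp only [Matrix.of_apply, Matrix.transpose_apply, Matrix.mulVec, dotProduct]
    rw [iteratedDeriv_fun_sum]
    · refine Finset.sum_congr rfl fun i _ => ?_
      rw [iteratedDeriv_const_mul_field, mul_comm]
    · intro i _
      exact ((hy i).const_mul _).contDiff.contDiffAt
  unfold Wr
  rw [h1, Matrix.det_mul, Matrix.det_transpose, mul_comm]

/-- CHUNK D5B (M).  The Wronskian in a chart.  Proof: `y_j = y_c f_j` near `z`, `f_c = 1`; by Leibniz the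
matrix `(y_j ^ (l))_{l,j}` is a lower triangular matrix with diagonal entries `y_c` times
`(f_j ^ (l))_{l,j}`; the column `c` of the latter is `(1, 0, ..., 0)`; expand along it; the
remaining minor has determinant `∏ (l + 1)! * Wd`. -/
theorem Wd_ne_zero_of_Wr {m r : ℕ} (hr : m ≤ r) {y : ℂ → Fin (m + 1) → ℂ}
    (hy : ∀ j, Differentiable ℂ fun z => y z j) (c : Fin (m + 1)) {z : ℂ} (hz : y z c ≠ 0)
    (hW : Wr y z ≠ 0) : Wd hr (jetf r (ch c y) z) ≠ 0 := by
  classical
  intro hWd
  apply hW
  set f : Fin (m + 1) → ℂ → ℂ := fun j w => y w j / y w c with hf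
  have hne : ∀ᶠ w in nhds z, y w c ≠ 0 := (hy c).continuous.continuousAt.eventually_ne hz
  have hev : ∀ j, (fun w => y w j) =ᶠ[nhds z] (f j * fun w => y w c) := by
    intro j
    filter_upwards [hne] with w hw
    simp only [hf, Pi.mul_apply]
    rw [div_mul_cancel₀ _ hw]
  have hfa : ∀ (j : Fin (m + 1)) (l : ℕ), ContDiffAt ℂ l (f j) z := by
    intro j l
    have h1 : AnalyticAt ℂ (f j) z := by
      have h2 : AnalyticAt ℂ (fun w => y w j) z := (hy j).analyticAt z
      have h3 : AnalyticAt ℂ (fun w => y w c) z := (hy c).analyticAt z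
      exact h2.div h3 hz
    exact h1.contDiffAt
  set G : Matrix (Fin (m + 1)) (Fin (m + 1)) ℂ :=
    Matrix.of fun i j : Fin (m + 1) => iteratedDeriv (i : ℕ) (f j) z with hG
  set T : Matrix (Fin (m + 1)) (Fin (m + 1)) ℂ := Matrix.of fun l i : Fin (m + 1) =>
    if (i : ℕ) ≤ l then ((l : ℕ).choose i : ℂ) * iteratedDeriv ((l : ℕ) - i) (fun w => y w c) z
    else 0 with hT
  have hTG : (Matrix.of fun l j : Fin (m + 1) => iteratedDeriv (l : ℕ) (fun w => y w j) z) =
      T * G := by
    ext l j
    rw [Matrix.mul_apply]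
    simp only [hT, hG, Matrix.of_apply]
    rw [(hev j).iteratedDeriv_eq (l : ℕ), iteratedDeriv_mul (hfa j l) ((hy c).contDiff.contDiffAt)]
    have h1 : ∀ i : Fin (m + 1), (if (i : ℕ) ≤ l then ((l : ℕ).choose i : ℂ) *
        iteratedDeriv ((l : ℕ) - i) (fun w => y w c) z else 0) * iteratedDeriv (i : ℕ) (f j) z =
        (fun i : ℕ => if i ≤ (l : ℕ) then ((l : ℕ).choose i : ℂ) * iteratedDeriv i (f j) z *
          iteratedDeriv ((l : ℕ) - i) (fun w => y w c) z else 0) i := by
      intro i
      simp only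
      split_ifs
      · ring
      · ring
    rw [Finset.sum_congr rfl fun i _ => h1 i, Fin.sum_univ_eq_sum_range
      (fun i : ℕ => if i ≤ (l : ℕ) then ((l : ℕ).choose i : ℂ) * iteratedDeriv i (f j) z *
          iteratedDeriv ((l : ℕ) - i) (fun w => y w c) z else 0) (m + 1)]
    have h2 : Finset.range ((l : ℕ) + 1) ⊆ Finset.range (m + 1) := by
      intro i hi
      rw [Finset.mem_range] at hi ⊢
      have := l.2
      omega
    rw [← Finset.sum_subset h2]
    · refine Finset.sum_congr rfl fun i hi => ?_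
      rw [Finset.mem_range] at hi
      rw [if_pos (by omega)]
    · intro i _ hi
      rw [Finset.mem_range] at hi
      rw [if_neg (by omega)]
  have hGc : ∀ i : Fin (m + 1), G i c = if i = 0 then 1 else 0 := by
    intro i
    have h1 : f c =ᶠ[nhds z] fun _ => (1 : ℂ) := by
      filter_upwards [hne] with w hw
      simp only [hf]
      exact div_self hw
    simp only [hG, Matrix.of_apply]
    rw [h1.iteratedDeriv_eq, iteratedDeriv_const]
    by_cases hi : i = 0
    · subst hi
      simp
    · have : (i : ℕ) ≠ 0 := fun h => hi (Fin.ext h)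
      rw [if_neg this, if_neg hi]
  have hdet : G.det = 0 := by
    rw [Matrix.det_succ_column G c, Finset.sum_eq_zero]
    intro i _
    rw [hGc]
    by_cases hi : i = 0
    · subst hi
      have h1 : G.submatrix (Fin.succAbove 0) c.succAbove = Matrix.of fun l b : Fin m =>
          (((l : ℕ) + 1).factorial : ℂ) * ((Matrix.of fun b l : Fin m =>
            jetf r (ch c y) z (b, ⟨(l : ℕ) + 1, by omega⟩)).transpose) l b := by
        ext l b
        simp only [Matrix.submatrix_apply, Matrix.of_apply, Matrix.transpose_apply, hG, jetf]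
        have h2 : (((l : ℕ) + 1).factorial : ℂ) ≠ 0 := by
          exact_mod_cast Nat.factorial_ne_zero _
        have h3 : (((Fin.succAbove 0 l : Fin (m + 1)) : ℕ)) = (l : ℕ) + 1 := by
          rw [Fin.succAbove_zero, Fin.val_succ]
        rw [h3, mul_div_cancel₀ _ h2]
        rfl
      rw [h1, Matrix.det_mul_column, Matrix.det_transpose]
      unfold Wd at hWd
      rw [hWd]
      simp
    · rw [if_neg hi]
      simp
  unfold Wr
  rw [hTG, Matrix.det_mul, hdet, mul_zero]

end Pool.Agent.H78G
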