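import Pool.Agent.Lib.H78G.D2
import Pool.Agent.Lib.H78G.W0

set_option autoImplicit false

/-!
CHUNK D3A (M).  Weight of the Wronskian, general position.
-/

open MvPolynomial Real Pool.Agent.H67T

namespace Pool.Agent.H78G

open Pool.Agent.H89T

/-- CHUNK D3A.  Weight of the Wronskian: `m` factors `X (b, l + 1)`, `l < m`, of weight `≤ m + 1`. -/
theorem WdP_wt {m r : ℕ} (hr : m ≤ r) : HasWt ((m + 1) * m) (WdP (m := m) hr) := by
  classical
  have hinj : Function.Injective (Sum.inl : JV m r → JV m r ⊕ Empty) := Sum.inl_injective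
  have h1 : WtS ((m + 1) * m)
      (rename (Sum.inl : JV m r → JV m r ⊕ Empty) (WdP (m := m) hr)) := by
    have h2 := WtS.Wd (n := m) (r := r) (τ := Empty) hr
    have h3 : rename (Sum.inl : JV m r → JV m r ⊕ Empty) (WdP (m := m) hr) =
        Wd hr fun p => (X (Sum.inl p) : MvPolynomial (JV m r ⊕ Empty) ℂ) := by
      have h4 := Wd_map hr ((rename (R := ℂ) (Sum.inl : JV m r → JV m r ⊕ Empty)).toRingHom)
        (fun p => (X p : MvPolynomial (JV m r) ℂ))
      simp only [AlgHom.toRingHom_eq_coe, RingHom.coe_coe, rename_X] at h4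
      exact h4
    rw [h3]
    exact h2
  intro e he
  have h5 : Finsupp.mapDomain Sum.inl e ∈
      (rename (Sum.inl : JV m r → JV m r ⊕ Empty) (WdP (m := m) hr)).support := by
    rw [mem_support_iff, coeff_rename_mapDomain _ hinj]
    exact mem_support_iff.1 he
  have h6 := h1 _ h5
  simp only [Finsupp.mapDomain_apply hinj] at h6
  exact h6

theorem D3A_norm {n m : ℕ} (Lam : Matrix (Fin n) (Fin m) ℂ) :
    ∃ A : ℝ, 0 ≤ A ∧ ∀ v : Fin m → ℂ, ‖Lam.mulVec v‖ ≤ A * ‖v‖ := by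
  refine ⟨∑ l, ∑ b, ‖Lam l b‖, Finset.sum_nonneg fun _ _ => Finset.sum_nonneg fun _ _ =>
    norm_nonneg _, fun v => ?_⟩
  have h0 : 0 ≤ ∑ l, ∑ b, ‖Lam l b‖ := Finset.sum_nonneg fun _ _ => Finset.sum_nonneg fun _ _ =>
    norm_nonneg _
  rw [pi_norm_le_iff_of_nonneg (mul_nonneg h0 (norm_nonneg _))]
  intro l
  calc ‖Lam.mulVec v l‖ = ‖∑ b, Lam l b * v b‖ := rfl
    _ ≤ ∑ b, ‖Lam l b * v b‖ := norm_sum_le _ _
    _ ≤ ∑ b, ‖Lam l b‖ * ‖v‖ := by
        refine Finset.sum_le_sum fun b _ => ?_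
        rw [norm_mul]
        exact mul_le_mul_of_nonneg_left (norm_le_pi_norm v b) (norm_nonneg _)
    _ = (∑ b, ‖Lam l b‖) * ‖v‖ := by rw [Finset.sum_mul]
    _ ≤ (∑ l, ∑ b, ‖Lam l b‖) * ‖v‖ := by
        refine mul_le_mul_of_nonneg_right ?_ (norm_nonneg _)
        exact Finset.single_le_sum (f := fun l => ∑ b, ‖Lam l b‖)
          (fun _ _ => Finset.sum_nonneg fun _ _ => norm_nonneg _) (Finset.mem_univ l)

/-- CHUNK D3A.  General position: there is `δ > 0` such that for every `v ≠ 0` at most `m` of the forms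
satisfy `|θ_i (v)| < δ ‖v‖`.  Proof: for injective `f : Fin (m + 1) → ι` the linear map
`v ↦ (θ (f a) v)_a` is injective, hence `‖v‖ ≤ C_f max_a |θ (f a) v|` (inverse matrix, or
`LinearMap.exists_antilipschitzWith`); finitely many `f`. -/
theorem genpos_delta {m : ℕ} {ι : Type} [Fintype ι] {θ : ι → Fin (m + 1) → ℂ} (h : GenPos θ) :
    ∃ δ : ℝ, 0 < δ ∧ δ ≤ 1 ∧ ∀ v : Fin (m + 1) → ℂ, ∀ s : Finset ι,
      (∀ i ∈ s, ‖lin (θ i) v‖ < δ * ‖v‖) → s.card ≤ m := by
  classical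
  have h1 : ∀ f : Fin (m + 1) → ι, ∃ C : ℝ, 0 ≤ C ∧ (Function.Injective f →
      ∀ v : Fin (m + 1) → ℂ, ‖v‖ ≤ C * ‖fun a => lin (θ (f a)) v‖) := by
    intro f
    by_cases hf : Function.Injective f
    · obtain ⟨C, hC, hC'⟩ := D3A_norm (Matrix.of fun a b => θ (f a) b)⁻¹
      refine ⟨C, hC, fun _ v => ?_⟩
      have h2 := hC' (fun a => lin (θ (f a)) v)
      have h3 : (Matrix.of fun a b => θ (f a) b)⁻¹.mulVec (fun a => lin (θ (f a)) v) = v := by
        have h4 : (fun a => lin (θ (f a)) v) = (Matrix.of fun a b => θ (f a) b).mulVec v := rfl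
        rw [h4, Matrix.mulVec_mulVec, Matrix.nonsing_inv_mul _ (isUnit_iff_ne_zero.2 (h f hf)),
          Matrix.one_mulVec]
      rwa [h3] at h2
    · exact ⟨0, le_rfl, fun h => absurd h hf⟩
  choose C hC hC' using h1
  have hS : 0 ≤ ∑ f, C f := Finset.sum_nonneg fun f _ => hC f
  refine ⟨(1 + ∑ f, C f)⁻¹, by positivity, inv_le_one_of_one_le₀ (by linarith),
    fun v s hs => ?_⟩
  by_contra hcon
  push Not at hcon
  obtain ⟨t, hts, ht⟩ := Finset.exists_subset_card_eq (s := s) (n := m + 1) hcon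
  obtain ⟨f, hf⟩ : ∃ f : Fin (m + 1) → ι, f = fun a => ((t.equivFinOfCardEq ht).symm a : ι) :=
    ⟨_, rfl⟩
  have hfinj : Function.Injective f := by
    rw [hf]
    exact Subtype.val_injective.comp (t.equivFinOfCardEq ht).symm.injective
  have hft : ∀ a, f a ∈ s := fun a => by
    rw [hf]
    exact hts ((t.equivFinOfCardEq ht).symm a).2
  have hv : 0 < ‖v‖ := by
    have h2 := hs (f 0) (hft 0)
    by_contra h3
    have h4 : ‖v‖ = 0 := le_antisymm (not_lt.1 h3) (norm_nonneg _)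
    rw [h4, mul_zero] at h2
    exact absurd h2 (not_lt.2 (norm_nonneg _))
  have h2 := hC' f hfinj v
  have h3 : ‖fun a => lin (θ (f a)) v‖ ≤ (1 + ∑ f, C f)⁻¹ * ‖v‖ := by
    rw [pi_norm_le_iff_of_nonneg (by positivity)]
    exact fun a => (hs (f a) (hft a)).le
  have h4 : C f ≤ ∑ f, C f := Finset.single_le_sum (fun f _ => hC f) (Finset.mem_univ f)
  have h5 : ‖v‖ ≤ C f * ((1 + ∑ f, C f)⁻¹ * ‖v‖) :=
    h2.trans (mul_le_mul_of_nonneg_left h3 (hC f))
  have h6 : C f * (1 + ∑ f, C f)⁻¹ < 1 := by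
    rw [← div_eq_mul_inv, div_lt_one (by linarith)]
    linarith
  have h7 : C f * ((1 + ∑ f, C f)⁻¹ * ‖v‖) < ‖v‖ := by
    rw [← mul_assoc]
    exact mul_lt_of_lt_one_left hv h6
  linarith

end Pool.Agent.H78G
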