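import Pool.Agent.Lib.H78G.D4
import Pool.Agent.Lib.H78G.D3A

set_option autoImplicit false

/-!
CHUNK D7A (M).  The order of the auxiliary function.
-/

open MvPolynomial Real Pool.Agent.H67T

namespace Pool.Agent.H78G

open Pool.Agent.H89T

theorem D7A_order_prod {ι : Type*} (s : Finset ι) {f : ι → ℂ → ℂ} {z : ℂ}
    (hf : ∀ i ∈ s, AnalyticAt ℂ (f i) z) :
    analyticOrderAt (fun w => ∏ i ∈ s, f i w) z = ∑ i ∈ s, analyticOrderAt (f i) z := by
  classical
  induction s using Finset.induction_on with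
  | empty =>
    simp only [Finset.prod_empty, Finset.sum_empty]
    exact (analyticAt_const).analyticOrderAt_eq_zero.2 one_ne_zero
  | insert a s ha ih =>
    rw [Finset.sum_insert ha, ← ih fun i hi => hf i (Finset.mem_insert_of_mem hi)]
    have h1 : (fun w => ∏ i ∈ insert a s, f i w) = (f a) * fun w => ∏ i ∈ s, f i w := by
      funext w
      simp [Finset.prod_insert ha]
    rw [h1]
    refine analyticOrderAt_mul (hf a (Finset.mem_insert_self _ _)) ?_
    exact Finset.analyticAt_fun_prod s fun i hi => hf i (Finset.mem_insert_of_mem hi)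

/-- CHUNK D7A (M).  The auxiliary function
`Q = (∏ c, QQ y c ((m + 1) m) WdP) ^ r * (∏ e, Q_e) ^ (m ^ 2)` (`Q_e` from `exists_cross`; if `m = 1` the
second factor is omitted).  Order: let `k ≤ ord_z ∏ θ_i (y) = ∑ μ_i` (`μ_i = ord_z θ_i (y)`, finite by
`hθ0`); nothing to prove for `k ≤ 1`.  The first factor has order `≥ r ∑ (μ_i - m)⁺` (`order_Wd` in a
chart with `y z c ≠ 0`, `DF_order_QQ`).  At most `m` of the `μ_i` are `≥ 1` (`GenPos.card_le`), so
`∑ μ_i ≤ ∑ (μ_i - m)⁺ + m ^ 2`.  If `m ≥ 2` and `∑ μ_i ≥ 2` then either some `μ_i ≥ 2` or there are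
`i ≠ i'` with `μ_i, μ_i' ≥ 1`; by `hcov` there is `e` with `i, i'` in the range of `σ e`, and
`∏ θ_{σ e p} (y)` has order `≥ 2`, so `Q_e` has order `≥ r` and the second factor has order
`≥ m ^ 2 r`.  If `m = 1` then only one `μ_i` is `≥ 1` and `r ∑ (μ_i - 1)⁺ = r (∑ μ_i - 1)`. -/
theorem aux_order {m r : ℕ} (hm : 1 ≤ m) (hr : m ≤ r) {ι : Type} [Fintype ι] (D : CurveG m ι)
    {K : ℕ} {εI : Type} [Fintype εI] (σ : εI → Fin K → ι)
    (hcov : 2 ≤ m → ∀ i i' : ι, ∃ e, (∃ p, σ e p = i) ∧ ∃ p, σ e p = i')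
    (Qe : εI → ℂ → ℂ) (hQd : ∀ e, Differentiable ℂ (Qe e))
    (hQo : 2 ≤ m → ∀ e z, 2 ≤ analyticOrderAt (fun w => ∏ i, lin (D.θ (σ e i)) (D.y w)) z →
        (r : ℕ∞) ≤ analyticOrderAt (Qe e) z)
    (z : ℂ) (k : ℕ)
    (hk : (k : ℕ∞) ≤ analyticOrderAt (fun w => ∏ i, lin (D.θ i) (D.y w)) z) :
    ((r * (k - 1) : ℕ) : ℕ∞) ≤ analyticOrderAt (fun w =>
      (∏ c, QQ D.y c ((m + 1) * m) (WdP hr) w) ^ r * (∏ e, Qe e w) ^ (m ^ 2)) z := by
  classical
  have hld : ∀ i, Differentiable ℂ (fun w => lin (D.θ i) (D.y w)) := fun i => by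
    change Differentiable ℂ fun w => ∑ j, D.θ i j * D.y w j
    exact Differentiable.fun_sum fun j _ => (D.hy.diff j).const_mul _
  have hfin : ∀ i, ∃ μ : ℕ, analyticOrderAt (fun w => lin (D.θ i) (D.y w)) z = μ := fun i => by
    obtain ⟨μ, hμ⟩ := ENat.ne_top_iff_exists.1 (NJ1_ne_top (hld i) (D.hθ0 i) z)
    exact ⟨μ, hμ.symm⟩
  choose μ hμ using hfin
  have hk' : k ≤ ∑ i, μ i := by
    rw [D7A_order_prod _ fun i _ => (hld i).analyticAt z] at hk
    simp only [hμ] at hk
    exact_mod_cast hk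
  have hQQd : Differentiable ℂ (fun w => ∏ c, QQ D.y c ((m + 1) * m) (WdP hr) w) :=
    Differentiable.fun_finsetProd fun c _ => QQ_diff D.hy.diff c _ _
  have hQed : Differentiable ℂ (fun w => ∏ e, Qe e w) :=
    Differentiable.fun_finsetProd fun e _ => hQd e
  -- the first factor
  obtain ⟨c, hc⟩ : ∃ c, D.y z c ≠ 0 := by
    by_contra hcon
    push Not at hcon
    exact D.hy.ne_zero z (funext hcon)
  have h1 : ((∑ i, (μ i - m) : ℕ) : ℕ∞) ≤
      analyticOrderAt (fun w => ∏ c, QQ D.y c ((m + 1) * m) (WdP hr) w) z := by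
    refine le_trans ?_ (DF_order_prod Finset.univ (Finset.mem_univ c) fun c _ =>
      (QQ_diff D.hy.diff c _ _).analyticAt z)
    exact DF_order_QQ D.hy.diff c (WdP_wt hr) hc (order_Wd hr D c hc μ fun i => (hμ i).ge)
  have h2 := DF_order_pow (hQQd.analyticAt z) r h1
  -- at most `m` of the forms vanish
  obtain ⟨Z, hZ⟩ : ∃ Z : Finset ι, Z = Finset.univ.filter fun i => μ i ≠ 0 := ⟨_, rfl⟩
  have hZm : Z.card ≤ m := by
    refine GenPos.card_le D.gen (D.hy.ne_zero z) Z fun i hi => ?_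
    rw [hZ, Finset.mem_filter] at hi
    have h3 : analyticOrderAt (fun w => lin (D.θ i) (D.y w)) z ≠ 0 := by
      rw [hμ i]
      exact_mod_cast hi.2
    exact (((hld i).analyticAt z).analyticOrderAt_ne_zero).1 h3
  have hsum : ∑ i, μ i ≤ ∑ i, (μ i - m) + m ^ 2 := by
    have h3 : ∀ i, μ i ≤ (μ i - m) + if i ∈ Z then m else 0 := by
      intro i
      by_cases hi : i ∈ Z
      · rw [if_pos hi]
        omega
      · rw [if_neg hi]
        have : μ i = 0 := by
          rw [hZ, Finset.mem_filter] at hi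
          by_contra h
          exact hi ⟨Finset.mem_univ _, h⟩
        omega
    calc ∑ i, μ i ≤ ∑ i, ((μ i - m) + if i ∈ Z then m else 0) :=
          Finset.sum_le_sum fun i _ => h3 i
      _ = ∑ i, (μ i - m) + Z.card * m := by
          rw [Finset.sum_add_distrib, Finset.sum_ite_mem, Finset.univ_inter, Finset.sum_const,
            smul_eq_mul]
      _ ≤ _ := by
          have : Z.card * m ≤ m * m := Nat.mul_le_mul_right _ hZm
          rw [pow_two]
          omega
  rcases Nat.lt_or_ge k 2 with hk2 | hk2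
  · have : k - 1 = 0 := by omega
    simp [this]
  by_cases hm2 : 2 ≤ m
  · -- the second factor
    have hex : ∃ e, (r : ℕ∞) ≤ analyticOrderAt (Qe e) z := by
      have h3 : ∃ i i' : ι, (i = i' ∧ 2 ≤ μ i) ∨ (i ≠ i' ∧ 1 ≤ μ i ∧ 1 ≤ μ i') := by
        by_cases h4 : ∃ i, 2 ≤ μ i
        · obtain ⟨i, hi⟩ := h4
          exact ⟨i, i, Or.inl ⟨rfl, hi⟩⟩
        · push Not at h4
          have h5 : ∑ i, μ i ≤ Z.card := by
            calc ∑ i, μ i ≤ ∑ i, (if i ∈ Z then 1 else 0) := by
                  refine Finset.sum_le_sum fun i _ => ?_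
                  by_cases hi : i ∈ Z
                  · rw [if_pos hi]
                    have := h4 i
                    omega
                  · rw [if_neg hi]
                    rw [hZ, Finset.mem_filter] at hi
                    by_contra h
                    exact hi ⟨Finset.mem_univ _, by omega⟩
              _ = Z.card := by simp
          obtain ⟨i, hi, i', hi', hne⟩ := Finset.one_lt_card.1 (by omega : 1 < Z.card)
          rw [hZ, Finset.mem_filter] at hi hi'
          exact ⟨i, i', Or.inr ⟨hne, by omega, by omega⟩⟩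
      obtain ⟨i, i', h3⟩ := h3
      obtain ⟨e, ⟨p, hp⟩, p', hp'⟩ := hcov hm2 i i'
      refine ⟨e, hQo hm2 e z ?_⟩
      rw [D7A_order_prod _ fun q _ => (hld (σ e q)).analyticAt z]
      simp only [hμ]
      have h6 : 2 ≤ ∑ q, μ (σ e q) := by
        rcases h3 with ⟨-, h3⟩ | ⟨hne, h3, h4⟩
        · have h7 := Finset.single_le_sum (f := fun q => μ (σ e q)) (fun _ _ => Nat.zero_le _)
            (Finset.mem_univ p)
          rw [hp] at h7
          exact h3.trans h7
        · have hpp : p ≠ p' := by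
            rintro rfl
            exact hne (hp.symm.trans hp')
          have h7 : ∑ q ∈ ({p, p'} : Finset (Fin K)), μ (σ e q) ≤ ∑ q, μ (σ e q) :=
            Finset.sum_le_sum_of_subset (Finset.subset_univ _)
          rw [Finset.sum_pair hpp, hp, hp'] at h7
          omega
      exact_mod_cast h6
    obtain ⟨e, he⟩ := hex
    have h3 : (r : ℕ∞) ≤ analyticOrderAt (fun w => ∏ e, Qe e w) z :=
      he.trans (DF_order_prod Finset.univ (Finset.mem_univ e) fun e _ => (hQd e).analyticAt z)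
    have h4 := DF_order_pow (hQed.analyticAt z) (m ^ 2) h3
    have h5 : analyticOrderAt (fun w =>
        (∏ c, QQ D.y c ((m + 1) * m) (WdP hr) w) ^ r * (∏ e, Qe e w) ^ (m ^ 2)) z =
        analyticOrderAt (fun w => (∏ c, QQ D.y c ((m + 1) * m) (WdP hr) w) ^ r) z +
        analyticOrderAt (fun w => (∏ e, Qe e w) ^ (m ^ 2)) z :=
      analyticOrderAt_mul ((hQQd.analyticAt z).pow r) ((hQed.analyticAt z).pow (m ^ 2))
    rw [h5]
    refine le_trans ?_ (add_le_add h2 h4)
    have h6 : r * (k - 1) ≤ r * ∑ i, (μ i - m) + m ^ 2 * r := by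
      calc r * (k - 1) ≤ r * (∑ i, (μ i - m) + m ^ 2) := Nat.mul_le_mul_left _ (by omega)
        _ = _ := by ring
    exact_mod_cast h6
  · have hm1 : m = 1 := by omega
    subst hm1
    refine le_order_mul (le_trans ?_ h2) ((hQQd.analyticAt z).pow r)
      ((hQed.analyticAt z).pow (1 ^ 2))
    have h6 : r * (k - 1) ≤ r * ∑ i, (μ i - 1) := Nat.mul_le_mul_left _ (by omega)
    exact_mod_cast h6

end Pool.Agent.H78G
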