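import Pool.Agent.Lib.H78G.E3

set_option autoImplicit false

/-!
CHUNK E4 (M, combinatorics).  All but boundedly many blocks are good.
-/

open MvPolynomial

namespace Pool.Agent.H78G

/-- The hyperplane number `p` of the `t`-tuple of blocks `e`: block `e a`, place `b`, where `(a, b)`
corresponds to `p`. -/
def sig {t κ nb k : ℕ} (idx : Fin nb × Fin κ → Fin k) (e : Fin t ↪ Fin nb) (p : Fin (t * κ)) :
    Fin k :=
  idx (e (finProdFinEquiv.symm p).1, (finProdFinEquiv.symm p).2)

/-- The permutation of the coordinates which moves `c` to the place `0`. -/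
def perm {m : ℕ} (c : Fin (m + 1)) (b : Fin (m + 1)) : Fin (m + 1) :=
  Fin.cases c c.succAbove b

/-- CHUNK E4 (pure combinatorics).  A property `bad` of `t`-tuples of blocks such that no `s`
pairwise disjoint tuples are bad: there is a set `S` of at most `t (s - 1)` blocks meeting all bad
tuples.  Proof: take a family of pairwise disjoint bad tuples of maximal size (at most `s - 1`;
e.g. `Nat.findGreatest`, or finite maximal element) and for `S` the union of their ranges. -/
theorem exists_hitting {t nb s : ℕ} (hs : 1 ≤ s) (bad : (Fin t ↪ Fin nb) → Prop)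
    (h : ∀ E : Fin s → (Fin t ↪ Fin nb), (∀ i, bad (E i)) →
      ¬ Function.Injective fun p : Fin s × Fin t => E p.1 p.2) :
    ∃ S : Finset (Fin nb), S.card ≤ t * (s - 1) ∧ ∀ e : Fin t ↪ Fin nb, bad e →
      ∃ a, e a ∈ S := by
  classical
  let P : ℕ → Prop := fun j => ∃ E : Fin j → (Fin t ↪ Fin nb), (∀ i, bad (E i)) ∧
    Function.Injective fun p : Fin j × Fin t => E p.1 p.2
  have hP0 : P 0 := ⟨Fin.elim0, fun i => i.elim0, fun p => p.1.elim0⟩
  have hPs : ¬ P s := by
    rintro ⟨E, h1, h2⟩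
    exact h E h1 h2
  have hex : ∃ j, ¬ P j := ⟨s, hPs⟩
  have hj1 := Nat.find_spec hex
  have hj2 : Nat.find hex ≤ s := Nat.find_min' hex hPs
  have hj0 : Nat.find hex ≠ 0 := by
    intro h0
    rw [h0] at hj1
    exact hj1 hP0
  obtain ⟨j, hj⟩ := Nat.exists_eq_succ_of_ne_zero hj0
  rw [hj] at hj1 hj2
  have hPj : P j := by
    by_contra h1
    have h2 := Nat.find_min' hex h1
    omega
  obtain ⟨E, hE1, hE2⟩ := hPj
  refine ⟨Finset.univ.image fun p : Fin j × Fin t => E p.1 p.2, ?_, ?_⟩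
  · refine Finset.card_image_le.trans ?_
    rw [Finset.card_univ, Fintype.card_prod, Fintype.card_fin, Fintype.card_fin, mul_comm]
    exact Nat.mul_le_mul_left t (by omega)
  · intro e he
    by_contra hno
    push Not at hno
    apply hj1
    refine ⟨Fin.cons e E, ?_, ?_⟩
    · intro i
      refine Fin.cases ?_ ?_ i
      · simpa using he
      · intro i
        simpa using hE1 i
    · rintro ⟨i, a⟩ ⟨i', a'⟩ hii
      have hmem : ∀ (i : Fin j) (a : Fin t),
          E i a ∈ Finset.univ.image fun p : Fin j × Fin t => E p.1 p.2 := fun i a =>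
        Finset.mem_image.mpr ⟨(i, a), Finset.mem_univ _, rfl⟩
      revert hii
      refine Fin.cases ?_ ?_ i
      · refine Fin.cases ?_ ?_ i'
        · intro hii
          simp only [Fin.cons_zero] at hii
          rw [e.injective hii]
        · intro i' hii
          simp only [Fin.cons_zero, Fin.cons_succ] at hii
          exact absurd (hii ▸ hmem i' a') (hno a)
      · intro i
        refine Fin.cases ?_ ?_ i'
        · intro hii
          simp only [Fin.cons_zero, Fin.cons_succ] at hii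
          exact absurd (hii ▸ hmem i a) (hno a')
        · intro i' hii
          simp only [Fin.cons_succ] at hii
          have h1 := hE2 (a₁ := (i, a)) (a₂ := (i', a')) hii
          rw [Prod.mk.injEq] at h1
          rw [h1.1, h1.2]

theorem E4_sig_inj {t κ nb k s : ℕ} {idx : Fin nb × Fin κ → Fin k}
    (hidx : Function.Injective idx) (E : Fin s → (Fin t ↪ Fin nb))
    (hE : Function.Injective fun p : Fin s × Fin t => E p.1 p.2) :
    Function.Injective fun p : Fin s × Fin (t * κ) => sig idx (E p.1) p.2 := by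
  rintro ⟨i, p⟩ ⟨i', p'⟩ h
  have h1 := hidx h
  rw [Prod.mk.injEq] at h1
  have h2 := hE (a₁ := (i, (finProdFinEquiv.symm p).1)) (a₂ := (i', (finProdFinEquiv.symm p').1))
    h1.1
  rw [Prod.mk.injEq] at h2
  have h3 : p = p' := finProdFinEquiv.symm.injective (Prod.ext h2.2 h1.2)
  rw [h2.1, h3]

/-- CHUNK E4.  Proof.  Let `s = 2 (m + 1) (n + 1) + 1`.  For every `E : Fin s → (Fin t ↪ Fin nb)`
with disjoint ranges apply `elim` to `σ j = sig idx (E j)` (injective because `idx`, the `E j` and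
`finProdFinEquiv` are); `Ξ` = the product of the finitely many polynomials obtained.  Then for
`Ξ (η) ≠ 0` and given `Lam`, `Lb` use `exists_hitting` with `bad e` iff the value is `0`. -/
theorem exists_blocks {n m t κ nb k : ℕ} (ht : 1 ≤ t) (idx : Fin nb × Fin κ → Fin k)
    (hidx : Function.Injective idx) (Θ : MvPolynomial (Fin (t * κ) × Fin (m + 1)) ℂ)
    (hΘ : Θ ≠ 0) :
    ∃ Ξ : MvPolynomial (Fin k × Fin (n + 1)) ℂ, Ξ ≠ 0 ∧ ∀ η : Fin k × Fin (n + 1) → ℂ,
      eval η Ξ ≠ 0 → ∀ (Lam : Matrix (Fin (n + 1)) (Fin (m + 1)) ℂ)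
        (Lb : Matrix (Fin (m + 1)) (Fin (n + 1)) ℂ), Lb * Lam = 1 →
        ∃ S : Finset (Fin nb), S.card ≤ t * (2 * ((m + 1) * (n + 1))) ∧
          ∀ e : Fin t ↪ Fin nb, (∀ a, e a ∉ S) →
            eval (fun p : Fin (t * κ) × Fin (m + 1) =>
              ∑ l, η (sig idx e p.1, l) * Lam l p.2) Θ ≠ 0 := by
  classical
  have key : ∀ E : Fin (2 * ((m + 1) * (n + 1)) + 1) → (Fin t ↪ Fin nb),
      ∃ Ξ : MvPolynomial (Fin k × Fin (n + 1)) ℂ, Ξ ≠ 0 ∧
        ((Function.Injective fun p : Fin (2 * ((m + 1) * (n + 1)) + 1) × Fin t => E p.1 p.2) →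
        ∀ η : Fin k × Fin (n + 1) → ℂ,
        eval η Ξ ≠ 0 → ∀ (Lam : Matrix (Fin (n + 1)) (Fin (m + 1)) ℂ)
        (Lb : Matrix (Fin (m + 1)) (Fin (n + 1)) ℂ), Lb * Lam = 1 →
        ∃ j, eval (fun p : Fin (t * κ) × Fin (m + 1) =>
          ∑ l, η (sig idx (E j) p.1, l) * Lam l p.2) Θ ≠ 0) := by
    intro E
    by_cases hE : Function.Injective
        fun p : Fin (2 * ((m + 1) * (n + 1)) + 1) × Fin t => E p.1 p.2
    · obtain ⟨Ξ, h1, h2⟩ := elim (Nat.lt_succ_self (2 * ((m + 1) * (n + 1)))) Θ hΘ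
        (fun j p => sig idx (E j) p) (E4_sig_inj hidx E hE)
      exact ⟨Ξ, h1, fun _ => h2⟩
    · exact ⟨1, one_ne_zero, fun h => absurd h hE⟩
  choose Ξ hΞ0 hΞ using key
  refine ⟨∏ E, Ξ E, Finset.prod_ne_zero_iff.mpr fun E _ => hΞ0 E, ?_⟩
  intro η hη Lam Lb hL
  rw [map_prod, Finset.prod_ne_zero_iff] at hη
  obtain ⟨S, hS1, hS2⟩ := exists_hitting (t := t) (nb := nb)
    (s := 2 * ((m + 1) * (n + 1)) + 1) (by omega)
    (fun e => eval (fun p : Fin (t * κ) × Fin (m + 1) =>
      ∑ l, η (sig idx e p.1, l) * Lam l p.2) Θ = 0) (by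
      intro E hbad hinj
      obtain ⟨j, hj⟩ := hΞ E hinj η (hη E (Finset.mem_univ _)) Lam Lb hL
      exact hj (hbad j))
  refine ⟨S, hS1, ?_⟩
  intro e he h0
  obtain ⟨a, ha⟩ := hS2 e h0
  exact he a ha

theorem E4_perm_inj {m : ℕ} (c : Fin (m + 1)) : Function.Injective (perm c) := by
  intro b b'
  refine Fin.cases ?_ ?_ b
  · refine Fin.cases (fun _ => rfl) ?_ b'
    intro b' h
    exact absurd h.symm (Fin.succAbove_ne c b')
  · intro b
    refine Fin.cases ?_ ?_ b'
    · intro h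
      exact absurd h (Fin.succAbove_ne c b)
    · intro b' h
      have h1 : b = b' := Fin.succAbove_right_injective (p := c) h
      rw [h1]

/-- CHUNK E4.  The same in all charts `c`: apply `exists_blocks` to the matrices
`Lam.submatrix id (perm c)` (left inverse `Lb.submatrix (perm c) id`; `perm c` is bijective) and take
the union of the `m + 1` sets. -/
theorem exists_blocks_charts {n m t κ nb k : ℕ} (ht : 1 ≤ t) (idx : Fin nb × Fin κ → Fin k)
    (hidx : Function.Injective idx) (Θ : MvPolynomial (Fin (t * κ) × Fin (m + 1)) ℂ)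
    (hΘ : Θ ≠ 0) :
    ∃ Ξ : MvPolynomial (Fin k × Fin (n + 1)) ℂ, Ξ ≠ 0 ∧ ∀ η : Fin k × Fin (n + 1) → ℂ,
      eval η Ξ ≠ 0 → ∀ (Lam : Matrix (Fin (n + 1)) (Fin (m + 1)) ℂ)
        (Lb : Matrix (Fin (m + 1)) (Fin (n + 1)) ℂ), Lb * Lam = 1 →
        ∃ S : Finset (Fin nb), S.card ≤ (m + 1) * (t * (2 * ((m + 1) * (n + 1)))) ∧
          ∀ e : Fin t ↪ Fin nb, (∀ a, e a ∉ S) → ∀ c : Fin (m + 1),
            eval (fun p : Fin (t * κ) × Fin (m + 1) =>
              ∑ l, η (sig idx e p.1, l) * Lam l (perm c p.2)) Θ ≠ 0 := by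
  classical
  obtain ⟨Ξ, h1, h2⟩ := exists_blocks (n := n) ht idx hidx Θ hΘ
  refine ⟨Ξ, h1, fun η hη Lam Lb hL => ?_⟩
  have h3 : ∀ c : Fin (m + 1), ∃ S : Finset (Fin nb), S.card ≤ t * (2 * ((m + 1) * (n + 1))) ∧
      ∀ e : Fin t ↪ Fin nb, (∀ a, e a ∉ S) →
        eval (fun p : Fin (t * κ) × Fin (m + 1) =>
          ∑ l, η (sig idx e p.1, l) * Lam l (perm c p.2)) Θ ≠ 0 := by
    intro c
    refine h2 η hη (Lam.submatrix id (perm c)) (Lb.submatrix (perm c) id) ?_
    have h4 : Lb.submatrix (perm c) id * Lam.submatrix id (perm c) =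
        (Lb * Lam).submatrix (perm c) (perm c) := by
      ext i j
      simp [Matrix.mul_apply]
    rw [h4, hL]
    ext i j
    rw [Matrix.submatrix_apply, Matrix.one_apply, Matrix.one_apply]
    simp [(E4_perm_inj c).eq_iff]
  choose S hS1 hS2 using h3
  refine ⟨Finset.univ.biUnion S, ?_, ?_⟩
  · refine (Finset.card_biUnion_le_card_mul _ _ _ fun c _ => hS1 c).trans ?_
    rw [Finset.card_univ, Fintype.card_fin]
  · intro e he c
    refine hS2 c e fun a ha => he a ?_
    exact Finset.mem_biUnion.mpr ⟨c, Finset.mem_univ _, ha⟩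

end Pool.Agent.H78G
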