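import Mathlib

set_option autoImplicit false

/-!
CHUNK E5 (S/M, pure Mathlib).  General position is an open condition.
-/

open MvPolynomial

namespace Pool.Agent.H78G

/-- Any `m + 1` of the linear forms are linearly independent. -/
def GenPos {ι : Type} {m : ℕ} (θ : ι → Fin (m + 1) → ℂ) : Prop :=
  ∀ f : Fin (m + 1) → ι, Function.Injective f →
    Matrix.det (Matrix.of fun a b => θ (f a) b) ≠ 0

/-- CHUNK E5.  Proof: the product over the injective maps `f : Fin (m + 1) → Fin K` of
`det (X (f a, b))`, which is not `0` (evaluate at a point where `(f a, b) ↦ [a = b]`). -/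
theorem exists_genpos (K m : ℕ) : ∃ Θ : MvPolynomial (Fin K × Fin (m + 1)) ℂ, Θ ≠ 0 ∧
    ∀ h : Fin K × Fin (m + 1) → ℂ, eval h Θ ≠ 0 → GenPos fun i j => h (i, j) := by
  classical
  set M : (Fin (m + 1) → Fin K) →
      Matrix (Fin (m + 1)) (Fin (m + 1)) (MvPolynomial (Fin K × Fin (m + 1)) ℂ) :=
    fun f => Matrix.of fun a b => X (f a, b) with hM
  have hev : ∀ (f : Fin (m + 1) → Fin K) (h : Fin K × Fin (m + 1) → ℂ),
      eval h (M f).det = Matrix.det (Matrix.of fun a b => h (f a, b)) := by
    intro f h
    rw [RingHom.map_det]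
    congr 1
    ext a b
    simp [hM]
  refine ⟨∏ f ∈ Finset.univ.filter (fun f : Fin (m + 1) → Fin K => Function.Injective f),
    (M f).det, ?_, ?_⟩
  · rw [Finset.prod_ne_zero_iff]
    intro f hf
    rw [Finset.mem_filter] at hf
    intro h0
    have h1 := hev f (fun p => if f p.2 = p.1 then 1 else 0)
    rw [h0, map_zero] at h1
    have h2 : (Matrix.of fun a b : Fin (m + 1) =>
        (fun p : Fin K × Fin (m + 1) => if f p.2 = p.1 then (1 : ℂ) else 0) (f a, b)) = 1 := by
      ext a b
      simp only [Matrix.of_apply, Matrix.one_apply]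
      by_cases hab : a = b
      · simp [hab]
      · rw [if_neg, if_neg hab]
        intro h
        exact hab (hf.2 h).symm
    rw [h2, Matrix.det_one] at h1
    exact zero_ne_one h1
  · intro h hh f hf
    rw [map_prod, Finset.prod_ne_zero_iff] at hh
    have := hh f (by simp [hf])
    rw [hev] at this
    exact this

/-- CHUNK E5.  General position does not depend on the order of the coordinates (`π` bijective:
`Matrix.det_submatrix...`, `Matrix.det_permute'`). -/
theorem GenPos.of_perm {ι : Type} {m : ℕ} {θ : ι → Fin (m + 1) → ℂ} (π : Equiv.Perm (Fin (m + 1)))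
    (h : GenPos fun i j => θ i (π j)) : GenPos θ := by
  intro f hf h0
  refine h f hf ?_
  have h1 := Matrix.det_permute' π (Matrix.of fun a b : Fin (m + 1) => θ (f a) b)
  rw [h0, mul_zero] at h1
  exact h1

end Pool.Agent.H78G
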