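import Pool.Agent.Lib.H78G.PC
import Pool.Agent.Lib.H78G.E4
import Pool.Agent.Lib.H78G.E5

set_option autoImplicit false

/-!
H78G, Part D (analysis): definitions.  `y : ℂ → Fin (m + 1) → ℂ` is a reduced representation of an
entire curve in `ℙᵐ`, `θ : ι → Fin (m + 1) → ℂ` a finite family of linear forms (hyperplanes).
-/

open MvPolynomial Filter Topology

namespace Pool.Agent.H78G

open Pool.Agent.H89T Pool.Agent.H67T

/-- The coefficients of the linear forms in the chart `c`. -/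
def chartH {m K : ℕ} (θ : Fin K → Fin (m + 1) → ℂ) (c : Fin (m + 1)) : HV m K → ℂ :=
  fun s => θ s.1 (perm c s.2)

/-- One plus the sum of the (norms of the) higher logarithmic derivatives up to order `L` of the
quotients `y_j / y_c` and `θ_i (y) / y_c`. -/
noncomputable def LamG {m : ℕ} {ι : Type} [Fintype ι] (y : ℂ → Fin (m + 1) → ℂ)
    (θ : ι → Fin (m + 1) → ℂ) (L : ℕ) (z : ℂ) : ℝ :=
  1 + ∑ c : Fin (m + 1), ∑ j : Fin (m + 1), ∑ l : Fin (L + 1),
      ‖iteratedDeriv (l : ℕ) (fun w => y w j / y w c) z / (y z j / y z c)‖ +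
    ∑ c : Fin (m + 1), ∑ i : ι, ∑ l : Fin (L + 1),
      ‖iteratedDeriv (l : ℕ) (fun w => lin (θ i) (y w) / y w c) z / (lin (θ i) (y z) / y z c)‖

/-- The Wronskian determinant as a polynomial in the jets. -/
noncomputable def WdP {m r : ℕ} (hr : m ≤ r) : MvPolynomial (JV m r) ℂ := Wd hr fun p => X p

/-- The points where no coordinate and no form of the family vanishes. -/
def Good {m : ℕ} {ι : Type} (y : ℂ → Fin (m + 1) → ℂ) (θ : ι → Fin (m + 1) → ℂ) (z : ℂ) : Prop :=
  (∀ j, y z j ≠ 0) ∧ ∀ i, lin (θ i) (y z) ≠ 0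

/-- Data of one nondegenerate curve and of a family of hyperplanes in general position. -/
structure CurveG (m : ℕ) (ι : Type) [Fintype ι] where
  /-- the curve -/
  y : ℂ → Fin (m + 1) → ℂ
  /-- the linear forms -/
  θ : ι → Fin (m + 1) → ℂ
  hy : IsHol y
  hy0 : ∀ c, ∃ z, y z c ≠ 0
  hθ0 : ∀ i, ∃ z, lin (θ i) (y z) ≠ 0
  gen : GenPos θ
  card : m + 1 ≤ Fintype.card ι

/-- The full Wronskian `det (y_j ^ (l))`. -/
noncomputable def Wr {m : ℕ} (y : ℂ → Fin (m + 1) → ℂ) (z : ℂ) : ℂ :=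
  Matrix.det (Matrix.of fun l j : Fin (m + 1) => iteratedDeriv (l : ℕ) (fun w => y w j) z)

end Pool.Agent.H78G
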