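import Pool.Agent.Lib.H78G.DD

set_option autoImplicit false

/-!
CHUNK D5A (M/L).  The Wronskian of linearly independent entire functions.
-/

open MvPolynomial Real Pool.Agent.H67T

namespace Pool.Agent.H78G

open Pool.Agent.H89T

/-- Wronskian matrix -/
noncomputable def D5A_A {m : ℕ} (Y : Fin (m + 1) → ℂ → ℂ) (z : ℂ) :
    Matrix (Fin (m + 1)) (Fin (m + 1)) ℂ :=
  Matrix.of fun l j => iteratedDeriv (l : ℕ) (Y j) z

theorem D5A_diff {f : ℂ → ℂ} (hf : Differentiable ℂ f) (l : ℕ) :
    Differentiable ℂ (iteratedDeriv l f) := by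
  have h : ContDiff ℂ ((l + 1 : ℕ) : WithTop ℕ∞) f := hf.contDiff
  exact h.differentiable_iteratedDeriv l (by exact_mod_cast Nat.lt_succ_self l)

theorem D5A_hasDeriv {f : ℂ → ℂ} (hf : Differentiable ℂ f) (l : ℕ) (z : ℂ) :
    HasDerivAt (iteratedDeriv l f) (iteratedDeriv (l + 1) f z) z := by
  rw [iteratedDeriv_succ]
  exact ((D5A_diff hf l) z).hasDerivAt

theorem D5A_det_diff {n : ℕ} {M : ℂ → Matrix (Fin n) (Fin n) ℂ}
    (hM : ∀ i j, Differentiable ℂ fun z => M z i j) : Differentiable ℂ fun z => (M z).det := by
  simp only [Matrix.det_apply']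
  refine Differentiable.fun_sum fun σ _ => ?_
  refine Differentiable.const_mul ?_ _
  exact Differentiable.fun_finsetProd fun i _ => hM _ _

theorem D5A_main : ∀ (m : ℕ) (Y : Fin (m + 1) → ℂ → ℂ), (∀ j, Differentiable ℂ (Y j)) →
    (∀ z, (D5A_A Y z).det = 0) → ∃ lam : Fin (m + 1) → ℂ, lam ≠ 0 ∧ ∀ z, ∑ j, lam j * Y j z = 0 := by
  intro m
  induction m with
  | zero =>
    intro Y _ h
    refine ⟨fun _ => 1, fun h0 => ?_, fun z => ?_⟩
    · have := congrFun h0 0
      simp at this
    · have h1 := h z
      rw [Matrix.det_fin_one] at h1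
      simpa [D5A_A] using h1
  | succ m ih =>
    intro Y hY hdet
    let Yt : Fin (m + 1) → ℂ → ℂ := fun j => Y j.succ
    by_cases hcase : ∀ z, (D5A_A Yt z).det = 0
    · obtain ⟨lam, hlam, hsum⟩ := ih Yt (fun j => hY _) hcase
      refine ⟨Fin.cons 0 lam, fun h0 => hlam ?_, fun z => ?_⟩
      · funext j
        have := congrFun h0 j.succ
        simpa using this
      · rw [Fin.sum_univ_succ]
        simp only [Fin.cons_zero, zero_mul, Fin.cons_succ, zero_add]
        exact hsum z
    · push Not at hcase
      obtain ⟨z₀, hz₀⟩ := hcase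
      let A : ℂ → Matrix (Fin (m + 2)) (Fin (m + 2)) ℂ := fun z => D5A_A Y z
      let c : Fin (m + 2) → ℂ → ℂ := fun b z => (A z).adjugate b (Fin.last (m + 1))
      have hc_eq : ∀ b z, c b z = (-1) ^ ((Fin.last (m + 1) : Fin (m + 2)) + b : ℕ) *
          ((A z).submatrix (Fin.last (m + 1)).succAbove b.succAbove).det := by
        intro b z
        exact Matrix.adjugate_fin_succ_eq_det_submatrix (A z) b (Fin.last (m + 1))
      have hcd : ∀ b, Differentiable ℂ (c b) := by
        intro b
        have : c b = fun z => (-1) ^ ((Fin.last (m + 1) : Fin (m + 2)) + b : ℕ) *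
          ((A z).submatrix (Fin.last (m + 1)).succAbove b.succAbove).det := funext (hc_eq b)
        rw [this]
        refine Differentiable.const_mul (D5A_det_diff fun i j => ?_) _
        exact D5A_diff (hY _) _
      have hc0 : ∀ z, c 0 z = (-1) ^ ((Fin.last (m + 1) : Fin (m + 2)) + (0 : Fin (m + 2)) : ℕ) *
          (D5A_A Yt z).det := by
        intro z
        rw [hc_eq 0 z]
        congr 2
        ext l j
        simp [A, D5A_A, Yt, Fin.succAbove_last]
      have hc0' : ∀ z, c 0 z ≠ 0 → (D5A_A Yt z).det ≠ 0 := by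
        intro z hz h0
        apply hz
        rw [hc0 z, h0, mul_zero]
      have hz₀' : c 0 z₀ ≠ 0 := by
        rw [hc0 z₀]
        exact mul_ne_zero (pow_ne_zero _ (by norm_num)) hz₀
      have hrow : ∀ (l : Fin (m + 2)) (z : ℂ), ∑ b, iteratedDeriv (l : ℕ) (Y b) z * c b z = 0 := by
        intro l z
        have h1 := congrFun (congrFun (Matrix.mul_adjugate (A z)) l) (Fin.last (m + 1))
        rw [hdet z, zero_smul, Matrix.mul_apply] at h1
        simpa [A, D5A_A, c] using h1
      have hrow' : ∀ (l : Fin (m + 1)) (z : ℂ),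
          ∑ b, iteratedDeriv (l : ℕ) (Y b) z * deriv (c b) z = 0 := by
        intro l z
        have h1 : HasDerivAt (fun z => ∑ b, iteratedDeriv (l : ℕ) (Y b) z * c b z)
            (∑ b, (iteratedDeriv ((l : ℕ) + 1) (Y b) z * c b z +
              iteratedDeriv (l : ℕ) (Y b) z * deriv (c b) z)) z := by
          refine HasDerivAt.fun_sum fun b _ => ?_
          exact (D5A_hasDeriv (hY b) (l : ℕ) z).mul ((hcd b) z).hasDerivAt
        have h2 : (fun z => ∑ b, iteratedDeriv (l : ℕ) (Y b) z * c b z) = fun _ => 0 := by
          funext w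
          have := hrow l.castSucc w
          simpa using this
        rw [h2] at h1
        have h3 := h1.unique (hasDerivAt_const z (0 : ℂ))
        rw [Finset.sum_add_distrib] at h3
        have h4 := hrow l.succ z
        simp only [Fin.val_succ] at h4
        rw [h4, zero_add] at h3
        exact h3
      have he : ∀ (b : Fin (m + 1)) (z : ℂ), c 0 z ≠ 0 →
          c 0 z * deriv (c b.succ) z - deriv (c 0) z * c b.succ z = 0 := by
        intro b z hz
        let e : Fin (m + 1) → ℂ := fun b => c 0 z * deriv (c b.succ) z - deriv (c 0) z * c b.succ z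
        have hmul : (D5A_A Yt z).mulVec e = 0 := by
          funext l
          simp only [Matrix.mulVec, dotProduct, Pi.zero_apply]
          have h1 := hrow' l z
          have h2 := hrow l.castSucc z
          rw [Fin.sum_univ_succ] at h1 h2
          simp only [Fin.val_castSucc] at h2
          have h3 : ∑ x, D5A_A Yt z l x * e x =
              c 0 z * (∑ i : Fin (m + 1), iteratedDeriv (l : ℕ) (Y i.succ) z * deriv (c i.succ) z) -
              deriv (c 0) z * (∑ i : Fin (m + 1), iteratedDeriv (l : ℕ) (Y i.succ) z * c i.succ z) := by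
            rw [Finset.mul_sum, Finset.mul_sum, ← Finset.sum_sub_distrib]
            refine Finset.sum_congr rfl fun x _ => ?_
            simp only [D5A_A, Matrix.of_apply, Yt, e]
            ring
          rw [h3]
          linear_combination c 0 z * h1 - deriv (c 0) z * h2
        have h0 : e = 0 := Matrix.eq_zero_of_mulVec_eq_zero (hc0' z hz) hmul
        exact congrFun h0 b
      -- a ball on which `c 0 ≠ 0`
      have hev : ∀ᶠ z in nhds z₀, c 0 z ≠ 0 := ((hcd 0).continuous.continuousAt).eventually_ne hz₀'
      obtain ⟨ε, hε, hball⟩ := Metric.eventually_nhds_iff_ball.mp hev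
      have hconst : ∀ (b : Fin (m + 1)), ∀ z ∈ Metric.ball z₀ ε,
          c b.succ z / c 0 z = c b.succ z₀ / c 0 z₀ := by
        intro b z hz
        refine Metric.isOpen_ball.is_const_of_deriv_eq_zero (f := fun z => c b.succ z / c 0 z)
          (convex_ball z₀ ε).isPreconnected ?_ ?_ hz (Metric.mem_ball_self hε)
        · exact fun w hw => (((hcd b.succ) w).div ((hcd 0) w) (hball w hw)).differentiableWithinAt
        · intro w hw
          have h1 := hball w hw
          have h2 := (((hcd b.succ) w).hasDerivAt.div ((hcd 0) w).hasDerivAt h1).deriv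
          simp only [Pi.zero_apply]
          have h3 : deriv (fun z => c b.succ z / c 0 z) w = _ := h2
          rw [h3]
          have h4 := he b w h1
          have h5 : deriv (c b.succ) w * c 0 w - c b.succ w * deriv (c 0) w = 0 := by
            linear_combination h4
          rw [h5, zero_div]
      refine ⟨Fin.cons 1 fun b => c b.succ z₀ / c 0 z₀, fun h0 => ?_, ?_⟩
      · have := congrFun h0 0
        simp at this
      · have hfun : (fun z => ∑ j, (Fin.cons 1 (fun b => c b.succ z₀ / c 0 z₀) :
            Fin (m + 2) → ℂ) j * Y j z) = fun _ => 0 := by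
          have hd : Differentiable ℂ (fun z => ∑ j, (Fin.cons 1 (fun b => c b.succ z₀ / c 0 z₀) :
              Fin (m + 2) → ℂ) j * Y j z) :=
            Differentiable.fun_sum fun j _ => (hY j).const_mul _
          have ha : AnalyticOnNhd ℂ (fun z => ∑ j, (Fin.cons 1 (fun b => c b.succ z₀ / c 0 z₀) :
              Fin (m + 2) → ℂ) j * Y j z) Set.univ := fun w _ => hd.analyticAt w
          have hz : AnalyticOnNhd ℂ (fun _ : ℂ => (0 : ℂ)) Set.univ := fun w _ => analyticAt_const
          refine ha.eq_of_eventuallyEq hz (z₀ := z₀) ?_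
          filter_upwards [Metric.ball_mem_nhds z₀ hε] with z hzb
          rw [Fin.sum_univ_succ]
          simp only [Fin.cons_zero, Fin.cons_succ, one_mul]
          have h1 := hrow 0 z
          rw [Fin.sum_univ_succ] at h1
          simp only [Fin.val_zero, iteratedDeriv_zero] at h1
          have h2 := hball z hzb
          have h3 : ∑ i : Fin (m + 1), c i.succ z₀ / c 0 z₀ * Y i.succ z =
              (∑ i : Fin (m + 1), Y i.succ z * c i.succ z) / c 0 z := by
            rw [Finset.sum_div]
            refine Finset.sum_congr rfl fun i _ => ?_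
            rw [← hconst i z hzb]
            ring
          rw [h3]
          have h4 : ∑ i : Fin (m + 1), Y i.succ z * c i.succ z = - (Y 0 z * c 0 z) := by
            linear_combination h1
          rw [h4]
          field_simp
          ring
        exact fun z => congrFun hfun z

/-- CHUNK D5A (M/L).  Entire functions with identically vanishing Wronskian are linearly dependent.

Proof by induction on `m` (number of functions `m + 1`).  For `m = 0`: `y_0 = 0`.  Step: let
`y_0, ..., y_{m+1}` have `Wr = 0`.  If the Wronskian of `y_1, ..., y_{m+1}` vanishes identically, use the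
induction hypothesis.  Otherwise let `c_b (z)` be the cofactors of the last row `l = m + 1` (up to sign the
minors with rows `0..m` and the column `b` deleted), entire functions with
`∑ b, c_b y_b ^ (l) = 0` for `l = 0, ..., m` (determinant with two equal rows) and for `l = m + 1`
(`Wr = 0`), and `c_0 ≢ 0`.  Differentiating for `l ≤ m`: `∑ b, c_b' y_b ^ (l) = 0`, so
`∑ b ≥ 1, (c_0 c_b' - c_0' c_b) y_b ^ (l) = 0` for `l = 0, ..., m`; the determinant of this system is
`± c_0 ≢ 0`, so `c_0 c_b' = c_0' c_b` where `c_0 ≠ 0`.  On a ball where `c_0 ≠ 0` the quotient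
`c_b / c_0` is a constant `λ_b`; `∑ λ_b y_b = 0` on the ball (`l = 0`), hence everywhere
(identity theorem), and `λ_0 = 1`. -/
theorem wronskian_ne {m : ℕ} {y : ℂ → Fin (m + 1) → ℂ}
    (hy : ∀ j, Differentiable ℂ fun z => y z j)
    (hind : ∀ lam : Fin (m + 1) → ℂ, (∀ z, ∑ j, lam j * y z j = 0) → lam = 0) :
    ∃ z, Wr y z ≠ 0 := by
  by_contra hcon
  push Not at hcon
  obtain ⟨lam, hlam, hsum⟩ := D5A_main m (fun j z => y z j) hy fun z => hcon z
  exact hlam (hind lam hsum)

end Pool.Agent.H78G
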