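import Pool.Agent.Lib.H67T.Defs

set_option autoImplicit false

/-!
CHUNK F1A (M, linear algebra).  The linear span of a curve.
-/

open MvPolynomial Real Pool.Agent.H67T

namespace Pool.Agent.H78G

/-- CHUNK F1A (M).  The linear span of the curve.  Proof: `V = span {y z}`, `dim V = m + 1` with
`m ≥ 1` (not constant) and `m ≤ n`; the columns of `Lam` are a basis of `V`, `Lb` is a left inverse
(`LinearMap.exists_leftInverse_of_injective`, `LinearMap.toMatrix'`), `w z = Lb y z`.  If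
`∑ lam j * w z j = 0` for all `z` then the linear form `lam ∘ Lb` vanishes on `V`, and
`lam = (lam ∘ Lb) ∘ Lam = 0`. -/
theorem exists_span {n : ℕ} {y : ℂ → Fin (n + 1) → ℂ} (hy : IsHol y)
    (hnc : ∃ z w, ∀ c : ℂ, y w ≠ c • y z) :
    ∃ (m : ℕ) (Lam : Matrix (Fin (n + 1)) (Fin (m + 1)) ℂ)
      (Lb : Matrix (Fin (m + 1)) (Fin (n + 1)) ℂ), 1 ≤ m ∧ m ≤ n ∧ Lb * Lam = 1 ∧
      (∀ z, Lam.mulVec (Lb.mulVec (y z)) = y z) ∧
      ∀ lam : Fin (m + 1) → ℂ, (∀ z, ∑ j, lam j * Lb.mulVec (y z) j = 0) → lam = 0 := by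
  classical
  set V : Submodule ℂ (Fin (n + 1) → ℂ) := Submodule.span ℂ (Set.range y) with hV
  have hyV : ∀ z, y z ∈ V := fun z => Submodule.subset_span ⟨z, rfl⟩
  have hd2 : 2 ≤ Module.finrank ℂ V := by
    obtain ⟨z, w, hzw⟩ := hnc
    have hli : LinearIndependent ℂ ![(⟨y z, hyV z⟩ : V), ⟨y w, hyV w⟩] := by
      rw [LinearIndependent.pair_iff' (fun h => hy.ne_zero z (congrArg Subtype.val h))]
      intro a h
      exact hzw a (congrArg Subtype.val h).symm
    have := hli.fintype_card_le_finrank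
    simpa using this
  have hdn : Module.finrank ℂ V ≤ n + 1 := by
    have := Submodule.finrank_le V
    simpa using this
  obtain ⟨m, hm⟩ : ∃ m, Module.finrank ℂ V = m + 1 := ⟨Module.finrank ℂ V - 1, by omega⟩
  let b : Module.Basis (Fin (m + 1)) ℂ V := Module.finBasisOfFinrankEq ℂ V hm
  set Lam : Matrix (Fin (n + 1)) (Fin (m + 1)) ℂ := Matrix.of fun l j => (b j : Fin (n + 1) → ℂ) l
    with hLam
  have hmul : ∀ c : Fin (m + 1) → ℂ, Lam.mulVec c = ((∑ j, c j • b j : V) : Fin (n + 1) → ℂ) := by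
    intro c
    ext l
    rw [Matrix.mulVec, dotProduct, Submodule.coe_sum, Finset.sum_apply]
    refine Finset.sum_congr rfl fun j _ => ?_
    rw [hLam, Matrix.of_apply, Submodule.coe_smul, Pi.smul_apply, smul_eq_mul, mul_comm]
  have hinj : LinearMap.ker (Matrix.toLin' Lam) = ⊥ := by
    rw [LinearMap.ker_eq_bot']
    intro c hc
    rw [Matrix.toLin'_apply, hmul] at hc
    have h1 : (∑ j, c j • b j : V) = 0 := Subtype.ext hc
    ext j
    exact (linearIndependent_iff'.mp b.linearIndependent) Finset.univ c h1 j (Finset.mem_univ j)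
  obtain ⟨g, hg⟩ := LinearMap.exists_leftInverse_of_injective (Matrix.toLin' Lam) hinj
  set Lb : Matrix (Fin (m + 1)) (Fin (n + 1)) ℂ := LinearMap.toMatrix' g with hLb
  have h1 : Lb * Lam = 1 := by
    have h2 : LinearMap.toMatrix' (g ∘ₗ Matrix.toLin' Lam) = Lb * Lam := by
      rw [LinearMap.toMatrix'_comp, LinearMap.toMatrix'_toLin']
    rw [← h2, hg, LinearMap.toMatrix'_id]
  have hV2 : ∀ v ∈ V, Lam.mulVec (Lb.mulVec v) = v := by
    intro v hv
    obtain ⟨c, hc⟩ : ∃ c : Fin (m + 1) → ℂ, Lam.mulVec c = v := by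
      refine ⟨fun j => b.repr ⟨v, hv⟩ j, ?_⟩
      rw [hmul, b.sum_repr]
    rw [← hc, Matrix.mulVec_mulVec c Lb Lam, h1, Matrix.one_mulVec]
  refine ⟨m, Lam, Lb, by omega, by omega, h1, fun z => hV2 _ (hyV z), ?_⟩
  intro lam hlam
  set φ : (Fin (n + 1) → ℂ) →ₗ[ℂ] ℂ := (∑ j, lam j • LinearMap.proj j) ∘ₗ Matrix.toLin' Lb with hφ
  have hφa : ∀ v, φ v = ∑ j, lam j * Lb.mulVec v j := by
    intro v
    simp [hφ]
  have hle : V ≤ LinearMap.ker φ := by
    rw [hV, Submodule.span_le]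
    rintro _ ⟨z, rfl⟩
    change φ (y z) = 0
    rw [hφa]
    exact hlam z
  ext j
  have h2 : φ (Lam.mulVec (Pi.single j 1)) = 0 := by
    refine hle ?_
    rw [hmul]
    exact Submodule.coe_mem _
  rw [hφa, Matrix.mulVec_mulVec, h1, Matrix.one_mulVec] at h2
  simpa [Pi.single_apply] using h2

end Pool.Agent.H78G
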