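import Pool.Agent.Lib.H78G.D5A
import Pool.Agent.Lib.H78G.D5B
import Pool.Agent.Lib.H78G.F1A

set_option autoImplicit false

/-!
CHUNK F1B (M, linear algebra).  Good coordinates.
-/

open MvPolynomial Real Pool.Agent.H67T

namespace Pool.Agent.H78G

open Pool.Agent.H89T

/-- CHUNK F1B (S/M).  An invertible matrix mapping `q ≠ 0` to `(1, ..., 1)`. -/
theorem exists_gl {m : ℕ} {q : Fin (m + 1) → ℂ} (hq : q ≠ 0) :
    ∃ g g' : Matrix (Fin (m + 1)) (Fin (m + 1)) ℂ, g * g' = 1 ∧ g' * g = 1 ∧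
      g.mulVec q = fun _ => 1 := by
  classical
  have h1 : (fun _ => 1 : Fin (m + 1) → ℂ) ≠ 0 := by
    intro h
    have := congrFun h 0
    simp at this
  obtain ⟨A, hA⟩ := SeparatingDual.exists_continuousLinearEquiv_apply_eq (R := ℂ) hq h1
  refine ⟨LinearMap.toMatrix' A.toLinearEquiv.toLinearMap,
    LinearMap.toMatrix' A.toLinearEquiv.symm.toLinearMap, ?_, ?_, ?_⟩
  · rw [← LinearMap.toMatrix'_comp, LinearEquiv.comp_coe, LinearEquiv.symm_trans_self]
    exact LinearMap.toMatrix'_id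
  · rw [← LinearMap.toMatrix'_comp, LinearEquiv.comp_coe, LinearEquiv.self_trans_symm]
    exact LinearMap.toMatrix'_id
  · rw [LinearMap.toMatrix'_mulVec]
    exact hA

/-- Two entire functions which are not identically zero. -/
theorem f1b_mul {f g : ℂ → ℂ} (hf : Differentiable ℂ f) (hg : Differentiable ℂ g)
    (hf0 : ∃ z, f z ≠ 0) (hg0 : ∃ z, g z ≠ 0) : ∃ z, f z * g z ≠ 0 := by
  obtain ⟨z, hz⟩ := hf0
  have h1 : ∀ᶠ w in nhds z, f w ≠ 0 := hf.continuous.continuousAt.eventually_ne hz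
  by_contra hcon
  push Not at hcon
  obtain ⟨w₀, hw₀⟩ := hg0
  have h2 : ∀ᶠ w in nhds z, g w = 0 := by
    filter_upwards [h1] with w hw
    exact (mul_eq_zero.1 (hcon w)).resolve_left hw
  have h3 : AnalyticOnNhd ℂ g Set.univ := fun w _ => hg.analyticAt w
  have h4 := h3.eqOn_zero_of_preconnected_of_eventuallyEq_zero isPreconnected_univ
    (Set.mem_univ z) h2
  exact hw₀ (h4 (Set.mem_univ w₀))

theorem f1b_prod {ι : Type} (s : Finset ι) {f : ι → ℂ → ℂ} (hf : ∀ i, Differentiable ℂ (f i))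
    (h0 : ∀ i, ∃ z, f i z ≠ 0) : ∃ z, ∏ i ∈ s, f i z ≠ 0 := by
  classical
  induction s using Finset.induction_on with
  | empty => exact ⟨0, by simp⟩
  | insert i s hi ih =>
    have h1 := f1b_mul (g := fun z => ∏ i ∈ s, f i z) (hf i)
      (Differentiable.fun_finsetProd (u := s) (f := f) fun i _ => hf i) (h0 i) ih
    obtain ⟨z, hz⟩ := h1
    exact ⟨z, by rw [Finset.prod_insert hi]; exact hz⟩

/-- CHUNK F1B (M).  Good coordinates on the span of the curve: at the point `z₀` all coordinates are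
`1`, the Wronskian is not zero, and none of the `k` hyperplanes passes through `y z₀`.

Proof: `exists_span`, `w = Lb y`; the entire function `Wr w * ∏ i, lin (η i) (y)` is not identically zero
(`wronskian_ne`, `hη`; product of finitely many entire functions `≢ 0`), choose `z₀` where it does not
vanish; `g` of `exists_gl` for `q = w z₀` (`≠ 0` since `Lam (w z₀) = y z₀ ≠ 0`); replace `Lam`, `Lb` by
`Lam * g'`, `g * Lb` (`Wr_mulVec`, `det g ≠ 0`). -/
theorem exists_coords {n k : ℕ} {y : ℂ → Fin (n + 1) → ℂ} (hy : IsHol y)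
    (hnc : ∃ z w, ∀ c : ℂ, y w ≠ c • y z) (η : Fin k → Fin (n + 1) → ℂ)
    (hη : ∀ i, ∃ z, lin (η i) (y z) ≠ 0) :
    ∃ (m : ℕ) (Lam : Matrix (Fin (n + 1)) (Fin (m + 1)) ℂ)
      (Lb : Matrix (Fin (m + 1)) (Fin (n + 1)) ℂ) (z₀ : ℂ), 1 ≤ m ∧ m ≤ n ∧ Lb * Lam = 1 ∧
      (∀ z, Lam.mulVec (Lb.mulVec (y z)) = y z) ∧ IsHol (fun z => Lb.mulVec (y z)) ∧
      (∀ j, Lb.mulVec (y z₀) j = 1) ∧ Wr (fun z => Lb.mulVec (y z)) z₀ ≠ 0 ∧
      ∀ i, lin (η i) (y z₀) ≠ 0 := by
  classical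
  obtain ⟨m, Lam, Lb, hm1, hmn, hinv, hspan, hind⟩ := exists_span hy hnc
  have hw : ∀ (g : Matrix (Fin (m + 1)) (Fin (n + 1)) ℂ) (j : Fin (m + 1)),
      Differentiable ℂ fun z => g.mulVec (y z) j := by
    intro g j
    simp only [Matrix.mulVec, dotProduct]
    exact Differentiable.fun_sum fun i _ => (hy.diff i).const_mul _
  obtain ⟨z₁, hz₁⟩ := wronskian_ne (y := fun z => Lb.mulVec (y z)) (hw Lb) hind
  have hlin : ∀ i, Differentiable ℂ fun z => lin (η i) (y z) := by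
    intro i
    unfold lin
    exact Differentiable.fun_sum fun j _ => (hy.diff j).const_mul _
  obtain ⟨z₀, hz₀⟩ := f1b_mul (Wr_diff (hw Lb))
    (g := fun z => ∏ i ∈ (Finset.univ : Finset (Fin k)), lin (η i) (y z))
    (Differentiable.fun_finsetProd (u := (Finset.univ : Finset (Fin k)))
      (f := fun i z => lin (η i) (y z)) fun i _ => hlin i) ⟨z₁, hz₁⟩ (f1b_prod _ hlin hη)
  have hW0 := left_ne_zero_of_mul hz₀
  have hη0 : ∀ i, lin (η i) (y z₀) ≠ 0 := by
    have := right_ne_zero_of_mul hz₀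
    rw [Finset.prod_ne_zero_iff] at this
    exact fun i => this i (Finset.mem_univ _)
  have hq : Lb.mulVec (y z₀) ≠ 0 := by
    intro h
    apply hy.ne_zero z₀
    rw [← hspan z₀, h, Matrix.mulVec_zero]
  obtain ⟨g, g', hg, hg', hgq⟩ := exists_gl hq
  have hback : ∀ z, (Lam * g').mulVec ((g * Lb).mulVec (y z)) = y z := by
    intro z
    rw [Matrix.mulVec_mulVec, Matrix.mul_assoc, ← Matrix.mul_assoc g' g Lb, hg', Matrix.one_mul,
      ← Matrix.mulVec_mulVec, hspan]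
  refine ⟨m, Lam * g', g * Lb, z₀, hm1, hmn, ?_, hback, ⟨fun j => hw _ j, fun z h => ?_⟩, ?_, ?_, hη0⟩
  · rw [Matrix.mul_assoc, ← Matrix.mul_assoc Lb Lam g', hinv, Matrix.one_mul, hg]
  · apply hy.ne_zero z
    rw [← hback z, h, Matrix.mulVec_zero]
  · intro j
    rw [← Matrix.mulVec_mulVec, hgq]
  · have h1 : (fun z => (g * Lb).mulVec (y z)) = fun z => g.mulVec (Lb.mulVec (y z)) := by
      funext z
      rw [Matrix.mulVec_mulVec]
    rw [h1, Wr_mulVec (hw Lb) g z₀]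
    refine mul_ne_zero ?_ hW0
    intro h2
    have h3 := congrArg Matrix.det hg
    rw [Matrix.det_mul, h2, zero_mul, Matrix.det_one] at h3
    exact zero_ne_one h3

/-- CHUNK F1B (S).  Values of the restricted linear forms. -/
theorem lin_restrict {n m : ℕ} (η : Fin (n + 1) → ℂ) (Lam : Matrix (Fin (n + 1)) (Fin (m + 1)) ℂ)
    (v : Fin (m + 1) → ℂ) : lin (fun b => ∑ l, η l * Lam l b) v = lin η (Lam.mulVec v) := by
  unfold lin
  simp only [Matrix.mulVec, dotProduct, Finset.sum_mul, Finset.mul_sum]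
  rw [Finset.sum_comm]
  refine Finset.sum_congr rfl fun l _ => Finset.sum_congr rfl fun b _ => ?_
  ring

end Pool.Agent.H78G
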