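import Pool.Agent.Lib.H67T.Defs
import Pool.Agent.Lib.H67T.NJ4
import Pool.Agent.Lib.H67T.NJ2

set_option autoImplicit false

/-!
CHUNK F4A (S).  Comparison of the characteristics and of the counting functions.
-/

open MvPolynomial Real MeasureTheory Pool.Agent.H67T

namespace Pool.Agent.H78G

theorem F4A_cont {n : ℕ} {y : ℂ → Fin n → ℂ} (hy : IsHol y) : Continuous fun z => log ‖y z‖ := by
  have hc : Continuous y := continuous_pi fun j => (hy.diff j).continuous
  exact hc.norm.log fun z => norm_ne_zero_iff.2 (hy.ne_zero z)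

/-- CHUNK F4A (S).  Comparison of the characteristics. -/
theorem chi_le_of_norm_le {n m : ℕ} {y : ℂ → Fin n → ℂ} {w : ℂ → Fin m → ℂ} (hy : IsHol y)
    (hw : IsHol w) {A : ℝ} (hA : 0 < A) (h : ∀ z, ‖y z‖ ≤ A * ‖w z‖) (r : ℝ) :
    chi y r ≤ chi w r + log A := by
  have h1 : CircleIntegrable (fun z => log ‖y z‖) 0 r := (F4A_cont hy).continuousOn.circleIntegrable'
  have h2 : CircleIntegrable (fun z => log ‖w z‖) 0 r := (F4A_cont hw).continuousOn.circleIntegrable'
  have h3 : CircleIntegrable (fun _ : ℂ => log A) 0 r := continuousOn_const.circleIntegrable'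
  have h4 : circleAverage (fun z => log ‖w z‖ + log A) 0 r =
      chi w r + log A := by
    rw [Real.circleAverage_fun_add h2 h3, Real.circleAverage_const]
    rfl
  rw [← h4]
  refine Real.circleAverage_mono h1 (h2.add h3) fun z _ => ?_
  have hy0 : 0 < ‖y z‖ := norm_pos_iff.2 (hy.ne_zero z)
  have hw0 : 0 < ‖w z‖ := norm_pos_iff.2 (hw.ne_zero z)
  calc log ‖y z‖ ≤ log (A * ‖w z‖) := Real.log_le_log hy0 (h z)
    _ = log ‖w z‖ + log A := by rw [Real.log_mul hA.ne' hw0.ne']; ring

/-- CHUNK F4A (S).  Monotonicity of the truncated counting function (entire functions, not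
identically zero, `r ≥ 1`; `NJ1_fin` of H67T for the finiteness). -/
theorem N1_mono {f g : ℂ → ℂ} (hf : Differentiable ℂ f) (hf0 : ∃ z, f z ≠ 0)
    (hg : Differentiable ℂ g) (hg0 : ∃ z, g z ≠ 0) (h : ∀ z, f z = 0 → g z = 0) {r : ℝ}
    (hr : 1 ≤ r) : N1 f r ≤ N1 g r := by
  have hF := NJ1_fin hf hf0 r
  have hG := NJ1_fin hg hg0 r
  unfold N1
  rw [finsum_mem_eq_finite_toFinset_sum _ hF, finsum_mem_eq_finite_toFinset_sum _ hG]
  refine add_le_add ?_ ?_
  · refine Finset.sum_le_sum_of_subset_of_nonneg ?_ ?_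
    · intro a ha
      simp only [Set.Finite.mem_toFinset, Set.mem_setOf_eq] at ha ⊢
      exact ⟨ha.1, h a ha.2⟩
    · intro a ha _
      simp only [Set.Finite.mem_toFinset, Set.mem_setOf_eq] at ha
      rcases eq_or_ne a 0 with rfl | ha0
      · simp
      · refine Real.log_nonneg ?_
        rw [le_div_iff₀ (norm_pos_iff.2 ha0)]
        linarith [ha.1]
  · by_cases h0 : f 0 = 0
    · simp [h0, h 0 h0]
    · rw [if_neg h0]
      split_ifs
      · exact Real.log_nonneg hr
      · exact le_rfl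

end Pool.Agent.H78G
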