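import Pool.Agent.Lib.H78G.PC

set_option autoImplicit false

/-!
CHUNK A1 (M).  The special arrangement `∏ (x_i - ζ x_j) = x_i ^ K - x_j ^ K`.
-/

open MvPolynomial

namespace Pool.Agent.H78G

open Pool.Agent.H89T

variable {n K r : ℕ}

theorem A1_prod {R : Type} [CommRing R] [IsDomain R] {K : ℕ} (hK : 0 < K) {ζ : R}
    (hζ : IsPrimitiveRoot ζ K) (x y : R) : ∏ s : Fin K, (x - ζ ^ (s : ℕ) * y) = x ^ K - y ^ K := by
  rw [hζ.pow_sub_pow_eq_prod_sub_mul x y hK]
  refine Finset.prod_bij (fun (s : Fin K) _ => ζ ^ (s : ℕ)) ?_ ?_ ?_ ?_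
  · intro s _
    rw [Polynomial.mem_nthRootsFinset hK]
    rw [← pow_mul, mul_comm, pow_mul, hζ.pow_eq_one, one_pow]
  · intro s _ t _ h
    exact Fin.ext (hζ.pow_inj s.2 t.2 h)
  · intro η hη
    haveI : NeZero K := ⟨hK.ne'⟩
    obtain ⟨i, hi, hi'⟩ := hζ.eq_pow_of_pow_eq_one ((Polynomial.mem_nthRootsFinset hK _).1 hη)
    exact ⟨⟨i, hi⟩, Finset.mem_univ _, hi'⟩
  · intro s _
    rfl

/-- CHUNK A1.  There is an arrangement `h⁰` of `K` hyperplanes with product `x_i ^ K - x_j ^ K`.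
Proof: let `ζ` be a primitive `K`-th root of unity in `ℂ` (`Complex.isPrimitiveRoot_exp`) and enumerate
the `K`-th roots of unity, e.g. `ζ ^ s`, `s : Fin K` (or an equivalence
`Fin K ≃ nthRootsFinset K`, `IsPrimitiveRoot.card_nthRootsFinset`); `h⁰ (s, i.succ) = 1`,
`h⁰ (s, j.succ) = - ζ ^ s`, all other coefficients `0`.  In every commutative `ℂ`-algebra
`∏ s, (a - ζ ^ s * b) = a ^ K - b ^ K` (`IsPrimitiveRoot.pow_sub_pow_eq_prod_sub_mul`, or
`X_pow_sub_one_eq_prod` homogenized).  By `Fx_pc`: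
`Fx (pc h⁰) ξ = (arc ξ i) ^ K - (arc ξ j) ^ K` where the coefficients are mapped to the ring of the
jets (`uR a l = uu (fun α => C (a α)) X l`, `pc_map`).  Now take the coefficients of `1` and `t`
(`Polynomial.coeff_zero_eq_eval_zero`, `Polynomial.coeff_one`... or
`derivative` and `coeff 0`; the coefficients of `arc` are given by `coeff_arc`). -/
theorem exists_special {i j : Fin n} (hij : i ≠ j) (hK : 1 ≤ K) :
    ∃ h₀ : HV n K → ℂ,
      (uR (pc h₀) 0 : MvPolynomial (JV n r) ℂ) = X (i, 0) ^ K - X (j, 0) ^ K ∧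
      ∀ one : Fin (r + 1), (one : ℕ) = 1 → (uR (pc h₀) 1 : MvPolynomial (JV n r) ℂ) =
        (K : MvPolynomial (JV n r) ℂ) *
          (X (i, 0) ^ (K - 1) * X (i, one) - X (j, 0) ^ (K - 1) * X (j, one)) := by
  classical
  have hK0 : 0 < K := hK
  obtain ⟨ζ, hζ⟩ : ∃ ζ : ℂ, IsPrimitiveRoot ζ K := ⟨_, Complex.isPrimitiveRoot_exp K (by omega)⟩
  obtain ⟨h₀, hh₀⟩ : ∃ h₀ : HV n K → ℂ, h₀ = fun s => if s.2 = i.succ then 1 else
    if s.2 = j.succ then - ζ ^ (s.1 : ℕ) else 0 := ⟨_, rfl⟩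
  have hinj : Function.Injective ((Polynomial.C : MvPolynomial (JV n r) ℂ →+*
      Polynomial (MvPolynomial (JV n r) ℂ)).comp (C : ℂ →+* MvPolynomial (JV n r) ℂ)) :=
    Polynomial.C_injective.comp (C_injective _ _)
  have hζ' : IsPrimitiveRoot (((Polynomial.C : MvPolynomial (JV n r) ℂ →+*
      Polynomial (MvPolynomial (JV n r) ℂ)).comp (C : ℂ →+* MvPolynomial (JV n r) ℂ)) ζ) K :=
    hζ.map_of_injective hinj
  have hFx : Fx (fun α => (C (pc h₀ α) : MvPolynomial (JV n r) ℂ)) (fun p => X p) =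
      (arc (fun p => (X p : MvPolynomial (JV n r) ℂ)) i) ^ K -
        (arc (fun p => (X p : MvPolynomial (JV n r) ℂ)) j) ^ K := by
    have h1 : (fun α => (C (pc h₀ α) : MvPolynomial (JV n r) ℂ)) =
        pc fun s => (C (h₀ s) : MvPolynomial (JV n r) ℂ) := by
      funext α
      exact pc_map (C : ℂ →+* MvPolynomial (JV n r) ℂ) h₀ α
    rw [h1, Fx_pc, ← A1_prod hK0 hζ']
    refine Finset.prod_congr rfl fun s _ => ?_
    unfold vv linA
    have h2 : ∀ b : Fin n, Polynomial.C (C (h₀ (s, b.succ)) : MvPolynomial (JV n r) ℂ) *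
        arc (fun p => (X p : MvPolynomial (JV n r) ℂ)) b =
        (if b = i then arc (fun p => (X p : MvPolynomial (JV n r) ℂ)) i else 0) +
        (if b = j then - (((Polynomial.C : MvPolynomial (JV n r) ℂ →+*
          Polynomial (MvPolynomial (JV n r) ℂ)).comp
          (C : ℂ →+* MvPolynomial (JV n r) ℂ)) ζ ^ (s : ℕ) *
          arc (fun p => (X p : MvPolynomial (JV n r) ℂ)) j) else 0) := by
      intro b
      rw [hh₀]
      by_cases hbi : b = i
      · subst hbi
        simp [hij]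
      · by_cases hbj : b = j
        · subst hbj
          simp only [hbi, if_false, if_true, zero_add, map_neg, map_pow, RingHom.comp_apply,
            Fin.succ_inj]
          ring
        · simp [hbi, hbj]
    have h3 : h₀ (s, 0) = 0 := by
      rw [hh₀]
      simp [Fin.succ_ne_zero, (Fin.succ_ne_zero _).symm]
    rw [Finset.sum_congr rfl fun b _ => h2 b, Finset.sum_add_distrib]
    change Polynomial.C (C (h₀ (s, 0)) : MvPolynomial (JV n r) ℂ) + _ = _
    rw [h3]
    simp [sub_eq_add_neg]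
  have hco : ∀ b : Fin n, (arc (fun p => (X p : MvPolynomial (JV n r) ℂ)) b).coeff 0 = X (b, 0) := by
    intro b
    rw [coeff_arc]
    simp
  refine ⟨h₀, ?_, fun one hone => ?_⟩
  · unfold uR uu
    rw [hFx, Polynomial.coeff_sub, Polynomial.coeff_zero_eq_eval_zero,
      Polynomial.coeff_zero_eq_eval_zero, Polynomial.eval_pow, Polynomial.eval_pow,
      ← Polynomial.coeff_zero_eq_eval_zero, ← Polynomial.coeff_zero_eq_eval_zero, hco, hco]
  · have hc1 : ∀ b : Fin n, ((arc (fun p => (X p : MvPolynomial (JV n r) ℂ)) b) ^ K).coeff 1 =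
        (K : MvPolynomial (JV n r) ℂ) * (X (b, 0) ^ (K - 1) * X (b, one)) := by
      intro b
      have h1 := Polynomial.coeff_derivative
        ((arc (fun p => (X p : MvPolynomial (JV n r) ℂ)) b) ^ K) 0
      have h2 := Polynomial.coeff_derivative
        (arc (fun p => (X p : MvPolynomial (JV n r) ℂ)) b) 0
      simp only [zero_add, Nat.cast_zero, mul_one] at h1 h2
      rw [← h1, Polynomial.derivative_pow, Polynomial.coeff_zero_eq_eval_zero,
        Polynomial.eval_mul, Polynomial.eval_mul, Polynomial.eval_pow,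
        ← Polynomial.coeff_zero_eq_eval_zero (arc _ b), hco,
        ← Polynomial.coeff_zero_eq_eval_zero (Polynomial.derivative _), h2, coeff_arc]
      have h3 : (1 : ℕ) < r + 1 := by
        have := one.2
        omega
      rw [dif_pos h3]
      have h4 : (⟨1, h3⟩ : Fin (r + 1)) = one := Fin.ext hone.symm
      rw [h4]
      simp [mul_assoc]
    unfold uR uu
    rw [hFx, Polynomial.coeff_sub, hc1, hc1]
    ring

end Pool.Agent.H78G
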