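import Pool.Agent.Lib.H78G.Defs

set_option autoImplicit false

/-!
CHUNK A2 (M, adapt `H89T/A2.lean`).  Reduction modulo `(u 0, u 1)` at a special point of a family of
hypersurfaces with parameters `τ`.
-/

open MvPolynomial

namespace Pool.Agent.H78G

open Pool.Agent.H89T

variable {n k r : ℕ} {τ : Type}

/-- The submodule `(u 0, u 1) + span (normal monomials)`. -/
noncomputable def JT (a : Idx n k → MvPolynomial τ ℂ) (r d M : ℕ) (i j : Fin n)
    (one : Fin (r + 1)) :
    Submodule (MvPolynomial τ ℂ) (MvPolynomial (JV n r) (MvPolynomial τ ℂ)) :=
  (Ideal.span {(uR a 0 : MvPolynomial (JV n r) (MvPolynomial τ ℂ)),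
      uR a 1}).restrictScalars (MvPolynomial τ ℂ) ⊔
    Submodule.span (MvPolynomial τ ℂ)
      ((fun m => monomial m (1 : MvPolynomial τ ℂ)) '' Normal n r k d M i j one)

/-- CHUNK A2.  Copy the proof of `H89T.exists_lift` (file `H89T/A2.lean`).  The coefficient ring is
`MvPolynomial τ ℂ` instead of `RR n k`, the coefficients are `a` instead of `gen n k`, the special
point is `p` instead of `a0 n k`, and the sums over `b ≠ i`, `b ≠ j` become single terms:
* `m` normal: `G = monomial m 1`.
* `m (i, 0) ≥ k`: `m = k • (i, 0) + m'`, `G = u 0 * monomial m' 1 + G'` with `G'` for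
  `k • (j, 0) + m'` (same exponent at `(j, one)`, smaller exponent at `(i, 0)`).
* otherwise `m (j, 0) ≥ k - 1` and `m (j, one) ≥ 1`:
  `m = (k - 1) • (j, 0) + (j, one) + m''`, `G = - C (C (1 / k)) * u 1 * monomial m'' 1 + G'` with
  `G'` for `(k - 1) • (i, 0) + (i, one) + m''` (exponent at `(j, one)` one smaller). -/
theorem exists_liftT (a : Idx n k → MvPolynomial τ ℂ) (p : τ → ℂ) {d M : ℕ} {i j : Fin n}
    (hij : i ≠ j) (hk : 2 ≤ k) {one : Fin (r + 1)} (h1 : (one : ℕ) = 1)
    (hu0 : MvPolynomial.map (eval p) (uR a 0 : MvPolynomial (JV n r) (MvPolynomial τ ℂ)) =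
      X (i, 0) ^ k - X (j, 0) ^ k)
    (hu1 : MvPolynomial.map (eval p) (uR a 1 : MvPolynomial (JV n r) (MvPolynomial τ ℂ)) =
      (k : MvPolynomial (JV n r) ℂ) *
        (X (i, 0) ^ (k - 1) * X (i, one) - X (j, 0) ^ (k - 1) * X (j, one)))
    (m : JV n r →₀ ℕ) (hm : m ∈ Mon n r d M) :
    ∃ G : MvPolynomial (JV n r) (MvPolynomial τ ℂ), HasMon d M G ∧ G ∈ JT a r d M i j one ∧
      MvPolynomial.map (eval p) G = monomial m 1 := by
  classical
  have hone : one ≠ 0 := by
    intro h
    rw [h] at h1
    exact absurd h1 (by simp)
  have hne : ∀ b b' : Fin n, ((b, 0) : JV n r) ≠ (b', one) := by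
    intro b b' h
    exact hone (congrArg Prod.snd h).symm
  have main : ∀ e₁ e₂ : ℕ, ∀ m : JV n r →₀ ℕ, m (j, one) = e₁ → m (i, 0) = e₂ → m ∈ Mon n r d M →
      ∃ G : MvPolynomial (JV n r) (MvPolynomial τ ℂ), HasMon d M G ∧ G ∈ JT a r d M i j one ∧
        MvPolynomial.map (eval p) G = monomial m 1 := by
    intro e₁
    induction e₁ using Nat.strong_induction_on with
    | _ e₁ ih₁ =>
      intro e₂
      induction e₂ using Nat.strong_induction_on with
      | _ e₂ ih₂ =>
        intro m he₁ he₂ hm
        by_cases hki : k ≤ m (i, 0)
        · -- reduce with `u 0`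
          obtain ⟨m', hm'⟩ : ∃ m', m = Finsupp.single (i, 0) k + m' := by
            refine ⟨m - Finsupp.single (i, 0) k, ?_⟩
            rw [add_comm, tsub_add_cancel_of_le]
            rw [Finsupp.single_le_iff]
            exact hki
          have hxd : xd m = k + xd m' := by
            rw [hm', xd_add, A2_xd_single]
          have hjd : jd m = jd m' := by
            rw [hm', jd_add, A2_jd_single, zero_add]
          have hmi : m (i, 0) = k + m' (i, 0) := by
            rw [hm', Finsupp.add_apply, Finsupp.single_eq_same]
          have hmj : m (j, one) = m' (j, one) := by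
            rw [hm', Finsupp.add_apply, Finsupp.single_eq_of_ne (hne i j).symm, zero_add]
          obtain ⟨G, hG1, hG2, hG3⟩ : ∃ G : MvPolynomial (JV n r) (MvPolynomial τ ℂ),
              HasMon d M G ∧ G ∈ JT a r d M i j one ∧ MvPolynomial.map (eval p) G =
                monomial (Finsupp.single (j, 0) k + m') 1 := by
            refine ih₂ (m' (i, 0)) (by omega) _ ?_ ?_ ?_
            · rw [Finsupp.add_apply, Finsupp.single_eq_of_ne (hne j j).symm, zero_add, ← hmj, he₁]
            · rw [Finsupp.add_apply, Finsupp.single_eq_of_ne, zero_add]
              intro h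
              exact hij (congrArg Prod.fst h)
            · constructor
              · rw [xd_add, A2_xd_single, ← hxd]
                exact hm.1
              · rw [jd_add, A2_jd_single, zero_add, ← hjd]
                exact hm.2
          refine ⟨uR a 0 * monomial m' 1 + G, ?_, ?_, ?_⟩
          · refine HasMon.add ?_ hG1
            have h2 : HasMon (n := n) (r := r) (d - k) M (monomial m' (1 : MvPolynomial τ ℂ)) :=
              A2_hasMon_monomial (by have := hm.1; omega) (by rw [← hjd]; exact hm.2) 1
            refine (HasMon.mul (HasMon.u0 a) h2).mono ?_ ?_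
            · have := hm.1
              omega
            · omega
          · refine Submodule.add_mem _ ?_ hG2
            refine Submodule.mem_sup_left ?_
            exact Ideal.mul_mem_right _ _ (Ideal.subset_span (Set.mem_insert _ _))
          · rw [map_add, map_mul, hu0, map_monomial, map_one, hG3, hm', sub_mul,
              X_pow_eq_monomial, X_pow_eq_monomial, monomial_mul, monomial_mul, one_mul]
            ring
        · by_cases hn : m (j, 0) < k - 1 ∨ m (j, one) = 0
          · refine ⟨monomial m 1, A2_hasMon_monomial hm.1 hm.2 1, ?_, ?_⟩
            · refine Submodule.mem_sup_right (Submodule.subset_span ?_)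
              exact ⟨m, ⟨hm.1, hm.2, by omega, hn⟩, rfl⟩
            · rw [map_monomial, map_one]
          · push Not at hn
            obtain ⟨hn1, hn2⟩ := hn
            obtain ⟨m', hm'⟩ : ∃ m', m = (Finsupp.single (j, 0) (k - 1) +
                Finsupp.single (j, one) 1) + m' := by
              refine ⟨m - (Finsupp.single (j, 0) (k - 1) + Finsupp.single (j, one) 1), ?_⟩
              rw [add_comm, tsub_add_cancel_of_le]
              intro q
              rw [Finsupp.add_apply]
              by_cases hp : q = (j, 0)
              · rw [hp, Finsupp.single_eq_same, Finsupp.single_eq_of_ne (hne j j)]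
                omega
              · rw [Finsupp.single_eq_of_ne hp, zero_add]
                by_cases hp' : q = (j, one)
                · rw [hp', Finsupp.single_eq_same]
                  omega
                · rw [Finsupp.single_eq_of_ne hp']
                  exact Nat.zero_le _
            have hxd : xd m = (k - 1) + xd m' := by
              rw [hm', xd_add, xd_add, A2_xd_single, A2_xd_single1 _ hone, add_zero]
            have hjd : jd m = 1 + jd m' := by
              rw [hm', jd_add, jd_add, A2_jd_single, A2_jd_single1 _ hone, zero_add]
            have hmj : m (j, one) = 1 + m' (j, one) := by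
              rw [hm', Finsupp.add_apply, Finsupp.add_apply,
                Finsupp.single_eq_of_ne (hne j j).symm, zero_add, Finsupp.single_eq_same]
            obtain ⟨G, hG1, hG2, hG3⟩ : ∃ G : MvPolynomial (JV n r) (MvPolynomial τ ℂ),
                HasMon d M G ∧ G ∈ JT a r d M i j one ∧ MvPolynomial.map (eval p) G =
                  monomial ((Finsupp.single (i, 0) (k - 1) + Finsupp.single (i, one) 1) + m')
                    1 := by
              refine ih₁ (m' (j, one)) (by omega) _ _ ?_ rfl ?_
              · rw [Finsupp.add_apply, Finsupp.add_apply, Finsupp.single_eq_of_ne (hne i j).symm,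
                  zero_add, Finsupp.single_eq_of_ne, zero_add]
                intro h
                exact hij (congrArg Prod.fst h).symm
              · constructor
                · rw [xd_add, xd_add, A2_xd_single, A2_xd_single1 _ hone, add_zero, ← hxd]
                  exact hm.1
                · rw [jd_add, jd_add, A2_jd_single, A2_jd_single1 _ hone, zero_add, ← hjd]
                  exact hm.2
            have hk0 : (k : ℂ) ≠ 0 := by
              exact_mod_cast (by omega : k ≠ 0)
            refine ⟨C (C (-(k : ℂ)⁻¹)) * (uR a 1 * monomial m' 1) + G, ?_, ?_, ?_⟩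
            · refine HasMon.add ?_ hG1
              have h2 : HasMon (n := n) (r := r) (d - (k - 1)) (M - 1)
                  (monomial m' (1 : MvPolynomial τ ℂ)) :=
                A2_hasMon_monomial (by have := hm.1; omega) (by have := hm.2; omega) 1
              have h3 : HasMon (n := n) (r := r) (k - 1) 1 (uR a 1) := by
                have h4 : (uR a 1 : MvPolynomial (JV n r) (MvPolynomial τ ℂ)) =
                    ∑ b, gR b a * X (b, one) := by
                  unfold uR
                  rw [uu_one _ _ one h1]
                  rfl
                rw [h4]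
                refine HasMon.sum fun b _ => ?_
                exact (HasMon.mul (HasMon.gR b a) (HasMon.X1 (b, one) hone)).mono
                  (by omega) (by omega)
              refine (HasMon.mul (HasMon.C (C (-(k : ℂ)⁻¹))) (HasMon.mul h3 h2)).mono ?_ ?_
              · have := hm.1
                omega
              · have := hm.2
                omega
            · refine Submodule.add_mem _ ?_ hG2
              refine Submodule.mem_sup_left ?_
              refine Ideal.mul_mem_left _ _ (Ideal.mul_mem_right _ _ (Ideal.subset_span ?_))
              exact Set.mem_insert_of_mem _ (Set.mem_singleton _)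
            · have h6 : ∀ b : Fin n, (X (b, 0) : MvPolynomial (JV n r) ℂ) ^ (k - 1) * X (b, one) =
                    monomial (Finsupp.single ((b, 0) : JV n r) (k - 1) +
                      Finsupp.single (b, one) 1) 1 := by
                intro b
                rw [X_pow_eq_monomial, X, monomial_mul, one_mul]
              have h7 : (C (-(k : ℂ)⁻¹) : MvPolynomial (JV n r) ℂ) * (k : MvPolynomial (JV n r) ℂ) =
                  -1 := by
                have h5 : (k : MvPolynomial (JV n r) ℂ) = C (k : ℂ) := by
                  rw [map_natCast]
                rw [h5, ← C_mul, neg_mul, inv_mul_cancel₀ hk0, C_neg, C_1]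
              rw [map_add, map_mul, map_mul, hu1, map_monomial, map_one, map_C, eval_C, hG3, hm',
                h6, h6, ← mul_assoc, ← mul_assoc, h7, neg_one_mul, neg_sub, sub_mul, monomial_mul,
                monomial_mul, one_mul]
              ring
  exact main _ _ m rfl rfl hm

end Pool.Agent.H78G
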