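import Pool.Agent.Lib.H78G.A2
import Pool.Agent.Lib.H78G.A1

set_option autoImplicit false

/-!
CHUNK A3 (M, adapt `H89T/A5.lean`).  Existence of operators with property (A) for the generic
arrangement.
-/

open MvPolynomial

namespace Pool.Agent.H78G

open Pool.Agent.H89T

variable {n k r : ℕ} {τ : Type}

/-- CHUNK A3.  Copy the proof of `H89T.exists_propA` (file `H89T/A5.lean`), with `exists_liftT`
instead of `exists_lift`, the coefficient ring `MvPolynomial τ ℂ` and the point `p`; the helper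
lemmas `A5_smul_mem`, `A5_hasMon_monomial`, `A5_coeff`, `exists_smul_mem`, `exists_coeffs` of H89T
apply verbatim. -/
theorem exists_propT (a : Idx n k → MvPolynomial τ ℂ) (p : τ → ℂ) {d M : ℕ} {i j : Fin n}
    (hij : i ≠ j) (hk : 2 ≤ k) {one : Fin (r + 1)} (h1 : (one : ℕ) = 1)
    (hu0 : MvPolynomial.map (eval p) (uR a 0 : MvPolynomial (JV n r) (MvPolynomial τ ℂ)) =
      X (i, 0) ^ k - X (j, 0) ^ k)
    (hu1 : MvPolynomial.map (eval p) (uR a 1 : MvPolynomial (JV n r) (MvPolynomial τ ℂ)) =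
      (k : MvPolynomial (JV n r) ℂ) *
        (X (i, 0) ^ (k - 1) * X (i, one) - X (j, 0) ^ (k - 1) * X (j, one)))
    (hc : ∑ l ∈ Finset.range r, Nat.card (Normal n r k d (M + l) i j one) <
      Nat.card (Mon n r d M)) :
    ∃ P : MvPolynomial (JV n r) (MvPolynomial τ ℂ), P ≠ 0 ∧ HasMon d M P ∧ PropA a r P := by
  classical
  have ht : ∀ l : Fin r, ∃ t : MvPolynomial τ ℂ, t ≠ 0 ∧ ∀ m ∈ Mon n r d (M + l),
      t • monomial m (1 : MvPolynomial τ ℂ) ∈ JT a r d (M + l) i j one := by
    intro l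
    obtain ⟨t, ht, h⟩ := exists_smul_mem p (Mon_finite n r d (M + l)).toFinset
      (JT a r d (M + l) i j one) (by
        intro m hm
        rw [Set.Finite.mem_toFinset] at hm
        obtain ⟨G, hG, hJ, hm⟩ := exists_liftT a p hij hk h1 hu0 hu1 m hm
        refine ⟨G, hJ, fun m' hm' => ?_, hm⟩
        rw [Set.Finite.mem_toFinset]
        exact hG m' hm')
    exact ⟨t, ht, fun m hm => h m (by rwa [Set.Finite.mem_toFinset])⟩
  choose t ht0 ht using ht
  have hfin : ∀ l : Fin r, (Normal n r k d (M + l) i j one).Finite := fun l =>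
    (Mon_finite n r d (M + l)).subset fun m hm => ⟨hm.1, hm.2.1⟩
  have : Fintype (Mon n r d M) := (Mon_finite n r d M).fintype
  have : ∀ l : Fin r, Fintype (Normal n r k d (M + l) i j one) := fun l => (hfin l).fintype
  obtain ⟨q, hq0, hq⟩ := exists_coeffs (R := MvPolynomial τ ℂ)
    (V := MvPolynomial (JV n r) (MvPolynomial τ ℂ))
    (ι := Mon n r d M) (q := r) (fun m => monomial m.1 (1 : MvPolynomial τ ℂ))
    (fun l => (NN n r (MvPolynomial τ ℂ)).toLinearMap ^ (l : ℕ))
    (fun _ => (Ideal.span {(uR a 0 : MvPolynomial (JV n r) (MvPolynomial τ ℂ)),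
      uR a 1}).restrictScalars (MvPolynomial τ ℂ))
    (fun l => Normal n r k d (M + l) i j one) (fun l m => monomial m.1 (1 : MvPolynomial τ ℂ)) t
    (by
      intro l m
      have h := A5_smul_mem (ht l) (P := (NN n r (MvPolynomial τ ℂ))^[l] (monomial m.1 1))
        ((A5_hasMon_monomial m.2 1).NN_iterate l)
      rw [JT, Set.image_eq_range] at h
      have e : ((NN n r (MvPolynomial τ ℂ)).toLinearMap ^ (l : ℕ)) (monomial m.1 1) =
          (NN n r (MvPolynomial τ ℂ))^[l] (monomial m.1 1) := by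
        rw [Module.End.pow_apply]
        rfl
      rw [e]
      exact h)
    (by
      rw [Finset.sum_range] at hc
      simpa only [Nat.card_eq_fintype_card] using hc)
  obtain ⟨m, hm⟩ := Function.ne_iff.mp hq0
  refine ⟨(∏ l, t l) • ∑ i : Mon n r d M, q i • monomial i.1 (1 : MvPolynomial τ ℂ), ?_, ?_, ?_⟩
  · intro h0
    have h := congrArg (coeff m.1) h0
    rw [coeff_smul, A5_coeff, coeff_zero, smul_eq_mul, mul_eq_zero] at h
    rcases h with h | h
    · exact Finset.prod_ne_zero_iff.mpr (fun l _ => ht0 l) h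
    · exact hm h
  · refine HasMon.smul _ (HasMon.sum fun i _ => HasMon.smul _ (A5_hasMon_monomial i.2 1))
  · intro l hl
    have h := hq ⟨l, hl⟩
    rw [Submodule.restrictScalars_mem] at h
    have h2 : (NN n r (MvPolynomial τ ℂ))^[l] ((∏ l, t l) • ∑ i : Mon n r d M,
        q i • monomial i.1 (1 : MvPolynomial τ ℂ)) =
        (∏ l' ∈ Finset.univ.erase ⟨l, hl⟩, t l') • (t ⟨l, hl⟩ •
          ((NN n r (MvPolynomial τ ℂ)).toLinearMap ^ l) (∑ i : Mon n r d M,
            q i • monomial i.1 (1 : MvPolynomial τ ℂ))) := by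
      rw [smul_smul, mul_comm, Finset.mul_prod_erase _ _ (Finset.mem_univ _), ← map_smul,
        Module.End.pow_apply]
      rfl
    rw [h2]
    exact Submodule.smul_of_tower_mem _ _ h

/-- CHUNK A3.  The generic arrangement: `exists_propT` with `τ = HV n K`, `a = pc X` and the point
of `exists_special` (`uR_map`, `pc_map`). -/
theorem exists_propH {K d M : ℕ} {i j : Fin n} (hij : i ≠ j) (hK : 2 ≤ K) {one : Fin (r + 1)}
    (h1 : (one : ℕ) = 1)
    (hc : ∑ l ∈ Finset.range r, Nat.card (Normal n r K d (M + l) i j one) <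
      Nat.card (Mon n r d M)) :
    ∃ P : MvPolynomial (JV n r) (MvPolynomial (HV n K) ℂ), P ≠ 0 ∧ HasMon d M P ∧
      PropA (pc (fun s : HV n K => (X s : MvPolynomial (HV n K) ℂ))) r P := by
  obtain ⟨h₀, hu0, hu1⟩ := exists_special (n := n) (K := K) (r := r) hij (by omega)
  have key : ∀ l : ℕ, MvPolynomial.map (eval h₀)
      (uR (pc (fun s : HV n K => (X s : MvPolynomial (HV n K) ℂ))) l :
        MvPolynomial (JV n r) (MvPolynomial (HV n K) ℂ)) = uR (pc h₀) l := by
    intro l
    rw [uR_map]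
    congr 1
    funext α
    rw [pc_map]
    simp only [eval_X]
  exact exists_propT _ h₀ hij hK h1 (by rw [key, hu0]) (by rw [key, hu1 one h1]) hc

end Pool.Agent.H78G
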