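import Pool.Agent.Lib.H78G.PC

set_option autoImplicit false

/-!
CHUNK C1 (M, adapt `H89T/C1.lean`).  The fields `V (g, lam)` and `N` on `v_i (t)`.
-/

open MvPolynomial

namespace Pool.Agent.H78G

open Pool.Agent.H89T

variable {n K r : ℕ}

/-- CHUNK C1. -/
theorem VU_hU (g : HV n K → UA n K r) (lam : Fin n → Polynomial (UA n K r)) (s : HV n K) :
    VU g lam (hU s) = g s := by
  unfold VU hU
  rw [mkDerivation_X, Sum.elim_inr]

/-- CHUNK C1. -/
theorem VU_xU (g : HV n K → UA n K r) (lam : Fin n → Polynomial (UA n K r)) (p : JV n r) :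
    VU g lam (xU p) = (lam p.1).coeff (p.2 : ℕ) := by
  unfold VU xU
  rw [mkDerivation_X, Sum.elim_inl]

/-- CHUNK C1. -/
theorem NU_hU (s : HV n K) : NU n K r (hU s) = 0 := by
  unfold NU hU
  rw [mkDerivation_X, Sum.elim_inr]

/-- CHUNK C1. -/
theorem NU_xU (p : JV n r) :
    NU n K r (xU p) = if h : (p.2 : ℕ) < r then
      ((p.2 : ℕ) + 1) • xU (p.1, ⟨(p.2 : ℕ) + 1, by omega⟩) else 0 := by
  unfold NU xU
  rw [mkDerivation_X, Sum.elim_inl]

/-- CHUNK C1. -/
theorem cf_VU_arc (g : HV n K → UA n K r) (lam : Fin n → Polynomial (UA n K r))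
    (hdeg : ∀ b, (lam b).natDegree ≤ r) (b : Fin n) :
    cf (VU g lam) (arc xU b) = lam b := by
  ext i
  rw [coeff_cf, coeff_arc]
  split_ifs with h
  · rw [VU_xU]
  · rw [map_zero, Polynomial.coeff_eq_zero_of_natDegree_lt]
    have := hdeg b
    omega

/-- CHUNK C1.  `V (v_i (t)) = E_i (V)` (`cf_add`, `cf_mul`, `cf_C`, `cf_sum` of `H89T/C1.lean`). -/
theorem cf_VU_vv (g : HV n K → UA n K r) (lam : Fin n → Polynomial (UA n K r))
    (hdeg : ∀ b, (lam b).natDegree ≤ r) (i : Fin K) :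
    cf (VU g lam) (vv hU xU i) = EU g lam i := by
  unfold EU vv linA
  rw [cf_add, cf_C, cf_sum, VU_hU, add_assoc, ← Finset.sum_add_distrib]
  congr 1
  refine Finset.sum_congr rfl fun b _ => ?_
  rw [cf_mul, cf_C, VU_hU, cf_VU_arc g lam hdeg]
  ring

/-- CHUNK C1. -/
theorem cf_NU_arc (b : Fin n) :
    cf (NU n K r) (arc xU b) = Polynomial.derivative (arc xU b) := by
  ext i
  rw [coeff_cf, Polynomial.coeff_derivative, coeff_arc, coeff_arc]
  by_cases h1 : i < r
  · rw [dif_pos (by omega : i < r + 1), dif_pos (by omega : i + 1 < r + 1)]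
    rw [NU_xU, dif_pos h1, nsmul_eq_mul, mul_comm]
    push_cast
    rfl
  · rw [dif_neg (by omega : ¬ i + 1 < r + 1)]
    split_ifs with h2
    · rw [NU_xU, dif_neg h1, zero_mul]
    · rw [map_zero, zero_mul]

/-- CHUNK C1.  `N v_i (t) = d/dt v_i (t)`. -/
theorem cf_NU_vv (i : Fin K) :
    cf (NU n K r) (vv hU xU i) = Polynomial.derivative (vv hU xU i) := by
  unfold vv linA
  rw [cf_add, cf_C, cf_sum, NU_hU, map_add, map_sum, Polynomial.derivative_C, map_zero]
  congr 1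
  refine Finset.sum_congr rfl fun b _ => ?_
  rw [cf_mul, cf_C, NU_hU, map_zero, mul_zero, add_zero, cf_NU_arc, Polynomial.derivative_mul,
    Polynomial.derivative_C, zero_mul, zero_add]

end Pool.Agent.H78G
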