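import Pool.Agent.Lib.H78G.HZ2

set_option autoImplicit false

/-!
CHUNK C4 (M).  The horizontal fields.
-/

open MvPolynomial

namespace Pool.Agent.H78G

open Pool.Agent.H89T

variable {n r : ℕ}

/-- The common denominator `Wd ^ N * ∏ i, h_{i, c i} ^ N`; its weight does not depend on `K`. -/
noncomputable def phiU {n r K : ℕ} (hr : n ≤ r) (N : ℕ) (cc : Fin K → Fin (n + 1)) : UA n K r :=
  Wd hr xU ^ N * ∏ i, hU (i, cc i) ^ N

/-- The embedding of the ring of one linear polynomial. -/
noncomputable def C4_io {n r K : ℕ} (i : Fin K) : B1 n r →+* UA n K r :=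
  (rename (R := ℂ) (Sum.map id (fun j : Fin (n + 1) => (i, j)) :
    JV n r ⊕ Fin (n + 1) → JV n r ⊕ HV n K)).toRingHom

theorem C4_io_hX {K : ℕ} (i : Fin K) (c : Fin (n + 1)) :
    C4_io (r := r) i (hX c) = hU (i, c) := by
  unfold hX hU
  exact rename_X _ _

theorem C4_io_xX {K : ℕ} (i : Fin K) (p : JV n r) :
    C4_io (r := r) i (xX p) = xU (K := K) p := by
  unfold xX xU
  exact rename_X _ _

theorem C4_io_arc {K : ℕ} (i : Fin K) (b : Fin n) :
    (arc (xX (n := n) (r := r)) b).map (C4_io (K := K) i) = arc xU b := by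
  rw [arc_map]
  congr 1
  funext p
  exact C4_io_xX i p

theorem C4_linA_map {K : ℕ} (i : Fin K) (G : Fin (n + 1) → B1 n r) :
    (linA (fun c => Polynomial.C (G c)) (arc xX)).map (C4_io (K := K) i) =
      linA (fun c => Polynomial.C (C4_io (K := K) i (G c))) (arc xU) := by
  have h1 := linA_map (Polynomial.mapRingHom (C4_io (n := n) (r := r) (K := K) i))
    (fun c => Polynomial.C (G c)) (arc xX)
  simp only [Polynomial.coe_mapRingHom, Polynomial.map_C, C4_io_arc] at h1
  exact h1

theorem C4_linA_mul {B : Type} [CommRing B] (a : B) (g : Fin (n + 1) → B) (x : Fin n → B) :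
    linA (fun c => a * g c) x = a * linA g x := by
  unfold linA
  rw [mul_add, Finset.mul_sum]
  congr 1
  exact Finset.sum_congr rfl fun b _ => mul_assoc _ _ _

/-- CHUNK C4.  For all `cc`, `b₀`, `j` there is an admissible field with `x_{b₀,j} ↦ phiU`, the other
jet coordinates `↦ 0`.

Proof.  Take `N`, `cH` and `G = G^{c,j}`, `q`, `e` from `hz_wt`.  For `i : Fin K` let
`ι_i : B1 n r → UA n K r` be `rename (Sum.map id (fun j => (i, j)))` (`WtS.rename`); it maps
`linA (C ∘ X) (arc)` to `vv hU xU i` and `Wd` to `Wd hr xU` (`Wd_map`).  Put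
`g (i, b) = - (∏ i' ≠ i, hU (i', cc i') ^ N) * hU (i, b₀.succ) * ι_i (G^{cc i, j} b)`,
`lam b₀ = C phiU * X ^ j`, `lam b = 0` for `b ≠ b₀`.  Then
`E_i = vv g xU i + C (hU (i, b₀.succ)) * C phiU * X ^ j` and, applying `ι_i` to the identity of `hz_wt`
and multiplying with `D_i := (∏ i' ≠ i, hU (i', cc i') ^ N) * hU (i, b₀.succ)`,
`E_i = C D_i * (v_i (t) * ι_i q + X ^ (r + 1) * ι_i e)`.  Weights: `hU` has weight `0`, so `g` has
weight `cH` and `phiU` has weight `N (n + 1) n` (`WtS.Wd`): `c = cH + N * ((n + 1) * n)`. -/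
theorem horizontal_exists (hr : n ≤ r) : ∃ N c : ℕ, ∀ (K : ℕ) (cc : Fin K → Fin (n + 1))
    (b₀ : Fin n) (j : Fin (r + 1)), ∃ g : HV n K → UA n K r,
      AdmU (r + 1) g (fun b => if b = b₀ then
        Polynomial.C (phiU hr N cc) * Polynomial.X ^ (j : ℕ) else 0) ∧
      (∀ s, WtS c (g s)) ∧
      ∀ b i, WtS c ((if b = b₀ then
        Polynomial.C (phiU hr N cc) * Polynomial.X ^ (j : ℕ) else 0 :
          Polynomial (UA n K r)).coeff i) := by
  classical
  obtain ⟨N, cH, hNc⟩ := hz_wt (n := n) (r := r) hr
  refine ⟨N, cH + N * ((n + 1) * n), ?_⟩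
  intro K cc b₀ j
  choose G q e hG hid using hNc
  set D : Fin K → UA n K r := fun i =>
    (∏ i' ∈ Finset.univ.erase i, hU (i', cc i') ^ N) * hU (i, b₀.succ) with hD
  refine ⟨fun s => -(D s.1) * C4_io s.1 (G (cc s.1) j s.2), ⟨?_, ?_⟩, ?_, ?_⟩
  · intro b
    by_cases hb : b = b₀
    · rw [if_pos hb]
      refine (Polynomial.natDegree_C_mul_X_pow_le _ _).trans ?_
      have := j.2
      omega
    · rw [if_neg hb]
      simp
  · intro i
    have h1 : EU (fun s : HV n K => -(D s.1) * C4_io s.1 (G (cc s.1) j s.2))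
        (fun b => if b = b₀ then
          Polynomial.C (phiU hr N cc) * Polynomial.X ^ (j : ℕ) else 0) i =
        Polynomial.C (D i) * (vv hU xU i * (q (cc i) j).map (C4_io i) +
          Polynomial.X ^ (r + 1) * (e (cc i) j).map (C4_io i)) := by
      unfold EU
      have h2 : ∑ b : Fin n, Polynomial.C (hU (i, b.succ)) * (if b = b₀ then
          Polynomial.C (phiU hr N cc) * Polynomial.X ^ (j : ℕ) else 0 : Polynomial (UA n K r)) =
          Polynomial.C (hU (i, b₀.succ)) *
            (Polynomial.C (phiU hr N cc) * Polynomial.X ^ (j : ℕ)) := by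
        rw [Finset.sum_eq_single b₀]
        · rw [if_pos rfl]
        · intro b _ hb
          rw [if_neg hb, mul_zero]
        · intro h; exact absurd (Finset.mem_univ _) h
      rw [h2]
      have h3 : phiU hr N cc = (∏ i' ∈ Finset.univ.erase i, hU (i', cc i') ^ N) *
          (Wd hr xU * hU (i, cc i)) ^ N := by
        unfold phiU
        rw [← Finset.mul_prod_erase Finset.univ _ (Finset.mem_univ i), mul_pow]
        ring
      have h4 := congrArg (Polynomial.map (C4_io (K := K) i)) (hid (cc i) j)
      rw [Polynomial.map_add, Polynomial.map_add, Polynomial.map_mul, Polynomial.map_mul,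
        Polynomial.map_mul, Polynomial.map_pow, Polynomial.map_pow, Polynomial.map_C,
        Polynomial.map_X, C4_linA_map, C4_linA_map, map_pow, map_mul, C4_io_hX, Wd_map] at h4
      have h5 : (fun p : JV n r => C4_io (K := K) i (xX p)) = xU := by
        funext p
        exact C4_io_xX i p
      rw [h5] at h4
      have h6 : linA (fun c => Polynomial.C (C4_io (n := n) (r := r) (K := K) i (hX c)))
          (arc (xU (n := n) (K := K) (r := r))) =
          vv (hU (n := n) (K := K) (r := r)) xU i := by
        unfold vv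
        congr 1
        funext c
        rw [C4_io_hX]
      rw [h6] at h4
      have h7 : vv (fun s : HV n K => -(D s.1) * C4_io s.1 (G (cc s.1) j s.2)) xU i =
          Polynomial.C (-(D i)) *
            linA (fun c => Polynomial.C (C4_io (K := K) i (G (cc i) j c))) (arc xU) := by
        unfold vv
        rw [← C4_linA_mul]
        congr 1
        funext c
        rw [Polynomial.C_mul]
      rw [h7, h3, Polynomial.C_mul]
      have h8 : Polynomial.C (D i) = (Polynomial.C (∏ i' ∈ Finset.univ.erase i,
          hU (i', cc i') ^ N) : Polynomial (UA n K r)) * Polynomial.C (hU (i, b₀.succ)) := by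
        rw [hD, Polynomial.C_mul]
      have h9 : Polynomial.C (-(D i)) = -(Polynomial.C (D i)) := by rw [Polynomial.C_neg]
      rw [h9]
      calc -(Polynomial.C (D i)) *
            linA (fun c => Polynomial.C (C4_io (K := K) i (G (cc i) j c))) (arc xU) +
          Polynomial.C (hU (i, b₀.succ)) * (Polynomial.C (∏ i' ∈ Finset.univ.erase i,
            hU (i', cc i') ^ N) * Polynomial.C ((Wd hr xU * hU (i, cc i)) ^ N) *
              Polynomial.X ^ (j : ℕ))
          = -(Polynomial.C (D i)) *
            linA (fun c => Polynomial.C (C4_io (K := K) i (G (cc i) j c))) (arc xU) +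
          Polynomial.C (D i) * (Polynomial.C ((Wd hr xU * hU (i, cc i)) ^ N) *
              Polynomial.X ^ (j : ℕ)) := by
            rw [h8]; ring
        _ = _ := by
            rw [h4]; ring
    rw [h1]
    apply Ideal.mul_mem_left
    apply Ideal.add_mem
    · exact Ideal.mul_mem_right _ _ (Ideal.subset_span (Set.mem_insert _ _))
    · exact Ideal.mul_mem_right _ _
        (Ideal.subset_span (Set.mem_insert_of_mem _ (Set.mem_singleton _)))
  · intro s
    have hh : ∀ t : HV n K, WtS 0 (hU (r := r) t) := fun t => WtS.inr t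
    have h1 : WtS 0 (∏ i' ∈ Finset.univ.erase s.1, hU (r := r) (i', cc i') ^ N) := by
      have h2 := WtS.prod (s := Finset.univ.erase s.1) (d := fun _ => 0)
        (P := fun i' => hU (r := r) (i', cc i') ^ N) (fun i' _ => by
          have := (hh (i', cc i')).pow N
          rwa [mul_zero] at this)
      rwa [Finset.sum_const_zero] at h2
    have h3 : WtS 0 (D s.1) := by
      have := h1.mul (hh (s.1, b₀.succ))
      rwa [add_zero] at this
    have h4 : WtS cH (C4_io s.1 (G (cc s.1) j s.2) : UA n K r) :=
      WtS.rename _ (hG (cc s.1) j s.2)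
    have h5 := h3.neg.mul h4
    rw [zero_add] at h5
    exact h5.mono (Nat.le_add_right _ _)
  · intro b i
    by_cases hb : b = b₀
    · rw [if_pos hb, Polynomial.coeff_C_mul, Polynomial.coeff_X_pow]
      have hh : ∀ t : HV n K, WtS 0 (hU (r := r) t) := fun t => WtS.inr t
      have h1 : WtS 0 (∏ i', hU (r := r) (i', cc i') ^ N) := by
        have h2 := WtS.prod (s := Finset.univ) (d := fun _ => 0)
          (P := fun i' => hU (r := r) (i', cc i') ^ N) (fun i' _ => by
            have := (hh (i', cc i')).pow N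
            rwa [mul_zero] at this)
        rwa [Finset.sum_const_zero] at h2
      have h2 : WtS (N * ((n + 1) * n)) (Wd hr (xU (n := n) (K := K) (r := r)) ^ N) :=
        (WtS.Wd hr).pow N
      have h3 : WtS (N * ((n + 1) * n)) (phiU hr N cc) := by
        have := h2.mul h1
        rwa [add_zero] at this
      split_ifs with h
      · rw [mul_one]
        exact h3.mono (Nat.le_add_left _ _)
      · rw [mul_zero]
        exact WtS.zero _
    · rw [if_neg hb, Polynomial.coeff_zero]
      exact WtS.zero _

end Pool.Agent.H78G
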