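import Pool.Agent.Lib.H78G.C3
import Pool.Agent.Lib.H78G.C4
import Pool.Agent.Lib.H78G.C1

set_option autoImplicit false

/-!
CHUNK C5 (M).  The fields span the tangent space at a nondegenerate jet.
-/

open MvPolynomial

namespace Pool.Agent.H78G

open Pool.Agent.H89T

variable {n r : ℕ}

theorem C5_evU_hU {K : ℕ} (h : HV n K → ℂ) (ξ : JV n r → ℂ) (s : HV n K) :
    evU h ξ (hU s) = h s := by
  unfold evU hU
  rw [aeval_X]
  rfl

theorem C5_evU_xU {K : ℕ} (h : HV n K → ℂ) (ξ : JV n r → ℂ) (p : JV n r) :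
    evU h ξ (xU p) = ξ p := by
  unfold evU xU
  rw [aeval_X]
  rfl

theorem C5_VU_inl {K : ℕ} (g : HV n K → UA n K r) (lam : Fin n → Polynomial (UA n K r))
    (p : JV n r) : VU g lam (X (Sum.inl p)) = (lam p.1).coeff (p.2 : ℕ) := VU_xU g lam p

theorem C5_VU_inr {K : ℕ} (g : HV n K → UA n K r) (lam : Fin n → Polynomial (UA n K r))
    (s : HV n K) : VU g lam (X (Sum.inr s)) = g s := VU_hU g lam s

theorem C5_single {σ : Type} [Fintype σ] [DecidableEq σ] (W : Submodule ℂ (σ → ℂ))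
    (h : ∀ s, Pi.single s 1 ∈ W) : W = ⊤ := by
  rw [Submodule.eq_top_iff']
  intro v
  have h1 : v = ∑ s, v s • (Pi.single s 1 : σ → ℂ) := by
    ext t
    rw [Finset.sum_apply]
    simp [Pi.single_apply]
  rw [h1]
  exact Submodule.sum_mem _ fun s _ => Submodule.smul_mem _ _ (h s)

/-- CHUNK C5.  Proof.  `c = max (r + 1) c'` with `N`, `c'` of `horizontal_exists`.  Let `W` be the span.
(1) The unit vector at `Sum.inr s`: the field of `vertical_mem` has the value
`(linA (h s.1) (ξ_0)) ^ (r + 1) ≠ 0` at `Sum.inr s` and `0` elsewhere (`VU_hU`, `VU_xU`, `coeff_vv_zero`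
mapped by `evU`).
(2) The unit vector at `Sum.inl (b₀, j)`: for every `i` choose `cc i` with `h (i, cc i) ≠ 0` (possible,
since `linA (h i) ξ_0 ≠ 0`); the field of `horizontal_exists` has the value
`evU phiU = (Wd hr ξ) ^ N * ∏ h (i, cc i) ^ N ≠ 0` at `Sum.inl (b₀, j)`, `0` at the other `Sum.inl p`, and
some values at the `Sum.inr s`, which are removed by (1). -/
theorem span_fieldsU (hr : n ≤ r) : ∃ c : ℕ, ∀ (K : ℕ) (h : HV n K → ℂ) (ξ : JV n r → ℂ),
    Wd hr ξ ≠ 0 → (∀ i, linA (fun j => h (i, j)) (fun b => ξ (b, 0)) ≠ 0) →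
    Submodule.span ℂ ((fun (V : Derivation ℂ (UA n K r) (UA n K r)) =>
      fun s : JV n r ⊕ HV n K => evU h ξ (V (X s))) '' FieldsU n K r c) = ⊤ := by
  classical
  obtain ⟨N, c', hH⟩ := horizontal_exists hr
  refine ⟨max (r + 1) c', fun K h ξ hW hl => ?_⟩
  obtain ⟨W, hWdef⟩ : ∃ W : Submodule ℂ (JV n r ⊕ HV n K → ℂ), W =
    Submodule.span ℂ ((fun (V : Derivation ℂ (UA n K r) (UA n K r)) =>
      fun s : JV n r ⊕ HV n K => evU h ξ (V (X s))) '' FieldsU n K r (max (r + 1) c')) := ⟨_, rfl⟩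
  rw [← hWdef]
  have hmem : ∀ V ∈ FieldsU n K r (max (r + 1) c'),
      (fun s : JV n r ⊕ HV n K => evU h ξ (V (X s))) ∈ W := by
    intro V hV
    rw [hWdef]
    exact Submodule.subset_span ⟨V, hV, rfl⟩
  have hv0 : ∀ i : Fin K, evU h ξ ((vv hU xU i).coeff 0 : UA n K r) =
      linA (fun j => h (i, j)) (fun b => ξ (b, 0)) := by
    intro i
    rw [coeff_vv_zero]
    have h1 := linA_map (evU (n := n) (K := K) (r := r) h ξ).toRingHom
      (fun j => (hU (i, j) : UA n K r)) (fun b => xU (b, 0))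
    simp only [AlgHom.toRingHom_eq_coe, RingHom.coe_coe, C5_evU_hU, C5_evU_xU] at h1
    exact h1
  -- the vertical directions
  have hinr : ∀ s : HV n K, (Pi.single (Sum.inr s) 1 : JV n r ⊕ HV n K → ℂ) ∈ W := by
    intro s
    have h1 := hmem _ (vertical_mem (le_max_left (r + 1) c') s)
    have h2 : (fun s' : JV n r ⊕ HV n K => evU h ξ (VU (fun s' => if s' = s then
        ((vv hU xU s.1).coeff 0 : UA n K r) ^ (r + 1) else 0) (fun _ => 0) (X s'))) =
        (linA (fun j => h (s.1, j)) (fun b => ξ (b, 0)) ^ (r + 1)) •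
          (Pi.single (Sum.inr s) 1 : JV n r ⊕ HV n K → ℂ) := by
      funext s'
      rcases s' with p | s'
      · rw [C5_VU_inl]
        simp
      · rw [C5_VU_inr]
        by_cases hs : s' = s
        · subst hs
          rw [if_pos rfl, map_pow, hv0]
          simp
        · rw [if_neg hs, map_zero]
          simp [Pi.single_apply, hs]
    rw [h2] at h1
    have h5 : linA (fun j => h (s.1, j)) (fun b => ξ (b, 0)) ^ (r + 1) ≠ 0 :=
      pow_ne_zero _ (hl s.1)
    have h6 := W.smul_mem (linA (fun j => h (s.1, j)) (fun b => ξ (b, 0)) ^ (r + 1))⁻¹ h1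
    rwa [smul_smul, inv_mul_cancel₀ h5, one_smul] at h6
  -- the horizontal directions
  have hcc : ∀ i : Fin K, ∃ c, h (i, c) ≠ 0 := by
    intro i
    by_contra hcon
    push Not at hcon
    apply hl i
    unfold linA
    simp [hcon]
  choose cc hcc using hcc
  have hinl : ∀ p : JV n r, (Pi.single (Sum.inl p) 1 : JV n r ⊕ HV n K → ℂ) ∈ W := by
    rintro ⟨b₀, j⟩
    obtain ⟨g, hg1, hg2, hg3⟩ := hH K cc b₀ j
    have h1 := hmem (VU g fun b => if b = b₀ then
        Polynomial.C (phiU hr N cc) * Polynomial.X ^ (j : ℕ) else 0)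
      ⟨g, _, hg1, fun s => (hg2 s).mono (le_max_right _ _),
        fun b i => (hg3 b i).mono (le_max_right _ _), rfl⟩
    obtain ⟨φ, hφ⟩ : ∃ φ : ℂ, φ = evU h ξ (phiU hr N cc : UA n K r) := ⟨_, rfl⟩
    have hφ0 : φ ≠ 0 := by
      rw [hφ]
      unfold phiU
      have h2 := Wd_map hr (evU (n := n) (K := K) (r := r) h ξ).toRingHom xU
      simp only [AlgHom.toRingHom_eq_coe, RingHom.coe_coe, C5_evU_xU] at h2
      rw [map_mul, map_pow, h2, map_prod]
      refine mul_ne_zero (pow_ne_zero _ hW) (Finset.prod_ne_zero_iff.2 fun i _ => ?_)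
      rw [map_pow, C5_evU_hU]
      exact pow_ne_zero _ (hcc i)
    have h2 : (fun s : JV n r ⊕ HV n K => evU h ξ (VU g (fun b => if b = b₀ then
        Polynomial.C (phiU hr N cc) * Polynomial.X ^ (j : ℕ) else 0) (X s))) =
        φ • (Pi.single (Sum.inl (b₀, j)) 1 : JV n r ⊕ HV n K → ℂ) +
          ∑ s : HV n K, evU h ξ (g s) • (Pi.single (Sum.inr s) 1 : JV n r ⊕ HV n K → ℂ) := by
      funext s
      rw [Pi.add_apply, Finset.sum_apply]
      rcases s with p | s
      · rw [C5_VU_inl]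
        obtain ⟨b, l⟩ := p
        by_cases hb : b = b₀
        · subst hb
          simp only [if_true, Polynomial.coeff_C_mul, Polynomial.coeff_X_pow]
          by_cases hlj : l = j
          · subst hlj
            simp [hφ]
          · have h4 : (l : ℕ) ≠ (j : ℕ) := fun h => hlj (Fin.ext h)
            simp [h4, hlj, Pi.single_apply]
        · simp [hb, Pi.single_apply]
      · rw [C5_VU_inr]
        simp [Pi.single_apply]
    rw [h2] at h1
    have h5 : φ • (Pi.single (Sum.inl (b₀, j)) 1 : JV n r ⊕ HV n K → ℂ) ∈ W := by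
      have h6 := W.sub_mem h1 (W.sum_mem (t := Finset.univ) (f := fun s : HV n K =>
        evU h ξ (g s) • (Pi.single (Sum.inr s) 1 : JV n r ⊕ HV n K → ℂ))
        fun s _ => W.smul_mem _ (hinr s))
      rwa [add_sub_cancel_right] at h6
    have h6 := W.smul_mem φ⁻¹ h5
    rwa [smul_smul, inv_mul_cancel₀ hφ0, one_smul] at h6
  refine C5_single W fun s => ?_
  rcases s with p | s
  · exact hinl p
  · exact hinr s

end Pool.Agent.H78G
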