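import Pool.Agent.Lib.H78G.W0
import Pool.Agent.Lib.H78G.C1

set_option autoImplicit false

/-!
CHUNK C6 (M, adapt `H89T/C10.lean`: mostly search and replace `Idx n k` by `HV n K`, `AA n k r` by
`UA n K r`, `gen n k` by `pc (fun s => X s)`).  Comparison of the nested and the flat polynomial
rings, specialization.
-/

open MvPolynomial

namespace Pool.Agent.H78G

open Pool.Agent.H89T

variable {n K r : ℕ}

/-- The generic arrangement: coefficients of the product over `ℂ[h]`. -/
noncomputable def genH (n K : ℕ) : Idx n K → MvPolynomial (HV n K) ℂ :=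
  pc (fun s : HV n K => (X s : MvPolynomial (HV n K) ℂ))

/-- A polynomial in the jets with coefficients in `ℂ[a]` as an element of the universal ring. -/
noncomputable def flatU (P : MvPolynomial (JV n r) (MvPolynomial (HV n K) ℂ)) : UA n K r :=
  (sumAlgEquiv ℂ (JV n r) (HV n K)).symm P

/-- `flatU` as a ring homomorphism. -/
noncomputable def C6_fl : MvPolynomial (JV n r) (MvPolynomial (HV n K) ℂ) →+* UA n K r :=
  ((sumAlgEquiv ℂ (JV n r) (HV n K)).symm : _ →ₐ[ℂ] _).toRingHom

theorem C6_fl_apply (P : MvPolynomial (JV n r) (MvPolynomial (HV n K) ℂ)) : C6_fl P = flatU P := rfl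

theorem C6_flat_X (p : JV n r) : flatU (X p : MvPolynomial (JV n r) (MvPolynomial (HV n K) ℂ)) = xU p :=
  sumAlgEquiv_symm_X _ _ _ _

theorem C6_flat_C_C (c : ℂ) :
    flatU (C (C c) : MvPolynomial (JV n r) (MvPolynomial (HV n K) ℂ)) = C c :=
  sumAlgEquiv_symm_C_C _ _ _ _

theorem C6_flat_C_X (α : HV n K) :
    flatU (C (X α) : MvPolynomial (JV n r) (MvPolynomial (HV n K) ℂ)) = hU α :=
  sumAlgEquiv_symm_C_X _ _ _ _

theorem flatU_mul (P Q : MvPolynomial (JV n r) (MvPolynomial (HV n K) ℂ)) : flatU (P * Q) = flatU P * flatU Q :=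
  map_mul C6_fl P Q

theorem flatU_add (P Q : MvPolynomial (JV n r) (MvPolynomial (HV n K) ℂ)) : flatU (P + Q) = flatU P + flatU Q :=
  map_add C6_fl P Q

theorem C6_spec_xU (a : HV n K → ℂ) (p : JV n r) : specU a (xU p) = X p := by
  unfold specU xU
  rw [aeval_X, Sum.elim_inl]

theorem C6_spec_hU (a : HV n K → ℂ) (α : HV n K) :
    specU (n := n) (r := r) a (hU α) = C (a α) := by
  unfold specU hU
  rw [aeval_X, Sum.elim_inr]

theorem specU_flat (a : HV n K → ℂ) (P : MvPolynomial (JV n r) (MvPolynomial (HV n K) ℂ)) :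
    specU a (flatU P) = MvPolynomial.map (eval a) P := by
  induction P using MvPolynomial.induction_on with
  | C q =>
    induction q using MvPolynomial.induction_on with
    | C c =>
      rw [C6_flat_C_C, map_C, eval_C]
      exact (specU a).commutes c
    | add p q hp hq =>
      rw [map_add, flatU_add, map_add, hp, hq, map_add]
    | mul_X p α hp =>
      rw [map_mul, flatU_mul, map_mul, hp, C6_flat_C_X, C6_spec_hU, map_mul, map_C, map_C, eval_X]
  | add p q hp hq => rw [flatU_add, map_add, hp, hq, map_add]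
  | mul_X p i hp => rw [flatU_mul, map_mul, hp, C6_flat_X, C6_spec_xU, map_mul, map_X]

theorem flatU_uR (i : ℕ) : flatU (uR (r := r) (genH n K) i) = uU i := by
  have h := uu_map (C6_fl (n := n) (K := K) (r := r)) (fun α => C (genH n K α)) (fun p => X p) i
  have h2 : ∀ α, C6_fl (n := n) (K := K) (r := r) (C (genH n K α)) = pc hU α := by
    intro α
    have h3 := pc_map ((C6_fl (n := n) (K := K) (r := r)).comp C)
      (fun s : HV n K => (X s : MvPolynomial (HV n K) ℂ)) α
    have h4 : ∀ s : HV n K, ((C6_fl (n := n) (K := K) (r := r)).comp C)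
        (X s : MvPolynomial (HV n K) ℂ) = hU s := fun s => C6_flat_C_X s
    simp only [h4] at h3
    exact h3
  simp only [C6_fl_apply, C6_flat_X] at h h2
  simp only [h2] at h
  exact h

theorem C6_NN_X (R : Type*) [CommRing R] (p : JV n r) : NN n r R (X p) =
    if h : (p.2 : ℕ) < r then ((p.2 : ℕ) + 1) • X (p.1, ⟨(p.2 : ℕ) + 1, by omega⟩) else 0 := by
  unfold NN
  rw [mkDerivation_X]

theorem C6_flat_NN_X (p : JV n r) :
    flatU (NN n r (MvPolynomial (HV n K) ℂ) (X p)) = NU n K r (flatU (X p)) := by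
  rw [C6_NN_X, C6_flat_X, NU_xU]
  split_ifs with h
  · rw [nsmul_eq_mul, nsmul_eq_mul, flatU_mul, C6_flat_X]
    congr 1
    rw [← C6_fl_apply, map_natCast]
  · rw [← C6_fl_apply, map_zero]

theorem flatU_NN (P : MvPolynomial (JV n r) (MvPolynomial (HV n K) ℂ)) :
    flatU (NN n r (MvPolynomial (HV n K) ℂ) P) = NU n K r (flatU P) := by
  induction P using MvPolynomial.induction_on with
  | C q =>
    have h0 : NN n r (MvPolynomial (HV n K) ℂ) (C q) = 0 := by
      rw [← algebraMap_eq]
      exact Derivation.map_algebraMap _ _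
    rw [h0, ← C6_fl_apply, map_zero]
    symm
    induction q using MvPolynomial.induction_on with
    | C c =>
      rw [C6_flat_C_C]
      exact Derivation.map_algebraMap _ _
    | add p q hp hq =>
      have hp' := hp (by rw [← algebraMap_eq]; exact Derivation.map_algebraMap _ _)
      have hq' := hq (by rw [← algebraMap_eq]; exact Derivation.map_algebraMap _ _)
      rw [map_add, flatU_add, map_add, hp', hq', add_zero]
    | mul_X p α hp =>
      have hp' := hp (by rw [← algebraMap_eq]; exact Derivation.map_algebraMap _ _)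
      rw [map_mul, flatU_mul, Derivation.leibniz, hp', C6_flat_C_X, NU_hU]
      simp
  | add p q hp hq => rw [map_add, flatU_add, hp, hq, flatU_add, map_add]
  | mul_X p i hp =>
    rw [Derivation.leibniz, flatU_mul, Derivation.leibniz, flatU_add, smul_eq_mul, smul_eq_mul,
      flatU_mul, flatU_mul, hp, C6_flat_NN_X, smul_eq_mul, smul_eq_mul]

theorem C6_flat_C (q : MvPolynomial (HV n K) ℂ) :
    flatU (C q : MvPolynomial (JV n r) (MvPolynomial (HV n K) ℂ)) = rename Sum.inr q := by
  induction q using MvPolynomial.induction_on with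
  | C c => rw [C6_flat_C_C, rename_C]
  | add p q hp hq => rw [map_add, flatU_add, hp, hq, map_add]
  | mul_X p α hp => rw [map_mul, flatU_mul, hp, C6_flat_C_X, map_mul, rename_X]; rfl

theorem C6_flat_support (P : MvPolynomial (JV n r) (MvPolynomial (HV n K) ℂ)) (m : JV n r ⊕ HV n K →₀ ℕ)
    (hm : m ∈ (flatU P).support) : ∃ m' ∈ P.support, ∀ p : JV n r, m (Sum.inl p) = m' p := by
  classical
  have h1 : flatU P = ∑ m' ∈ P.support, flatU (monomial m' (P.coeff m')) := by
    simp only [← C6_fl_apply]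
    rw [← map_sum, ← P.as_sum]
  rw [h1] at hm
  have h2 := support_sum hm
  obtain ⟨m', hm', h3⟩ := Finset.mem_biUnion.1 h2
  refine ⟨m', hm', fun p => ?_⟩
  have h4 : flatU (monomial m' (P.coeff m')) =
      rename Sum.inr (P.coeff m') * ∏ p : JV n r, xU p ^ (m' p) := by
    rw [monomial_eq, flatU_mul, C6_flat_C]
    congr 1
    rw [← C6_fl_apply, Finsupp.prod_fintype _ _ (fun _ => pow_zero _), map_prod]
    refine Finset.prod_congr rfl fun p _ => ?_
    rw [map_pow, C6_fl_apply, C6_flat_X]
  have h5 : (∏ p : JV n r, xU p ^ (m' p) : UA n K r) =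
      monomial (m'.mapDomain Sum.inl) 1 := by
    rw [monomial_eq, map_one, one_mul, Finsupp.prod_mapDomain_index_inj Sum.inl_injective,
      Finsupp.prod_fintype _ _ (fun _ => pow_zero _)]
    rfl
  rw [h4, h5] at h3
  obtain ⟨u, hu, v, hv, rfl⟩ := Finset.mem_add.mp (support_mul _ _ h3)
  have hv' := Finset.mem_singleton.mp (support_monomial_subset hv)
  subst hv'
  rw [support_rename_of_injective Sum.inr_injective] at hu
  obtain ⟨w, hw, rfl⟩ := Finset.mem_image.1 hu
  rw [Finsupp.add_apply, Finsupp.mapDomain_apply Sum.inl_injective,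
    Finsupp.mapDomain_of_notMem_range _ _ (by simp), zero_add]

theorem C6_flatU_HasMon {d M : ℕ} {P : MvPolynomial (JV n r) (MvPolynomial (HV n K) ℂ)} (hP : HasMon d M P) :
    JdU M (flatU P) ∧ WtS (d + (r + 1) * M) (flatU P) := by
  constructor
  · intro m hm
    obtain ⟨m', hm', h⟩ := C6_flat_support P m hm
    simp only [h]
    exact (hP m' hm').2
  · intro m hm
    obtain ⟨m', hm', h⟩ := C6_flat_support P m hm
    simp only [h]
    obtain ⟨h1, h2⟩ := hP m' hm'
    have h3 := wt_le m'
    have h4 : (r + 1) * jd m' ≤ (r + 1) * M := Nat.mul_le_mul_left _ h2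
    change wt m' ≤ _
    omega

theorem C6_map_iterate (P : MvPolynomial (JV n r) (MvPolynomial (HV n K) ℂ)) (l : ℕ) :
    flatU ((NN n r (MvPolynomial (HV n K) ℂ))^[l] P) = (NU n K r)^[l] (flatU P) := by
  induction l with
  | zero => rfl
  | succ l ih => rw [Function.iterate_succ_apply', Function.iterate_succ_apply', flatU_NN, ih]

theorem C6_flatU_PropA {q : ℕ} {P : MvPolynomial (JV n r) (MvPolynomial (HV n K) ℂ)} (hP : PropA (genH n K) q P) :
    PropU q (flatU P) := by
  intro l hl
  obtain ⟨u, v, huv⟩ := Ideal.mem_span_pair.1 (hP l hl)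
  rw [← C6_map_iterate, ← huv, flatU_add, flatU_mul, flatU_mul, flatU_uR, flatU_uR]
  exact Ideal.mem_span_pair.2 ⟨_, _, rfl⟩

theorem specU_uU (a : HV n K → ℂ) (i : ℕ) : specU (r := r) a (uU i) = uR (pc a) i := by
  have h := uu_map (specU (r := r) a).toRingHom (pc (hU (n := n) (K := K) (r := r))) xU i
  have h1 : ∀ x, (specU (r := r) a).toRingHom x = specU a x := fun _ => rfl
  have h2 : ∀ α, specU (n := n) (r := r) a (pc hU α) = C (pc a α) := by
    intro α
    have h3 := pc_map (specU (n := n) (r := r) a).toRingHom (hU (n := n) (K := K) (r := r)) α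
    simp only [h1, C6_spec_hU] at h3
    rw [h3, ← pc_map (C : ℂ →+* MvPolynomial (JV n r) ℂ) a α]
  simp only [h1, h2, C6_spec_xU] at h
  exact h

theorem C6_spec_NU_X (a : HV n K → ℂ) (s : JV n r ⊕ HV n K) :
    specU a (NU n K r (X s)) = NN n r ℂ (specU a (X s)) := by
  cases s with
  | inl p =>
    change specU a (NU n K r (xU p)) = NN n r ℂ (specU a (xU p))
    rw [NU_xU, C6_spec_xU, C6_NN_X]
    split_ifs with h
    · rw [nsmul_eq_mul, nsmul_eq_mul, map_mul, C6_spec_xU, map_natCast]
    · exact map_zero _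
  | inr α =>
    change specU a (NU n K r (hU α)) = NN n r ℂ (specU a (hU α))
    rw [NU_hU, C6_spec_hU, map_zero, ← algebraMap_eq, Derivation.map_algebraMap]

theorem specU_NU (a : HV n K → ℂ) (P : UA n K r) : specU a (NU n K r P) = NN n r ℂ (specU a P) := by
  induction P using MvPolynomial.induction_on with
  | C c =>
    have h1 : NU n K r (C c) = 0 := Derivation.map_algebraMap _ _
    have h2 : specU (r := r) a (C c) = C c := (specU a).commutes c
    rw [h1, h2, map_zero, ← algebraMap_eq, Derivation.map_algebraMap]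
  | add p q hp hq => rw [map_add, map_add, map_add, map_add, hp, hq]
  | mul_X p s hp =>
    rw [Derivation.leibniz, map_add, smul_eq_mul, smul_eq_mul, map_mul, map_mul, C6_spec_NU_X, hp,
      map_mul, Derivation.leibniz, smul_eq_mul, smul_eq_mul]

theorem C6_spec_iterate (a : HV n K → ℂ) (P : UA n K r) (l : ℕ) :
    specU a ((NU n K r)^[l] P) = (NN n r ℂ)^[l] (specU a P) := by
  induction l with
  | zero => rfl
  | succ l ih => rw [Function.iterate_succ_apply', Function.iterate_succ_apply', specU_NU, ih]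

theorem C6_specU_PropU {q : ℕ} (a : HV n K → ℂ) {P : UA n K r} (hP : PropU q P) :
    PropA (pc a) q (specU a P) := by
  intro l hl
  obtain ⟨u, v, huv⟩ := Ideal.mem_span_pair.1 (hP l hl)
  rw [← C6_spec_iterate, ← huv, map_add, map_mul, map_mul, specU_uU, specU_uU]
  exact Ideal.mem_span_pair.2 ⟨_, _, rfl⟩

theorem C6_spec_monomial (a : HV n K → ℂ) (m : JV n r ⊕ HV n K →₀ ℕ) (c : ℂ) :
    specU a (monomial m c) = monomial (Finsupp.equivFunOnFinite.symm fun p => m (Sum.inl p))
      (c * ∏ α, a α ^ (m (Sum.inr α))) := by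
  unfold specU
  rw [aeval_monomial, Finsupp.prod_fintype _ _ (fun _ => pow_zero _), Fintype.prod_sum_type,
    monomial_eq, Finsupp.prod_fintype _ _ (fun _ => pow_zero _)]
  simp only [Sum.elim_inl, Sum.elim_inr, algebraMap_eq, Finsupp.equivFunOnFinite_symm_apply_apply,
    map_mul, map_prod, map_pow]
  ring

theorem C6_specU_WtS {d : ℕ} (a : HV n K → ℂ) {P : UA n K r} (hP : WtS d P) :
    HasWt d (specU a P) := by
  classical
  intro m hm
  have h1 : specU a P = ∑ m' ∈ P.support, specU a (monomial m' (P.coeff m')) := by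
    rw [← map_sum, ← P.as_sum]
  rw [h1] at hm
  obtain ⟨m', hm', h3⟩ := Finset.mem_biUnion.1 (support_sum hm)
  rw [C6_spec_monomial] at h3
  have h4 := Finset.mem_singleton.mp (support_monomial_subset h3)
  subst h4
  exact hP m' hm'

theorem C6_evU_eq (a : HV n K → ℂ) (ξ : JV n r → ℂ) (P : UA n K r) :
    evU a ξ P = eval ξ (specU a P) := by
  have h : evU a ξ = ((aeval ξ : MvPolynomial (JV n r) ℂ →ₐ[ℂ] ℂ)).comp (specU a) := by
    apply MvPolynomial.algHom_ext
    intro s
    unfold evU specU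
    rw [AlgHom.comp_apply, aeval_X, aeval_X]
    cases s with
    | inl p => simp
    | inr α => simp [← algebraMap_eq]
  rw [h, AlgHom.comp_apply]
  rfl

/-- The variables `x_{b,0}` and `a_α`: `true` for the jets of order `≥ 1`. -/
def isJetU (s : JV n r ⊕ HV n K) : Prop := ∃ p : JV n r, s = Sum.inl p ∧ p.2 ≠ 0

/-- The coefficient (a polynomial in the coordinates and in `a`) of the jet part of the monomial `e`
in a polynomial `P`. -/
noncomputable def jetCoeffU (P : UA n K r) (e : JV n r ⊕ HV n K →₀ ℕ) :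
    MvPolynomial (Fin n ⊕ HV n K) ℂ :=
  open Classical in
  ∑ m ∈ P.support, if (∀ p : JV n r, p.2 ≠ 0 → m (Sum.inl p) = e (Sum.inl p)) then
    monomial (Finsupp.equivFunOnFinite.symm
      (Sum.elim (fun b => m (Sum.inl (b, 0))) fun α => m (Sum.inr α))) (P.coeff m) else 0

/-- CHUNK C6.  If the coefficient of `e` in `P` is not `0`, neither is `jetCoeffU P e`. -/
theorem C6_jetCoeffU_ne_zero (P : UA n K r) (e : JV n r ⊕ HV n K →₀ ℕ) (he : P.coeff e ≠ 0) :
    jetCoeffU P e ≠ 0 := by
  classical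
  intro h0
  have h1 : (jetCoeffU P e).coeff (Finsupp.equivFunOnFinite.symm
      (Sum.elim (fun b => e (Sum.inl (b, 0))) fun α => e (Sum.inr α))) = P.coeff e := by
    unfold jetCoeffU
    rw [coeff_sum, Finset.sum_eq_single e]
    · rw [if_pos (fun _ _ => rfl), coeff_monomial, if_pos rfl]
    · intro m _ hm
      split_ifs with h
      · rw [coeff_monomial, if_neg]
        intro h2
        apply hm
        have h3 := Finsupp.equivFunOnFinite.symm.injective h2
        ext s
        rcases s with p | α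
        · by_cases hp : p.2 = 0
          · have h4 := congrFun h3 (Sum.inl p.1)
            simp only [Sum.elim_inl] at h4
            have h5 : p = (p.1, 0) := by rw [← hp]
            rw [h5]
            exact h4
          · exact h p hp
        · exact congrFun h3 (Sum.inr α)
      · rw [coeff_zero]
    · intro h
      rw [notMem_support_iff.1 h]
      simp
  rw [h0, coeff_zero] at h1
  exact he h1.symm

theorem C6_isJetU_inl (p : JV n r) : isJetU (K := K) (Sum.inl p) ↔ p.2 ≠ 0 := by
  unfold isJetU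
  constructor
  · rintro ⟨q, hq, h⟩
    rwa [Sum.inl_injective hq]
  · intro h
    exact ⟨p, rfl, h⟩

theorem C6_isJetU_inr (α : HV n K) : ¬ isJetU (r := r) (Sum.inr α) := by
  rintro ⟨q, hq, h⟩
  cases hq

/-- The jet part of a monomial. -/
noncomputable def C6_jp (m : JV n r ⊕ HV n K →₀ ℕ) : JV n r ⊕ HV n K →₀ ℕ :=
  Finsupp.equivFunOnFinite.symm (Sum.elim (fun p => if p.2 = 0 then 0 else m (Sum.inl p))
    fun _ => 0)

theorem C6_jp_eq_iff (m e : JV n r ⊕ HV n K →₀ ℕ) :
    C6_jp m = C6_jp e ↔ ∀ p : JV n r, p.2 ≠ 0 → m (Sum.inl p) = e (Sum.inl p) := by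
  unfold C6_jp
  constructor
  · intro h p hp
    have h1 := congrFun (Finsupp.equivFunOnFinite.symm.injective h) (Sum.inl p)
    simpa [hp] using h1
  · intro h
    congr 2
    funext p
    split_ifs with hp
    · rfl
    · exact h p hp

theorem C6_prod_split {B : Type} [CommRing B] (f g : JV n r → B) :
    (∏ p : JV n r, if p.2 = 0 then g p else f p) =
      (∏ p : JV n r, if p.2 = 0 then 1 else f p) * ∏ b : Fin n, g (b, 0) := by
  have h1 : ∏ b : Fin n, g (b, 0) = ∏ p : JV n r, if p.2 = 0 then g p else 1 := by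
    rw [Fintype.prod_prod_type]
    refine Finset.prod_congr rfl fun b _ => ?_
    rw [Finset.prod_eq_single 0]
    · simp
    · intro l _ hl
      simp [hl]
    · intro h
      exact absurd (Finset.mem_univ _) h
  rw [h1, ← Finset.prod_mul_distrib]
  refine Finset.prod_congr rfl fun p _ => ?_
  split_ifs <;> simp

theorem C6_restrict_monomial (a : HV n K → ℂ) (ξ : JV n r → ℂ)
    (m : JV n r ⊕ HV n K →₀ ℕ) (c : ℂ) :
    aeval (fun s => open Classical in if isJetU s then X s else
        C (Sum.elim ξ a s) : JV n r ⊕ HV n K → UA n K r) (monomial m c) =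
      monomial (C6_jp m) (c * ((∏ b, ξ (b, 0) ^ (m (Sum.inl (b, 0)))) *
        ∏ α, a α ^ (m (Sum.inr α)))) := by
  classical
  rw [aeval_monomial, Finsupp.prod_fintype _ _ (fun _ => pow_zero _), Fintype.prod_sum_type,
    monomial_eq, Finsupp.prod_fintype _ _ (fun _ => pow_zero _), Fintype.prod_sum_type]
  have h1 : ∀ p : JV n r, ((if isJetU (K := K) (Sum.inl p) then X (Sum.inl p) else
      C (Sum.elim ξ a (Sum.inl p)) : UA n K r)) ^ (m (Sum.inl p)) =
      if p.2 = 0 then C (ξ p) ^ (m (Sum.inl p)) else X (Sum.inl p) ^ (m (Sum.inl p)) := by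
    intro p
    by_cases hp : p.2 = 0
    · rw [if_neg (by rw [C6_isJetU_inl]; simpa using hp), if_pos hp, Sum.elim_inl]
    · rw [if_pos ((C6_isJetU_inl p).2 hp), if_neg hp]
  have h2 : ∀ α : HV n K, ((if isJetU (r := r) (Sum.inr α) then X (Sum.inr α) else
      C (Sum.elim ξ a (Sum.inr α)) : UA n K r)) ^ (m (Sum.inr α)) =
      C (a α ^ (m (Sum.inr α))) := by
    intro α
    rw [if_neg (C6_isJetU_inr α), Sum.elim_inr, map_pow]
  simp only [h1, h2]
  rw [C6_prod_split (fun p : JV n r => (X (Sum.inl p) ^ (m (Sum.inl p)) : UA n K r))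
    (fun p : JV n r => (C (ξ p) ^ (m (Sum.inl p)) : UA n K r))]
  have h3 : ∀ p : JV n r, (X (Sum.inl p) : UA n K r) ^ (C6_jp m (Sum.inl p)) =
      if p.2 = 0 then 1 else X (Sum.inl p) ^ (m (Sum.inl p)) := by
    intro p
    unfold C6_jp
    rw [Finsupp.equivFunOnFinite_symm_apply_apply, Sum.elim_inl]
    split_ifs
    · exact pow_zero _
    · rfl
  have h4 : ∀ α : HV n K, (X (Sum.inr α) : UA n K r) ^ (C6_jp m (Sum.inr α)) = 1 := by
    intro α
    unfold C6_jp
    rw [Finsupp.equivFunOnFinite_symm_apply_apply, Sum.elim_inr, pow_zero]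
  simp only [h3, h4, Finset.prod_const_one, mul_one, map_mul, map_prod, map_pow, algebraMap_eq]
  ring

/-- CHUNK C6.  If `jetCoeffU P e` does not vanish at `(ξ_0, a)` then the restriction of `P` to
`x = ξ_0`, `a = a` is not `0`: its coefficient at the jet part of `e` is this value. -/
theorem C6_restrictU_ne_zero (a : HV n K → ℂ) (P : UA n K r) (e : JV n r ⊕ HV n K →₀ ℕ)
    (ξ : JV n r → ℂ)
    (h : eval (Sum.elim (fun b => ξ (b, 0)) a) (jetCoeffU P e) ≠ 0) :
    aeval (fun s => open Classical in if isJetU s then X s else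
        C (Sum.elim ξ a s) : JV n r ⊕ HV n K → UA n K r) P ≠ 0 := by
  classical
  intro h0
  apply h
  have h1 : (aeval (fun s => if isJetU s then X s else
      C (Sum.elim ξ a s) : JV n r ⊕ HV n K → UA n K r) P).coeff (C6_jp e) =
      eval (Sum.elim (fun b => ξ (b, 0)) a) (jetCoeffU P e) := by
    have h2 : aeval (fun s => if isJetU s then X s else
        C (Sum.elim ξ a s) : JV n r ⊕ HV n K → UA n K r) P = ∑ m ∈ P.support,
        monomial (C6_jp m) (P.coeff m * ((∏ b, ξ (b, 0) ^ (m (Sum.inl (b, 0)))) *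
        ∏ α, a α ^ (m (Sum.inr α)))) := by
      conv_lhs => rw [P.as_sum]
      rw [map_sum]
      exact Finset.sum_congr rfl fun m _ => C6_restrict_monomial a ξ m _
    rw [h2, coeff_sum]
    unfold jetCoeffU
    rw [map_sum]
    refine Finset.sum_congr rfl fun m _ => ?_
    rw [coeff_monomial]
    by_cases hm : C6_jp m = C6_jp e
    · rw [if_pos hm, if_pos ((C6_jp_eq_iff m e).1 hm), eval_monomial,
        Finsupp.prod_fintype _ _ (fun _ => pow_zero _), Fintype.prod_sum_type]
      simp
    · rw [if_neg hm, if_neg (fun h => hm ((C6_jp_eq_iff m e).2 h)), map_zero]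
  rw [← h1]
  have h3 := congrArg (fun Q : UA n K r => Q.coeff (C6_jp e)) h0
  simp only [coeff_zero] at h3
  convert h3

/-- CHUNK C6. -/
theorem flatU_ne_zero {P : MvPolynomial (JV n r) (MvPolynomial (HV n K) ℂ)} (hP : P ≠ 0) :
    flatU P ≠ 0 := by
  intro h
  apply hP
  unfold flatU at h
  exact (map_eq_zero_iff _ (sumAlgEquiv ℂ (JV n r) (HV n K)).symm.injective).1 h

/-- CHUNK C6. -/
theorem flatU_HasMon {d M : ℕ} {P : MvPolynomial (JV n r) (MvPolynomial (HV n K) ℂ)}
    (hP : HasMon d M P) : JdU M (flatU P) ∧ WtS (d + (r + 1) * M) (flatU P) :=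
  C6_flatU_HasMon hP

/-- CHUNK C6.  `flatU` commutes with `N` and maps `u i` to `uU i` (`uu_map`, `pc_map`). -/
theorem flatU_PropA {q : ℕ} {P : MvPolynomial (JV n r) (MvPolynomial (HV n K) ℂ)}
    (hP : PropA (genH n K) q P) : PropU q (flatU P) :=
  C6_flatU_PropA hP

/-- CHUNK C6. -/
theorem specU_PropU {q : ℕ} (h : HV n K → ℂ) {P : UA n K r} (hP : PropU q P) :
    PropA (pc h) q (specU h P) :=
  C6_specU_PropU h hP

/-- CHUNK C6. -/
theorem specU_WtS {d : ℕ} (h : HV n K → ℂ) {P : UA n K r} (hP : WtS d P) :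
    HasWt d (specU h P) :=
  C6_specU_WtS h hP

/-- CHUNK C6. -/
theorem evU_eq (h : HV n K → ℂ) (ξ : JV n r → ℂ) (P : UA n K r) :
    evU h ξ P = eval ξ (specU h P) :=
  C6_evU_eq h ξ P

/-- CHUNK C6. -/
theorem jetCoeffU_ne_zero (P : UA n K r) (e : JV n r ⊕ HV n K →₀ ℕ) (he : P.coeff e ≠ 0) :
    jetCoeffU P e ≠ 0 :=
  C6_jetCoeffU_ne_zero P e he

/-- CHUNK C6 (`restrict_ne_zero` of `H89T/C10.lean`). -/
theorem restrictU_ne_zero (h : HV n K → ℂ) (P : UA n K r) (e : JV n r ⊕ HV n K →₀ ℕ)
    (ξ : JV n r → ℂ)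
    (hW : eval (Sum.elim (fun b => ξ (b, 0)) h) (jetCoeffU P e) ≠ 0) :
    aeval (fun s => open Classical in if isJetU s then X s else
        C (Sum.elim ξ h s) : JV n r ⊕ HV n K → UA n K r) P ≠ 0 :=
  C6_restrictU_ne_zero h P e ξ hW

end Pool.Agent.H78G
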