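import Pool.Agent.Lib.H78G.C2
import Pool.Agent.Lib.H78G.C5
import Pool.Agent.Lib.H78G.C6

set_option autoImplicit false

/-!
CHUNK C7 (M, adapt `H89T/C11.lean`).  Slanted fields: conclusion.
-/

open MvPolynomial

namespace Pool.Agent.H78G

open Pool.Agent.H89T

variable {n r : ℕ}

theorem C7_app_prop {K c w : ℕ} (L : List (Derivation ℂ (UA n K r) (UA n K r)))
    (hL : ∀ V ∈ L, V ∈ FieldsU n K r c) (P : UA n K r) (hw : WtS w P) :
    WtS (w + L.length * c) (app L P) ∧ (PropU r P → PropU r (app L P)) := by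
  induction L with
  | nil => exact ⟨by simpa [app] using hw, fun h => h⟩
  | cons V L ih =>
    obtain ⟨h1, h2⟩ := ih (fun V' hV' => hL V' (List.mem_cons_of_mem _ hV'))
    obtain ⟨g, lam, hadm, hg, hlam, rfl⟩ := hL V List.mem_cons_self
    have happ : app (VU g lam :: L) P = VU g lam (app L P) := rfl
    rw [happ]
    refine ⟨?_, fun h => (h2 h).field hadm⟩
    refine (h1.field hg hlam).mono ?_
    rw [List.length_cons]
    ring_nf
    exact le_rfl

/-- CHUNK C7.  Proof as `H89T.slant` (file `H89T/C11.lean`): `W = jetCoeffU (flatU P) e` for some `e`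
in the support of `flatU P`; for a good point apply `H89T.exists_app_ne_zero` with
`σ = JV n r ⊕ HV n K`, the point `Sum.elim ξ h`, `𝒱 = FieldsU n K r c` (`span_fieldsU`),
`J` = the jets of order `≥ 1` (`isJetU`), `m = M`; the resulting iterated derivative `app L (flatU P)`
has weight `≤ d + (r + 1) M + M c` (`WtS.field`) and keeps property (A) (`PropU.field` with `q = r`);
take `specU h` of it. -/
theorem slantU (hr : n ≤ r) : ∃ c : ℕ, ∀ {K d M : ℕ}
    (P : MvPolynomial (JV n r) (MvPolynomial (HV n K) ℂ)), P ≠ 0 → HasMon d M P →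
    ∃ W : MvPolynomial (Fin n ⊕ HV n K) ℂ, W ≠ 0 ∧
      ∀ (h : HV n K → ℂ) (ξ : JV n r → ℂ),
        eval (Sum.elim (fun b => ξ (b, 0)) h) W ≠ 0 →
        (∀ i, linA (fun j => h (i, j)) (fun b => ξ (b, 0)) ≠ 0) → Wd hr ξ ≠ 0 →
        ∃ Q : MvPolynomial (JV n r) ℂ, HasWt (d + (r + 1) * M + M * c) Q ∧ eval ξ Q ≠ 0 ∧
          (PropA (genH n K) r P → PropA (pc h) r Q) := by
  classical
  obtain ⟨c, hc⟩ := span_fieldsU (n := n) (r := r) hr
  refine ⟨c, fun {K d M} P hP0 hP => ?_⟩
  have hflat : flatU P ≠ 0 := flatU_ne_zero hP0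
  obtain ⟨e, he⟩ := MvPolynomial.exists_coeff_ne_zero hflat
  obtain ⟨hjd, hwt⟩ := flatU_HasMon hP
  refine ⟨jetCoeffU (flatU P) e, jetCoeffU_ne_zero _ _ he, ?_⟩
  intro h ξ hW hlin hWd
  have hspan := hc K h ξ hWd hlin
  have hres := restrictU_ne_zero h (flatU P) e ξ hW
  obtain ⟨L, hL, hlen, hne⟩ := exists_app_ne_zero (Sum.elim ξ h) (FieldsU n K r c)
    hspan {s | isJetU s} (flatU P) M (by
      intro m hm
      refine le_trans (le_of_eq ?_) (hjd m hm)
      rw [Fintype.sum_sum_type]
      have h2 : ∀ α : HV n K, (if (Sum.inr α : JV n r ⊕ HV n K) ∈ {s | isJetU s} then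
          m (Sum.inr α) else 0) = 0 := fun α => if_neg (C6_isJetU_inr α)
      simp only [h2, Finset.sum_const_zero, add_zero]
      refine Finset.sum_congr rfl fun p _ => ?_
      by_cases hp : p.2 = 0
      · rw [if_pos hp, if_neg]
        rw [Set.mem_ofPred_eq, C6_isJetU_inl]
        simpa using hp
      · rw [if_neg hp, if_pos]
        rw [Set.mem_ofPred_eq, C6_isJetU_inl]
        exact hp) (by
      have h2 : (fun s => if s ∈ {s | isJetU s} then X s else C (Sum.elim ξ h s) :
          JV n r ⊕ HV n K → UA n K r) =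
          fun s => if isJetU s then X s else C (Sum.elim ξ h s) := by
        funext s
        by_cases hs : isJetU s
        · rw [if_pos hs, if_pos (by rw [Set.mem_ofPred_eq]; exact hs)]
        · rw [if_neg hs, if_neg (by rw [Set.mem_ofPred_eq]; exact hs)]
      rw [h2]
      convert hres)
  obtain ⟨h1, h2⟩ := C7_app_prop L hL (flatU P) hwt
  refine ⟨specU h (app L (flatU P)), ?_, ?_, fun hA => ?_⟩
  · refine specU_WtS h (h1.mono ?_)
    have := Nat.mul_le_mul_right c hlen
    omega
  · rw [← evU_eq]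
    exact hne
  · exact specU_PropU h (h2 (flatU_PropA hA))

end Pool.Agent.H78G
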