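import Pool.Agent.Lib.H78G.PC

set_option autoImplicit false

/-!
CHUNK TR (M).  Translations.
-/

open MvPolynomial

namespace Pool.Agent.H78G

open Pool.Agent.H89T

variable {n K r : ℕ}

/-- Translation of the point of the jet by `a`. -/
noncomputable def tr (a : Fin n → ℂ) :
    MvPolynomial (JV n r) ℂ →ₐ[ℂ] MvPolynomial (JV n r) ℂ :=
  aeval fun p => X p + if p.2 = 0 then C (a p.1) else 0

/-- The coefficients of the translated linear polynomials: `(hT a h) (x + a) = h (x)`. -/
def hT {B : Type*} [CommRing B] (a : Fin n → B) (h : HV n K → B) : HV n K → B :=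
  fun s => if s.2 = 0 then h (s.1, 0) - ∑ b : Fin n, h (s.1, b.succ) * a b else h s

/-- CHUNK TR. -/
theorem linA_hT {B : Type} [CommRing B] (a : Fin n → B) (h : HV n K → B) (x : Fin n → B)
    (i : Fin K) :
    linA (fun j => hT a h (i, j)) (fun b => x b + a b) = linA (fun j => h (i, j)) x := by
  unfold linA hT
  simp only [if_true, Fin.succ_ne_zero, if_false, mul_add, Finset.sum_add_distrib]
  ring

theorem tr_wt_add (m m' : JV n r →₀ ℕ) : wt (m + m') = wt m + wt m' := by
  unfold wt
  rw [← Finset.sum_add_distrib]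
  exact Finset.sum_congr rfl fun p _ => by simp [mul_add]

theorem tr_w_mono {d e : ℕ} (h : d ≤ e) {P : MvPolynomial (JV n r) ℂ} (hP : HasWt d P) :
    HasWt e P := fun m hm => (hP m hm).trans h

theorem tr_w_add {d : ℕ} {P Q : MvPolynomial (JV n r) ℂ} (hP : HasWt d P) (hQ : HasWt d Q) :
    HasWt d (P + Q) := by
  classical
  intro m hm
  rcases Finset.mem_union.mp (MvPolynomial.support_add hm) with h | h
  · exact hP m h
  · exact hQ m h

theorem tr_w_zero (d : ℕ) : HasWt d (0 : MvPolynomial (JV n r) ℂ) := by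
  intro m hm
  simp at hm

theorem tr_w_C (c : ℂ) : HasWt 0 (C c : MvPolynomial (JV n r) ℂ) := by
  classical
  intro m hm
  rw [MvPolynomial.mem_support_iff, MvPolynomial.coeff_C] at hm
  by_cases h : 0 = m
  · rw [← h]
    simp [wt]
  · rw [if_neg h] at hm
    exact absurd rfl hm

theorem tr_w_X (p : JV n r) : HasWt ((p.2 : ℕ) + 1) (X p : MvPolynomial (JV n r) ℂ) := by
  classical
  intro m hm
  rw [MvPolynomial.support_X, Finset.mem_singleton] at hm
  subst hm
  unfold wt
  refine le_of_eq ?_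
  rw [Finset.sum_eq_single p]
  · simp
  · intro q _ hq
    rw [Finsupp.single_eq_of_ne hq, mul_zero]
  · intro h
    exact absurd (Finset.mem_univ _) h

theorem tr_w_mul {d e : ℕ} {P Q : MvPolynomial (JV n r) ℂ} (hP : HasWt d P) (hQ : HasWt e Q) :
    HasWt (d + e) (P * Q) := by
  classical
  intro m hm
  obtain ⟨m₁, h₁, m₂, h₂, rfl⟩ := Finset.mem_add.mp (MvPolynomial.support_mul P Q hm)
  rw [tr_wt_add]
  exact Nat.add_le_add (hP _ h₁) (hQ _ h₂)

theorem tr_w_pow {d : ℕ} {P : MvPolynomial (JV n r) ℂ} (hP : HasWt d P) (N : ℕ) :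
    HasWt (N * d) (P ^ N) := by
  induction N with
  | zero =>
    rw [pow_zero, zero_mul]
    exact tr_w_C 1
  | succ N ih =>
    rw [pow_succ, Nat.succ_mul]
    exact tr_w_mul ih hP

theorem tr_w_prod {τ : Type} (s : Finset τ) (d : τ → ℕ) (P : τ → MvPolynomial (JV n r) ℂ)
    (h : ∀ i ∈ s, HasWt (d i) (P i)) : HasWt (∑ i ∈ s, d i) (∏ i ∈ s, P i) := by
  classical
  induction s using Finset.induction_on with
  | empty =>
    rw [Finset.sum_empty, Finset.prod_empty]
    exact tr_w_C 1
  | insert a s ha ih =>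
    rw [Finset.sum_insert ha, Finset.prod_insert ha]
    exact tr_w_mul (h a (Finset.mem_insert_self a s))
      (ih fun i hi => h i (Finset.mem_insert_of_mem hi))

theorem tr_w_sum {τ : Type} (s : Finset τ) {d : ℕ} (P : τ → MvPolynomial (JV n r) ℂ)
    (h : ∀ i ∈ s, HasWt d (P i)) : HasWt d (∑ i ∈ s, P i) := by
  classical
  induction s using Finset.induction_on with
  | empty =>
    rw [Finset.sum_empty]
    exact tr_w_zero d
  | insert a s ha ih =>
    rw [Finset.sum_insert ha]
    exact tr_w_add (h a (Finset.mem_insert_self a s))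
      (ih fun i hi => h i (Finset.mem_insert_of_mem hi))

/-- CHUNK TR. -/
theorem tr_HasWt (a : Fin n → ℂ) {d : ℕ} {Q : MvPolynomial (JV n r) ℂ} (hQ : HasWt d Q) :
    HasWt d (tr a Q) := by
  classical
  rw [MvPolynomial.as_sum Q, map_sum]
  refine tr_w_sum _ _ fun m hm => ?_
  rw [tr, MvPolynomial.aeval_monomial, Finsupp.prod_fintype _ _ (fun p => pow_zero _)]
  have h1 : HasWt (0 + ∑ p : JV n r, m p * ((p.2 : ℕ) + 1))
      ((algebraMap ℂ (MvPolynomial (JV n r) ℂ)) (coeff m Q) *
        ∏ p : JV n r, (X p + if p.2 = 0 then C (a p.1) else 0) ^ m p) := by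
    refine tr_w_mul (tr_w_C _) (tr_w_prod _ _ _ fun p _ => tr_w_pow (tr_w_add (tr_w_X p) ?_) _)
    split_ifs
    · exact tr_w_mono (Nat.zero_le _) (tr_w_C _)
    · exact tr_w_zero _
  refine tr_w_mono ?_ h1
  rw [zero_add]
  refine le_trans (le_of_eq ?_) (hQ m hm)
  unfold wt
  exact Finset.sum_congr rfl fun p _ => mul_comm _ _

/-- CHUNK TR. -/
theorem eval_tr (a : Fin n → ℂ) (Q : MvPolynomial (JV n r) ℂ) (ξ : JV n r → ℂ) :
    eval ξ (tr a Q) = eval (fun p => ξ p + if p.2 = 0 then a p.1 else 0) Q := by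
  induction Q using MvPolynomial.induction_on with
  | C c => simp [tr]
  | add P Q hP hQ => rw [map_add, map_add, map_add, hP, hQ]
  | mul_X P p hP =>
    rw [map_mul, map_mul, map_mul, hP, eval_X]
    congr 1
    simp only [tr, aeval_X, map_add, eval_X]
    split_ifs <;> simp

theorem tr_NN (a : Fin n → ℂ) (P : MvPolynomial (JV n r) ℂ) :
    NN n r ℂ (tr a P) = tr a (NN n r ℂ P) := by
  induction P using MvPolynomial.induction_on with
  | C c =>
    have h1 : tr (r := r) a (C c) = C c := by simp [tr]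
    have h2 : NN n r ℂ (C c : MvPolynomial (JV n r) ℂ) = 0 := by
      rw [← MvPolynomial.algebraMap_eq]
      exact Derivation.map_algebraMap _ _
    rw [h1, h2, map_zero]
  | add P Q hP hQ => rw [map_add, map_add, map_add, map_add, hP, hQ]
  | mul_X P p hP =>
    have hX : NN n r ℂ (tr a (X p)) = tr a (NN n r ℂ (X p)) := by
      have e1 : tr (r := r) a (X p) = X p + if p.2 = 0 then C (a p.1) else 0 := by simp [tr]
      have e2 : NN n r ℂ (if p.2 = 0 then C (a p.1) else 0 : MvPolynomial (JV n r) ℂ) = 0 := by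
        split_ifs
        · rw [← MvPolynomial.algebraMap_eq]
          exact Derivation.map_algebraMap _ _
        · exact map_zero _
      rw [e1, map_add, e2, add_zero]
      have e3 : NN n r ℂ (X p : MvPolynomial (JV n r) ℂ) =
          if h : (p.2 : ℕ) < r then ((p.2 : ℕ) + 1) • X (p.1, ⟨(p.2 : ℕ) + 1, by omega⟩) else 0 := by
        unfold NN
        exact mkDerivation_X _ _ _
      rw [e3]
      split_ifs with h
      · rw [map_nsmul]
        congr 1
        have h0 : ¬ ((⟨(p.2 : ℕ) + 1, by omega⟩ : Fin (r + 1)) = 0) := by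
          intro h1
          have := congrArg Fin.val h1
          simp at this
        simp only [tr, aeval_X]
        rw [if_neg h0, add_zero]
      · rw [map_zero]
    rw [map_mul, Derivation.leibniz, Derivation.leibniz, hP, hX, map_add, smul_eq_mul, smul_eq_mul,
      smul_eq_mul, smul_eq_mul, map_mul, map_mul]

theorem tr_NN_iter (a : Fin n → ℂ) (l : ℕ) (P : MvPolynomial (JV n r) ℂ) :
    (NN n r ℂ)^[l] (tr a P) = tr a ((NN n r ℂ)^[l] P) := by
  induction l generalizing P with
  | zero => rfl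
  | succ l ih => rw [Function.iterate_succ_apply, Function.iterate_succ_apply, tr_NN, ih]

theorem tr_arc {B : Type} [CommRing B] (a : Fin n → B) (ξ : JV n r → B) (b : Fin n) :
    arc (fun p => ξ p + if p.2 = 0 then a p.1 else 0) b = arc ξ b + Polynomial.C (a b) := by
  unfold arc
  rw [Fin.sum_univ_succ, Fin.sum_univ_succ]
  have h : ∀ l : Fin r, ¬ ((l.succ : Fin (r + 1)) = 0) := fun l => Fin.succ_ne_zero l
  simp only [h, if_false, add_zero, if_true, Polynomial.C_add]
  simp only [Fin.val_zero, pow_zero, mul_one]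
  ring

theorem tr_vv {B : Type} [CommRing B] (a : Fin n → B) (h : HV n K → B) (ξ : JV n r → B)
    (i : Fin K) :
    vv (hT a h) (fun p => ξ p + if p.2 = 0 then a p.1 else 0) i = vv h ξ i := by
  unfold vv
  have h1 : (fun j => Polynomial.C (hT a h (i, j))) =
      fun j => hT (fun b => Polynomial.C (a b)) (fun s => Polynomial.C (h s)) (i, j) := by
    funext j
    unfold hT
    split_ifs
    · rw [Polynomial.C_sub]
      congr 1
      rw [map_sum]
      exact Finset.sum_congr rfl fun b _ => by rw [Polynomial.C_mul]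
    · rfl
  have h2 : arc (fun p => ξ p + if p.2 = 0 then a p.1 else 0) =
      fun b => arc ξ b + Polynomial.C (a b) := funext fun b => tr_arc a ξ b
  rw [h1, h2]
  exact linA_hT (fun b => Polynomial.C (a b)) (fun s => Polynomial.C (h s)) (arc ξ) i

theorem tr_pc (a : Fin n → ℂ) (h : HV n K → ℂ) (α : Idx n K) :
    (C (pc (hT a h) α) : MvPolynomial (JV n r) ℂ) =
      pc (hT (fun b => (C (a b) : MvPolynomial (JV n r) ℂ)) (fun s => C (h s))) α := by
  have h1 := pc_map (C : ℂ →+* MvPolynomial (JV n r) ℂ) (hT a h) α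
  have h2 : (fun s => (C (hT a h s) : MvPolynomial (JV n r) ℂ)) =
      hT (fun b => (C (a b) : MvPolynomial (JV n r) ℂ)) (fun s => C (h s)) := by
    funext s
    unfold hT
    split_ifs
    · rw [C_sub, map_sum]
      have h3 : ∀ b : Fin n, (C (h (s.1, b.succ) * a b) : MvPolynomial (JV n r) ℂ) =
          C (h (s.1, b.succ)) * C (a b) := fun b => C_mul
      rw [Finset.sum_congr rfl fun b _ => h3 b]
    · rfl
  rw [h2] at h1
  exact h1

theorem tr_Fx (a : Fin n → ℂ) (h : HV n K → ℂ) :
    Fx (fun α => (C (pc (hT a h) α) : MvPolynomial (JV n r) ℂ))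
      (fun p => X p + if p.2 = 0 then C (a p.1) else 0) =
    Fx (fun α => (C (pc h α) : MvPolynomial (JV n r) ℂ)) (fun p => X p) := by
  have e1 : (fun α => (C (pc (hT a h) α) : MvPolynomial (JV n r) ℂ)) =
      fun α => pc (hT (fun b => (C (a b) : MvPolynomial (JV n r) ℂ)) (fun s => C (h s))) α :=
    funext fun α => tr_pc a h α
  have e4 : (fun α => (C (pc h α) : MvPolynomial (JV n r) ℂ)) = fun α => pc (fun s => C (h s)) α :=
    funext fun α => pc_map (C : ℂ →+* MvPolynomial (JV n r) ℂ) h α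
  rw [e1, e4]
  have e5 := Fx_pc (hT (fun b => (C (a b) : MvPolynomial (JV n r) ℂ)) (fun s => C (h s)))
    (fun p : JV n r => (X p : MvPolynomial (JV n r) ℂ) + if p.2 = 0 then C (a p.1) else 0)
  have e6 := Fx_pc (fun s : HV n K => (C (h s) : MvPolynomial (JV n r) ℂ))
    (fun p : JV n r => (X p : MvPolynomial (JV n r) ℂ))
  rw [e5, e6]
  exact Finset.prod_congr rfl fun i _ => tr_vv (fun b => C (a b)) (fun s => C (h s)) _ i

theorem tr_uR (a : Fin n → ℂ) (h : HV n K → ℂ) (i : ℕ) :
    tr a (uR (r := r) (pc (hT a h)) i) = uR (pc h) i := by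
  have h1 := uu_map ((tr (r := r) a : MvPolynomial (JV n r) ℂ →ₐ[ℂ] MvPolynomial (JV n r) ℂ) :
    MvPolynomial (JV n r) ℂ →+* MvPolynomial (JV n r) ℂ)
    (fun α => (C (pc (hT a h) α) : MvPolynomial (JV n r) ℂ)) (fun p => X p) i
  simp only [RingHom.coe_coe] at h1
  have e2 : (fun α => tr (r := r) a (C (pc (hT a h) α))) =
      fun α => (C (pc (hT a h) α) : MvPolynomial (JV n r) ℂ) := by
    funext α
    simp [tr]
  have e3 : (fun p : JV n r => tr (r := r) a (X p)) =
      fun p => (X p : MvPolynomial (JV n r) ℂ) + if p.2 = 0 then C (a p.1) else 0 := by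
    funext p
    simp [tr]
  rw [e2, e3] at h1
  unfold uR
  rw [h1]
  unfold uu
  rw [tr_Fx]

/-- CHUNK TR.  Translations commute with `N` (check on the variables) and
`tr a (uR (pc (hT a h)) l) = uR (pc h) l` (`Fx_pc`, `uu_map`, `linA_hT` in the ring of polynomials in
`t` over the ring of jets). -/
theorem tr_PropA (a : Fin n → ℂ) {h : HV n K → ℂ} {q : ℕ} {Q : MvPolynomial (JV n r) ℂ}
    (hQ : PropA (pc (hT a h)) q Q) : PropA (pc h) q (tr a Q) := by
  intro l hl
  rw [tr_NN_iter]
  obtain ⟨c, d, hcd⟩ := Ideal.mem_span_pair.mp (hQ l hl)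
  rw [← hcd, map_add, map_mul, map_mul, tr_uR, tr_uR]
  exact Ideal.mem_span_pair.mpr ⟨tr a c, tr a d, rfl⟩

/-- CHUNK TR.  Translation does not change the jets of order `≥ 1`. -/
theorem Wd_tr (hr : n ≤ r) (a : Fin n → ℂ) (ξ : JV n r → ℂ) :
    Wd hr (fun p => ξ p + if p.2 = 0 then a p.1 else 0) = Wd hr ξ := by
  unfold Wd
  congr 1
  ext b l
  simp only [Matrix.of_apply]
  have h0 : ¬ ((⟨(l : ℕ) + 1, by omega⟩ : Fin (r + 1)) = 0) := by
    intro h1
    have := congrArg Fin.val h1
    simp at this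
  rw [if_neg h0, add_zero]

theorem tr_hT_neg (a : Fin n → ℂ) (h : HV n K → ℂ) : hT a (hT (fun b => -a b) h) = h := by
  funext s
  unfold hT
  by_cases hs : s.2 = 0
  · simp only [hs, if_true, Fin.succ_ne_zero, if_false, mul_neg, Finset.sum_neg_distrib]
    have : s = (s.1, 0) := Prod.ext rfl hs
    rw [this]
    ring
  · simp only [hs, if_false]

theorem tr_eval_aeval {σ τ : Type} (g : σ → MvPolynomial τ ℂ) (h : τ → ℂ)
    (W : MvPolynomial σ ℂ) : eval h (aeval g W) = eval (fun i => eval h (g i)) W := by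
  induction W using MvPolynomial.induction_on with
  | C c => simp
  | add P Q hP hQ => rw [map_add, map_add, map_add, hP, hQ]
  | mul_X P p hP => rw [map_mul, map_mul, map_mul, hP, eval_X, aeval_X]

/-- CHUNK TR.  A nonzero polynomial `W (x, h)` gives, for a suitable translation `a`, a nonzero
polynomial `Θ (h) = W ((1, ..., 1) + a, hT a h)`.  Proof: choose a point `(x₀, h₀)` with
`W (x₀, h₀) ≠ 0` (`MvPolynomial.funext`, `ℂ` infinite), `a = x₀ - 1`, and
`Θ = aeval (Sum.elim (fun b => C (1 + a b)) (fun s => if s.2 = 0 then X (s.1, 0) -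
∑ b, X (s.1, b.succ) * C (a b) else X s)) W`; its value at `hT (-a) h₀` is `W (x₀, h₀)`. -/
theorem exists_theta {W : MvPolynomial (Fin n ⊕ HV n K) ℂ} (hW : W ≠ 0) :
    ∃ (a : Fin n → ℂ) (Θ : MvPolynomial (HV n K) ℂ), Θ ≠ 0 ∧ ∀ h : HV n K → ℂ,
      eval h Θ = eval (Sum.elim (fun b => 1 + a b) (hT a h)) W := by
  obtain ⟨w₀, hw₀⟩ : ∃ w₀, eval w₀ W ≠ 0 := by
    by_contra hcon
    push Not at hcon
    exact hW (MvPolynomial.funext fun x => by rw [hcon x, map_zero])
  let a : Fin n → ℂ := fun b => w₀ (Sum.inl b) - 1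
  let g : Fin n ⊕ HV n K → MvPolynomial (HV n K) ℂ :=
    Sum.elim (fun b => C (1 + a b)) (fun s => if s.2 = 0 then
      X (s.1, 0) - ∑ b : Fin n, X (s.1, b.succ) * C (a b) else X s)
  have hg : ∀ h : HV n K → ℂ, eval h (aeval g W) =
      eval (Sum.elim (fun b => 1 + a b) (hT a h)) W := by
    intro h
    rw [tr_eval_aeval]
    congr 1
    congr 1
    funext i
    rcases i with b | s
    · simp [g]
    · simp only [g, Sum.elim_inr, hT]
      split_ifs
      · rw [map_sub, eval_X, map_sum]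
        congr 1
        exact Finset.sum_congr rfl fun b _ => by rw [map_mul, eval_X, eval_C]
      · rw [eval_X]
  refine ⟨a, aeval g W, ?_, hg⟩
  intro h0
  have h1 := hg (hT (fun b => -a b) fun s => w₀ (Sum.inr s))
  rw [h0, map_zero, tr_hT_neg] at h1
  apply hw₀
  rw [h1]
  congr 1
  congr 1
  funext i
  rcases i with b | s
  · simp [a]
  · rfl

end Pool.Agent.H78G
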