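import Pool.Agent.Lib.H78G.A3
import Pool.Agent.Lib.H78G.C7
import Pool.Agent.Lib.H78G.TR

set_option autoImplicit false

/-!
CHUNK AH (M).  The algebraic theorem.
-/

open MvPolynomial

namespace Pool.Agent.H78G

open Pool.Agent.H89T

/-- CHUNK AH.  Proof.  Apply `count_A n hn (min α (1 / n))`: `r, s, M`.  If `s = 0` then the counting
inequality with `k = 2`, `i = 0`, `j = 1` is false (for `d = 0` all monomials are normal, take the term
`l = 0`), so `1 ≤ s ≤ r / n` and `n ≤ r`.  `C = 2 + (r + 1) M + M c` with `c` of `slantU hr`.  For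
`K ≥ C` take `P` of `exists_propH` (`d = s K`), `W` of `slantU`, `a`, `Θ` of `exists_theta`.  Given `h`,
`ξ` with `ξ (b, 0) = 1`, `Θ (h) ≠ 0`: apply the statement of `slantU` to `hT a h` and the translated jet
`ξ' p = ξ p + [p.2 = 0] a p.1` (`linA_hT` with `x = 1`, `Wd_tr`); the result `Q` gives `tr a Q`
(`tr_HasWt`, `tr_PropA`, `eval_tr`). -/
theorem algH (n : ℕ) (hn : 2 ≤ n) (α : ℝ) (hα : 0 < α) : AlgH n α := by
  have hn0 : (0 : ℝ) < n := by
    have : 0 < n := by omega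
    exact_mod_cast this
  obtain ⟨r, s, M, hr1, hs, hcount⟩ := count_A n hn (min α (1 / n)) (by positivity)
  have hs1 : 1 ≤ s := by
    by_contra hs0
    have hs0' : s = 0 := by omega
    subst hs0'
    have h := hcount 2 le_rfl ⟨0, by omega⟩ ⟨1, by omega⟩ (by simp [Fin.ext_iff])
      ⟨1, by omega⟩ rfl
    rw [Nat.zero_mul] at h
    have h1 : Normal n r 2 0 (M + 0) ⟨0, by omega⟩ ⟨1, by omega⟩ ⟨1, by omega⟩ =
        Mon n r 0 M := by
      ext m
      simp only [H89T.Normal, Mon, add_zero, Set.mem_setOf_eq]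
      constructor
      · rintro ⟨h1, h2, -, -⟩
        exact ⟨h1, h2⟩
      · rintro ⟨h1, h2⟩
        have h3 : ∀ b : Fin n, m (b, 0) = 0 := by
          intro b
          have h4 : m (b, 0) ≤ xd m :=
            Finset.single_le_sum (f := fun b : Fin n => m (b, 0)) (fun _ _ => Nat.zero_le _)
              (Finset.mem_univ b)
          omega
        exact ⟨h1, h2, by rw [h3]; omega, Or.inl (by rw [h3]; omega)⟩
    have h2 := Finset.single_le_sum (f := fun l => Nat.card (Normal n r 2 0 (M + l)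
      ⟨0, by omega⟩ ⟨1, by omega⟩ ⟨1, by omega⟩)) (fun _ _ => Nat.zero_le _)
      (Finset.mem_range.2 (by omega : 0 < r))
    rw [h1] at h2
    exact absurd h (not_lt.2 h2)
  have hr : n ≤ r := by
    have h1 : (1 : ℝ) ≤ s := by exact_mod_cast hs1
    have h2 : (1 : ℝ) ≤ 1 / n * r :=
      h1.trans (hs.trans (mul_le_mul_of_nonneg_right (min_le_right _ _) (Nat.cast_nonneg _)))
    rw [one_div, inv_mul_eq_div, le_div_iff₀ hn0, one_mul] at h2
    exact_mod_cast h2
  obtain ⟨c, hc⟩ := slantU (n := n) (r := r) hr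
  refine ⟨r, 2 + (r + 1) * M + M * c, hr, hr1, fun K hK => ?_⟩
  obtain ⟨P, hP0, hPm, hPA⟩ := exists_propH (n := n) (r := r) (K := K) (d := s * K) (M := M)
    (i := ⟨0, by omega⟩) (j := ⟨1, by omega⟩) (by simp [Fin.ext_iff]) (by omega)
    (one := ⟨1, by omega⟩) rfl (hcount K (by omega) _ _ (by simp [Fin.ext_iff]) _ rfl)
  obtain ⟨W, hW0, hW⟩ := hc P hP0 hPm
  obtain ⟨a, Θ, hΘ0, hΘ⟩ := exists_theta hW0
  refine ⟨Θ, hΘ0, fun h ξ hξ hh hl hWd => ?_⟩
  have hξ' : (fun b : Fin n => (fun p : JV n r => ξ p + if p.2 = 0 then a p.1 else 0) (b, 0)) =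
      fun b => 1 + a b := by
    ext b
    simp [hξ b]
  obtain ⟨Q, hQw, hQ0, hQA⟩ := hW (hT a h) (fun p : JV n r => ξ p + if p.2 = 0 then a p.1 else 0)
    (by rw [hξ', ← hΘ]; exact hh)
    (fun i => by rw [hξ', linA_hT]; exact hl i)
    (by rw [Wd_tr]; exact hWd)
  refine ⟨s * K + (r + 1) * M + M * c, tr a Q, ?_, tr_HasWt a hQw, tr_PropA a (hQA hPA), ?_⟩
  · have h1 : (s : ℝ) ≤ α * r :=
      hs.trans (mul_le_mul_of_nonneg_right (min_le_left _ _) (Nat.cast_nonneg _))
    have h2 : (s : ℝ) * K ≤ α * r * K := mul_le_mul_of_nonneg_right h1 (Nat.cast_nonneg _)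
    push_cast
    linarith
  · rw [eval_tr]
    exact hQ0

end Pool.Agent.H78G
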