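import Pool.Agent.Lib.H78G.W0

set_option autoImplicit false

/-!
CHUNK C3 (S).  The vertical fields `V (h_{i,j}) = v_{i,0} ^ (r + 1)`.
-/

open MvPolynomial

namespace Pool.Agent.H78G

open Pool.Agent.H89T

variable {n K r : ℕ}

/-- CHUNK C3.  The vertical field in the direction `s` is `(r + 1)`-admissible.  Proof:
`E_{i'} = 0` for `i' ≠ s.1`, and `E_i` is `C (v_0 ^ (r + 1))` times `1` or `arc xU b`.  With
`v = v_i (t)`, `v_0 = v.coeff 0`: `v = C v_0 + t * v.divX`, so `C v_0 ≡ - t * v.divX` modulo `v` and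
`C v_0 ^ (r + 1) ≡ (- t * v.divX) ^ (r + 1) ∈ (t ^ (r + 1))` modulo `v`. -/
theorem vertical_adm (s : HV n K) :
    AdmU (r + 1) (fun s' => if s' = s then ((vv hU xU s.1).coeff 0 : UA n K r) ^ (r + 1) else 0)
      (fun _ => 0) := by
  classical
  set v : Polynomial (UA n K r) := vv hU xU s.1 with hv
  set J : Ideal (Polynomial (UA n K r)) :=
    Ideal.span {v, (Polynomial.X : Polynomial (UA n K r)) ^ (r + 1)} with hJ
  have hkey : Polynomial.C (v.coeff 0 ^ (r + 1)) ∈ J := by
    have h1 : Polynomial.C (v.coeff 0) = v - Polynomial.X * v.divX := by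
      have h2 := Polynomial.divX_mul_X_add v
      rw [mul_comm] at h2
      exact eq_sub_of_add_eq (by rw [add_comm]; exact h2)
    rw [map_pow]
    obtain ⟨q, hq⟩ := sub_dvd_pow_sub_pow (Polynomial.C (v.coeff 0)) (-(Polynomial.X * v.divX))
      (r + 1)
    have h3 : Polynomial.C (v.coeff 0) - -(Polynomial.X * v.divX) = v := by
      rw [h1]
      ring
    rw [h3] at hq
    rw [hJ, Ideal.mem_span_pair]
    refine ⟨q, (-v.divX) ^ (r + 1), ?_⟩
    have h4 : Polynomial.C (v.coeff 0) ^ (r + 1) = v * q + (-(Polynomial.X * v.divX)) ^ (r + 1) := by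
      rw [← hq]
      ring
    have h8 : -(Polynomial.X * v.divX) = Polynomial.X * (-v.divX) := by ring
    rw [h4, h8, mul_pow]
    ring
  refine ⟨fun b => by simp, fun i => ?_⟩
  unfold EU
  simp only [mul_zero, Finset.sum_const_zero, add_zero]
  by_cases hi : i = s.1
  · subst hi
    have hmem : ∀ j : Fin (n + 1), Polynomial.C (if ((s.1, j) : HV n K) = s then
        (v.coeff 0 : UA n K r) ^ (r + 1) else 0) ∈ J := by
      intro j
      split_ifs
      · exact hkey
      · rw [map_zero]
        exact J.zero_mem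
    have h5 : vv (fun s' : HV n K => if s' = s then (v.coeff 0 : UA n K r) ^ (r + 1) else 0)
        (xU : JV n r → UA n K r) s.1 ∈ J := by
      unfold vv linA
      exact J.add_mem (hmem 0) (J.sum_mem fun b _ => J.mul_mem_right _ (hmem b.succ))
    exact h5
  · have h6 : vv (fun s' : HV n K => if s' = s then (v.coeff 0 : UA n K r) ^ (r + 1) else 0)
        (xU : JV n r → UA n K r) i = 0 := by
      unfold vv linA
      have h7 : ∀ j : Fin (n + 1), (if ((i, j) : HV n K) = s then
          (v.coeff 0 : UA n K r) ^ (r + 1) else 0) = 0 := by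
        intro j
        rw [if_neg]
        intro h
        exact hi (by rw [← h])
      simp only [h7, map_zero, zero_mul, Finset.sum_const_zero, add_zero]
    rw [h6]
    exact Ideal.zero_mem _

/-- CHUNK C3.  Its weight: `v_0` is a linear combination of `1` and the `x_{b,0}` with coefficients
`h` (`coeff_vv_zero`). -/
theorem vertical_wt (i : Fin K) : WtS (r + 1) ((vv hU xU i).coeff 0 ^ (r + 1) : UA n K r) := by
  rw [coeff_vv_zero]
  have h1 : WtS 1 (linA (fun j => (hU (i, j) : UA n K r)) fun b => xU (b, 0)) := by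
    unfold linA
    refine WtS.add ((WtS.inr _).mono (by omega)) (WtS.sum fun b _ => ?_)
    have h2 := (WtS.inr (n := n) (r := r) ((i, b.succ) : HV n K)).mul
      (WtS.inl (τ := HV n K) ((b, 0) : JV n r))
    exact h2.mono (by simp)
  exact (h1.pow (r + 1)).mono (by omega)

/-- CHUNK C3. -/
theorem vertical_mem {c : ℕ} (hc : r + 1 ≤ c) (s : HV n K) :
    VU (fun s' => if s' = s then ((vv hU xU s.1).coeff 0 : UA n K r) ^ (r + 1) else 0)
      (fun _ => 0) ∈ FieldsU n K r c := by
  refine ⟨_, _, vertical_adm s, fun s' => ?_, fun b i => ?_, rfl⟩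
  · split_ifs
    · exact (vertical_wt s.1).mono hc
    · exact WtS.zero _
  · rw [Polynomial.coeff_zero]
    exact WtS.zero _

end Pool.Agent.H78G
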