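import Pool.Agent.Lib.H78G.DD

set_option autoImplicit false

/-!
CHUNK D2 (M, adapt `H89T/DE.lean`).  Growth of `QQ` in terms of `LamG`.
-/

open MvPolynomial Real Pool.Agent.H67T

namespace Pool.Agent.H78G

open Pool.Agent.H89T

theorem D2_triple {α β γ : Type} [Fintype α] [Fintype β] [Fintype γ] {f : α → β → γ → ℝ}
    (hf : ∀ a b c, 0 ≤ f a b c) (a : α) (b : β) (c : γ) :
    f a b c ≤ ∑ a, ∑ b, ∑ c, f a b c := by
  have h1 : f a b c ≤ ∑ c, f a b c :=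
    Finset.single_le_sum (f := fun c => f a b c) (fun _ _ => hf _ _ _) (Finset.mem_univ c)
  have h2 : ∑ c, f a b c ≤ ∑ b, ∑ c, f a b c :=
    Finset.single_le_sum (f := fun b => ∑ c, f a b c)
      (fun _ _ => Finset.sum_nonneg fun _ _ => hf _ _ _) (Finset.mem_univ b)
  have h3 : ∑ b, ∑ c, f a b c ≤ ∑ a, ∑ b, ∑ c, f a b c :=
    Finset.single_le_sum (f := fun a => ∑ b, ∑ c, f a b c)
      (fun _ _ => Finset.sum_nonneg fun _ _ => Finset.sum_nonneg fun _ _ => hf _ _ _)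
      (Finset.mem_univ a)
  linarith

theorem D2_nonneg {α β γ : Type} [Fintype α] [Fintype β] [Fintype γ] {f : α → β → γ → ℝ}
    (hf : ∀ a b c, 0 ≤ f a b c) : 0 ≤ ∑ a, ∑ b, ∑ c, f a b c :=
  Finset.sum_nonneg fun _ _ => Finset.sum_nonneg fun _ _ => Finset.sum_nonneg fun _ _ => hf _ _ _

/-- CHUNK D2. -/
theorem one_le_LamG {m : ℕ} {ι : Type} [Fintype ι] (y : ℂ → Fin (m + 1) → ℂ)
    (θ : ι → Fin (m + 1) → ℂ) (L : ℕ) (z : ℂ) : 1 ≤ LamG y θ L z := by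
  unfold LamG
  have h1 := D2_nonneg (f := fun (c j : Fin (m + 1)) (l : Fin (L + 1)) =>
    ‖iteratedDeriv (l : ℕ) (fun w => y w j / y w c) z / (y z j / y z c)‖)
    fun _ _ _ => norm_nonneg _
  have h2 := D2_nonneg (f := fun (c : Fin (m + 1)) (i : ι) (l : Fin (L + 1)) =>
    ‖iteratedDeriv (l : ℕ) (fun w => lin (θ i) (y w) / y w c) z / (lin (θ i) (y z) / y z c)‖)
    fun _ _ _ => norm_nonneg _
  linarith

/-- CHUNK D2. -/
theorem term1_le_LamG {m : ℕ} {ι : Type} [Fintype ι] (y : ℂ → Fin (m + 1) → ℂ)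
    (θ : ι → Fin (m + 1) → ℂ) (L : ℕ) (z : ℂ) (c j : Fin (m + 1)) (l : Fin (L + 1)) :
    ‖iteratedDeriv (l : ℕ) (fun w => y w j / y w c) z / (y z j / y z c)‖ ≤ LamG y θ L z := by
  unfold LamG
  have h1 := D2_triple (f := fun (c j : Fin (m + 1)) (l : Fin (L + 1)) =>
    ‖iteratedDeriv (l : ℕ) (fun w => y w j / y w c) z / (y z j / y z c)‖)
    (fun _ _ _ => norm_nonneg _) c j l
  have h2 := D2_nonneg (f := fun (c : Fin (m + 1)) (i : ι) (l : Fin (L + 1)) =>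
    ‖iteratedDeriv (l : ℕ) (fun w => lin (θ i) (y w) / y w c) z / (lin (θ i) (y z) / y z c)‖)
    fun _ _ _ => norm_nonneg _
  linarith

/-- CHUNK D2. -/
theorem term2_le_LamG {m : ℕ} {ι : Type} [Fintype ι] (y : ℂ → Fin (m + 1) → ℂ)
    (θ : ι → Fin (m + 1) → ℂ) (L : ℕ) (z : ℂ) (c : Fin (m + 1)) (i : ι) (l : Fin (L + 1)) :
    ‖iteratedDeriv (l : ℕ) (fun w => lin (θ i) (y w) / y w c) z / (lin (θ i) (y z) / y z c)‖ ≤
      LamG y θ L z := by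
  unfold LamG
  have h1 := D2_nonneg (f := fun (c j : Fin (m + 1)) (l : Fin (L + 1)) =>
    ‖iteratedDeriv (l : ℕ) (fun w => y w j / y w c) z / (y z j / y z c)‖)
    fun _ _ _ => norm_nonneg _
  have h2 := D2_triple (f := fun (c : Fin (m + 1)) (i : ι) (l : Fin (L + 1)) =>
    ‖iteratedDeriv (l : ℕ) (fun w => lin (θ i) (y w) / y w c) z / (lin (θ i) (y z) / y z c)‖)
    (fun _ _ _ => norm_nonneg _) c i l
  linarith

/-- The jets are bounded by the logarithmic derivatives. -/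
theorem D2_norm_jetf_le {m : ℕ} {ι : Type} [Fintype ι] (y : ℂ → Fin (m + 1) → ℂ)
    (θ : ι → Fin (m + 1) → ℂ) {r L : ℕ} (hL : r ≤ L)
    (c : Fin (m + 1)) (z : ℂ) (hz : ∀ j, y z j ≠ 0) (p : JV m r) :
    ‖jetf r (ch c y) z p‖ ≤ LamG y θ L z * (‖y z‖ / ‖y z c‖) := by
  have hch : ch c y z p.1 ≠ 0 := div_ne_zero (hz _) (hz _)
  have h1 : ‖jetf r (ch c y) z p‖ ≤ ‖iteratedDeriv (p.2 : ℕ) (fun w => ch c y w p.1) z‖ := by
    unfold jetf
    rw [norm_div]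
    refine div_le_self (norm_nonneg _) ?_
    rw [Complex.norm_natCast]
    exact_mod_cast Nat.one_le_iff_ne_zero.mpr (Nat.factorial_ne_zero _)
  have h2 : ‖iteratedDeriv (p.2 : ℕ) (fun w => ch c y w p.1) z‖ =
      ‖iteratedDeriv (p.2 : ℕ) (fun w => ch c y w p.1) z / ch c y z p.1‖ * ‖ch c y z p.1‖ := by
    rw [← norm_mul, div_mul_cancel₀ _ hch]
  have h3 : ‖iteratedDeriv (p.2 : ℕ) (fun w => ch c y w p.1) z / ch c y z p.1‖ ≤ LamG y θ L z :=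
    term1_le_LamG y θ L z c (c.succAbove p.1) ⟨(p.2 : ℕ), by have := p.2.2; omega⟩
  have h4 : ‖ch c y z p.1‖ ≤ ‖y z‖ / ‖y z c‖ := by
    unfold ch
    rw [norm_div]
    exact div_le_div_of_nonneg_right (norm_le_pi_norm (y z) _) (norm_nonneg _)
  have h5 := one_le_LamG y θ L z
  calc ‖jetf r (ch c y) z p‖ ≤ _ := h1
    _ = _ := h2
    _ ≤ LamG y θ L z * (‖y z‖ / ‖y z c‖) :=
      mul_le_mul h3 h4 (norm_nonneg _) (by linarith)

/-- CHUNK D2.  As `H89T.QQ_le` (`norm_jetf_le`, `norm_eval_le`). -/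
theorem QQ_leG {m r M : ℕ} {ι : Type} [Fintype ι] {y : ℂ → Fin (m + 1) → ℂ} (hy : IsHol y)
    (θ : ι → Fin (m + 1) → ℂ) (c : Fin (m + 1)) {P : MvPolynomial (JV m r) ℂ}
    (hP : HasWt M P) {L : ℕ} (hL : r ≤ L) :
    ∃ C : ℝ, 0 ≤ C ∧ ∀ z, (∀ j, y z j ≠ 0) →
      ‖QQ y c M P z‖ ≤ C * ‖y z‖ ^ M * LamG y θ L z ^ M := by
  obtain ⟨C, hC, h⟩ := norm_eval_le hP
  refine ⟨C, hC, fun z hz => ?_⟩
  have h1 := h (jetf r (ch c y) z) (LamG y θ L z) (‖y z‖ / ‖y z c‖)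
    (one_le_LamG _ _ _ _) (norm_coord_pos _ _ _ (hz c)) (D2_norm_jetf_le _ _ hL c z hz)
  rw [QQ_eq hy.diff c hP (hz c), norm_mul, norm_pow]
  have hc : 0 < ‖y z c‖ := norm_pos_iff.mpr (hz c)
  calc ‖y z c‖ ^ M * ‖eval (jetf r (ch c y) z) P‖
      ≤ ‖y z c‖ ^ M * (C * LamG y θ L z ^ M * (‖y z‖ / ‖y z c‖) ^ M) :=
        mul_le_mul_of_nonneg_left h1 (by positivity)
    _ = C * ‖y z‖ ^ M * LamG y θ L z ^ M := by
        rw [div_pow]
        field_simp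

end Pool.Agent.H78G
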