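import Pool.Agent.Lib.H78G.D2

set_option autoImplicit false

/-!
CHUNK D6 (M, adapt `DF_order_QQ`, `scriptQ_ne`, ... of `H89T/DC.lean`, `H89T/DF.lean`).  The function
vanishing at the crossings and tangencies of one group of hyperplanes.
-/

open MvPolynomial Real Pool.Agent.H67T

namespace Pool.Agent.H78G

open Pool.Agent.H89T

/-- CHUNK D6.  The product of the linear forms in a chart. -/
theorem ev_chartH {m K : ℕ} (θ : Fin K → Fin (m + 1) → ℂ) (c : Fin (m + 1))
    {v : Fin (m + 1) → ℂ} (hv : v c ≠ 0) :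
    ev (pc (chartH θ c)) (fun b => v (c.succAbove b) / v c) =
      (∏ i, lin (θ i) v) / v c ^ K := by
  have h1 : ∀ i, linA (fun j => chartH θ c (i, j)) (fun b => v (c.succAbove b) / v c) =
      lin (θ i) v / v c := by
    intro i
    have h2 : lin (θ i) v = θ i c * v c + ∑ b : Fin m, θ i (c.succAbove b) * v (c.succAbove b) := by
      unfold lin
      rw [Fin.sum_univ_succAbove _ c]
    rw [h2, add_div, Finset.sum_div, mul_div_assoc, div_self hv, mul_one]
    simp only [linA, chartH, perm, Fin.cases_zero, Fin.cases_succ]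
    congr 1
    refine Finset.sum_congr rfl fun b _ => ?_
    rw [mul_div_assoc]
  rw [ev_pc, Finset.prod_congr rfl fun i _ => h1 i, Finset.prod_div_distrib, Finset.prod_const,
    Finset.card_univ, Fintype.card_fin]

/-- CHUNK D6.  The entire function `∏ c, QQ y c d (P c)`.  It is not identically zero (every factor
is entire and not identically zero, as in `scriptQ_ne`); at a point `z` where the product of the `K`
linear forms has order `≥ 2` choose a chart `c` with `y z c ≠ 0` and use `order_propA` with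
`a = pc (chartH θ c)` (`ev_chartH` near `z`) and `DF_order_QQ`, `DF_order_prod`; the bound is the
product of the bounds `QQ_leG`. -/
theorem exists_cross {m K r d L : ℕ} (hL : r ≤ L) {ι : Type} [Fintype ι] (D : CurveG m ι)
    (σ : Fin K → ι)
    (hP : ∀ c : Fin (m + 1), ∃ P : MvPolynomial (JV m r) ℂ, HasWt d P ∧
      PropA (pc (chartH (fun i => D.θ (σ i)) c)) r P ∧
      ∃ z, D.y z c ≠ 0 ∧ eval (jetf r (ch c D.y) z) P ≠ 0) :
    ∃ Q : ℂ → ℂ, Differentiable ℂ Q ∧ (∃ z, Q z ≠ 0) ∧
      (∀ z, 2 ≤ analyticOrderAt (fun w => ∏ i, lin (D.θ (σ i)) (D.y w)) z →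
        (r : ℕ∞) ≤ analyticOrderAt Q z) ∧
      ∃ C : ℝ, 0 ≤ C ∧ ∀ z, (∀ j, D.y z j ≠ 0) →
        ‖Q z‖ ≤ C * ‖D.y z‖ ^ ((m + 1) * d) * LamG D.y D.θ L z ^ ((m + 1) * d) := by
  classical
  choose P hPw hPA hP0 using hP
  have hy := D.hy.diff
  choose C hC hb using fun c => QQ_leG (L := L) D.hy D.θ c (hPw c) hL
  refine ⟨fun z => ∏ c, QQ D.y c d (P c) z,
    Differentiable.fun_finsetProd fun c _ => QQ_diff hy c _ _, ?_, ?_, ∏ c, C c,
    Finset.prod_nonneg fun c _ => hC c, ?_⟩
  · have h1 : ∀ᶠ z in nhdsWithin (0 : ℂ) {0}ᶜ, ∀ c, QQ D.y c d (P c) z ≠ 0 :=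
      Filter.eventually_all.mpr fun c => eventually_ne_of_entire (QQ_diff hy c _ _) (by
        obtain ⟨z, hz, hz'⟩ := hP0 c
        refine ⟨z, ?_⟩
        rw [QQ_eq hy c (hPw c) hz]
        exact mul_ne_zero (pow_ne_zero _ hz) hz')
    obtain ⟨z, hz⟩ := h1.exists
    exact ⟨z, Finset.prod_ne_zero_iff.2 fun c _ => hz c⟩
  · intro z hz
    obtain ⟨c, hc⟩ : ∃ c, D.y z c ≠ 0 := by
      by_contra hcon
      push Not at hcon
      exact D.hy.ne_zero z (funext hcon)
    have hch : ∀ b, AnalyticAt ℂ (fun w => ch c D.y w b) z := fun b => analyticAt_ch hy c hc b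
    have hnear : ∀ᶠ w in nhds z, D.y w c ≠ 0 := (hy c).continuous.continuousAt.eventually_ne hc
    have hFd : Differentiable ℂ (fun w => ∏ i, lin (D.θ (σ i)) (D.y w)) := by
      refine Differentiable.fun_finsetProd fun i _ => ?_
      change Differentiable ℂ fun w => ∑ j, D.θ (σ i) j * D.y w j
      exact Differentiable.fun_sum fun j _ => (D.hy.diff j).const_mul _
    have h2F : 2 ≤ analyticOrderAt
        (fun w => ev (pc (chartH (fun i => D.θ (σ i)) c)) (ch c D.y w)) z := by
      have h1 : (fun w => ev (pc (chartH (fun i => D.θ (σ i)) c)) (ch c D.y w)) =ᶠ[nhds z]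
          fun w => (∏ i, lin (D.θ (σ i)) (D.y w)) * (D.y w c ^ K)⁻¹ := by
        filter_upwards [hnear] with w hw
        have h2 := ev_chartH (fun i => D.θ (σ i)) c (v := D.y w) hw
        rw [← div_eq_mul_inv, ← h2]
        rfl
      rw [analyticOrderAt_congr h1]
      exact le_order_mul hz (hFd.analyticAt z)
        ((((hy c).analyticAt z).pow K).inv (pow_ne_zero K hc))
    refine le_trans (DF_order_QQ hy c (hPw c) hc (order_propA (hPA c) hch h2F)) ?_
    exact DF_order_prod (f := fun c w => QQ D.y c d (P c) w) Finset.univ (Finset.mem_univ c)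
      fun c _ => (QQ_diff hy c _ _).analyticAt z
  · intro z hz
    rw [norm_prod]
    calc ∏ c, ‖QQ D.y c d (P c) z‖ ≤ ∏ c, (C c * ‖D.y z‖ ^ d * LamG D.y D.θ L z ^ d) :=
          Finset.prod_le_prod (fun _ _ => norm_nonneg _) fun c _ => hb c z hz
      _ = _ := by
          rw [Finset.prod_mul_distrib, Finset.prod_mul_distrib, Finset.prod_const,
            Finset.prod_const, Finset.card_univ, Fintype.card_fin, ← pow_mul, ← pow_mul,
            mul_comm d (m + 1)]

end Pool.Agent.H78G
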