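import Pool.Agent.Lib.H78G.D1
import Pool.Agent.Lib.H78G.D3C
import Pool.Agent.Lib.H78G.D6
import Pool.Agent.Lib.H78G.D7A

set_option autoImplicit false

/-!
CHUNK D7B (M).  The second main theorem for one nondegenerate curve and one arrangement with
operators.
-/

open MvPolynomial Real Pool.Agent.H67T

namespace Pool.Agent.H78G

open Pool.Agent.H89T

theorem D7B_eval_WdP {m r : ℕ} (hr : m ≤ r) (ξ : JV m r → ℂ) :
    eval ξ (WdP (m := m) hr) = Wd hr ξ := by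
  unfold WdP
  rw [Wd_map hr (eval ξ)]
  simp

/-- The functions `Q_e`. -/
theorem D7B_Qe {m r d : ℕ} {ι : Type} [Fintype ι] (D : CurveG m ι)
    {K : ℕ} {εI : Type} (σ : εI → Fin K → ι)
    (hP : 2 ≤ m → ∀ e, ∀ c : Fin (m + 1), ∃ P : MvPolynomial (JV m r) ℂ, HasWt d P ∧
      PropA (pc (chartH (fun i => D.θ (σ e i)) c)) r P ∧
      ∃ z, D.y z c ≠ 0 ∧ eval (jetf r (ch c D.y) z) P ≠ 0) :
    ∀ e, ∃ Q : ℂ → ℂ, Differentiable ℂ Q ∧ (∃ z, Q z ≠ 0) ∧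
      (2 ≤ m → ∀ z, 2 ≤ analyticOrderAt (fun w => ∏ i, lin (D.θ (σ e i)) (D.y w)) z →
        (r : ℕ∞) ≤ analyticOrderAt Q z) ∧
      ∃ C : ℝ, 0 ≤ C ∧ ∀ z, (∀ j, D.y z j ≠ 0) →
        ‖Q z‖ ≤ C * ‖D.y z‖ ^ ((m + 1) * d) * LamG D.y D.θ r z ^ ((m + 1) * d) := by
  intro e
  by_cases h2 : 2 ≤ m
  · obtain ⟨Q, h3, h4, h5, h6⟩ := exists_cross (L := r) le_rfl D (σ e) (hP h2 e)
    exact ⟨Q, h3, h4, fun _ => h5, h6⟩
  · refine ⟨fun z => D.y z 0 ^ ((m + 1) * d), (D.hy.diff 0).pow _, ?_, fun h => absurd h h2, 1,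
      zero_le_one, fun z _ => ?_⟩
    · obtain ⟨z, hz⟩ := D.hy0 0
      exact ⟨z, pow_ne_zero _ hz⟩
    · rw [norm_pow, one_mul]
      have h3 : 1 ≤ LamG D.y D.θ r z ^ ((m + 1) * d) :=
        one_le_pow₀ (one_le_LamG _ _ _ _)
      have h4 : ‖D.y z 0‖ ^ ((m + 1) * d) ≤ ‖D.y z‖ ^ ((m + 1) * d) :=
        pow_le_pow_left₀ (norm_nonneg _) (norm_le_pi_norm _ _) _
      exact h4.trans (le_mul_of_one_le_right (by positivity) h3)

/-- The product of the `QQ` of the Wronskian over all charts. -/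
theorem D7B_prod {m r : ℕ} (hr : m ≤ r) {ι : Type} [Fintype ι] (D : CurveG m ι) :
    ∃ C : ℝ, 0 ≤ C ∧ ∀ z, Good D.y D.θ z →
      (∏ c, ‖QQ D.y c ((m + 1) * m) (WdP hr) z‖) * ‖D.y z‖ ^ Fintype.card ι ≤
        C * (∏ i, ‖lin (D.θ i) (D.y z)‖) * ‖D.y z‖ ^ ((m + 1) * ((m + 1) * m)) *
          LamG D.y D.θ r z ^ ((m + 1) + m * ((m + 1) * m)) := by
  classical
  choose C₁ hC₁ h1 using fun c => cartan_growth (L := r) hr hr D c
  choose C₂ hC₂ h2 using fun c => QQ_leG (L := r) D.hy D.θ c (WdP_wt hr) le_rfl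
  obtain ⟨A, hA⟩ : ∃ A : ℝ, A = ∑ c, (C₁ c + C₂ c) := ⟨_, rfl⟩
  have hle : ∀ c, C₁ c + C₂ c ≤ A := fun c => by
    rw [hA]
    exact Finset.single_le_sum (f := fun c => C₁ c + C₂ c)
      (fun c _ => add_nonneg (hC₁ c) (hC₂ c)) (Finset.mem_univ c)
  have hA0 : 0 ≤ A := (add_nonneg (hC₁ 0) (hC₂ 0)).trans (hle 0)
  refine ⟨A * A ^ m, by positivity, fun z hz => ?_⟩
  obtain ⟨c₀, hc₀⟩ : ∃ c₀, ‖D.y z c₀‖ = ‖D.y z‖ := by
    obtain ⟨j, hj⟩ := Finite.exists_max fun j => ‖D.y z j‖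
    exact ⟨j, le_antisymm (norm_le_pi_norm _ _)
      ((pi_norm_le_iff_of_nonneg (norm_nonneg _)).2 hj)⟩
  have hΛ : 1 ≤ LamG D.y D.θ r z := one_le_LamG _ _ _ _
  have h3 := h1 c₀ z hz hc₀
  obtain ⟨X, hX⟩ : ∃ X : ℝ, X = ‖D.y z‖ := ⟨_, rfl⟩
  obtain ⟨Λ, hΛ'⟩ : ∃ Λ : ℝ, Λ = LamG D.y D.θ r z := ⟨_, rfl⟩
  obtain ⟨Fn, hFn⟩ : ∃ Fn : ℝ, Fn = ∏ i, ‖lin (D.θ i) (D.y z)‖ := ⟨_, rfl⟩
  have hX0 : 0 ≤ X := by rw [hX]; positivity
  have hFn0 : 0 ≤ Fn := by rw [hFn]; positivity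
  rw [← hΛ'] at hΛ
  have hΛ0 : 0 ≤ Λ := by linarith
  rw [← hX, ← hΛ', ← hFn] at h3 ⊢
  have h4 : ∏ c ∈ Finset.univ.erase c₀, ‖QQ D.y c ((m + 1) * m) (WdP hr) z‖ ≤
      (A * X ^ ((m + 1) * m) * Λ ^ ((m + 1) * m)) ^ m := by
    have h5 : (Finset.univ.erase c₀ : Finset (Fin (m + 1))).card = m := by
      rw [Finset.card_erase_of_mem (Finset.mem_univ _)]
      simp
    calc ∏ c ∈ Finset.univ.erase c₀, ‖QQ D.y c ((m + 1) * m) (WdP hr) z‖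
        ≤ ∏ _c ∈ Finset.univ.erase c₀, (A * X ^ ((m + 1) * m) * Λ ^ ((m + 1) * m)) := by
          refine Finset.prod_le_prod (fun _ _ => norm_nonneg _) fun c _ => ?_
          refine (h2 c z hz.1).trans ?_
          rw [← hX, ← hΛ']
          have : C₂ c ≤ A := (le_add_of_nonneg_left (hC₁ c)).trans (hle c)
          gcongr
      _ = _ := by rw [Finset.prod_const, h5]
  rw [← Finset.mul_prod_erase _ _ (Finset.mem_univ c₀)]
  calc ‖QQ D.y c₀ ((m + 1) * m) (WdP hr) z‖ *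
        (∏ c ∈ Finset.univ.erase c₀, ‖QQ D.y c ((m + 1) * m) (WdP hr) z‖) * X ^ Fintype.card ι
      = (‖QQ D.y c₀ ((m + 1) * m) (WdP hr) z‖ * X ^ Fintype.card ι) *
        ∏ c ∈ Finset.univ.erase c₀, ‖QQ D.y c ((m + 1) * m) (WdP hr) z‖ := by ring
    _ ≤ (C₁ c₀ * Fn * X ^ ((m + 1) * m) * Λ ^ (m + 1)) *
        (A * X ^ ((m + 1) * m) * Λ ^ ((m + 1) * m)) ^ m :=
        mul_le_mul h3 h4 (Finset.prod_nonneg fun _ _ => norm_nonneg _) (by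
          have := hC₁ c₀
          positivity)
    _ ≤ (A * Fn * X ^ ((m + 1) * m) * Λ ^ (m + 1)) *
        (A * X ^ ((m + 1) * m) * Λ ^ ((m + 1) * m)) ^ m := by
        have : C₁ c₀ ≤ A := (le_add_of_nonneg_right (hC₂ c₀)).trans (hle c₀)
        gcongr
    _ = A * A ^ m * Fn * X ^ ((m + 1) * ((m + 1) * m)) * Λ ^ ((m + 1) + m * ((m + 1) * m)) := by
        have e1 : X ^ ((m + 1) * ((m + 1) * m)) = X ^ ((m + 1) * m) * (X ^ ((m + 1) * m)) ^ m := by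
          rw [← pow_mul, ← pow_add]
          congr 1
          ring
        have e2 : Λ ^ ((m + 1) + m * ((m + 1) * m)) = Λ ^ (m + 1) * (Λ ^ ((m + 1) * m)) ^ m := by
          rw [← pow_mul, ← pow_add]
          congr 1
          ring
        rw [e1, e2, mul_pow, mul_pow]
        ring

/-- CHUNK D7B (M).  **One curve.**  From `aux_order`, `cartan_growth` (in a chart with `‖y_c‖ = ‖y‖`),
`QQ_leG` (in the other charts), `exists_cross` and `core_abs` with `Fy = ∏ θ_i (y)`, `ρ = r`,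
`κ = r * card ι`, `B = r ((m + 1) (m + 1) m) + m ^ 2 (card εI) (m + 1) d`; if `m = 1` take
`Qe = 1`. -/
theorem curve_smt {m r d : ℕ} (hm : 1 ≤ m) (hr : m ≤ r) {ι : Type} [Fintype ι] (D : CurveG m ι)
    (hW : ∀ c, ∃ z, D.y z c ≠ 0 ∧ Wd hr (jetf r (ch c D.y) z) ≠ 0)
    {K : ℕ} {εI : Type} [Fintype εI] (σ : εI → Fin K → ι)
    (hcov : 2 ≤ m → ∀ i i' : ι, ∃ e, (∃ p, σ e p = i) ∧ ∃ p, σ e p = i')
    (hP : 2 ≤ m → ∀ e, ∀ c : Fin (m + 1), ∃ P : MvPolynomial (JV m r) ℂ, HasWt d P ∧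
      PropA (pc (chartH (fun i => D.θ (σ e i)) c)) r P ∧
      ∃ z, D.y z c ≠ 0 ∧ eval (jetf r (ch c D.y) z) P ≠ 0) :
    ∃ C : ℝ, 0 ≤ C ∧ ∀ ρ R : ℝ, 1 ≤ ρ → ρ < R →
      ((r * Fintype.card ι : ℕ) : ℝ) * chi D.y ρ ≤
        r * N1 (fun w => ∏ i, lin (D.θ i) (D.y w)) ρ +
        ((r * ((m + 1) * ((m + 1) * m)) + m ^ 2 * (Fintype.card εI * ((m + 1) * d)) : ℕ) : ℝ) *
          chi D.y ρ + C * err D.y ρ R := by
  classical
  choose Qe hQd hQ0 hQo hQb using D7B_Qe D σ hP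
  choose Cb hCb hb using hQb
  obtain ⟨C₁, hC₁, h1⟩ := D7B_prod hr D
  have hWQ : ∀ c, ∃ z, QQ D.y c ((m + 1) * m) (WdP hr) z ≠ 0 := by
    intro c
    obtain ⟨z, hz, hz'⟩ := hW c
    refine ⟨z, ?_⟩
    rw [QQ_eq D.hy.diff c (WdP_wt hr) hz, D7B_eval_WdP]
    exact mul_ne_zero (pow_ne_zero _ hz) hz'
  have hFd : Differentiable ℂ (fun w => ∏ i, lin (D.θ i) (D.y w)) := by
    refine Differentiable.fun_finsetProd fun i _ => ?_
    change Differentiable ℂ fun w => ∑ j, D.θ i j * D.y w j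
    exact Differentiable.fun_sum fun j _ => (D.hy.diff j).const_mul _
  have hld : ∀ i, Differentiable ℂ (fun w => lin (D.θ i) (D.y w)) := fun i => by
    change Differentiable ℂ fun w => ∑ j, D.θ i j * D.y w j
    exact Differentiable.fun_sum fun j _ => (D.hy.diff j).const_mul _
  have hF0 : ∃ z, (∏ i, lin (D.θ i) (D.y z)) ≠ 0 := by
    have h2 : ∀ᶠ z in nhdsWithin (0 : ℂ) {0}ᶜ, ∀ i, lin (D.θ i) (D.y z) ≠ 0 :=
      Filter.eventually_all.mpr fun i => eventually_ne_of_entire (hld i) (D.hθ0 i)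
    obtain ⟨z, hz⟩ := h2.exists
    exact ⟨z, Finset.prod_ne_zero_iff.2 fun i _ => hz i⟩
  have hQd' : Differentiable ℂ (fun w =>
      (∏ c, QQ D.y c ((m + 1) * m) (WdP hr) w) ^ r * (∏ e, Qe e w) ^ (m ^ 2)) := by
    refine Differentiable.fun_mul ?_ ?_
    · exact (Differentiable.fun_finsetProd fun c _ => QQ_diff D.hy.diff c _ _).fun_pow _
    · exact (Differentiable.fun_finsetProd fun e _ => hQd e).fun_pow _
  have hQ0' : ∃ z, (∏ c, QQ D.y c ((m + 1) * m) (WdP hr) z) ^ r * (∏ e, Qe e z) ^ (m ^ 2) ≠ 0 := by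
    have h2 : ∀ᶠ z in nhdsWithin (0 : ℂ) {0}ᶜ, ∀ c, QQ D.y c ((m + 1) * m) (WdP hr) z ≠ 0 :=
      Filter.eventually_all.mpr fun c =>
        eventually_ne_of_entire (QQ_diff D.hy.diff c _ _) (hWQ c)
    have h3 : ∀ᶠ z in nhdsWithin (0 : ℂ) {0}ᶜ, ∀ e, Qe e z ≠ 0 :=
      Filter.eventually_all.mpr fun e => eventually_ne_of_entire (hQd e) (hQ0 e)
    obtain ⟨z, hz, hz'⟩ := (h2.and h3).exists
    exact ⟨z, mul_ne_zero (pow_ne_zero _ (Finset.prod_ne_zero_iff.2 fun c _ => hz c))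
      (pow_ne_zero _ (Finset.prod_ne_zero_iff.2 fun e _ => hz' e))⟩
  refine core_abs D.hy D.hy0 D.hθ0 hQd' hQ0' hFd hF0 (ρ := r) (κ := r * Fintype.card ι)
    (B := r * ((m + 1) * ((m + 1) * m)) + m ^ 2 * (Fintype.card εI * ((m + 1) * d)))
    (E := ((m + 1) + m * ((m + 1) * m)) * r + Fintype.card εI * ((m + 1) * d) * m ^ 2) (L := r)
    (C₀ := C₁ ^ r * (∏ e, Cb e) ^ (m ^ 2)) (hm.trans hr) ?_ ?_
  · intro z hz _
    have h2 := h1 z hz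
    have h3 : ∏ e, ‖Qe e z‖ ≤ (∏ e, Cb e) * ‖D.y z‖ ^ (Fintype.card εI * ((m + 1) * d)) *
        LamG D.y D.θ r z ^ (Fintype.card εI * ((m + 1) * d)) := by
      calc ∏ e, ‖Qe e z‖ ≤ ∏ e, (Cb e * ‖D.y z‖ ^ ((m + 1) * d) *
            LamG D.y D.θ r z ^ ((m + 1) * d)) :=
            Finset.prod_le_prod (fun _ _ => norm_nonneg _) fun e _ => hb e z hz.1
        _ = _ := by
            rw [Finset.prod_mul_distrib, Finset.prod_mul_distrib, Finset.prod_const,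
              Finset.prod_const, Finset.card_univ, ← pow_mul, ← pow_mul,
              mul_comm ((m + 1) * d)]
    have hΛ : 1 ≤ LamG D.y D.θ r z := one_le_LamG _ _ _ _
    obtain ⟨X, hX⟩ : ∃ X : ℝ, X = ‖D.y z‖ := ⟨_, rfl⟩
    obtain ⟨Λ, hΛ'⟩ : ∃ Λ : ℝ, Λ = LamG D.y D.θ r z := ⟨_, rfl⟩
    obtain ⟨Fn, hFn⟩ : ∃ Fn : ℝ, Fn = ∏ i, ‖lin (D.θ i) (D.y z)‖ := ⟨_, rfl⟩
    obtain ⟨U, hU⟩ : ∃ U : ℝ, U = ∏ c, ‖QQ D.y c ((m + 1) * m) (WdP hr) z‖ := ⟨_, rfl⟩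
    obtain ⟨V, hV⟩ : ∃ V : ℝ, V = ∏ e, ‖Qe e z‖ := ⟨_, rfl⟩
    obtain ⟨G, hG⟩ : ∃ G : ℝ, G = ∏ e, Cb e := ⟨_, rfl⟩
    have hX0 : 0 ≤ X := by rw [hX]; positivity
    have hFn0 : 0 ≤ Fn := by rw [hFn]; positivity
    have hU0 : 0 ≤ U := by rw [hU]; positivity
    have hV0 : 0 ≤ V := by rw [hV]; positivity
    have hG0 : 0 ≤ G := by rw [hG]; exact Finset.prod_nonneg fun e _ => hCb e
    rw [← hΛ'] at hΛ
    have hΛ0 : 0 ≤ Λ := by linarith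
    rw [← hU, ← hX, ← hFn, ← hΛ'] at h2
    rw [← hV, ← hG, ← hX, ← hΛ'] at h3
    rw [norm_mul, norm_pow, norm_pow, norm_prod, norm_prod, norm_prod, ← hU, ← hV, ← hX, ← hFn,
      ← hΛ', ← hG]
    have h4 := pow_le_pow_left₀ (by positivity) h2 r
    have h5 := pow_le_pow_left₀ (by positivity) h3 (m ^ 2)
    calc U ^ r * V ^ (m ^ 2) * X ^ (r * Fintype.card ι)
        = (U * X ^ Fintype.card ι) ^ r * V ^ (m ^ 2) := by
          rw [mul_pow, ← pow_mul, mul_comm (Fintype.card ι) r]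
          ring
      _ ≤ (C₁ * Fn * X ^ ((m + 1) * ((m + 1) * m)) *
            Λ ^ ((m + 1) + m * ((m + 1) * m))) ^ r *
          (G * X ^ (Fintype.card εI * ((m + 1) * d)) *
            Λ ^ (Fintype.card εI * ((m + 1) * d))) ^ (m ^ 2) := by
          exact mul_le_mul h4 h5 (by positivity) (by positivity)
      _ = _ := by
          rw [mul_pow, mul_pow, mul_pow, mul_pow, mul_pow, ← pow_mul, ← pow_mul, ← pow_mul,
            ← pow_mul, pow_add, pow_add, mul_comm r ((m + 1) * ((m + 1) * m)),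
            mul_comm (m ^ 2) (Fintype.card εI * ((m + 1) * d))]
          ring
  · intro z k hk
    exact aux_order hm hr D σ hcov Qe hQd (fun h2 e => hQo e h2) z k hk

end Pool.Agent.H78G
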