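import Pool.Agent.Lib.H89T.T3

set_option autoImplicit false

/-!
# H78G: second main theorem with total truncation level one for generic hyperplane arrangements

Definitions.  See PROOF.md.  Everything of `Lib/H89T` (jets `JV n r`, arcs, `ev`, `Fx`, `uR`, `NN`,
`PropA`, `HasMon`, `HasWt`, `QQ`, `ch`, ...) is reused; the hypersurface is now a product of `K`
linear polynomials with coefficients `h (i, 0)` (constant term), `h (i, b + 1)`.
-/

open MvPolynomial

namespace Pool.Agent.H78G

open Pool.Agent.H89T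

/-- Coefficients of `K` linear polynomials in `n` variables: `(i, 0)` is the constant coefficient
of the `i`-th one, `(i, b.succ)` the coefficient of the variable `b`. -/
abbrev HV (n K : ℕ) : Type := Fin K × Fin (n + 1)

section General

variable {n K r : ℕ} {B : Type*} [CommRing B]

/-- The value at `x` of the linear polynomial with coefficients `h`. -/
def linA (h : Fin (n + 1) → B) (x : Fin n → B) : B := h 0 + ∑ b : Fin n, h b.succ * x b

/-- `v_i (t) = h_i (x (t))`. -/
noncomputable def vv (h : HV n K → B) (ξ : JV n r → B) (i : Fin K) : Polynomial B :=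
  linA (fun j => Polynomial.C (h (i, j))) (arc ξ)

/-- The product of the `K` linear polynomials. -/
noncomputable def prodP (h : HV n K → B) : MvPolynomial (Fin n) B :=
  ∏ i : Fin K, (C (h (i, 0)) + ∑ b : Fin n, C (h (i, b.succ)) * X b)

/-- The coefficients of the product of the `K` linear polynomials. -/
noncomputable def pc (h : HV n K → B) : Idx n K → B := fun α => (prodP h).coeff (fin α)

/-- The determinant of the jets of orders `1, ..., n` (the Wronskian in affine coordinates). -/
noncomputable def Wd (hr : n ≤ r) (ξ : JV n r → B) : B :=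
  Matrix.det (Matrix.of fun b l : Fin n => ξ (b, ⟨(l : ℕ) + 1, by omega⟩))

end General

/-- Weight at most `d` for polynomials in the jets and further variables `τ` of weight `0`. -/
def WtS {n r : ℕ} {τ : Type} (d : ℕ) (P : MvPolynomial (JV n r ⊕ τ) ℂ) : Prop :=
  ∀ m ∈ P.support, ∑ p : JV n r, ((p.2 : ℕ) + 1) * m (Sum.inl p) ≤ d

/-- The universal ring: jets and coefficients of `K` linear polynomials. -/
abbrev UA (n K r : ℕ) : Type := MvPolynomial (JV n r ⊕ HV n K) ℂ

section Universal

variable {n K r : ℕ}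

/-- The coefficients as elements of the universal ring. -/
noncomputable def hU (s : HV n K) : UA n K r := X (Sum.inr s)

/-- The jet variables as elements of the universal ring. -/
noncomputable def xU (p : JV n r) : UA n K r := X (Sum.inl p)

/-- The Taylor coefficients of the product `∏ h_i (x (t))`. -/
noncomputable def uU (i : ℕ) : UA n K r := uu (pc hU) xU i

/-- The derivation `N` of the universal ring. -/
noncomputable def NU (n K r : ℕ) : Derivation ℂ (UA n K r) (UA n K r) :=
  mkDerivation ℂ (Sum.elim (fun p : JV n r =>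
    if h : (p.2 : ℕ) < r then ((p.2 : ℕ) + 1) • xU (p.1, ⟨(p.2 : ℕ) + 1, by omega⟩) else 0)
    fun _ => 0)

/-- The derivation `V (g, lam)`: `h_s ↦ g s`, `x_{b,l} ↦ [t ^ l] lam b`. -/
noncomputable def VU (g : HV n K → UA n K r) (lam : Fin n → Polynomial (UA n K r)) :
    Derivation ℂ (UA n K r) (UA n K r) :=
  mkDerivation ℂ (Sum.elim (fun p : JV n r => (lam p.1).coeff (p.2 : ℕ)) g)

/-- `E_i (V (g, lam)) = g_i (x (t)) + ∑ h_{i,b} lam b (t)`. -/
noncomputable def EU (g : HV n K → UA n K r) (lam : Fin n → Polynomial (UA n K r)) (i : Fin K) :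
    Polynomial (UA n K r) :=
  vv g xU i + ∑ b : Fin n, Polynomial.C (hU (i, b.succ)) * lam b

/-- `s`-admissible fields. -/
structure AdmU (s : ℕ) (g : HV n K → UA n K r) (lam : Fin n → Polynomial (UA n K r)) : Prop where
  deg : ∀ b, (lam b).natDegree ≤ r
  mem : ∀ i, EU g lam i ∈
    Ideal.span {vv hU xU i, (Polynomial.X : Polynomial (UA n K r)) ^ s}

/-- Property (A) in the universal ring. -/
def PropU (q : ℕ) (P : UA n K r) : Prop :=
  ∀ l < q, (NU n K r)^[l] P ∈ Ideal.span {(uU 0 : UA n K r), uU 1}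

/-- Specialization of the coefficients. -/
noncomputable def specU (h : HV n K → ℂ) : UA n K r →ₐ[ℂ] MvPolynomial (JV n r) ℂ :=
  aeval (Sum.elim (fun p => X p) fun s => C (h s))

/-- The evaluation of the universal ring at the coefficients `h` and the jet `ξ`. -/
noncomputable def evU (h : HV n K → ℂ) (ξ : JV n r → ℂ) : UA n K r →ₐ[ℂ] ℂ :=
  aeval (Sum.elim ξ h)

/-- The admissible fields of weight at most `c`. -/
def FieldsU (n K r c : ℕ) : Set (Derivation ℂ (UA n K r) (UA n K r)) :=
  {V | ∃ g lam, AdmU (r + 1) g lam ∧ (∀ s, WtS c (g s)) ∧ (∀ b i, WtS c ((lam b).coeff i)) ∧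
    V = VU g lam}

/-- Jet degree at most `M`. -/
def JdU (M : ℕ) (P : UA n K r) : Prop :=
  ∀ m ∈ P.support, (∑ p : JV n r, if p.2 = 0 then 0 else m (Sum.inl p)) ≤ M

end Universal

/-- The algebraic theorem: operators for the generic arrangement which vanish to order `r` at
crossings and tangencies and do not vanish at any prescribed nondegenerate jet at the point
`(1, ..., 1)`. -/
def AlgH (n : ℕ) (α : ℝ) : Prop :=
  ∃ (r C : ℕ) (hr : n ≤ r), 1 ≤ r ∧ ∀ K : ℕ, C ≤ K → ∃ Θ : MvPolynomial (HV n K) ℂ, Θ ≠ 0 ∧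
    ∀ (h : HV n K → ℂ) (ξ : JV n r → ℂ), (∀ b, ξ (b, 0) = 1) → eval h Θ ≠ 0 →
      (∀ i, linA (fun j => h (i, j)) (fun _ => 1) ≠ 0) → Wd hr ξ ≠ 0 →
      ∃ (d : ℕ) (P : MvPolynomial (JV n r) ℂ), (d : ℝ) ≤ α * r * K + C ∧ HasWt d P ∧
        PropA (pc h) r P ∧ eval ξ P ≠ 0

end Pool.Agent.H78G
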