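import Mathlib

set_option autoImplicit false

/-!
CHUNK E1 (M, pure Mathlib).  Transcendence degree: one of many blocks is independent.
-/

namespace Pool.Agent.H78G

open Set in
/-- CHUNK E1.  Let `η : Fin s × τ → F` be algebraically independent over `ℂ` and `lam` a family of
`D < s` elements of `F`.  Then one of the `s` blocks `η (j, ·)` is algebraically independent over
`ℂ[lam]`.

Proof.  In the matroid of algebraic independence let `I` be a basis of `lam` and `B ⊇ I` a basis of the
union of `lam` and `η`; `B ⊆ I ∪ η` and `|B| ≥ |η|`, so at most `D < s` of the `η` are missing in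
`B`, and one block is contained in `B \ I`. -/
theorem indep_block {F : Type} [Field F] [Algebra ℂ F] {D s : ℕ} {τ : Type} [Fintype τ]
    (lam : Fin D → F) (η : Fin s × τ → F) (hη : AlgebraicIndependent ℂ η) (hs : D < s) :
    ∃ j : Fin s, AlgebraicIndependent (Algebra.adjoin ℂ (Set.range lam))
      (fun t : τ => η (j, t)) := by
  classical
  set M := AlgebraicIndependent.matroid ℂ F with hM
  have hinj : Function.Injective η := hη.injective
  have hHind : M.Indep (range η) := by
    rw [AlgebraicIndependent.matroid_indep_iff]
    exact hη.to_subtype_range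
  obtain ⟨I, hI⟩ := M.exists_isBasis (range lam) (by rw [AlgebraicIndependent.matroid_e]; exact subset_univ _)
  obtain ⟨B, hB, hIB⟩ := hI.indep.subset_isBasis_of_subset
    (hI.subset.trans (subset_union_left (t := range η)))
    (by rw [AlgebraicIndependent.matroid_e]; exact subset_univ _)
  have hBI : ∀ b ∈ B, b ∈ range lam → b ∈ I := by
    intro b hb hbL
    exact hI.mem_of_insert_indep hbL (hB.indep.subset (insert_subset hb hIB))
  -- a block in `B \ I`
  have hblock : ∃ j : Fin s, ∀ t : τ, η (j, t) ∈ B \ I := by
    by_contra hcon
    push Not at hcon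
    choose t ht using hcon
    have hsub : B ⊆ I ∪ (η '' {p | ∀ j, p ≠ (j, t j)}) := by
      intro b hb
      by_cases hbI : b ∈ I
      · exact Or.inl hbI
      · right
        rcases hB.subset hb with h | h
        · exact absurd (hBI b hb h) hbI
        · obtain ⟨p, rfl⟩ := h
          refine ⟨p, ?_, rfl⟩
          rintro j rfl
          exact ht j ⟨hb, hbI⟩
    have h1 : (range η).encard ≤ B.encard := by
      have := hHind.encard_le_eRk_of_subset (subset_union_right (s := range lam))
      rwa [← hB.encard_eq_eRk] at this
    have h2 : B.encard ≤ I.encard + (η '' {p | ∀ j, p ≠ (j, t j)}).encard :=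
      (encard_le_encard hsub).trans (encard_union_le _ _)
    have h3 : I.encard ≤ D := by
      refine (encard_le_encard hI.subset).trans ?_
      rw [← image_univ]
      refine (encard_image_le _ _).trans ?_
      simp
    have h1' : ENat.card (Fin s × τ) ≤ B.encard := hinj.encard_range.trans h1
    rw [hinj.encard_image] at h2
    have h4 : ({p : Fin s × τ | ∀ j, p ≠ (j, t j)} : Set (Fin s × τ)).encard + s =
        ENat.card (Fin s × τ) := by
      have h5 : ({p : Fin s × τ | ∀ j, p ≠ (j, t j)} : Set (Fin s × τ)) =
          (range fun j : Fin s => (j, t j))ᶜ := by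
        ext p
        simp only [mem_setOf_eq, mem_compl_iff, mem_range, not_exists]
        exact ⟨fun h j hj => h j hj.symm, fun h j hj => h j hj.symm⟩
      have h6 : (range fun j : Fin s => (j, t j)).encard = s := by
        have : Function.Injective fun j : Fin s => (j, t j) := fun a b h => (Prod.ext_iff.1 h).1
        rw [← image_univ, this.encard_image]
        simp
      rw [h5, ← h6, add_comm, encard_add_encard_compl, encard_univ]
    have h7 : (ENat.card (Fin s × τ)) ≠ ⊤ := by
      rw [ENat.card_eq_coe_fintype_card]; exact ENat.coe_ne_top _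
    have h8 : ({p : Fin s × τ | ∀ j, p ≠ (j, t j)} : Set (Fin s × τ)).encard ≠ ⊤ := by
      intro h
      rw [h, top_add] at h4
      exact h7 h4.symm
    have h9 : ENat.card (Fin s × τ) ≤
        D + ({p : Fin s × τ | ∀ j, p ≠ (j, t j)} : Set (Fin s × τ)).encard :=
      (h1'.trans h2).trans (add_le_add h3 le_rfl)
    rw [← h4, add_comm] at h9
    have h10 : (s : ℕ∞) ≤ D := (ENat.add_le_add_iff_right h8).1 h9
    exact absurd (by exact_mod_cast h10 : s ≤ D) (by omega)
  obtain ⟨j, hj⟩ := hblock
  refine ⟨j, ?_⟩
  -- independence over `ℂ[I]`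
  have hBind : AlgebraicIndependent ℂ (Subtype.val : B → F) := hB.indep
  have hsum : AlgebraicIndependent ℂ (Sum.elim (fun t : τ => η (j, t)) (Subtype.val : I → F)) := by
    let g : τ ⊕ I → B := Sum.elim (fun t => ⟨η (j, t), (hj t).1⟩) fun i => ⟨i.1, hIB i.2⟩
    have hg : Function.Injective g := by
      rintro (a | a) (b | b) hab
      · have := congrArg Subtype.val hab
        simp only [g, Sum.elim_inl] at this
        have h2 : a = b := (Prod.ext_iff.1 (hinj this)).2
        rw [h2]
      · have := congrArg Subtype.val hab
        simp only [g, Sum.elim_inl, Sum.elim_inr] at this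
        exact absurd (this ▸ b.2) (hj a).2
      · have := congrArg Subtype.val hab
        simp only [g, Sum.elim_inl, Sum.elim_inr] at this
        exact absurd (this ▸ a.2) (hj b).2
      · have := congrArg Subtype.val hab
        simp only [g, Sum.elim_inr] at this
        rw [Subtype.ext this]
    have h1 := hBind.comp g hg
    convert h1 using 1
    ext (a | a) <;> rfl
  rw [AlgebraicIndependent.sumElim_iff] at hsum
  have h1 := hsum.2
  have hle : Algebra.adjoin ℂ (range (Subtype.val : I → F)) ≤ Algebra.adjoin ℂ (range lam) := by
    apply Algebra.adjoin_mono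
    rw [Subtype.range_val]
    exact hI.subset
  letI : Algebra (Algebra.adjoin ℂ (range (Subtype.val : I → F)))
    (Algebra.adjoin ℂ (range lam)) := (Subalgebra.inclusion hle).toAlgebra
  haveI : IsScalarTower (Algebra.adjoin ℂ (range (Subtype.val : I → F)))
    (Algebra.adjoin ℂ (range lam)) F := .of_algebraMap_eq fun ⟨y, _⟩ => rfl
  haveI : Algebra.IsAlgebraic (Algebra.adjoin ℂ (range (Subtype.val : I → F)))
      (Algebra.adjoin ℂ (range lam)) := ⟨fun ⟨y, hy⟩ => by
    rw [← isAlgebraic_algHom_iff (IsScalarTower.toAlgHom
      (Algebra.adjoin ℂ (range (Subtype.val : I → F))) (Algebra.adjoin ℂ (range lam)) F)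
      Subtype.val_injective]
    change IsAlgebraic (Algebra.adjoin ℂ (range (Subtype.val : I → F))) y
    have hb := (AlgebraicIndependent.matroid_isBasis_iff.1 hI).2.2
    refine Algebra.adjoin_induction (fun x hx => ?_) (fun z => ?_)
      (fun _ _ _ _ => .add) (fun _ _ _ _ => .mul) hy
    · have := hb x hx
      rwa [Subtype.range_val]
    · exact isAlgebraic_algebraMap (algebraMap ℂ
        (Algebra.adjoin ℂ (range (Subtype.val : I → F))) z)⟩
  exact h1.extendScalars _

end Pool.Agent.H78G
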