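import Mathlib

set_option autoImplicit false

/-!
CHUNK E2 (M, pure Mathlib).  Linear substitution in independent elements.
-/

open MvPolynomial

namespace Pool.Agent.H78G

/-- CHUNK E2.  Let `S` be a subalgebra of the field `F`, the `η (i, l)` algebraically independent over
`S`, `Lam` a matrix over `S` with a left inverse `Lb` over `S`, and `Θ ≠ 0` a polynomial over `ℂ`.  Then
`Θ (∑ l, η (i, l) Lam l b) ≠ 0`.
Proof.  The `S`-algebra homomorphism `ψ : S[X (i, b)] → S[X (i, l)]`,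
`X (i, b) ↦ ∑ l, C (Lam l b) * X (i, l)`, is injective since it has the left inverse
`X (i, l) ↦ ∑ b', C (Lb b' l) * X (i, b')`.  `Θ` mapped to `S[X (i, b)]` is not `0`
(`MvPolynomial.map_injective`), so `ψ Θ ≠ 0`, and evaluation at `η` is injective on `S[X (i, l)]`. -/
theorem eval_ne_zero {F : Type} [Field F] [Algebra ℂ F] {ι : Type} [Fintype ι] {m n : ℕ}
    (S : Subalgebra ℂ F) (η : ι × Fin (n + 1) → F) (hη : AlgebraicIndependent S η)
    (Lam : Fin (n + 1) → Fin (m + 1) → F) (Lb : Fin (m + 1) → Fin (n + 1) → F)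
    (hLam : ∀ l b, Lam l b ∈ S) (hLb : ∀ b l, Lb b l ∈ S)
    (hinv : ∀ b b', ∑ l, Lb b' l * Lam l b = if b = b' then 1 else 0)
    (Θ : MvPolynomial (ι × Fin (m + 1)) ℂ) (hΘ : Θ ≠ 0) :
    aeval (fun p : ι × Fin (m + 1) => ∑ l, η (p.1, l) * Lam l p.2) Θ ≠ (0 : F) := by
  classical
  let ψ : MvPolynomial (ι × Fin (m + 1)) S →ₐ[S] MvPolynomial (ι × Fin (n + 1)) S :=
    aeval fun p => ∑ l, C (⟨Lam l p.2, hLam l p.2⟩ : S) * X (p.1, l)
  let φ : MvPolynomial (ι × Fin (n + 1)) S →ₐ[S] MvPolynomial (ι × Fin (m + 1)) S :=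
    aeval fun p => ∑ b, C (⟨Lb b p.2, hLb b p.2⟩ : S) * X (p.1, b)
  have hφψ : φ.comp ψ = AlgHom.id S _ := by
    refine MvPolynomial.algHom_ext fun p => ?_
    obtain ⟨i, b⟩ := p
    simp only [AlgHom.comp_apply, ψ, φ, aeval_X, map_sum, map_mul, AlgHom.id_apply]
    have h1 : ∀ l : Fin (n + 1), (aeval (R := S) fun p : ι × Fin (n + 1) =>
        ∑ b, C (⟨Lb b p.2, hLb b p.2⟩ : S) * X (p.1, b)) (C (⟨Lam l b, hLam l b⟩ : S)) *
        ∑ b', C (⟨Lb b' l, hLb b' l⟩ : S) * X (i, b') =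
        ∑ b', C ((⟨Lb b' l, hLb b' l⟩ : S) * ⟨Lam l b, hLam l b⟩) *
          (X (i, b') : MvPolynomial (ι × Fin (m + 1)) S) := by
      intro l
      rw [MvPolynomial.aeval_C, MvPolynomial.algebraMap_eq, Finset.mul_sum]
      refine Finset.sum_congr rfl fun b' _ => ?_
      rw [map_mul]
      ring
    rw [Finset.sum_congr rfl fun l _ => h1 l, Finset.sum_comm]
    have h2 : ∀ b' : Fin (m + 1), ∑ l : Fin (n + 1),
        C ((⟨Lb b' l, hLb b' l⟩ : S) * ⟨Lam l b, hLam l b⟩) *
          (X (i, b') : MvPolynomial (ι × Fin (m + 1)) S) =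
        if b = b' then X (i, b') else 0 := by
      intro b'
      rw [← Finset.sum_mul, ← map_sum]
      have h3 : (∑ l : Fin (n + 1), (⟨Lb b' l, hLb b' l⟩ : S) * ⟨Lam l b, hLam l b⟩) =
          if b = b' then 1 else 0 := by
        apply Subtype.ext
        have := hinv b b'
        split_ifs with hbb
        · rw [if_pos hbb] at this
          simpa using this
        · rw [if_neg hbb] at this
          simpa using this
      rw [h3]
      split_ifs <;> simp
    rw [Finset.sum_congr rfl fun b' _ => h2 b']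
    simp
  have hψ : Function.Injective ψ := by
    intro x y hxy
    have := congrArg φ hxy
    have hx : φ (ψ x) = x := congrArg (fun f => f x) hφψ
    have hy : φ (ψ y) = y := congrArg (fun f => f y) hφψ
    rwa [hx, hy] at this
  have hΘ' : MvPolynomial.map (algebraMap ℂ S) Θ ≠ 0 := by
    intro h0
    apply hΘ
    apply MvPolynomial.map_injective (algebraMap ℂ S) (algebraMap ℂ S).injective
    rw [h0, map_zero]
  have h1 : ψ (MvPolynomial.map (algebraMap ℂ S) Θ) ≠ 0 := by
    intro h0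
    exact hΘ' (hψ (by rw [h0, map_zero]))
  intro h0
  apply h1
  apply hη
  rw [map_zero, ← h0]
  have h2 : (((aeval η : MvPolynomial (ι × Fin (n + 1)) S →ₐ[S] F).comp ψ).restrictScalars
      ℂ).comp ((MvPolynomial.mapAlgHom (Algebra.ofId ℂ S))) =
      aeval (fun p : ι × Fin (m + 1) => ∑ l, η (p.1, l) * Lam l p.2) := by
    refine MvPolynomial.algHom_ext fun p => ?_
    simp only [AlgHom.comp_apply, AlgHom.restrictScalars_apply, ψ, mapAlgHom_apply,
      aeval_X, map_sum, map_mul]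
    simp [mul_comm]
  rw [← h2]
  rfl

end Pool.Agent.H78G
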