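import Pool.Agent.Lib.H78G.E1
import Pool.Agent.Lib.H78G.E2

set_option autoImplicit false

/-!
CHUNK E3 (M/L, pure Mathlib).  Elimination of the position of the linear subspace.
-/

open MvPolynomial

namespace Pool.Agent.H78G

/-- CHUNK E3.  `s > 2 (m + 1) (n + 1)` disjoint blocks of `K` of the `k` hyperplanes.  For the generic
arrangement `η` and every linear subspace (matrix `Lam` with left inverse `Lb`) the restriction of one
of the blocks satisfies `Θ ≠ 0`.

Proof.  Let `A` be the polynomial ring over `ℂ` in the variables `η (i, l)`, `Lam l b`, `Lb b l`, and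
`I` the ideal generated by the `s` polynomials `Θ (∑ l, η (σ j i, l) Lam l b)` and by the entries
of `Lb * Lam - 1`.  If `I` contains a nonzero polynomial `Ξ` in the variables `η` alone (i.e. the image
of `Ξ : MvPolynomial (Fin k × Fin (n + 1)) ℂ` under `rename Sum.inl`), then `Ξ` has the asserted
property: evaluate the expression of `Ξ` by the generators at `(η, Lam, Lb)`.
Otherwise the multiplicative set `{rename Sum.inl Ξ | Ξ ≠ 0}` is disjoint from `I`, so there is a prime
ideal `𝔭 ⊇ I` disjoint from it (`Ideal.exists_le_prime_disjoint`).  Let `F` be the fraction field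
of `A ⧸ 𝔭`.  In `F` the images of the `η (i, l)` are algebraically independent over `ℂ`, in particular
the images of the `η (σ j i, l)`, `(j, i, l)` (`hσ`), and `Lb * Lam = 1`.  By `indep_block` with
`lam` = all entries of `Lam` and `Lb` (`D = 2 (m + 1) (n + 1)`) one block `j` is algebraically
independent over `S = ℂ[Lam, Lb]`, and `eval_ne_zero` contradicts `Θ (...) ∈ 𝔭`. -/
theorem elim {n m K k s : ℕ} (hs : 2 * ((m + 1) * (n + 1)) < s)
    (Θ : MvPolynomial (Fin K × Fin (m + 1)) ℂ) (hΘ : Θ ≠ 0) (σ : Fin s → Fin K → Fin k)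
    (hσ : Function.Injective fun p : Fin s × Fin K => σ p.1 p.2) :
    ∃ Ξ : MvPolynomial (Fin k × Fin (n + 1)) ℂ, Ξ ≠ 0 ∧ ∀ η : Fin k × Fin (n + 1) → ℂ,
      eval η Ξ ≠ 0 → ∀ (Lam : Matrix (Fin (n + 1)) (Fin (m + 1)) ℂ)
        (Lb : Matrix (Fin (m + 1)) (Fin (n + 1)) ℂ), Lb * Lam = 1 →
        ∃ j, eval (fun p : Fin K × Fin (m + 1) => ∑ l, η (σ j p.1, l) * Lam l p.2) Θ ≠ 0 := by
  classical
  let V : Type := (Fin k × Fin (n + 1)) ⊕ ((Fin (n + 1) × Fin (m + 1)) ⊕ (Fin (m + 1) × Fin (n + 1)))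
  let g : Fin s → MvPolynomial V ℂ := fun j =>
    aeval (fun p : Fin K × Fin (m + 1) =>
      ∑ l : Fin (n + 1), (X (Sum.inl (σ j p.1, l)) : MvPolynomial V ℂ) *
        X (Sum.inr (Sum.inl (l, p.2)))) Θ
  let h : Fin (m + 1) × Fin (m + 1) → MvPolynomial V ℂ := fun q =>
    (∑ l : Fin (n + 1), (X (Sum.inr (Sum.inr (q.1, l))) : MvPolynomial V ℂ) *
      X (Sum.inr (Sum.inl (l, q.2)))) - (if q.1 = q.2 then 1 else 0)
  let I : Ideal (MvPolynomial V ℂ) := Ideal.span (Set.range g ∪ Set.range h)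
  have hgI : ∀ j, g j ∈ I := fun j => Ideal.subset_span (Or.inl ⟨j, rfl⟩)
  have hhI : ∀ q, h q ∈ I := fun q => Ideal.subset_span (Or.inr ⟨q, rfl⟩)
  by_cases hcase : ∃ Ξ : MvPolynomial (Fin k × Fin (n + 1)) ℂ, Ξ ≠ 0 ∧
      (rename (Sum.inl : _ → V) Ξ) ∈ I
  · obtain ⟨Ξ, hΞ, hmem⟩ := hcase
    refine ⟨Ξ, hΞ, fun η hη Lam Lb hinv => ?_⟩
    by_contra hcon
    push Not at hcon
    apply hη
    let pt : V → ℂ := Sum.elim η (Sum.elim (fun q => Lam q.1 q.2) (fun q => Lb q.1 q.2))
    have hle : I ≤ RingHom.ker (aeval pt : MvPolynomial V ℂ →ₐ[ℂ] ℂ) := by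
      rw [Ideal.span_le]
      rintro x (⟨j, rfl⟩ | ⟨q, rfl⟩)
      · change aeval pt (g j) = 0
        have h1 : aeval pt (g j) =
            aeval (fun p : Fin K × Fin (m + 1) => ∑ l, η (σ j p.1, l) * Lam l p.2) Θ := by
          have h2 : (aeval pt : MvPolynomial V ℂ →ₐ[ℂ] ℂ).comp
              (aeval (fun p : Fin K × Fin (m + 1) =>
                ∑ l : Fin (n + 1), (X (Sum.inl (σ j p.1, l)) : MvPolynomial V ℂ) *
                  X (Sum.inr (Sum.inl (l, p.2))))) =
              aeval (fun p : Fin K × Fin (m + 1) => ∑ l, η (σ j p.1, l) * Lam l p.2) := by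
            refine MvPolynomial.algHom_ext fun p => ?_
            simp [pt]
          rw [← h2]
          rfl
        rw [h1]
        exact hcon j
      · change aeval pt (h q) = 0
        have h3 : (Lb * Lam) q.1 q.2 = (1 : Matrix (Fin (m + 1)) (Fin (m + 1)) ℂ) q.1 q.2 := by
          rw [hinv]
        rw [Matrix.mul_apply, Matrix.one_apply] at h3
        simp only [h, map_sub, map_sum, map_mul, aeval_X, pt, Sum.elim_inr, Sum.elim_inl]
        rw [h3]
        split_ifs <;> simp
    have h4 := hle hmem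
    rw [RingHom.mem_ker, aeval_rename] at h4
    exact h4
  · push Not at hcase
    exfalso
    let S : Submonoid (MvPolynomial V ℂ) :=
      (nonZeroDivisors (MvPolynomial (Fin k × Fin (n + 1)) ℂ)).map
        (rename (Sum.inl : _ → V) : MvPolynomial (Fin k × Fin (n + 1)) ℂ →ₐ[ℂ] MvPolynomial V ℂ)
    have hdisj : Disjoint (I : Set (MvPolynomial V ℂ)) (S : Set (MvPolynomial V ℂ)) := by
      rw [Set.disjoint_left]
      rintro x hx ⟨Ξ, hΞ, rfl⟩
      exact hcase Ξ (nonZeroDivisors.ne_zero hΞ) hx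
    obtain ⟨P, hP, hIP, hPS⟩ := Ideal.exists_le_prime_disjoint I S hdisj
    have := hP
    let F : Type := FractionRing (MvPolynomial V ℂ ⧸ P)
    let q : MvPolynomial V ℂ →ₐ[ℂ] F :=
      (IsScalarTower.toAlgHom ℂ (MvPolynomial V ℂ ⧸ P) F).comp (Ideal.Quotient.mkₐ ℂ P)
    have hq : ∀ x, q x = 0 → x ∈ P := by
      intro x hx
      have h1 : algebraMap (MvPolynomial V ℂ ⧸ P) F (Ideal.Quotient.mk P x) = 0 := hx
      rw [← Ideal.Quotient.eq_zero_iff_mem]
      exact (IsFractionRing.injective (MvPolynomial V ℂ ⧸ P) F) (by rw [h1, map_zero])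
    have hq' : ∀ x, x ∈ P → q x = 0 := by
      intro x hx
      change algebraMap (MvPolynomial V ℂ ⧸ P) F (Ideal.Quotient.mk P x) = 0
      rw [Ideal.Quotient.eq_zero_iff_mem.2 hx, map_zero]
    have hind : AlgebraicIndependent ℂ
        (fun i : Fin k × Fin (n + 1) => q (X (Sum.inl i))) := by
      have h1 : (aeval (fun i : Fin k × Fin (n + 1) => q (X (Sum.inl i))) :
          MvPolynomial (Fin k × Fin (n + 1)) ℂ →ₐ[ℂ] F) =
          q.comp (rename (Sum.inl : _ → V)) := by
        refine MvPolynomial.algHom_ext fun p => ?_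
        simp
      change Function.Injective (aeval (fun i : Fin k × Fin (n + 1) => q (X (Sum.inl i))) :
          MvPolynomial (Fin k × Fin (n + 1)) ℂ →ₐ[ℂ] F)
      rw [h1, injective_iff_map_eq_zero]
      intro Ξ hΞ
      by_contra hne
      have h2 := hq _ hΞ
      exact Set.disjoint_left.1 hPS h2 ⟨Ξ, mem_nonZeroDivisors_of_ne_zero hne, rfl⟩
    let ηs : Fin s × (Fin K × Fin (n + 1)) → F := fun p => q (X (Sum.inl (σ p.1 p.2.1, p.2.2)))
    have hind' : AlgebraicIndependent ℂ ηs := by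
      have h1 : Function.Injective (fun p : Fin s × (Fin K × Fin (n + 1)) =>
          ((σ p.1 p.2.1, p.2.2) : Fin k × Fin (n + 1))) := by
        rintro ⟨a, b, c⟩ ⟨a', b', c'⟩ hab
        simp only [Prod.mk.injEq] at hab
        have h2 := @hσ (a, b) (a', b') hab.1
        simp only [Prod.mk.injEq] at h2
        obtain ⟨rfl, rfl⟩ := h2
        obtain ⟨-, rfl⟩ := hab
        rfl
      exact hind.comp _ h1
    let W : Type := (Fin (n + 1) × Fin (m + 1)) ⊕ (Fin (m + 1) × Fin (n + 1))
    have hcard : Fintype.card W = 2 * ((m + 1) * (n + 1)) := by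
      simp only [W, Fintype.card_sum, Fintype.card_prod, Fintype.card_fin]
      ring
    let e : Fin (2 * ((m + 1) * (n + 1))) ≃ W := (Fintype.equivFinOfCardEq hcard).symm
    let lam : Fin (2 * ((m + 1) * (n + 1))) → F := fun i => q (X (Sum.inr (e i)))
    obtain ⟨j, hj⟩ := indep_block lam ηs hind' hs
    have hmem : ∀ w : W, q (X (Sum.inr w)) ∈ Algebra.adjoin ℂ (Set.range lam) := by
      intro w
      apply Algebra.subset_adjoin
      exact ⟨e.symm w, by simp [lam]⟩
    have hfin := eval_ne_zero (Algebra.adjoin ℂ (Set.range lam)) (fun t => ηs (j, t)) hj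
      (fun l b => q (X (Sum.inr (Sum.inl (l, b))))) (fun b l => q (X (Sum.inr (Sum.inr (b, l)))))
      (fun l b => hmem _) (fun b l => hmem _) (by
        intro b b'
        have h1 := hq' _ (hIP (hhI (b', b)))
        simp only [h, map_sub, map_sum, map_mul] at h1
        rw [sub_eq_zero] at h1
        rw [h1]
        by_cases hbb : b = b'
        · rw [if_pos hbb, if_pos hbb.symm, map_one]
        · rw [if_neg hbb, if_neg (Ne.symm hbb), map_zero]) Θ hΘ
    apply hfin
    have h5 := hq' _ (hIP (hgI j))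
    have h6 : q.comp (aeval (fun p : Fin K × Fin (m + 1) =>
                ∑ l : Fin (n + 1), (X (Sum.inl (σ j p.1, l)) : MvPolynomial V ℂ) *
                  X (Sum.inr (Sum.inl (l, p.2))))) =
        aeval (fun p : Fin K × Fin (m + 1) => ∑ l, ηs (j, (p.1, l)) *
          q (X (Sum.inr (Sum.inl (l, p.2))))) := by
      refine MvPolynomial.algHom_ext fun p => ?_
      simp [ηs]
    rw [← h6]
    exact h5

end Pool.Agent.H78G
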