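import Mathlib

set_option autoImplicit false

/-!
CHUNK F2 (M, pure Mathlib).  The constants.
-/

namespace Pool.Agent.H78G

/-- Bound for the number of bad blocks: `(n + 1) * ((n + 1) * (2 * ((n + 1) * (n + 1))))`. -/
def badN (n : ℕ) : ℕ := (n + 1) * ((n + 1) * (2 * ((n + 1) * (n + 1))))

/-- CHUNK F2.  The number of blocks `nb` and `α` depend on `n` and `ε` only.  Let `R = badN n`,
`K = (n + 1) (k / nb)`, `E ≤ nb ^ (n + 1)`.

Proof.  `nb = ⌈8 R / ε⌉ + R + n + 1`, `α = ε / (8 n² (n + 1)² nb^n)`.  With `κ = k / nb ≥ k / nb - 1`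
(natural and real division): `q ≥ κ (nb - R) ≥ (k - nb) (1 - R / nb) ≥ k - nb - ε k / 8`, and, dividing
by `ρ ≥ 1`, `m² E (m + 1) d / ρ ≤ n² (n + 1) nb^(n + 1) (α (n + 1) k / nb + C) ≤ ε k / 8 + const`; so the
left-hand side divided by `ρ` is at most `(n + 1)^3 + ε k / 8 + const`, which is less than
`q - (1 - ε) k ≥ (7/8) ε k - nb` for `k ≥ k₀`. -/
theorem constants (n : ℕ) (hn : 1 ≤ n) (ε : ℝ) (hε : 0 < ε) (hε1 : ε ≤ 1) :
    ∃ nb : ℕ, badN n + (n + 1) ≤ nb ∧ ∃ α : ℝ, 0 < α ∧ ∀ C : ℕ, ∃ k₀ : ℕ, ∀ k : ℕ, k₀ ≤ k →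
      n + 1 ≤ k / nb ∧ C ≤ k / nb ∧
      ∀ m ρ d q E : ℕ, 1 ≤ m → m ≤ n → 1 ≤ ρ → E ≤ nb ^ (n + 1) →
        (d : ℝ) ≤ α * ρ * ((n + 1) * (k / nb : ℕ) : ℕ) + C →
        (nb - badN n) * (k / nb) ≤ q →
        ((ρ * ((m + 1) * ((m + 1) * m)) + m ^ 2 * (E * ((m + 1) * d)) : ℕ) : ℝ) <
          ρ * q - (1 - ε) * k * ρ := by
  obtain ⟨R, hR⟩ : ∃ R, R = badN n := ⟨_, rfl⟩
  rw [← hR]
  obtain ⟨nb, hnbR, h8⟩ : ∃ nb : ℕ, R + (n + 1) ≤ nb ∧ 8 * (R : ℝ) ≤ ε * nb := by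
    refine ⟨⌈8 * (R : ℝ) / ε⌉₊ + R + n + 1, by omega, ?_⟩
    have h1 : (8 * (R : ℝ) / ε) ≤ ⌈8 * (R : ℝ) / ε⌉₊ := Nat.le_ceil _
    have h2 : ((⌈8 * (R : ℝ) / ε⌉₊ : ℕ) : ℝ) ≤
        ((⌈8 * (R : ℝ) / ε⌉₊ + R + n + 1 : ℕ) : ℝ) := by
      have : ⌈8 * (R : ℝ) / ε⌉₊ ≤ ⌈8 * (R : ℝ) / ε⌉₊ + R + n + 1 := by omega
      exact_mod_cast this
    have h3 := h1.trans h2
    rw [div_le_iff₀ hε] at h3
    linarith
  clear hR
  have hnb1 : 1 ≤ nb := by omega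
  have hnbpos : (0 : ℝ) < nb := by exact_mod_cast hnb1
  have hn0 : (0 : ℝ) < n := by exact_mod_cast hn
  refine ⟨nb, hnbR, ε / (8 * n ^ 2 * (n + 1) ^ 2 * nb ^ n), by positivity, fun C => ?_⟩
  -- constants
  obtain ⟨c₁, hc₁⟩ : ∃ c₁ : ℝ, c₁ = (n + 1) ^ 3 + n ^ 2 * (nb ^ (n + 1) * ((n + 1) * C)) + nb + 1 :=
    ⟨_, rfl⟩
  refine ⟨nb * (n + 1 + C) + ⌈2 * c₁ / ε⌉₊, fun k hk => ⟨?_, ?_, ?_⟩⟩
  · rw [Nat.le_div_iff_mul_le (by omega)]
    have h : nb * (n + 1) ≤ nb * (n + 1 + C) := Nat.mul_le_mul_left _ (by omega)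
    rw [mul_comm]
    omega
  · rw [Nat.le_div_iff_mul_le (by omega)]
    have h : nb * C ≤ nb * (n + 1 + C) := Nat.mul_le_mul_left _ (by omega)
    rw [mul_comm]
    omega
  · intro m ρ d q E hm hmn hρ hE hd hq
    have hkR : (2 * c₁ / ε) ≤ k := by
      have h1 : (2 * c₁ / ε) ≤ ⌈2 * c₁ / ε⌉₊ := Nat.le_ceil _
      have h2 : ⌈2 * c₁ / ε⌉₊ ≤ k := by omega
      exact h1.trans (by exact_mod_cast h2)
    rw [div_le_iff₀ hε] at hkR
    have hρ' : (1 : ℝ) ≤ ρ := by exact_mod_cast hρ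
    have hm' : (1 : ℝ) ≤ m := by exact_mod_cast hm
    have hmn' : (m : ℝ) ≤ n := by exact_mod_cast hmn
    have hE' : (E : ℝ) ≤ nb ^ (n + 1) := by exact_mod_cast hE
    have hκ1 : ((k / nb : ℕ) : ℝ) ≤ k / nb := Nat.cast_div_le
    have hκ2 : (k : ℝ) / nb - 1 ≤ ((k / nb : ℕ) : ℝ) := by
      have h := Nat.lt_div_mul_add (a := k) (b := nb) (by omega)
      have h' : (k : ℝ) < ((k / nb : ℕ) : ℝ) * nb + nb := by exact_mod_cast h
      rw [sub_le_iff_le_add, div_le_iff₀ hnbpos, add_mul, one_mul]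
      exact h'.le
    -- q
    have hq' : ((nb : ℝ) - R) * ((k / nb : ℕ) : ℝ) ≤ q := by
      have h : ((nb - R : ℕ) : ℝ) = (nb : ℝ) - R := by
        rw [Nat.cast_sub (by omega)]
      rw [← h]
      exact_mod_cast hq
    have hR0 : (0 : ℝ) ≤ R := Nat.cast_nonneg _
    have hnbR' : (0 : ℝ) ≤ (nb : ℝ) - R := by
      have : (R : ℝ) ≤ nb := by exact_mod_cast (by omega : R ≤ nb)
      linarith
    have hq2 : (k : ℝ) - ε / 8 * k - nb ≤ q := by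
      have h1 : ((nb : ℝ) - R) * ((k : ℝ) / nb - 1) ≤ q :=
        (mul_le_mul_of_nonneg_left hκ2 hnbR').trans hq'
      have h2 : ((nb : ℝ) - R) * ((k : ℝ) / nb - 1) = k - R * k / nb - nb + R := by
        field_simp
        ring
      have h3 : (R : ℝ) * k / nb ≤ ε / 8 * k := by
        rw [div_le_iff₀ hnbpos]
        have hk0 : (0 : ℝ) ≤ k := Nat.cast_nonneg _
        have h4 := mul_le_mul_of_nonneg_right h8 hk0
        linarith
      linarith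
    -- the main term
    have hd0 : (0 : ℝ) ≤ d := Nat.cast_nonneg _
    have hκ0 : (0 : ℝ) ≤ ((k / nb : ℕ) : ℝ) := Nat.cast_nonneg _
    obtain ⟨α, hα⟩ : ∃ α : ℝ, α = ε / (8 * n ^ 2 * (n + 1) ^ 2 * nb ^ n) := ⟨_, rfl⟩
    rw [← hα] at hd
    have hα0 : 0 < α := by rw [hα]; positivity
    have hC0 : (0 : ℝ) ≤ C := Nat.cast_nonneg _
    have hd2 : (d : ℝ) ≤ ρ * (α * ((n + 1) * (k / nb)) + C) := by
      have h1 : (((n + 1) * (k / nb : ℕ) : ℕ) : ℝ) = (n + 1) * ((k / nb : ℕ) : ℝ) := by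
        push_cast; ring
      rw [h1] at hd
      have h2 : α * ρ * ((n + 1) * ((k / nb : ℕ) : ℝ)) ≤ α * ρ * ((n + 1) * ((k : ℝ) / nb)) := by
        gcongr
      have h3 : (C : ℝ) ≤ ρ * C := le_mul_of_one_le_left hC0 hρ'
      calc (d : ℝ) ≤ _ := hd
        _ ≤ α * ρ * ((n + 1) * ((k : ℝ) / nb)) + ρ * C := by linarith
        _ = _ := by ring
    have hX0 : (0 : ℝ) ≤ α * ((n + 1) * (k / nb)) + C := by positivity
    have hmain : (m : ℝ) ^ 2 * (E * ((m + 1) * d)) ≤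
        ρ * (ε / 8 * k + n ^ 2 * (nb ^ (n + 1) * ((n + 1) * C))) := by
      calc (m : ℝ) ^ 2 * (E * ((m + 1) * d)) ≤ (n : ℝ) ^ 2 * (nb ^ (n + 1) * ((n + 1) *
            (ρ * (α * ((n + 1) * (k / nb)) + C)))) := by gcongr
        _ = ρ * (n ^ 2 * (n + 1) ^ 2 * nb ^ (n + 1) * α * k / nb +
            n ^ 2 * (nb ^ (n + 1) * ((n + 1) * C))) := by
            field_simp
        _ = ρ * (ε / 8 * k + n ^ 2 * (nb ^ (n + 1) * ((n + 1) * C))) := by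
            congr 2
            rw [hα]
            field_simp
            ring
    have hfirst : (ρ : ℝ) * ((m + 1) * ((m + 1) * m)) ≤ ρ * (n + 1) ^ 3 := by
      have : ((m : ℝ) + 1) * ((m + 1) * m) ≤ (n + 1) ^ 3 := by
        calc ((m : ℝ) + 1) * ((m + 1) * m) ≤ (n + 1) * ((n + 1) * (n + 1)) := by
              gcongr
              linarith
          _ = _ := by ring
      gcongr
    have hk0 : (0 : ℝ) ≤ k := Nat.cast_nonneg _
    have hfin : (n + 1) ^ 3 + (ε / 8 * k + n ^ 2 * (nb ^ (n + 1) * ((n + 1) * C))) <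
        q - (1 - ε) * k := by
      have h1 : (n + 1) ^ 3 + n ^ 2 * (nb ^ (n + 1) * ((n + 1) * C)) + nb + 1 ≤ ε / 2 * k := by
        rw [← hc₁]; linarith
      have h2 := mul_nonneg hε.le hk0
      linarith
    push_cast
    have := mul_lt_mul_of_pos_left hfin (by linarith : (0 : ℝ) < ρ)
    linarith

end Pool.Agent.H78G
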