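import Pool.Agent.Lib.H78G.E5
import Pool.Agent.Lib.H78G.Defs

set_option autoImplicit false

/-!
The conditions on one arrangement (proved).
-/

open MvPolynomial Real MeasureTheory Pool.Agent.H67T

namespace Pool.Agent.H78G

open Pool.Agent.H89T

/-- The conditions on one arrangement, for one dimension `m` of the span and one
value of the constants: `Θ` contains general position and, for `m ≥ 2`, the algebraic theorem. -/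
theorem exists_theta_m (m K : ℕ) (hm : 1 ≤ m) {α : ℝ} {r C : ℕ} (hr : m ≤ r)
    (hA : 2 ≤ m → ∀ K : ℕ, C ≤ K → ∃ Θ : MvPolynomial (HV m K) ℂ, Θ ≠ 0 ∧
      ∀ (h : HV m K → ℂ) (ξ : JV m r → ℂ), (∀ b, ξ (b, 0) = 1) → eval h Θ ≠ 0 →
        (∀ i, linA (fun j => h (i, j)) (fun _ => 1) ≠ 0) → Wd hr ξ ≠ 0 →
        ∃ (d : ℕ) (P : MvPolynomial (JV m r) ℂ), (d : ℝ) ≤ α * r * K + C ∧ HasWt d P ∧
          PropA (pc h) r P ∧ eval ξ P ≠ 0) (hK : C ≤ K) :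
    ∃ Θ : MvPolynomial (HV m K) ℂ, Θ ≠ 0 ∧ ∀ h : HV m K → ℂ, eval h Θ ≠ 0 →
      GenPos (fun i j => h (i, j)) ∧ (2 ≤ m → ∀ ξ : JV m r → ℂ, (∀ b, ξ (b, 0) = 1) →
        (∀ i, linA (fun j => h (i, j)) (fun _ => 1) ≠ 0) → Wd hr ξ ≠ 0 →
        ∃ (d : ℕ) (P : MvPolynomial (JV m r) ℂ), (d : ℝ) ≤ α * r * K + C ∧ HasWt d P ∧
          PropA (pc h) r P ∧ eval ξ P ≠ 0) := by
  obtain ⟨Θ₁, hΘ₁, h1⟩ := exists_genpos K m
  by_cases h2m : 2 ≤ m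
  · obtain ⟨Θ₂, hΘ₂, h2⟩ := hA h2m K hK
    refine ⟨Θ₁ * Θ₂, mul_ne_zero hΘ₁ hΘ₂, fun h hh => ?_⟩
    rw [map_mul] at hh
    exact ⟨h1 h (left_ne_zero_of_mul hh), fun _ ξ hξ hl hW =>
      h2 h ξ hξ (right_ne_zero_of_mul hh) hl hW⟩
  · exact ⟨Θ₁, hΘ₁, fun h hh => ⟨h1 h hh, fun h3 => absurd h3 h2m⟩⟩

end Pool.Agent.H78G
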