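import Pool.Agent.Lib.H78G.E4
import Pool.Agent.Lib.H78G.E5

set_option autoImplicit false

/-!
CHUNK F3B (M, combinatorics).  The hyperplanes in the good blocks.
-/

open MvPolynomial Real MeasureTheory

namespace Pool.Agent.H78G

/-- The index set of the hyperplanes in the blocks outside `S`. -/
abbrev GoodI {nb : ℕ} (κ : ℕ) (S : Finset (Fin nb)) : Type :=
  {p : Fin nb × Fin κ // p.1 ∉ S}

theorem F3B_ext {n nb : ℕ} (S B : Finset (Fin nb)) (hS : S.card + (n + 1) ≤ nb)
    (hB : ∀ b ∈ B, b ∉ S) (hc : B.card ≤ n + 1) :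
    ∃ e : Fin (n + 1) ↪ Fin nb, (∀ a, e a ∉ S) ∧ ∀ b ∈ B, ∃ a, e a = b := by
  classical
  have h1 : B ⊆ Sᶜ := fun b hb => Finset.mem_compl.mpr (hB b hb)
  have h2 : n + 1 ≤ (Sᶜ).card := by
    rw [Finset.card_compl, Fintype.card_fin]
    omega
  obtain ⟨B', hBB', hB'S, hcard⟩ := Finset.exists_subsuperset_card_eq h1 hc h2
  refine ⟨(B'.orderEmbOfFin hcard).toEmbedding, ?_, ?_⟩
  · intro a
    exact Finset.mem_compl.mp (hB'S (Finset.orderEmbOfFin_mem B' hcard a))
  · intro b hb
    have h3 : b ∈ Set.range (B'.orderEmbOfFin hcard) := by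
      rw [Finset.range_orderEmbOfFin]
      exact hBB' hb
    exact h3

/-- CHUNK F3B (M).  General position of all the hyperplanes outside `S`, from the general position of
the hyperplanes of all `(n + 1)`-tuples of blocks outside `S`: `m + 1 ≤ n + 1` distinct indices lie in
the blocks of some `e : Fin (n + 1) ↪ Fin nb` avoiding `S` (there are at least `n + 1` blocks outside
`S`), and are `sig`-images of distinct `p : Fin ((n + 1) * κ)`. -/
theorem genpos_good {n m nb κ k : ℕ} (hmn : m ≤ n) (idx : Fin nb × Fin κ → Fin k)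
    (S : Finset (Fin nb)) (hS : S.card + (n + 1) ≤ nb) (θ : Fin k → Fin (m + 1) → ℂ)
    (h : ∀ e : Fin (n + 1) ↪ Fin nb, (∀ a, e a ∉ S) → GenPos fun p => θ (sig idx e p)) :
    GenPos fun i : GoodI κ S => θ (idx i.1) := by
  classical
  intro f hf
  obtain ⟨e, he, he2⟩ := F3B_ext (n := n) S (Finset.univ.image fun a => (f a).1.1) hS
    (by
      intro b hb
      obtain ⟨a, -, rfl⟩ := Finset.mem_image.mp hb
      exact (f a).2)
    (by
      refine Finset.card_image_le.trans ?_
      rw [Finset.card_univ, Fintype.card_fin]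
      omega)
  have h1 : ∀ a, ∃ c, e c = (f a).1.1 := fun a =>
    he2 _ (Finset.mem_image.mpr ⟨a, Finset.mem_univ _, rfl⟩)
  choose c hc using h1
  have h2 := h e he (fun a => finProdFinEquiv (c a, (f a).1.2)) (by
    intro a a' haa
    have h3 := finProdFinEquiv.injective haa
    rw [Prod.mk.injEq] at h3
    apply hf
    apply Subtype.ext
    refine Prod.ext ?_ h3.2
    rw [← hc a, ← hc a', h3.1])
  have h3 : (Matrix.of fun a b => θ (sig idx e (finProdFinEquiv (c a, (f a).1.2))) b) =
      Matrix.of fun a b => θ (idx (f a).1) b := by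
    ext a b
    simp only [Matrix.of_apply, sig, Equiv.symm_apply_apply, hc]
  rw [h3] at h2
  exact h2

/-- The `(n + 1)`-tuples of blocks outside `S`. -/
abbrev GoodE (n : ℕ) {nb : ℕ} (S : Finset (Fin nb)) : Type :=
  {e : Fin (n + 1) ↪ Fin nb // ∀ a, e a ∉ S}

/-- The hyperplanes of a tuple of blocks outside `S`. -/
def sigG {n nb κ : ℕ} (S : Finset (Fin nb)) (e : GoodE n S) (p : Fin ((n + 1) * κ)) :
    GoodI κ S :=
  ⟨(e.1 (finProdFinEquiv.symm p).1, (finProdFinEquiv.symm p).2), e.2 _⟩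

/-- CHUNK F3B (M).  Any two good hyperplanes lie in a common tuple (`n ≥ 1`). -/
theorem cover_good {n nb κ : ℕ} (hn : 1 ≤ n) (S : Finset (Fin nb))
    (hS : S.card + (n + 1) ≤ nb) (i i' : GoodI κ S) :
    ∃ e : GoodE n S, (∃ p, sigG S e p = i) ∧ ∃ p, sigG S e p = i' := by
  classical
  obtain ⟨e, he, he2⟩ := F3B_ext (n := n) S {i.1.1, i'.1.1} hS
    (by
      intro b hb
      rw [Finset.mem_insert, Finset.mem_singleton] at hb
      rcases hb with rfl | rfl
      · exact i.2
      · exact i'.2)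
    (Finset.card_le_two.trans (by omega))
  have key : ∀ j : GoodI κ S, (∃ a, e a = j.1.1) → ∃ p, sigG S (⟨e, he⟩ : GoodE n S) p = j := by
    rintro j ⟨a, ha⟩
    refine ⟨finProdFinEquiv (a, j.1.2), ?_⟩
    apply Subtype.ext
    simp only [sigG, Equiv.symm_apply_apply]
    rw [ha]
  exact ⟨⟨e, he⟩, key i (he2 _ (Finset.mem_insert_self _ _)),
    key i' (he2 _ (Finset.mem_insert_of_mem (Finset.mem_singleton_self _)))⟩

/-- CHUNK F3B (S). -/
theorem card_goodI {nb κ : ℕ} (S : Finset (Fin nb)) :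
    Fintype.card (GoodI κ S) = (nb - S.card) * κ := by
  classical
  rw [Fintype.card_subtype]
  have h1 : (Finset.univ.filter fun p : Fin nb × Fin κ => p.1 ∉ S) = Sᶜ ×ˢ Finset.univ := by
    ext p
    simp
  rw [h1, Finset.card_product, Finset.card_compl, Fintype.card_fin, Finset.card_univ,
    Fintype.card_fin]

/-- CHUNK F3B (S). -/
theorem card_goodE {n nb : ℕ} (S : Finset (Fin nb)) :
    Fintype.card (GoodE n S) ≤ nb ^ (n + 1) := by
  classical
  have h1 : Function.Injective fun e : GoodE n S => (e.1 : Fin (n + 1) → Fin nb) := by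
    intro e e' h
    exact Subtype.ext (DFunLike.coe_injective h)
  have h2 := Fintype.card_le_of_injective _ h1
  simpa using h2

end Pool.Agent.H78G
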