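import Pool.Agent.Lib.H78G.D7B
import Pool.Agent.Lib.H78G.F1B
import Pool.Agent.Lib.H78G.F2
import Pool.Agent.Lib.H78G.F3B
import Pool.Agent.Lib.H78G.F4A

set_option autoImplicit false

/-!
CHUNK F4B (M/L).  One curve and the good blocks.
-/

open MvPolynomial Real MeasureTheory Pool.Agent.H67T

namespace Pool.Agent.H78G

open Pool.Agent.H89T

theorem F4B_perm_zero {m : ℕ} (b : Fin (m + 1)) : perm (0 : Fin (m + 1)) b = b := by
  refine Fin.cases ?_ (fun i => ?_) b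
  · rfl
  · simp [perm]

theorem F4B_sum_perm {m : ℕ} (c : Fin (m + 1)) (f : Fin (m + 1) → ℂ) :
    f (perm c 0) + ∑ b : Fin m, f (perm c b.succ) = ∑ b, f b := by
  rw [Fin.sum_univ_succAbove f c]
  simp [perm]

theorem F4B_norm {n m : ℕ} (Lam : Matrix (Fin n) (Fin m) ℂ) :
    ∃ A : ℝ, 0 < A ∧ ∀ v : Fin m → ℂ, ‖Lam.mulVec v‖ ≤ A * ‖v‖ := by
  refine ⟨1 + ∑ l, ∑ b, ‖Lam l b‖, by positivity, fun v => ?_⟩
  rw [pi_norm_le_iff_of_nonneg (by positivity)]
  intro l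
  calc ‖Lam.mulVec v l‖ = ‖∑ b, Lam l b * v b‖ := rfl
    _ ≤ ∑ b, ‖Lam l b * v b‖ := norm_sum_le _ _
    _ ≤ ∑ b, ‖Lam l b‖ * ‖v‖ := by
        refine Finset.sum_le_sum fun b _ => ?_
        rw [norm_mul]
        exact mul_le_mul_of_nonneg_left (norm_le_pi_norm v b) (norm_nonneg _)
    _ = (∑ b, ‖Lam l b‖) * ‖v‖ := by rw [Finset.sum_mul]
    _ ≤ (1 + ∑ l, ∑ b, ‖Lam l b‖) * ‖v‖ := by
        refine mul_le_mul_of_nonneg_right ?_ (norm_nonneg _)
        have h : ∑ b, ‖Lam l b‖ ≤ ∑ l, ∑ b, ‖Lam l b‖ :=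
          Finset.single_le_sum (f := fun l => ∑ b, ‖Lam l b‖)
            (fun _ _ => Finset.sum_nonneg fun _ _ => norm_nonneg _) (Finset.mem_univ l)
        linarith

/-- CHUNK F4B (M).  One curve and good blocks.  `w = Lb y` on the span; `S` the set of bad blocks.

Proof.  Let `θ j = fun b => ∑ l, η j l * Lam l b`, so `lin (θ j) (w z) = lin (η j) (y z)`
(`lin_restrict`, `Lam (w z) = y z`).  `D : CurveG m (GoodI κ S)` with `D.y = w`,
`D.θ i = θ (idx i.1)`: `gen` from `genpos_good` (the hypothesis `hgood` contains `GenPos` for the chart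
`c = 0`, `perm 0 = id`), `card` from `card_goodI`, `S.card + (n + 1) ≤ nb`, `n + 1 ≤ κ`.
`hW`: at `z₀` all coordinates are `1` and `Wr ≠ 0`: `Wd_ne_zero_of_Wr`.  Apply `curve_smt` with
`σ = sigG S` (`cover_good`); `hP`: for `e`, `c` apply `hgood` to the jet `ξ = jetf r (ch c w) z₀`:
`ξ (b, 0) = 1`, `linA (...) 1 = lin (θ _) (w z₀) = lin (η _) (y z₀) ≠ 0` (`h₀`), and replace `d` by the
common bound `d₀ = ⌊α r K + C⌋₊` (`HasWt` is monotone).  The numerical inequality is `hnum`; `absorb`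
with `a = r q - B`, `b = (1 - ε) k r` gives the claim for `w` and the good hyperplanes (divide by
`r`); `N1_mono` (the good hyperplanes are among the `k` ones, `idx` injective) and
`chi_le_of_norm_le` (`‖y‖ ≤ A ‖w‖`) give it for `y`. -/
theorem one_curve {n m k nb κ r C : ℕ} (hn : 1 ≤ n) (hm : 1 ≤ m) (hmn : m ≤ n) (hr : m ≤ r)
    {ε α : ℝ} (hε : 0 < ε) (hε1 : ε ≤ 1) (hα : 0 < α)
    {y : ℂ → Fin (n + 1) → ℂ} (hy : IsHol y) (η : Fin k → Fin (n + 1) → ℂ)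
    (idx : Fin nb × Fin κ → Fin k) (hidx : Function.Injective idx)
    {Lam : Matrix (Fin (n + 1)) (Fin (m + 1)) ℂ} {Lb : Matrix (Fin (m + 1)) (Fin (n + 1)) ℂ}
    {z₀ : ℂ} (hLb : Lb * Lam = 1) (hspan : ∀ z, Lam.mulVec (Lb.mulVec (y z)) = y z)
    (hw : IsHol fun z => Lb.mulVec (y z)) (h1 : ∀ j, Lb.mulVec (y z₀) j = 1)
    (hWr : Wr (fun z => Lb.mulVec (y z)) z₀ ≠ 0) (h₀ : ∀ i, lin (η i) (y z₀) ≠ 0)
    (S : Finset (Fin nb)) (hS : S.card ≤ badN n) (hnb : badN n + (n + 1) ≤ nb) (hκ : n + 1 ≤ κ)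
    (hgood : ∀ e : Fin (n + 1) ↪ Fin nb, (∀ a, e a ∉ S) → ∀ c : Fin (m + 1),
      GenPos (fun (p : Fin ((n + 1) * κ)) (b : Fin (m + 1)) =>
        ∑ l, η (sig idx e p) l * Lam l (perm c b)) ∧
      (2 ≤ m → ∀ ξ : JV m r → ℂ, (∀ b, ξ (b, 0) = 1) →
        (∀ p : Fin ((n + 1) * κ), linA (fun b : Fin (m + 1) =>
          ∑ l, η (sig idx e p) l * Lam l (perm c b)) (fun _ => 1) ≠ 0) → Wd hr ξ ≠ 0 →
        ∃ (d : ℕ) (P : MvPolynomial (JV m r) ℂ),
          (d : ℝ) ≤ α * r * ((n + 1) * κ : ℕ) + C ∧ HasWt d P ∧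
          PropA (pc fun s : HV m ((n + 1) * κ) =>
            ∑ l, η (sig idx e s.1) l * Lam l (perm c s.2)) r P ∧ eval ξ P ≠ 0))
    (hnum : ∀ d q E : ℕ, E ≤ nb ^ (n + 1) → (d : ℝ) ≤ α * r * ((n + 1) * κ : ℕ) + C →
      (nb - badN n) * κ ≤ q →
      ((r * ((m + 1) * ((m + 1) * m)) + m ^ 2 * (E * ((m + 1) * d)) : ℕ) : ℝ) <
        r * q - (1 - ε) * k * r) :
    ∃ (C' : ℝ) (E : Set ℝ), volume E < ⊤ ∧ ∀ ρ : ℝ, 2 ≤ ρ → ρ ∉ E →
      (1 - ε) * k * chi y ρ ≤ N1 (fun z => ∏ i, lin (η i) (y z)) ρ + C' * log ρ := by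
  classical
  obtain ⟨θ, hθ⟩ : ∃ θ : Fin k → Fin (m + 1) → ℂ, θ = fun j b => ∑ l, η j l * Lam l b := ⟨_, rfl⟩
  have hlin : ∀ j z, lin (θ j) (Lb.mulVec (y z)) = lin (η j) (y z) := by
    intro j z
    rw [hθ]
    have := lin_restrict (η j) Lam (Lb.mulVec (y z))
    rwa [hspan] at this
  have hSn : S.card + (n + 1) ≤ nb := by omega
  have hcard := card_goodI (κ := κ) S
  let D : CurveG m (GoodI κ S) :=
    { y := fun z => Lb.mulVec (y z)
      θ := fun i => θ (idx i.1)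
      hy := hw
      hy0 := fun c => ⟨z₀, by rw [h1 c]; exact one_ne_zero⟩
      hθ0 := fun i => ⟨z₀, by rw [hlin]; exact h₀ _⟩
      gen := by
        refine genpos_good hmn idx S hSn θ fun e he => ?_
        have h2 := (hgood e he 0).1
        simp only [F4B_perm_zero] at h2
        rw [hθ]
        exact h2
      card := by
        rw [hcard]
        calc m + 1 = 1 * (m + 1) := by rw [one_mul]
          _ ≤ (nb - S.card) * κ := Nat.mul_le_mul (by omega) (by omega) }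
  have hWd : ∀ c, Wd hr (jetf r (ch c fun z => Lb.mulVec (y z)) z₀) ≠ 0 := fun c =>
    Wd_ne_zero_of_Wr hr hw.diff c (by rw [h1 c]; exact one_ne_zero) hWr
  obtain ⟨X₀, hX₀⟩ : ∃ X₀ : ℝ, X₀ = α * r * ((n + 1) * κ : ℕ) + C := ⟨_, rfl⟩
  have hX₀0 : 0 ≤ X₀ := by rw [hX₀]; positivity
  have hP : 2 ≤ m → ∀ e : GoodE n S, ∀ c : Fin (m + 1), ∃ P : MvPolynomial (JV m r) ℂ,
      HasWt ⌊X₀⌋₊ P ∧ PropA (pc (chartH (fun i => D.θ (sigG S e i)) c)) r P ∧
      ∃ z, D.y z c ≠ 0 ∧ eval (jetf r (ch c D.y) z) P ≠ 0 := by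
    intro h2 e c
    obtain ⟨d, P, hd, hPw, hPA, hP0⟩ := (hgood e.1 e.2 c).2 h2
      (jetf r (ch c fun z => Lb.mulVec (y z)) z₀)
      (fun b => by simp [jetf, ch, h1])
      (fun p => by
        have h3 := F4B_sum_perm c (θ (sig idx e.1 p))
        have h4 : lin (θ (sig idx e.1 p)) (Lb.mulVec (y z₀)) = ∑ b, θ (sig idx e.1 p) b := by
          simp [lin, h1]
        rw [hlin] at h4
        have h5 : linA (fun b : Fin (m + 1) =>
            ∑ l, η (sig idx e.1 p) l * Lam l (perm c b)) (fun _ => 1) =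
            lin (η (sig idx e.1 p)) (y z₀) := by
          rw [h4, ← h3, hθ]
          simp [linA]
        rw [h5]
        exact h₀ _)
      (hWd c)
    refine ⟨P, HasWt.mono hPw (Nat.le_floor (by rw [hX₀]; exact hd)), ?_, z₀, ?_, hP0⟩
    · have h6 : chartH (fun i => D.θ (sigG S e i)) c = fun s : HV m ((n + 1) * κ) =>
          ∑ l, η (sig idx e.1 s.1) l * Lam l (perm c s.2) := by
        ext s
        simp only [chartH, D, hθ]
        rfl
      rw [h6]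
      exact hPA
    · change Lb.mulVec (y z₀) c ≠ 0
      rw [h1 c]
      exact one_ne_zero
  obtain ⟨C₁, hC₁, hsmt⟩ := curve_smt hm hr D
    (fun c => ⟨z₀, by
      change Lb.mulVec (y z₀) c ≠ 0
      rw [h1 c]
      exact one_ne_zero, hWd c⟩) (sigG S) (fun _ => cover_good hn S hSn) hP
  obtain ⟨B, hB⟩ : ∃ B : ℝ, B = ((r * ((m + 1) * ((m + 1) * m)) +
      m ^ 2 * (Fintype.card (GoodE n S) * ((m + 1) * ⌊X₀⌋₊)) : ℕ) : ℝ) := ⟨_, rfl⟩
  have hnum' := hnum ⌊X₀⌋₊ (Fintype.card (GoodI κ S)) (Fintype.card (GoodE n S)) (card_goodE S)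
    (by rw [← hX₀]; exact Nat.floor_le hX₀0)
    (by rw [hcard]; exact Nat.mul_le_mul_right _ (by omega))
  rw [← hB] at hnum' hsmt
  have hrpos : (0 : ℝ) < r := by
    have : 0 < r := by omega
    exact_mod_cast this
  obtain ⟨C₂, E, hE, hCE⟩ := absorb hw (a := r * Fintype.card (GoodI κ S) - B)
    (b := (1 - ε) * k * r) (C := C₁) (by linarith) hC₁
    (N := fun ρ => r * N1 (fun w => ∏ i, lin (D.θ i) (D.y w)) ρ) (fun ρ R h2 h3 => by
      have h4 := hsmt ρ R h2 h3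
      push_cast at h4
      have h5 : chi D.y ρ = chi (fun z => Lb.mulVec (y z)) ρ := rfl
      have h6 : err D.y ρ R = err (fun z => Lb.mulVec (y z)) ρ R := rfl
      rw [h5, h6] at h4
      linarith)
  obtain ⟨A, hA, hnorm⟩ := F4B_norm Lam
  have hlog2 : 0 < log 2 := log_pos (by norm_num)
  refine ⟨C₂ / r + (1 - ε) * k * |log A| / log 2, E, hE, fun ρ hρ hρE => ?_⟩
  have h2 := hCE ρ hρ hρE
  have hρ1 : (1 : ℝ) ≤ ρ := by linarith
  have hF : Differentiable ℂ (fun w => ∏ i, lin (D.θ i) (D.y w)) := by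
    refine Differentiable.fun_finsetProd fun i _ => ?_
    change Differentiable ℂ fun w => ∑ j, D.θ i j * D.y w j
    exact Differentiable.fun_sum fun j _ => (hw.diff j).const_mul _
  have hG : Differentiable ℂ (fun z => ∏ i, lin (η i) (y z)) := by
    refine Differentiable.fun_finsetProd fun i _ => ?_
    change Differentiable ℂ fun w => ∑ j, η i j * y w j
    exact Differentiable.fun_sum fun j _ => (hy.diff j).const_mul _
  have h3 : N1 (fun w => ∏ i, lin (D.θ i) (D.y w)) ρ ≤ N1 (fun z => ∏ i, lin (η i) (y z)) ρ := by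
    refine N1_mono hF ⟨z₀, ?_⟩ hG ⟨z₀, Finset.prod_ne_zero_iff.2 fun i _ => h₀ i⟩ ?_ hρ1
    · refine Finset.prod_ne_zero_iff.2 fun i _ => ?_
      change lin (θ (idx i.1)) (Lb.mulVec (y z₀)) ≠ 0
      rw [hlin]
      exact h₀ _
    · intro z hz
      rw [Finset.prod_eq_zero_iff] at hz ⊢
      obtain ⟨i, -, hi⟩ := hz
      refine ⟨idx i.1, Finset.mem_univ _, ?_⟩
      rw [← hlin]
      exact hi
  have h4 := chi_le_of_norm_le hy hw hA (fun z => by
    have := hnorm (Lb.mulVec (y z))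
    rwa [hspan] at this) ρ
  have hk : 0 ≤ (1 - ε) * k := mul_nonneg (by linarith) (Nat.cast_nonneg _)
  have h5 : (1 - ε) * k * chi (fun z => Lb.mulVec (y z)) ρ ≤
      N1 (fun w => ∏ i, lin (D.θ i) (D.y w)) ρ + C₂ / r * log ρ := by
    have h6 : r * ((1 - ε) * k * chi (fun z => Lb.mulVec (y z)) ρ) ≤
        r * (N1 (fun w => ∏ i, lin (D.θ i) (D.y w)) ρ + C₂ / r * log ρ) := by
      have h7 : r * (N1 (fun w => ∏ i, lin (D.θ i) (D.y w)) ρ + C₂ / r * log ρ) =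
          r * N1 (fun w => ∏ i, lin (D.θ i) (D.y w)) ρ + C₂ * log ρ := by
        field_simp
      rw [h7]
      linarith
    exact le_of_mul_le_mul_left h6 hrpos
  have h8 : (1 - ε) * k * log A ≤ (1 - ε) * k * |log A| / log 2 * log ρ := by
    have h9 : log 2 ≤ log ρ := log_le_log (by norm_num) hρ
    calc (1 - ε) * k * log A ≤ (1 - ε) * k * |log A| :=
          mul_le_mul_of_nonneg_left (le_abs_self _) hk
      _ = (1 - ε) * k * |log A| / log 2 * log 2 := by field_simp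
      _ ≤ (1 - ε) * k * |log A| / log 2 * log ρ := by
          refine mul_le_mul_of_nonneg_left h9 ?_
          exact div_nonneg (mul_nonneg hk (abs_nonneg _)) hlog2.le
  have h10 : (1 - ε) * k * chi y ρ ≤ (1 - ε) * k * (chi (fun z => Lb.mulVec (y z)) ρ + log A) :=
    mul_le_mul_of_nonneg_left h4 hk
  calc (1 - ε) * k * chi y ρ ≤ _ := h10
    _ = (1 - ε) * k * chi (fun z => Lb.mulVec (y z)) ρ + (1 - ε) * k * log A := by ring
    _ ≤ N1 (fun z => ∏ i, lin (η i) (y z)) ρ + C₂ / r * log ρ +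
        (1 - ε) * k * |log A| / log 2 * log ρ := by linarith
    _ = _ := by ring

end Pool.Agent.H78G
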