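import Pool.Agent.Lib.H78G.F4B
import Pool.Agent.Lib.H78G.F3A
import Pool.Agent.Lib.H78G.AH

set_option autoImplicit false

/-!
CHUNK F4C (M).  The second main theorem for the generic arrangement: assembly.
-/

open MvPolynomial Real MeasureTheory Pool.Agent.H67T

namespace Pool.Agent.H78G

open Pool.Agent.H89T

/-- CHUNK F4C (M).  The theorem.  Proof.  `nb`, `α` from `constants`; for every `m ∈ {1, ..., n}` let
`r_m`, `C_m` be given by `algH m _ α` if `m ≥ 2` and `r_1 = 1`, `C_1 = 0`; `C = max C_m` (the statement of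
`AlgH` with `C_m` implies the one with `C`), `k₀` from `constants`.  For `k ≥ k₀` let `κ = k / nb`,
`idx (j, i) = j κ + i` (`finProdFinEquiv` and `nb κ ≤ k`), and `Ξ` = the product over `m` of the polynomials
given by `exists_blocks_charts` (`t = n + 1`) for the `Θ` of `exists_theta_m` with `K = (n + 1) κ ≥ C`.
For a curve `y` take `m`, `Lam`, `Lb`, `z₀` of `exists_coords`, then `S`, and apply `one_curve`
(`(m + 1) * ((n + 1) * (2 * ((m + 1) * (n + 1)))) ≤ badN n`). -/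
theorem smt_generic (n : ℕ) (hn : 1 ≤ n) {ε : ℝ} (hε : 0 < ε) (hε1 : ε ≤ 1) :
    ∃ k₀ : ℕ, ∀ k : ℕ, k₀ ≤ k → 1 ≤ k ∧
      ∃ Ξ : MvPolynomial (Fin k × Fin (n + 1)) ℂ, Ξ ≠ 0 ∧ ∀ η : Fin k → Fin (n + 1) → ℂ,
        eval (fun p => η p.1 p.2) Ξ ≠ 0 → ∀ y : ℂ → Fin (n + 1) → ℂ, IsHol y →
          (∃ z w, ∀ c : ℂ, y w ≠ c • y z) → (∀ i, ∃ z, lin (η i) (y z) ≠ 0) →
          ∃ (C : ℝ) (E : Set ℝ), volume E < ⊤ ∧ ∀ r : ℝ, 2 ≤ r → r ∉ E →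
            (1 - ε) * k * chi y r ≤ N1 (fun z => ∏ i, lin (η i) (y z)) r + C * log r := by
  obtain ⟨nb, hnb, α, hα, hconst⟩ := constants n hn ε hε hε1
  -- the algebraic theorem for every dimension
  have key : ∀ m : ℕ, ∃ (r C : ℕ) (hr : m ≤ r), (2 ≤ m → ∀ K : ℕ, C ≤ K →
      ∃ Θ : MvPolynomial (HV m K) ℂ, Θ ≠ 0 ∧
      ∀ (h : HV m K → ℂ) (ξ : JV m r → ℂ), (∀ b, ξ (b, 0) = 1) → eval h Θ ≠ 0 →
        (∀ i, linA (fun j => h (i, j)) (fun _ => 1) ≠ 0) → Wd hr ξ ≠ 0 →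
        ∃ (d : ℕ) (P : MvPolynomial (JV m r) ℂ), (d : ℝ) ≤ α * r * K + C ∧ HasWt d P ∧
          PropA (pc h) r P ∧ eval ξ P ≠ 0) := by
    intro m
    by_cases h2 : 2 ≤ m
    · obtain ⟨r, C, hr, -, h⟩ := algH m h2 α hα
      exact ⟨r, C, hr, fun _ => h⟩
    · exact ⟨m, 0, le_rfl, fun h => absurd h h2⟩
  choose r C hr hA using key
  obtain ⟨C₁, hC₁⟩ : ∃ C₁ : ℕ, ∀ m ≤ n, C m ≤ C₁ :=
    ⟨∑ m ∈ Finset.range (n + 1), C m, fun m hm =>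
      Finset.single_le_sum (f := C) (fun _ _ => Nat.zero_le _) (Finset.mem_range.2 (by omega))⟩
  obtain ⟨k₀, hk₀⟩ := hconst C₁
  refine ⟨max k₀ 1, fun k hk => ⟨le_trans (le_max_right _ _) hk, ?_⟩⟩
  obtain ⟨hκ1, hκ2, hnum⟩ := hk₀ k (le_trans (le_max_left _ _) hk)
  obtain ⟨κ, hκ⟩ : ∃ κ, κ = k / nb := ⟨_, rfl⟩
  rw [← hκ] at hκ1 hκ2 hnum
  have hle : nb * κ ≤ k := by rw [hκ]; exact Nat.mul_div_le k nb
  let idx : Fin nb × Fin κ → Fin k := fun p => Fin.castLE hle (finProdFinEquiv p)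
  have hidx : Function.Injective idx :=
    (Fin.castLE_injective hle).comp finProdFinEquiv.injective
  have hC₂ : C₁ ≤ (n + 1) * κ := by nlinarith
  have hΞ : ∀ m : ℕ, ∃ Ξ : MvPolynomial (Fin k × Fin (n + 1)) ℂ, Ξ ≠ 0 ∧ (1 ≤ m → m ≤ n →
      ∀ η : Fin k × Fin (n + 1) → ℂ,
      eval η Ξ ≠ 0 → ∀ (Lam : Matrix (Fin (n + 1)) (Fin (m + 1)) ℂ)
        (Lb : Matrix (Fin (m + 1)) (Fin (n + 1)) ℂ), Lb * Lam = 1 →
        ∃ S : Finset (Fin nb), S.card ≤ badN n ∧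
          ∀ e : Fin (n + 1) ↪ Fin nb, (∀ a, e a ∉ S) → ∀ c : Fin (m + 1),
            GenPos (fun (p : Fin ((n + 1) * κ)) (b : Fin (m + 1)) =>
              ∑ l, η (sig idx e p, l) * Lam l (perm c b)) ∧
            (2 ≤ m → ∀ ξ : JV m (r m) → ℂ, (∀ b, ξ (b, 0) = 1) →
              (∀ p : Fin ((n + 1) * κ), linA (fun b : Fin (m + 1) =>
                ∑ l, η (sig idx e p, l) * Lam l (perm c b)) (fun _ => 1) ≠ 0) →
              Wd (hr m) ξ ≠ 0 →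
              ∃ (d : ℕ) (P : MvPolynomial (JV m (r m)) ℂ),
                (d : ℝ) ≤ α * r m * ((n + 1) * κ : ℕ) + C₁ ∧ HasWt d P ∧
                PropA (pc fun s : HV m ((n + 1) * κ) =>
                  ∑ l, η (sig idx e s.1, l) * Lam l (perm c s.2)) (r m) P ∧ eval ξ P ≠ 0)) := by
    intro m
    by_cases hm : 1 ≤ m ∧ m ≤ n
    · obtain ⟨hm1, hmn⟩ := hm
      obtain ⟨Θ, hΘ0, hΘ⟩ := exists_theta_m m ((n + 1) * κ) hm1 (α := α) (C := C₁) (hr m)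
        (fun h2 K hK => by
          obtain ⟨Θ, hΘ0, hΘ⟩ := hA m h2 K ((hC₁ m hmn).trans hK)
          refine ⟨Θ, hΘ0, fun h ξ h1 h2 h3 h4 => ?_⟩
          obtain ⟨d, P, hd, hP⟩ := hΘ h ξ h1 h2 h3 h4
          refine ⟨d, P, hd.trans ?_, hP⟩
          have : (C m : ℝ) ≤ C₁ := by exact_mod_cast hC₁ m hmn
          linarith) hC₂
      obtain ⟨Ξ, hΞ0, hΞ⟩ := exists_blocks_charts (n := n) (m := m) (t := n + 1) (by omega) idx
        hidx Θ hΘ0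
      refine ⟨Ξ, hΞ0, fun _ _ η hη Lam Lb hLb => ?_⟩
      obtain ⟨S, hS, hS'⟩ := hΞ η hη Lam Lb hLb
      refine ⟨S, hS.trans ?_, fun e he c => ?_⟩
      · unfold badN
        have h1 : m + 1 ≤ n + 1 := by omega
        gcongr
      · exact hΘ _ (hS' e he c)
    · exact ⟨1, one_ne_zero, fun h1 h2 => absurd ⟨h1, h2⟩ hm⟩
  choose Ξ hΞ0 hΞ using hΞ
  refine ⟨∏ m ∈ Finset.range (n + 1), Ξ m, Finset.prod_ne_zero_iff.2 fun m _ => hΞ0 m,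
    fun η hη y hy hnc hlin => ?_⟩
  rw [map_prod, Finset.prod_ne_zero_iff] at hη
  obtain ⟨m, Lam, Lb, z₀, hm1, hmn, hLb, hspan, hw, h1, hWr, h₀⟩ := exists_coords hy hnc η hlin
  obtain ⟨S, hS, hgood⟩ := hΞ m hm1 hmn (fun p => η p.1 p.2)
    (hη m (Finset.mem_range.2 (by omega))) Lam Lb hLb
  exact one_curve hn hm1 hmn (hr m) hε hε1 hα hy η idx hidx hLb hspan hw h1 hWr h₀ S hS hnb hκ1
    hgood fun d q E hE hd hq => hnum m (r m) d q E hm1 hmn (hm1.trans (hr m)) hE hd hq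

end Pool.Agent.H78G
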