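import Pool.Agent.Lib.H78G.F4C

set_option autoImplicit false

/-!
CHUNK F5 (M, adapt `H89T/T3.lean`).  Covers which are weakly ramified over a generic arrangement.
-/

open MvPolynomial

namespace Pool.Agent.H78G

open Pool.Agent.H89T

/-- The product of the `k` linear forms. -/
noncomputable def prodForm {n k : ℕ} (η : Fin k → Fin (n + 1) → ℂ) :
    MvPolynomial (Fin (n + 1)) ℂ :=
  ∏ i, ∑ j, C (η i j) * X j

/-- CHUNK F5 (S). -/
theorem eval_prodForm {n k : ℕ} (η : Fin k → Fin (n + 1) → ℂ) (v : Fin (n + 1) → ℂ) :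
    eval v (prodForm η) = ∏ i, Pool.Agent.H67T.lin (η i) v := by
  unfold prodForm
  rw [map_prod]
  refine Finset.prod_congr rfl fun i _ => ?_
  rw [map_sum]
  refine Finset.sum_congr rfl fun j _ => ?_
  rw [map_mul, eval_C, eval_X]

/-- CHUNK F5 (S). -/
theorem prodForm_homogeneous {n k : ℕ} (η : Fin k → Fin (n + 1) → ℂ) :
    (prodForm η).IsHomogeneous k := by
  unfold prodForm
  have h := IsHomogeneous.prod (Finset.univ : Finset (Fin k))
    (fun i => ∑ j, C (η i j) * X j) (fun _ => 1) (fun i _ => by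
      refine IsHomogeneous.sum _ _ _ fun j _ => ?_
      have h1 := (isHomogeneous_C (Fin (n + 1)) (η i j)).mul (isHomogeneous_X ℂ j)
      rwa [zero_add] at h1)
  simpa using h

/-- CHUNK F5 (M).  Copy the proof of `H89T.t3` (file `H89T/T3.lean`) with `smt_generic` instead of
`t2` and `F = prodForm η` (`Smt (ε / 2) k F y` for all `y` not contained in `F = 0`; if `eval (y z) F ≠ 0`
for some `z` then all `lin (η i) (y z) ≠ 0`). -/
theorem covers (n : ℕ) (hn : 1 ≤ n) {ε : ℝ} (hε : 0 < ε) (hε1 : ε ≤ 1) :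
    ∃ k₀ : ℕ, ∀ k : ℕ, k₀ ≤ k →
      ∃ Ξ : MvPolynomial (Fin k × Fin (n + 1)) ℂ, Ξ ≠ 0 ∧ ∀ η : Fin k → Fin (n + 1) → ℂ,
        eval (fun p => η p.1 p.2) Ξ ≠ 0 →
            ∀ (m : ℕ) (w : Fin m → ℕ) (J : Ideal (MvPolynomial (Fin m) ℂ)) (D : ℕ)
              (f : Fin (n + 1) → MvPolynomial (Fin m) ℂ), (∀ i, 1 ≤ w i) → J.IsPrime →
              (∀ F ∈ J, ∀ d, weightedHomogeneousComponent w d F ∈ J) →
              (∃ x : Fin m → ℂ, x ≠ 0 ∧ ∀ F ∈ J, eval x F = 0) → 1 ≤ D →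
              (∀ j, (f j).IsWeightedHomogeneous w D) →
              (∀ x : Fin m → ℂ, x ≠ 0 → (∀ F ∈ J, eval x F = 0) → ∃ j, eval x (f j) ≠ 0) →
              ∀ (e d : ℕ) (R : MvPolynomial (Fin m) ℂ), 1 ≤ e → R.IsWeightedHomogeneous w d →
                R ∉ J →
                (∀ x : Fin m → ℂ, x ≠ 0 → (∀ F ∈ J, eval x F = 0) →
                  (∃ i, ∑ j, η i j * eval x (f j) = 0) →
                  ∃ S : MvPolynomial (Fin m) ℂ, eval x S ≠ 0 ∧
                    S * R ∈ J ⊔ RingHom.ker (eval x) ^ e) →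
                (d : ℝ) ≤ e * ((1 - ε) * k * D) →
                (∃ x : Fin m → ℂ, x ≠ 0 ∧ (∀ F ∈ J, eval x F = 0) ∧ eval x R ≠ 0) ∧
                ∀ u : ℂ → Fin m → ℂ, Pool.Agent.H67T.IsHol u →
                  (∀ z, ∀ F ∈ J, eval (u z) F = 0) → (∃ z z', ∀ t : ℂ, u z' ≠ act w t (u z)) →
                  ∀ z, eval (u z) R = 0 := by
  obtain ⟨k₀, hk₀⟩ := smt_generic n hn (show 0 < ε / 2 by positivity) (by linarith)
  refine ⟨k₀, fun k hk => ?_⟩
  obtain ⟨hk1, Ξ, hΞ, hΞ'⟩ := hk₀ k hk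
  refine ⟨Ξ, hΞ, fun η hη => ?_⟩
  intro m w J D f hw hJp hJh hJne hD hf hf0 e d R he hR hRJ hmult hd
  refine ⟨?_, fun u hu huJ hnc z => ?_⟩
  · obtain ⟨x₀, hx₀, hx₀J⟩ := hJne
    obtain ⟨j, hj⟩ := hf0 x₀ hx₀ hx₀J
    have hfJ : f j ∉ J := fun h => hj (hx₀J _ h)
    have hRf : R * f j ∉ J := fun h => (hJp.mem_or_mem h).elim hRJ hfJ
    obtain ⟨x, hxJ, hx⟩ := t3_null J hJp _ hRf
    rw [map_mul] at hx
    refine ⟨x, fun h0 => right_ne_zero_of_mul hx ?_, hxJ, left_ne_zero_of_mul hx⟩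
    have h1 := eval_act (hf j) 0 x
    rw [zero_pow (by omega), zero_mul] at h1
    rw [h0]
    have h2 : act w 0 x = 0 := by
      funext i
      have := hw i
      simp [act, zero_pow (show w i ≠ 0 by omega)]
    rwa [h2] at h1
  · refine eval_R_eq_zero (F := prodForm η) hk1 hD he hε ?_ hw
      (fun x hx t => eval_act_mem hJh hx t) hf hf0 hR hd ?_ hu huJ hnc z
    · intro y hy hyn hyF
      obtain ⟨z₀, hz₀⟩ := hyF
      rw [eval_prodForm, Finset.prod_ne_zero_iff] at hz₀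
      obtain ⟨C, E, hE, h⟩ := hΞ' η hη y hy hyn fun i => ⟨z₀, hz₀ i (Finset.mem_univ i)⟩
      refine ⟨C, E, hE, fun r h2 hr => ?_⟩
      have h1 := h r h2 hr
      simp only [eval_prodForm]
      exact h1
    · intro u hu huJ z hz
      rw [eval_prodForm, Finset.prod_eq_zero_iff] at hz
      obtain ⟨i, -, hi⟩ := hz
      obtain ⟨S, hS, hSR⟩ := hmult (u z) (hu.ne_zero z) (huJ z) ⟨i, hi⟩
      exact t3_order hu huJ hS hSR

end Pool.Agent.H78G
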