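import Pool.Agent.Lib.H78G.PC

set_option autoImplicit false

/-!
CHUNK HZ1 (M, linear algebra).  Interpolation at a nondegenerate jet.
-/

open MvPolynomial

namespace Pool.Agent.H78G

open Pool.Agent.H89T

variable {n r : ℕ}

/-- Coefficients of `g (x (t))` for one linear polynomial `g`. -/
theorem hz1_coeff (g : Fin (n + 1) → ℂ) (ξ : JV n r → ℂ) (l : Fin (r + 1)) :
    (linA (fun c => Polynomial.C (g c)) (arc ξ)).coeff (l : ℕ) =
      (if l = 0 then g 0 else 0) + ∑ b : Fin n, g b.succ * ξ (b, l) :=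
  coeff_vv (K := 1) (fun s => g s.2) ξ 0 l

/-- The coefficients of order `1, ..., n`. -/
theorem hz1_coeff_succ (hr : n ≤ r) (g : Fin (n + 1) → ℂ) (ξ : JV n r → ℂ) (l : Fin n) :
    (linA (fun c => Polynomial.C (g c)) (arc ξ)).coeff ((l : ℕ) + 1) =
      Matrix.vecMul (fun b : Fin n => g b.succ)
        (Matrix.of fun b l : Fin n => ξ (b, ⟨(l : ℕ) + 1, by omega⟩)) l := by
  have h := hz1_coeff g ξ ⟨(l : ℕ) + 1, by omega⟩
  have h0 : ¬ ((⟨(l : ℕ) + 1, by omega⟩ : Fin (r + 1)) = 0) := by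
    intro h1
    have := congrArg Fin.val h1
    simp at this
  rw [if_neg h0, zero_add] at h
  rw [h]
  rfl

theorem hz1_coeff_zero (g : Fin (n + 1) → ℂ) (ξ : JV n r → ℂ) :
    (linA (fun c => Polynomial.C (g c)) (arc ξ)).coeff 0 =
      g 0 + ∑ b : Fin n, g b.succ * ξ (b, 0) := by
  have h := hz1_coeff g ξ 0
  rw [if_pos rfl] at h
  exact h

/-- A polynomial with nonzero constant coefficient is coprime to the powers of `X`. -/
theorem hz1_coprime (v : Polynomial ℂ) (hv : v.coeff 0 ≠ 0) (N : ℕ) :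
    IsCoprime v (Polynomial.X ^ N) := by
  refine IsCoprime.pow_right ?_
  refine ⟨Polynomial.C (v.coeff 0)⁻¹, -(Polynomial.C (v.coeff 0)⁻¹ * v.divX), ?_⟩
  have h := Polynomial.divX_mul_X_add v
  have h2 : Polynomial.C (v.coeff 0)⁻¹ * Polynomial.C (v.coeff 0) = 1 := by
    rw [← Polynomial.C_mul, inv_mul_cancel₀ hv, Polynomial.C_1]
  calc Polynomial.C (v.coeff 0)⁻¹ * v + -(Polynomial.C (v.coeff 0)⁻¹ * v.divX) * Polynomial.X
      = Polynomial.C (v.coeff 0)⁻¹ * (v - v.divX * Polynomial.X) := by ring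
    _ = Polynomial.C (v.coeff 0)⁻¹ * Polynomial.C (v.coeff 0) := by
        congr 1
        nth_rewrite 1 [← h]
        ring
    _ = 1 := h2

/-- All multiples of `X ^ μ` are combinations of `v` and `X ^ N`, if `v` has order `μ`. -/
theorem hz1_mul (v : Polynomial ℂ) (μ N : ℕ) (h0 : ∀ d < μ, v.coeff d = 0) (h1 : v.coeff μ ≠ 0)
    (p : Polynomial ℂ) :
    ∃ q e : Polynomial ℂ, Polynomial.X ^ μ * p = v * q + Polynomial.X ^ N * e := by
  obtain ⟨v', hv'⟩ := Polynomial.X_pow_dvd_iff.mpr h0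
  have hv0 : v'.coeff 0 ≠ 0 := by
    intro h
    apply h1
    rw [hv']
    have := Polynomial.coeff_X_pow_mul v' μ 0
    rw [zero_add] at this
    rw [this, h]
  obtain ⟨a, b, hab⟩ := hz1_coprime v' hv0 N
  refine ⟨a * p, Polynomial.X ^ μ * p * b, ?_⟩
  calc Polynomial.X ^ μ * p = Polynomial.X ^ μ * p * (a * v' + b * Polynomial.X ^ N) := by
        rw [hab, mul_one]
    _ = _ := by
        rw [hv']
        ring

theorem hz1_order (hr : n ≤ r) (h : Fin (n + 1) → ℂ) (ξ : JV n r → ℂ) (hW : Wd hr ξ ≠ 0)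
    (hh : h ≠ 0) : ∃ μ ≤ n, (∀ d < μ, (linA (fun c => Polynomial.C (h c)) (arc ξ)).coeff d = 0) ∧
      (linA (fun c => Polynomial.C (h c)) (arc ξ)).coeff μ ≠ 0 := by
  classical
  have hex : ∃ l, l ≤ n ∧ (linA (fun c => Polynomial.C (h c)) (arc ξ)).coeff l ≠ 0 := by
    by_contra hcon
    push Not at hcon
    apply hh
    have hv : (fun b : Fin n => h b.succ) = 0 := by
      refine Matrix.eq_zero_of_vecMul_eq_zero (M := Matrix.of fun b l : Fin n =>
        ξ (b, ⟨(l : ℕ) + 1, by omega⟩)) hW ?_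
      funext l
      rw [← hz1_coeff_succ hr h ξ l, hcon _ (by omega)]
      rfl
    have h0 : h 0 = 0 := by
      have h1 := hcon 0 (Nat.zero_le _)
      rw [hz1_coeff_zero] at h1
      have h2 : ∑ b : Fin n, h b.succ * ξ (b, 0) = 0 :=
        Finset.sum_eq_zero fun b _ => by rw [congrFun hv b]; simp
      rw [h2, add_zero] at h1
      exact h1
    funext c
    refine Fin.cases h0 (fun b => congrFun hv b) c
  refine ⟨Nat.find hex, (Nat.find_spec hex).1, fun d hd => ?_, (Nat.find_spec hex).2⟩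
  have h1 := Nat.find_min hex hd
  have h2 : d ≤ n := (hd.le).trans (Nat.find_spec hex).1
  by_contra h3
  exact h1 ⟨h2, h3⟩

/-- CHUNK HZ1.  Let the jet `ξ` be nondegenerate (`Wd ≠ 0`) and `h ≠ 0` a linear polynomial,
`v (t) = h (x (t))`.  Then every power of `t` is the sum of a linear polynomial in `x (t)`, a multiple
of `v (t)` and a multiple of `t ^ (r + 1)`.

Proof.  (1) Let `v_l` be the coefficients of `v (t)`; some `v_l`, `l ≤ n`, is not `0`: otherwise
`∑ b, h_b ξ (b, l) = 0` for `l = 1, ..., n` (`coeff_vv`), so `h_b = 0` for all `b ≥ 1` because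
`Wd hr ξ ≠ 0` (`Matrix.eq_zero_of_vecMul_eq_zero`), and then `h_0 = v_0 = 0`.  Let `μ ≤ n` be the
smallest such index, `v = X ^ μ * v'` with `v'.coeff 0 ≠ 0`; `v'` is coprime to `X ^ (r + 1)`, so there
is `q'` with `v' * q' = 1 + X ^ (r + 1) * e'` and `X ^ μ * p = v * q' * p - X ^ (r + 1) * (...)` for
every polynomial `p`: all multiples of `X ^ μ` are of the required form (with `G = 0`).
(2) By Cramer's rule there is `G` with `linA (C ∘ G) (arc ξ) = X ^ j + X ^ (n + 1) * (...)` for every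
`j ≤ n`: choose `G_b`, `b ≥ 1`, with `∑ b, G_b ξ (b, l) = [l = j]` for `1 ≤ l ≤ n` and then `G_0` such
that the constant coefficient is `[j = 0]`.  As `μ ≤ n`, the remainder `X ^ (n + 1) * (...)` is a
multiple of `X ^ μ`, use (1).  For `j > n` use (1) directly. -/
theorem hz_point (hr : n ≤ r) (h : Fin (n + 1) → ℂ) (ξ : JV n r → ℂ) (hW : Wd hr ξ ≠ 0)
    (hh : h ≠ 0) (j : ℕ) :
    ∃ (G : Fin (n + 1) → ℂ) (q e : Polynomial ℂ),
      (Polynomial.X : Polynomial ℂ) ^ j = linA (fun c => Polynomial.C (G c)) (arc ξ) +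
        linA (fun c => Polynomial.C (h c)) (arc ξ) * q + Polynomial.X ^ (r + 1) * e := by
  classical
  obtain ⟨μ, hμ, h0, h1⟩ := hz1_order hr h ξ hW hh
  by_cases hj : j ≤ n
  · set M : Matrix (Fin n) (Fin n) ℂ := Matrix.of fun b l : Fin n =>
      ξ (b, ⟨(l : ℕ) + 1, by omega⟩) with hM
    have hdet : IsUnit M.det := isUnit_iff_ne_zero.mpr hW
    set t : Fin n → ℂ := fun l => if (l : ℕ) + 1 = j then 1 else 0 with ht
    set g : Fin n → ℂ := Matrix.vecMul t M⁻¹ with hg
    have hgM : Matrix.vecMul g M = t := by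
      rw [hg, Matrix.vecMul_vecMul, Matrix.nonsing_inv_mul M hdet, Matrix.vecMul_one]
    set G : Fin (n + 1) → ℂ := Fin.cons ((if j = 0 then 1 else 0) - ∑ b : Fin n, g b * ξ (b, 0)) g
      with hG
    have hD : ∀ d < n + 1, ((Polynomial.X : Polynomial ℂ) ^ j -
        linA (fun c => Polynomial.C (G c)) (arc ξ)).coeff d = 0 := by
      intro d hd
      rw [Polynomial.coeff_sub, Polynomial.coeff_X_pow]
      rcases Nat.eq_zero_or_pos d with hd0 | hd0
      · subst hd0
        rw [hz1_coeff_zero]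
        simp only [hG, Fin.cons_zero, Fin.cons_succ]
        by_cases hj0 : j = 0
        · subst hj0
          simp
        · rw [if_neg (fun hh0 => hj0 hh0.symm), if_neg hj0]
          ring
      · obtain ⟨l, rfl⟩ : ∃ l, d = l + 1 := ⟨d - 1, by omega⟩
        have h2 := hz1_coeff_succ hr G ξ ⟨l, by omega⟩
        have h3 : (fun b : Fin n => G b.succ) = g := by
          funext b
          simp [hG]
        rw [h3, ← hM, hgM] at h2
        rw [h2]
        simp [ht]
    obtain ⟨w, hw⟩ := Polynomial.X_pow_dvd_iff.mpr hD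
    obtain ⟨q, e, hqe⟩ := hz1_mul _ μ (r + 1) h0 h1 (Polynomial.X ^ (n + 1 - μ) * w)
    refine ⟨G, q, e, ?_⟩
    have h4 : (Polynomial.X : Polynomial ℂ) ^ μ * (Polynomial.X ^ (n + 1 - μ) * w) =
        Polynomial.X ^ (n + 1) * w := by
      rw [← mul_assoc, ← pow_add]
      congr 2
      omega
    rw [h4, ← hw] at hqe
    rw [add_assoc, ← hqe]
    ring
  · obtain ⟨q, e, hqe⟩ := hz1_mul _ μ (r + 1) h0 h1 (Polynomial.X ^ (j - μ))
    refine ⟨0, q, e, ?_⟩
    have h4 : (Polynomial.X : Polynomial ℂ) ^ μ * Polynomial.X ^ (j - μ) = Polynomial.X ^ j := by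
      rw [← pow_add]
      congr 1
      omega
    rw [h4] at hqe
    have h5 : linA (fun c => Polynomial.C ((0 : Fin (n + 1) → ℂ) c)) (arc ξ) = 0 := by
      simp [linA]
    rw [h5, zero_add]
    exact hqe

end Pool.Agent.H78G
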