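import Pool.Agent.Lib.H78G.HZ1
import Pool.Agent.Lib.H78G.W0

set_option autoImplicit false

/-!
CHUNK HZ2 (M/L).  The interpolation with polynomial coefficients: the poles are powers of
`Wd * h_c`.
-/

open MvPolynomial

namespace Pool.Agent.H78G

open Pool.Agent.H89T

variable {n r : ℕ}

/-- The ring of one linear polynomial `h` and the jets. -/
abbrev B1 (n r : ℕ) : Type := MvPolynomial (JV n r ⊕ Fin (n + 1)) ℂ

/-- The coefficients of the linear polynomial `h`. -/
noncomputable def hX (c : Fin (n + 1)) : B1 n r := X (Sum.inr c)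

/-- The jet variables. -/
noncomputable def xX (p : JV n r) : B1 n r := X (Sum.inl p)

/-- The polynomials in `t` of the form `g (x (t)) + v (t) q + t ^ (r + 1) e`, `v (t) = h (x (t))`. -/
def InL (n r : ℕ) (p : Polynomial (B1 n r)) : Prop :=
  ∃ (G : Fin (n + 1) → B1 n r) (q e : Polynomial (B1 n r)),
    p = linA (fun c => Polynomial.C (G c)) (arc xX) +
      linA (fun c => Polynomial.C (hX c)) (arc xX) * q + Polynomial.X ^ (r + 1) * e

theorem HZ2_lin_add {n : ℕ} {B : Type*} [CommRing B] (g g' : Fin (n + 1) → B) (x : Fin n → B) :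
    linA (fun c => g c + g' c) x = linA g x + linA g' x := by
  unfold linA
  rw [show (∑ b : Fin n, (g b.succ + g' b.succ) * x b) =
    ∑ b : Fin n, g b.succ * x b + ∑ b : Fin n, g' b.succ * x b by
      rw [← Finset.sum_add_distrib]
      exact Finset.sum_congr rfl fun b _ => by ring]
  ring

theorem HZ2_lin_mul {n : ℕ} {B : Type*} [CommRing B] (a : B) (g : Fin (n + 1) → B)
    (x : Fin n → B) : linA (fun c => a * g c) x = a * linA g x := by
  unfold linA
  rw [mul_add, Finset.mul_sum]
  congr 1
  exact Finset.sum_congr rfl fun b _ => by ring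

theorem HZ2_zero : InL n r 0 := by
  refine ⟨fun _ => 0, 0, 0, ?_⟩
  unfold linA
  simp

theorem HZ2_add {p q : Polynomial (B1 n r)} (hp : InL n r p) (hq : InL n r q) :
    InL n r (p + q) := by
  obtain ⟨G, u, e, h⟩ := hp
  obtain ⟨G', u', e', h'⟩ := hq
  refine ⟨fun c => G c + G' c, u + u', e + e', ?_⟩
  have h1 : linA (fun c => Polynomial.C (G c + G' c)) (arc (xX (n := n) (r := r))) =
      linA (fun c => Polynomial.C (G c)) (arc xX) + linA (fun c => Polynomial.C (G' c)) (arc xX) := by
    rw [← HZ2_lin_add]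
    congr 1
    funext c
    exact Polynomial.C_add
  rw [h1, h, h']
  ring

theorem HZ2_mul (a : B1 n r) {p : Polynomial (B1 n r)} (hp : InL n r p) :
    InL n r (Polynomial.C a * p) := by
  obtain ⟨G, u, e, h⟩ := hp
  refine ⟨fun c => a * G c, Polynomial.C a * u, Polynomial.C a * e, ?_⟩
  have h1 : linA (fun c => Polynomial.C (a * G c)) (arc (xX (n := n) (r := r))) =
      Polynomial.C a * linA (fun c => Polynomial.C (G c)) (arc xX) := by
    rw [← HZ2_lin_mul]
    congr 1
    funext c
    exact Polynomial.C_mul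
  rw [h1, h]
  ring

theorem HZ2_pow (e : Polynomial (B1 n r)) : InL n r (Polynomial.X ^ (r + 1) * e) := by
  refine ⟨fun _ => 0, 0, e, ?_⟩
  unfold linA
  simp

theorem HZ2_sum {ι : Type*} (s : Finset ι) (f : ι → Polynomial (B1 n r))
    (h : ∀ i ∈ s, InL n r (f i)) : InL n r (∑ i ∈ s, f i) := by
  classical
  induction s using Finset.induction_on with
  | empty =>
    rw [Finset.sum_empty]
    exact HZ2_zero
  | insert a s ha ih =>
    rw [Finset.sum_insert ha]
    exact HZ2_add (h a (Finset.mem_insert_self a s))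
      (ih fun i hi => h i (Finset.mem_insert_of_mem hi))

/-- the ideal of the good constants -/
def HZ2_I (n r : ℕ) : Ideal (B1 n r) where
  carrier := {a | ∀ j : Fin (r + 1), InL n r (Polynomial.C a * Polynomial.X ^ (j : ℕ))}
  add_mem' := fun {a b} ha hb j => by
    rw [Polynomial.C_add, add_mul]
    exact HZ2_add (ha j) (hb j)
  zero_mem' := fun j => by
    rw [Polynomial.C_0, zero_mul]
    exact HZ2_zero
  smul_mem' := fun c a ha j => by
    rw [smul_eq_mul, Polynomial.C_mul, mul_assoc]
    exact HZ2_mul c (ha j)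

/-- truncation of a polynomial -/
theorem HZ2_trunc {R : Type*} [CommRing R] (p : Polynomial R) (r : ℕ) :
    ∃ e : Polynomial R, p = ∑ l : Fin (r + 1), Polynomial.C (p.coeff (l : ℕ)) *
      Polynomial.X ^ (l : ℕ) + Polynomial.X ^ (r + 1) * e := by
  have h : (Polynomial.X : Polynomial R) ^ (r + 1) ∣ p - ∑ l : Fin (r + 1),
      Polynomial.C (p.coeff (l : ℕ)) * Polynomial.X ^ (l : ℕ) := by
    rw [Polynomial.X_pow_dvd_iff]
    intro d hd
    rw [Polynomial.coeff_sub, Polynomial.finsetSum_coeff]
    simp only [Polynomial.coeff_C_mul, Polynomial.coeff_X_pow]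
    rw [Finset.sum_eq_single (⟨d, hd⟩ : Fin (r + 1))]
    · simp
    · intro l _ hl
      have : d ≠ (l : ℕ) := fun h => hl (Fin.ext h.symm)
      simp [this]
    · intro h
      exact absurd (Finset.mem_univ _) h
  obtain ⟨e, he⟩ := h
  exact ⟨e, by rw [← he]; ring⟩

/-- the good constants do not vanish at a nondegenerate point -/
theorem HZ2_point (hr : n ≤ r) (ξ : JV n r → ℂ) (h : Fin (n + 1) → ℂ) (hW : Wd hr ξ ≠ 0)
    (hh : h ≠ 0) : ∃ a ∈ HZ2_I n r, eval (Sum.elim ξ h) a ≠ 0 := by
  classical
  choose G q e hGq using fun j : Fin (r + 1) => hz_point hr h ξ hW hh (j : ℕ)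
  set φ : B1 n r →+* ℂ := eval (Sum.elim ξ h) with hφ
  have hφC : ∀ c : ℂ, φ (C c) = c := fun c => by rw [hφ, eval_C]
  let E : Fin (r + 1) → Polynomial (B1 n r) := fun j =>
    linA (fun c => Polynomial.C (C (G j c))) (arc xX) +
      linA (fun c => Polynomial.C (hX c)) (arc xX) * (q j).map (C : ℂ →+* B1 n r)
  have hE : ∀ j, InL n r (E j) := by
    intro j
    refine ⟨fun c => C (G j c), (q j).map C, 0, ?_⟩
    rw [mul_zero, add_zero]
  have harc : ∀ b, Polynomial.map φ (arc (xX (n := n) (r := r)) b) = arc ξ b := by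
    intro b
    rw [arc_map]
    congr 1
    funext p
    simp [xX, hφ]
  have hEφ : ∀ j, (E j).map φ + Polynomial.X ^ (r + 1) * e j = Polynomial.X ^ (j : ℕ) := by
    intro j
    have h1 : (E j).map φ = linA (fun c => Polynomial.C (G j c)) (arc ξ) +
        linA (fun c => Polynomial.C (h c)) (arc ξ) * q j := by
      have h2 : ∀ g : Fin (n + 1) → B1 n r,
          (linA (fun c => Polynomial.C (g c)) (arc (xX (n := n) (r := r)))).map φ =
          linA (fun c => Polynomial.C (φ (g c))) (arc ξ) := by
        intro g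
        have h3 := linA_map (Polynomial.mapRingHom φ) (fun c => Polynomial.C (g c))
          (arc (xX (n := n) (r := r)))
        rw [Polynomial.coe_mapRingHom] at h3
        rw [h3]
        congr 1
        · funext c
          simp
        · funext b
          exact harc b
      show (linA (fun c => Polynomial.C (C (G j c))) (arc (xX (n := n) (r := r))) +
        linA (fun c => Polynomial.C (hX c)) (arc xX) * (q j).map (C : ℂ →+* B1 n r)).map φ = _
      rw [Polynomial.map_add, Polynomial.map_mul, h2, h2, Polynomial.map_map]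
      have h4 : φ.comp (C : ℂ →+* B1 n r) = RingHom.id ℂ := by
        ext1 c
        exact hφC c
      have h5 : (fun c => Polynomial.C (φ (C (G j c))) : Fin (n + 1) → Polynomial ℂ) =
          fun c => Polynomial.C (G j c) := by
        funext c
        rw [hφC]
      have h6 : (fun c => Polynomial.C (φ (hX c)) : Fin (n + 1) → Polynomial ℂ) =
          fun c => Polynomial.C (h c) := by
        funext c
        simp [hX, hφ]
      rw [h4, Polynomial.map_id, h5, h6]
    rw [h1]
    exact (hGq j).symm
  let T : Matrix (Fin (r + 1)) (Fin (r + 1)) (B1 n r) := Matrix.of fun j l => (E j).coeff (l : ℕ)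
  have hT : φ T.det = 1 := by
    rw [RingHom.map_det]
    have h1 : φ.mapMatrix T = 1 := by
      ext j l
      rw [RingHom.mapMatrix_apply, Matrix.map_apply]
      show φ ((E j).coeff (l : ℕ)) = _
      have h2 := congrArg (fun p => Polynomial.coeff p (l : ℕ)) (hEφ j)
      simp only [Polynomial.coeff_add, Polynomial.coeff_map, Polynomial.coeff_X_pow_mul',
        Polynomial.coeff_X_pow] at h2
      rw [if_neg (by have := l.2; omega), add_zero] at h2
      rw [h2, Matrix.one_apply]
      by_cases hjl : j = l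
      · subst hjl
        simp
      · rw [if_neg hjl, if_neg]
        intro h3
        exact hjl (Fin.ext h3.symm)
    rw [h1, Matrix.det_one]
  refine ⟨T.det, ?_, by rw [hT]; exact one_ne_zero⟩
  intro i
  choose F hF using fun j => HZ2_trunc (E j) r
  have hadj := Matrix.adjugate_mul T
  have key : Polynomial.C T.det * Polynomial.X ^ (i : ℕ) =
      ∑ j, Polynomial.C (T.adjugate i j) * (E j + Polynomial.X ^ (r + 1) * (-F j)) := by
    have h1 : ∀ j, E j + Polynomial.X ^ (r + 1) * (-F j) =
        ∑ l : Fin (r + 1), Polynomial.C (T j l) * Polynomial.X ^ (l : ℕ) := by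
      intro j
      have h2 := hF j
      have h3 : ∑ l : Fin (r + 1), Polynomial.C (T j l) * Polynomial.X ^ (l : ℕ) =
        ∑ l : Fin (r + 1), Polynomial.C ((E j).coeff (l : ℕ)) * Polynomial.X ^ (l : ℕ) := rfl
      rw [h3]
      nth_rewrite 1 [h2]
      ring
    simp only [h1, Finset.mul_sum]
    rw [Finset.sum_comm]
    have h4 : ∀ l : Fin (r + 1), ∑ j, Polynomial.C (T.adjugate i j) *
        (Polynomial.C (T j l) * Polynomial.X ^ (l : ℕ)) =
        Polynomial.C ((T.adjugate * T) i l) * Polynomial.X ^ (l : ℕ) := by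
      intro l
      rw [Matrix.mul_apply, map_sum, Finset.sum_mul]
      refine Finset.sum_congr rfl fun j _ => ?_
      rw [Polynomial.C_mul, mul_assoc]
    rw [Finset.sum_congr rfl fun l _ => h4 l, hadj]
    rw [Finset.sum_eq_single i]
    · simp
    · intro l _ hl
      rw [Matrix.smul_apply, Matrix.one_apply_ne hl.symm, smul_zero, Polynomial.C_0, zero_mul]
    · intro hi
      exact absurd (Finset.mem_univ i) hi
  rw [key]
  refine HZ2_sum _ _ fun j _ => HZ2_mul _ (HZ2_add (hE j) (HZ2_pow _))

/-- Nullstellensatz -/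
theorem HZ2_null {σ : Type*} [Finite σ] (J : Ideal (MvPolynomial σ ℂ)) (P : MvPolynomial σ ℂ)
    (hP : ∀ x : σ → ℂ, (∀ g ∈ J, eval x g = 0) → eval x P = 0) : ∃ N : ℕ, P ^ N ∈ J := by
  have h1 : P ∈ vanishingIdeal ℂ (zeroLocus ℂ J) := by
    rw [mem_vanishingIdeal_iff]
    intro u hu
    rw [aeval_eq_eval]
    refine hP u fun g hg => ?_
    have h2 := hu g hg
    rwa [aeval_eq_eval] at h2
  rw [vanishingIdeal_zeroLocus_eq_radical] at h1
  exact h1

/-- CHUNK HZ2.  There is `N` such that `(Wd * h_c) ^ N * t ^ j` is of the form `InL` for all `c`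
and `j ≤ r`.

Proof.  The `a ∈ B1` with `a * t ^ j` of the form `InL` for all `j ≤ r` form an ideal `𝔞`
(`InL` is closed under sums and under multiplication with constants `C a`).  By the Nullstellensatz
(`MvPolynomial.vanishingIdeal_zeroLocus_eq_radical`; compare `t3_null` in `H89T/T3.lean`) it is enough
to show that `Wd * h_c` vanishes at all common zeros of `𝔞`; then `(Wd * h_c) ^ N ∈ 𝔞` (take the
maximum over `c`).  Let `P = (ξ, h)` be a point with `Wd ξ ≠ 0`, `h_c ≠ 0`; construct `a ∈ 𝔞` with
`a (P) ≠ 0`: by `hz_point` there are constants `G_j`, `q_j`, `e_j` for `j ≤ r`; let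
`E_j = linA (C ∘ C ∘ G_j) (arc) + v (t) * q_j` with the same constants (now in `B1[t]`), which is of
the form `InL`, and `T j l = [t ^ l] E_j`, `j, l ≤ r`, a square matrix over `B1` with
`T (P) = 1`, because at `P` one has `E_j = t ^ j - t ^ (r + 1) e_j`.  So `a = det T` has the value `1`
at `P`, and `a * t ^ j = ∑ l, (adj T) j l * (E_l - t ^ (r + 1) * (...))`, i.e. `a ∈ 𝔞`. -/
theorem hz_exists (hr : n ≤ r) : ∃ N : ℕ, ∀ (c : Fin (n + 1)) (j : Fin (r + 1)),
    InL n r (Polynomial.C ((Wd hr xX * hX c : B1 n r) ^ N) * Polynomial.X ^ (j : ℕ)) := by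
  have h1 : ∀ c : Fin (n + 1), ∃ N : ℕ, (Wd hr xX * hX c : B1 n r) ^ N ∈ HZ2_I n r := by
    intro c
    apply HZ2_null
    intro x hx
    by_contra hne
    rw [map_mul] at hne
    have hW := left_ne_zero_of_mul hne
    have hc := right_ne_zero_of_mul hne
    rw [Wd_map] at hW
    have hW' : Wd hr (fun p => x (Sum.inl p)) ≠ 0 := by
      have h2 : (fun p : JV n r => eval x (xX p)) = fun p => x (Sum.inl p) := by
        funext p
        simp [xX]
      rw [h2] at hW
      exact hW
    have hh : (fun c => x (Sum.inr c) : Fin (n + 1) → ℂ) ≠ 0 := by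
      intro h0
      apply hc
      have := congrFun h0 c
      simpa [hX] using this
    obtain ⟨a, ha, ha'⟩ := HZ2_point hr (fun p => x (Sum.inl p)) (fun c => x (Sum.inr c)) hW' hh
    apply ha'
    have h3 : Sum.elim (fun p => x (Sum.inl p)) (fun c => x (Sum.inr c)) = x :=
      Sum.elim_comp_inl_inr x
    rw [h3]
    exact hx a ha
  choose N hN using h1
  refine ⟨∑ c, N c, fun c j => ?_⟩
  have h2 : N c ≤ ∑ c, N c := Finset.single_le_sum (fun _ _ => Nat.zero_le _) (Finset.mem_univ c)
  have h3 : (Wd hr xX * hX c : B1 n r) ^ (∑ c, N c) ∈ HZ2_I n r := by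
    rw [← Nat.sub_add_cancel h2, pow_add]
    exact Ideal.mul_mem_left _ _ (hN c)
  exact h3 j

/-- CHUNK HZ2.  The same with a bound for the weights of the coefficients `G` (there are only
finitely many `c`, `j`, `b`: `WtS.exists`, maximum). -/
theorem hz_wt (hr : n ≤ r) : ∃ N cH : ℕ, ∀ (c : Fin (n + 1)) (j : Fin (r + 1)),
    ∃ (G : Fin (n + 1) → B1 n r) (q e : Polynomial (B1 n r)), (∀ b, WtS cH (G b)) ∧
      Polynomial.C ((Wd hr xX * hX c : B1 n r) ^ N) * Polynomial.X ^ (j : ℕ) =
      linA (fun c => Polynomial.C (G c)) (arc xX) +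
        linA (fun c => Polynomial.C (hX c)) (arc xX) * q + Polynomial.X ^ (r + 1) * e := by
  obtain ⟨N, hN⟩ := hz_exists (n := n) (r := r) hr
  choose G q e h using hN
  choose w hw using fun (c : Fin (n + 1)) (j : Fin (r + 1)) (b : Fin (n + 1)) =>
    WtS.exists (G c j b)
  refine ⟨N, ∑ c, ∑ j, ∑ b, w c j b, fun c j => ⟨G c j, q c j, e c j, fun b => ?_, h c j⟩⟩
  refine (hw c j b).mono ?_
  refine le_trans ?_ (Finset.single_le_sum (fun _ _ => Nat.zero_le _) (Finset.mem_univ c))
  refine le_trans ?_ (Finset.single_le_sum (fun _ _ => Nat.zero_le _) (Finset.mem_univ j))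
  exact Finset.single_le_sum (f := fun b => w c j b) (fun _ _ => Nat.zero_le _)
    (Finset.mem_univ b)

end Pool.Agent.H78G
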