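import Pool.Agent.Lib.H78G.Defs

set_option autoImplicit false

/-!
CHUNK PC (M, elementary).  Products of linear polynomials.
-/

open MvPolynomial

namespace Pool.Agent.H78G

open Pool.Agent.H89T

variable {n K r : ℕ} {B B' : Type} [CommRing B] [CommRing B']

/-- CHUNK PC. -/
theorem linA_map (φ : B →+* B') (h : Fin (n + 1) → B) (x : Fin n → B) :
    φ (linA h x) = linA (fun j => φ (h j)) (fun b => φ (x b)) := by
  unfold linA
  rw [map_add, map_sum]
  congr 1
  exact Finset.sum_congr rfl fun b _ => map_mul φ _ _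

theorem PC_map_prodP (φ : B →+* B') (h : HV n K → B) :
    map φ (prodP h) = prodP (fun s => φ (h s)) := by
  unfold prodP
  rw [map_prod]
  refine Finset.prod_congr rfl fun i _ => ?_
  rw [map_add, map_C, map_sum]
  congr 1
  refine Finset.sum_congr rfl fun b _ => ?_
  rw [map_mul, map_C, map_X]

/-- CHUNK PC.  Naturality: `map φ (prodP h) = prodP (φ ∘ h)`, `coeff_map`. -/
theorem pc_map (φ : B →+* B') (h : HV n K → B) (α : Idx n K) :
    φ (pc h α) = pc (fun s => φ (h s)) α := by
  unfold pc
  rw [← PC_map_prodP, coeff_map]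

theorem PC_totalDegree (h : HV n K → B) : (prodP h).totalDegree ≤ K := by
  unfold prodP
  refine (totalDegree_finsetProd _ _).trans ?_
  refine (Finset.sum_le_card_nsmul _ _ 1 fun i _ => ?_).trans (by simp)
  refine (totalDegree_add _ _).trans (max_le ?_ ?_)
  · rw [totalDegree_C]; exact Nat.zero_le _
  · refine totalDegree_finsetSum_le fun b _ => ?_
    refine (totalDegree_mul _ _).trans ?_
    rw [totalDegree_C, zero_add]
    unfold MvPolynomial.X
    refine (totalDegree_monomial_le _ _).trans ?_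
    rw [Finsupp.sum_single_index rfl]
    exact le_rfl

/-- CHUNK PC.  The value of the product.  Proof: `prodP h` has total degree at most `K`, so it is the
sum of the monomials `monomial (fin α) (coeff (fin α) (prodP h))` over `α : Idx n K` (compare
`toG` and its lemmas in `H89T/C3.lean`), and `eval x (prodP h) = ∏ linA`. -/
theorem ev_pc (h : HV n K → B) (x : Fin n → B) :
    ev (pc h) x = ∏ i, linA (fun j => h (i, j)) x := by
  have h1 := ev_toG (prodP h) (PC_totalDegree h) x
  have h2 : toG K (prodP h) = pc h := rfl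
  rw [h2] at h1
  rw [h1]
  unfold prodP linA
  rw [map_prod]
  refine Finset.prod_congr rfl fun i _ => ?_
  rw [map_add, eval_C, map_sum]
  congr 1
  refine Finset.sum_congr rfl fun b _ => ?_
  rw [map_mul, eval_C, eval_X]

/-- CHUNK PC.  `ev_pc` in `B[t]`, with `C (pc h α) = pc (C ∘ h) α` (`pc_map`). -/
theorem Fx_pc (h : HV n K → B) (ξ : JV n r → B) : Fx (pc h) ξ = ∏ i, vv h ξ i := by
  unfold Fx vv
  have h1 : (fun α : Idx n K => Polynomial.C (pc h α)) =
      pc (fun s => (Polynomial.C (h s) : Polynomial B)) := by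
    funext α
    exact pc_map (Polynomial.C) h α
  rw [h1, ev_pc]

/-- CHUNK PC. -/
theorem vv_map (φ : B →+* B') (h : HV n K → B) (ξ : JV n r → B) (i : Fin K) :
    (vv h ξ i).map φ = vv (fun s => φ (h s)) (fun p => φ (ξ p)) i := by
  unfold vv
  have h1 := linA_map (Polynomial.mapRingHom φ) (fun j => Polynomial.C (h (i, j))) (arc ξ)
  simp only [Polynomial.coe_mapRingHom, Polynomial.map_C, arc_map] at h1
  exact h1

/-- CHUNK PC.  Coefficients of `v_i (t)`: `h_{i,0} [l = 0] + ∑ h_{i,b} ξ (b, l)`. -/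
theorem coeff_vv (h : HV n K → B) (ξ : JV n r → B) (i : Fin K) (l : Fin (r + 1)) :
    (vv h ξ i).coeff (l : ℕ) =
      (if l = 0 then h (i, 0) else 0) + ∑ b : Fin n, h (i, b.succ) * ξ (b, l) := by
  unfold vv linA
  rw [Polynomial.coeff_add, Polynomial.coeff_C, Polynomial.finsetSum_coeff]
  congr 1
  · have : (l : ℕ) = 0 ↔ l = 0 := by
      rw [Fin.ext_iff]; rfl
    simp only [this]
  · refine Finset.sum_congr rfl fun b _ => ?_
    rw [Polynomial.coeff_C_mul, coeff_arc, dif_pos l.2]

/-- CHUNK PC. -/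
theorem coeff_vv_zero (h : HV n K → B) (ξ : JV n r → B) (i : Fin K) :
    (vv h ξ i).coeff 0 = linA (fun j => h (i, j)) (fun b => ξ (b, 0)) := by
  have h1 := coeff_vv h ξ i 0
  rw [if_pos rfl] at h1
  exact h1

/-- CHUNK PC.  Naturality of the determinant (`RingHom.map_det`). -/
theorem Wd_map (hr : n ≤ r) (φ : B →+* B') (ξ : JV n r → B) :
    φ (Wd hr ξ) = Wd hr (fun p => φ (ξ p)) := by
  unfold Wd
  rw [RingHom.map_det]
  rfl

end Pool.Agent.H78G
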