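import Pool.Agent.Lib.H78G.F4C

set_option autoImplicit false

/-!
The second main theorem with every point counted once for many generic hyperplanes.
-/

open MvPolynomial Real MeasureTheory

namespace Pool.Agent.H78G.SecondMain

/-- `P` holds for all `k`-tuples of linear forms in `n + 1` variables outside a proper algebraic
subset: there is a nonzero polynomial `Θ` in the `k (n + 1)` coefficients such that `P` holds for the
`k`-tuples `h` of linear forms (`h i j` is the coefficient of `x_j` in the `i`-th form) at which `Θ`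
does not vanish. -/
def ForGenericArrangement (n k : ℕ) (P : (Fin k → Fin (n + 1) → ℂ) → Prop) : Prop :=
  ∃ Θ : MvPolynomial (Fin k × Fin (n + 1)) ℂ, Θ ≠ 0 ∧
    ∀ h : Fin k → Fin (n + 1) → ℂ, eval (fun p => h p.1 p.2) Θ ≠ 0 → P h

/-- The value at `y` of the linear form with coefficients `h`. -/
noncomputable def linearForm {n : ℕ} (h y : Fin n → ℂ) : ℂ := ∑ j, h j * y j

/-- `y` is a reduced representation of a nonconstant holomorphic map from `ℂ` to projective
space. -/
structure IsHolomorphicCurve {n : ℕ} (y : ℂ → Fin n → ℂ) : Prop where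
  holomorphic : ∀ j, Differentiable ℂ fun z => y z j
  ne_zero : ∀ z, y z ≠ 0
  nonconstant : ∃ z z', ∀ c : ℂ, y z' ≠ c • y z

/-- Cartan's characteristic function `T_y(r)`: the mean value of `log ‖y z‖` on `|z| = r` minus
`log ‖y 0‖`. -/
noncomputable def characteristic {n : ℕ} (y : ℂ → Fin n → ℂ) (r : ℝ) : ℝ :=
  circleAverage (fun z => log ‖y z‖) 0 r - log ‖y 0‖

/-- The counting function `N₁(r, g)` of the zeros of `g`, every zero being counted once.
(For `a = 0` the summand is `log (r / 0) = 0`.) -/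
noncomputable def truncatedCounting (g : ℂ → ℂ) (r : ℝ) : ℝ :=
  (∑ᶠ a ∈ {a : ℂ | ‖a‖ ≤ r ∧ g a = 0}, log (r / ‖a‖)) + if g 0 = 0 then log r else 0

/-- **Second main theorem with every point counted once**: for `n ≥ 1` and `0 < ε < 1` there is a
`k₀` such that for all `k ≥ k₀` and the generic `k`-tuple of hyperplanes `h i = 0` of `ℙⁿ`, all
nonconstant entire curves `y` in `ℙⁿ` contained in none of the hyperplanes (linearly and
algebraically degenerate ones included) satisfy `(1 - ε) k T_y(r) ≤ N₁(r, ∏ h_i(y)) + C log r` for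
all `r ≥ 2` outside a set of finite measure; a point is counted once also if `y` meets several of the
hyperplanes there, or is tangent to them. -/
theorem second_main (n : ℕ) (hn : 1 ≤ n) (ε : ℝ) (hε : 0 < ε) (hε1 : ε < 1) :
    ∃ k₀ : ℕ, ∀ k : ℕ, k₀ ≤ k → ForGenericArrangement n k fun h =>
      ∀ y : ℂ → Fin (n + 1) → ℂ, IsHolomorphicCurve y → (∀ i, ∃ z, linearForm (h i) (y z) ≠ 0) →
        ∃ (C : ℝ) (E : Set ℝ), volume E < ⊤ ∧ ∀ r : ℝ, 2 ≤ r → r ∉ E →
          (1 - ε) * k * characteristic y r ≤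
            truncatedCounting (fun z => ∏ i, linearForm (h i) (y z)) r + C * log r := by
  obtain ⟨k₁, hk₁⟩ := Pool.Agent.H78G.smt_generic n hn hε hε1.le
  refine ⟨k₁, fun k hk => ?_⟩
  obtain ⟨-, Θ₁, hΘ₁, h1⟩ := hk₁ k hk
  refine ⟨Θ₁, hΘ₁, fun h hh y hy hyh => ?_⟩
  obtain ⟨C, E, hE, h3⟩ := h1 h hh y ⟨hy.holomorphic, hy.ne_zero⟩ hy.nonconstant hyh
  refine ⟨C + |(1 - ε) * k * log ‖y 0‖| / log 2, E, hE, fun r hr hrE => ?_⟩
  have h4 := h3 r hr hrE
  have h5 : |(1 - ε) * k * log ‖y 0‖| ≤ |(1 - ε) * k * log ‖y 0‖| / log 2 * log r := by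
    have h9 : 0 < log 2 := Real.log_pos one_lt_two
    have h10 : log 2 ≤ log r := Real.log_le_log (by norm_num) hr
    rw [div_mul_eq_mul_div, le_div_iff₀ h9]
    exact mul_le_mul_of_nonneg_left h10 (by positivity)
  have h6 := neg_abs_le ((1 - ε) * k * log ‖y 0‖)
  have h7 : (1 - ε) * k * characteristic y r =
      (1 - ε) * k * Pool.Agent.H67T.chi y r - (1 - ε) * k * log ‖y 0‖ := by
    rw [characteristic, Pool.Agent.H67T.chi]
    ring
  have h8 : truncatedCounting (fun z => ∏ i, linearForm (h i) (y z)) r =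
      Pool.Agent.H67T.N1 (fun z => ∏ i, Pool.Agent.H67T.lin (h i) (y z)) r := rfl
  rw [h7, h8, add_mul]
  linarith

end Pool.Agent.H78G.SecondMain
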